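import Mathlib

/-!
# Vectors indexed by multisets, with values in `[0,∞]`, with the convolution product
-/

open scoped ENNReal

namespace Pool.Agent.Lib.MPba1bba.AS

/-- Functions on states. -/
abbrev Fn : Type := Multiset ℤ → ℝ≥0∞

/-- Vectors `x = ∑ x_s [s]`, `s` a finite multiset of integers, with coefficients in `[0,∞]`. -/
@[ext] structure Vec : Type where
  /-- the coefficients -/
  co : Fn

namespace Vec

noncomputable instance : Add Vec := ⟨fun x y => ⟨fun s => x.co s + y.co s⟩⟩
noncomputable instance : Zero Vec := ⟨⟨fun _ => 0⟩⟩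
noncomputable instance : SMul ℝ≥0∞ Vec := ⟨fun c x => ⟨fun s => c * x.co s⟩⟩
noncomputable instance : SMul ℕ Vec := ⟨fun n x => ⟨fun s => n * x.co s⟩⟩
instance : LE Vec := ⟨fun x y => ∀ s, x.co s ≤ y.co s⟩

open Classical in
/-- Convolution: `[s] * [t] = [s + t]`. -/
noncomputable instance : Mul Vec := ⟨fun x y => ⟨fun u =>
  ∑' s : Multiset ℤ, ∑' t : Multiset ℤ, if s + t = u then x.co s * y.co t else 0⟩⟩

open Classical in
noncomputable instance : One Vec := ⟨⟨fun s => if s = 0 then 1 else 0⟩⟩

@[simp] theorem add_co (x y : Vec) (s : Multiset ℤ) : (x + y).co s = x.co s + y.co s := rfl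
@[simp] theorem zero_co (s : Multiset ℤ) : (0 : Vec).co s = 0 := rfl
@[simp] theorem smul_co (c : ℝ≥0∞) (x : Vec) (s : Multiset ℤ) : (c • x).co s = c * x.co s := rfl
@[simp] theorem nsmul_co (n : ℕ) (x : Vec) (s : Multiset ℤ) : (n • x).co s = n * x.co s := rfl
theorem le_def {x y : Vec} : x ≤ y ↔ ∀ s, x.co s ≤ y.co s := Iff.rfl

open Classical in
theorem mul_co (x y : Vec) (u : Multiset ℤ) :
    (x * y).co u = ∑' s : Multiset ℤ, ∑' t : Multiset ℤ, if s + t = u then x.co s * y.co t else 0 :=
  rfl

open Classical in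
theorem one_co (s : Multiset ℤ) : (1 : Vec).co s = if s = 0 then 1 else 0 := rfl

instance : PartialOrder Vec where
  le_refl x s := le_rfl
  le_trans x y w h h' s := (h s).trans (h' s)
  le_antisymm x y h h' := Vec.ext (funext fun s => le_antisymm (h s) (h' s))

/-- The pairing `⟨x, f⟩ = ∑ x_s f(s)`. -/
noncomputable def pr (x : Vec) (f : Fn) : ℝ≥0∞ := ∑' s, x.co s * f s

open Classical in
theorem pr_mul (x y : Vec) (f : Fn) :
    pr (x * y) f = ∑' s : Multiset ℤ, ∑' t : Multiset ℤ, x.co s * y.co t * f (s + t) := by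
  unfold pr
  simp only [mul_co, ← ENNReal.tsum_mul_right]
  rw [ENNReal.tsum_comm]
  refine tsum_congr fun s => ?_
  rw [ENNReal.tsum_comm]
  refine tsum_congr fun t => ?_
  rw [tsum_eq_single (s + t)]
  · simp
  · intro u hu
    rw [if_neg (fun h => hu h.symm)]
    simp

open Classical in
theorem ext_pr {x y : Vec} (h : ∀ f, pr x f = pr y f) : x = y := by
  ext u
  have := h (fun s => if s = u then 1 else 0)
  unfold pr at this
  rw [tsum_eq_single u, tsum_eq_single u] at this
  · simpa using this
  · intro v hv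
    simp [hv]
  · intro v hv
    simp [hv]

theorem pr_add (x y : Vec) (f : Fn) : pr (x + y) f = pr x f + pr y f := by
  unfold pr
  simp only [add_co, add_mul]
  exact ENNReal.tsum_add

theorem pr_add' (x : Vec) (f g : Fn) : pr x (fun s => f s + g s) = pr x f + pr x g := by
  unfold pr
  simp only [mul_add]
  exact ENNReal.tsum_add

theorem pr_smul' (c : ℝ≥0∞) (x : Vec) (f : Fn) : pr x (fun s => c * f s) = c * pr x f := by
  unfold pr
  rw [← ENNReal.tsum_mul_left]
  exact tsum_congr fun s => by ring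

theorem pr_one (f : Fn) : pr 1 f = f 0 := by
  unfold pr
  rw [tsum_eq_single 0]
  · simp [one_co]
  · intro s hs
    simp [one_co, hs]

theorem pr_zero (f : Fn) : pr 0 f = 0 := by simp [pr]

theorem pr_mul' (x y : Vec) (f : Fn) :
    pr (x * y) f = pr x (fun s => pr y (fun t => f (s + t))) := by
  rw [pr_mul]
  unfold pr
  refine tsum_congr fun s => ?_
  rw [← ENNReal.tsum_mul_left]
  refine tsum_congr fun t => ?_
  ring

theorem mul_comm' (x y : Vec) : x * y = y * x := by
  apply ext_pr
  intro f
  rw [pr_mul, pr_mul, ENNReal.tsum_comm]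
  refine tsum_congr fun s => tsum_congr fun t => ?_
  rw [add_comm t s]
  ring

theorem mul_assoc' (x y w : Vec) : x * y * w = x * (y * w) := by
  apply ext_pr
  intro f
  rw [pr_mul', pr_mul', pr_mul']
  congr 1
  ext s
  rw [pr_mul']
  congr 1
  ext t
  congr 1
  ext u
  rw [add_assoc]

theorem one_mul' (x : Vec) : 1 * x = x := by
  apply ext_pr
  intro f
  rw [pr_mul', pr_one]
  simp

theorem left_distrib' (x y w : Vec) : x * (y + w) = x * y + x * w := by
  apply ext_pr
  intro f
  rw [pr_add, pr_mul', pr_mul', pr_mul', ← pr_add']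
  congr 1
  ext s
  rw [pr_add]

theorem zero_mul' (x : Vec) : 0 * x = 0 := by
  apply ext_pr
  intro f
  rw [pr_mul', pr_zero, pr_zero]

noncomputable instance : CommSemiring Vec where
  add := (· + ·)
  add_assoc x y w := by ext s; simp [add_assoc]
  zero := 0
  zero_add x := by ext s; simp
  add_zero x := by ext s; simp
  add_comm x y := by ext s; simp [add_comm]
  nsmul n x := n • x
  nsmul_zero x := by ext s; simp
  nsmul_succ n x := by ext s; simp [add_mul]
  mul := (· * ·)
  one := 1
  left_distrib := left_distrib'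
  right_distrib x y w := by rw [mul_comm', left_distrib', mul_comm' w x, mul_comm' w y]
  zero_mul := zero_mul'
  mul_zero x := by rw [mul_comm', zero_mul']
  mul_assoc := mul_assoc'
  one_mul := one_mul'
  mul_one x := by rw [mul_comm', one_mul']
  mul_comm := mul_comm'

theorem smul_pr (c : ℝ≥0∞) (x : Vec) (f : Fn) : pr (c • x) f = c * pr x f := by
  unfold pr
  rw [← ENNReal.tsum_mul_left]
  refine tsum_congr fun s => ?_
  rw [smul_co, mul_assoc]

theorem smul_mul (c : ℝ≥0∞) (x y : Vec) : c • x * y = c • (x * y) := by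
  apply ext_pr
  intro f
  rw [pr_mul', smul_pr, smul_pr, ← pr_mul']

noncomputable instance : Module ℝ≥0∞ Vec where
  one_smul x := by ext s; simp
  mul_smul c d x := by ext s; simp [mul_assoc]
  smul_zero c := by ext s; simp
  smul_add c x y := by ext s; simp [mul_add]
  add_smul c d x := by ext s; simp [add_mul]
  zero_smul x := by ext s; simp

noncomputable instance : Algebra ℝ≥0∞ Vec :=
  Algebra.ofModule smul_mul (fun c x y => by
    rw [mul_comm', smul_mul, mul_comm'])

theorem mul_mono {x x' y y' : Vec} (hx : x ≤ x') (hy : y ≤ y') : x * y ≤ x' * y' := by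
  intro u
  rw [mul_co, mul_co]
  refine ENNReal.tsum_le_tsum fun s => ENNReal.tsum_le_tsum fun t => ?_
  split_ifs
  · exact mul_le_mul' (hx s) (hy t)
  · exact le_rfl

theorem add_mono {x x' y y' : Vec} (hx : x ≤ x') (hy : y ≤ y') : x + y ≤ x' + y' :=
  fun s => add_le_add (hx s) (hy s)

theorem smul_mono {c d : ℝ≥0∞} {x y : Vec} (hc : c ≤ d) (hx : x ≤ y) : c • x ≤ d • y :=
  fun s => mul_le_mul' hc (hx s)

theorem pr_mono {x y : Vec} {f g : Fn} (hx : x ≤ y) (hf : ∀ s, f s ≤ g s) : pr x f ≤ pr y g :=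
  ENNReal.tsum_le_tsum fun s => mul_le_mul' (hx s) (hf s)

theorem pow_mono {x y : Vec} (hx : x ≤ y) (n : ℕ) : x ^ n ≤ y ^ n := by
  induction n with
  | zero => simp
  | succ n ih => rw [pow_succ, pow_succ]; exact mul_mono ih hx

theorem zero_le (x : Vec) : 0 ≤ x := fun _ => bot_le

/-- Geometric series `∑ xⁿ`. -/
noncomputable def geo (x : Vec) : Vec := ⟨fun s => ∑' n : ℕ, (x ^ n).co s⟩

theorem pr_geo (x : Vec) (f : Fn) : pr (geo x) f = ∑' n : ℕ, pr (x ^ n) f := by
  unfold pr geo
  simp only [← ENNReal.tsum_mul_right]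
  rw [ENNReal.tsum_comm]

theorem pr_mul_geo (x y : Vec) (f : Fn) : pr (y * geo x) f = ∑' n : ℕ, pr (y * x ^ n) f := by
  rw [mul_comm, pr_mul', pr_geo]
  refine tsum_congr fun n => ?_
  rw [mul_comm, pr_mul']

/-- `geo x = 1 + x * geo x`. -/
theorem geo_eq (x : Vec) : geo x = 1 + x * geo x := by
  apply ext_pr
  intro f
  rw [pr_add, pr_mul_geo, pr_geo, tsum_eq_zero_add' ENNReal.summable, pow_zero]
  congr 1
  refine tsum_congr fun n => ?_
  rw [pow_succ, mul_comm]

open Classical in
/-- Comparison of vectors by pairings. -/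
theorem le_of_pr {x y : Vec} (h : ∀ f, pr x f ≤ pr y f) : x ≤ y := by
  intro u
  have := h (fun s => if s = u then 1 else 0)
  unfold pr at this
  rw [tsum_eq_single u, tsum_eq_single u] at this
  · simpa using this
  · intro v hv
    simp [hv]
  · intro v hv
    simp [hv]

/-- Minimality: `c * geo x ≤ y` if `c + x * y ≤ y`. -/
theorem geo_le {c x y : Vec} (h : c + x * y ≤ y) : c * geo x ≤ y := by
  apply le_of_pr
  intro f
  rw [pr_mul_geo]
  apply ENNReal.tsum_le_of_sum_range_le
  intro n
  have key : ∀ n : ℕ, ∀ s, (∑ i ∈ Finset.range n, c * x ^ i).co s ≤ y.co s := by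
    intro n
    induction n with
    | zero => intro s; simp
    | succ n ih =>
      rw [Finset.sum_range_succ']
      have e : ∑ k ∈ Finset.range n, c * x ^ (k + 1) + c * x ^ 0
          = c + x * ∑ i ∈ Finset.range n, c * x ^ i := by
        rw [Finset.mul_sum, pow_zero, mul_one, add_comm]
        congr 1
        refine Finset.sum_congr rfl fun i _ => ?_
        ring
      rw [e]
      exact fun s => (add_mono le_rfl (mul_mono le_rfl ih)) s |>.trans (h s)
  have e2 : ∀ n : ℕ, ∑ i ∈ Finset.range n, pr (c * x ^ i) f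
      = pr (∑ i ∈ Finset.range n, c * x ^ i) f := by
    intro n
    induction n with
    | zero => simp [pr_zero]
    | succ n ih => rw [Finset.sum_range_succ, Finset.sum_range_succ, pr_add, ih]
  rw [e2]
  exact pr_mono (key n) (fun _ => le_rfl)

theorem geo_mono {x y : Vec} (h : x ≤ y) : geo x ≤ geo y :=
  fun s => ENNReal.tsum_le_tsum fun n => pow_mono h n s

end Vec

end Pool.Agent.Lib.MPba1bba.AS
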