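import Pool.Agent.Lib.MP_ba1bba_al.Defs
import Pool.Agent.Lib.MP_ba1bba_al.AS.Vec

/-!
# MP_ba1bba_al: asymptotics of the sphere sizes of B(p, p m): definitions

Section 1 is used in the statement of the main theorem, the rest only in its proof.
-/

open scoped ENNReal

namespace Pool.Agent.Lib.MPba1bba.AS

open Pool.Agent.Lib.MPba1bba Vec

/-! ## 1. The first return series and the main statement -/

/-- The coefficient of the empty multiset: a power series with integer coefficients. -/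
noncomputable def cf0 (F : Ser) : PowerSeries ℤ :=
  PowerSeries.mk fun n => (PowerSeries.coeff n F).coeff 0

/-- Power series with integer coefficients as elements of `Ser`. -/
noncomputable def emb (f : PowerSeries ℤ) : Ser := PowerSeries.map (Int.castRingHom SR) f

/-- `F` without its terms at the empty multiset. -/
noncomputable def rm0 (F : Ser) : Ser := F - emb (cf0 F)

/-- The equation of the first return series:
`V = z Λ((1 + Q (1 + E)) (1 + V - V_∅))`. -/
def VEq (p m : ℕ) (Q E V : Ser) : Prop :=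
  V = PowerSeries.X * lam p m ((1 + Q * (1 + E)) * (1 + rm0 V))

/-- The main theorem. Let `p, m ≥ 2`, let `Q, E, H` be the unique solution of the system `Sys p m`, `V`
the unique solution of `VEq`, and `B = V_∅ = ∑ b_n zⁿ`. Then all `b_n ≥ 0`, the equation `B(x) = 1` has
exactly one positive root `z₀`, `z₀ < 1`, the series `B` converges at some `r > z₀`, and
`σ(n) = (C n + C') z₀⁻ⁿ + O(r⁻ⁿ)` with `C > 0`. In particular the growth rate of `B(p, p m)` is `1/z₀`. -/
def MainAS : Prop :=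
  ∀ p m : ℕ, 2 ≤ p → 2 ≤ m →
    ∃ Q E H V : Ser, Sys p m Q E H ∧ VEq p m Q E V ∧
      (∀ Q' E' H' V' : Ser, Sys p m Q' E' H' → VEq p m Q' E' V' →
        Q' = Q ∧ E' = E ∧ H' = H ∧ V' = V) ∧
      (∀ n, 0 ≤ PowerSeries.coeff n (cf0 V)) ∧
      ∃ z₀ r C C' K : ℝ, 0 < z₀ ∧ z₀ < 1 ∧ z₀ < r ∧ 0 < C ∧
        HasSum (fun n => ((PowerSeries.coeff n (cf0 V) : ℤ) : ℝ) * z₀ ^ n) 1 ∧
        (∀ x : ℝ, 0 < x → HasSum (fun n => ((PowerSeries.coeff n (cf0 V) : ℤ) : ℝ) * x ^ n) 1 → x = z₀) ∧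
        Summable (fun n => ((PowerSeries.coeff n (cf0 V) : ℤ) : ℝ) * r ^ n) ∧
        (∀ n : ℕ, |(sphere p (p * m) n : ℝ) - (C * n + C') * (z₀⁻¹) ^ n| ≤ K * (r⁻¹) ^ n) ∧
        Filter.Tendsto
          (fun n : ℕ => (∑ k ∈ Finset.range (n + 1), (sphere p (p * m) k : ℝ)) ^ (1 / (n : ℝ)))
          Filter.atTop (nhds (1 / z₀))

/-! ## 2. Operators on vectors and functions -/

/-- All slopes of `s` are in `(-p, p)`. -/
def bs (p : ℕ) (s : Multiset ℤ) : Prop := ∀ x ∈ s, -(p : ℤ) < x ∧ x < p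

/-- The vector is supported on the states with slopes in `(-p,p)`. -/
def Bd (p : ℕ) (x : Vec) : Prop := ∀ s, x.co s ≠ 0 → bs p s

open Classical in
/-- The section operator on vectors, `z ∈ [0,∞]` being fixed. -/
noncomputable def Lv (p m : ℕ) (z : ℝ≥0∞) (x : Vec) : Vec :=
  ⟨fun t => ∑' s, ∑ r ∈ Finset.range m, if sml p m s r = t then x.co s * z ^ cmin p m s r else 0⟩

/-- The dual of the section operator: `⟨Lv x, f⟩ = ⟨x, Ld f⟩`. -/
noncomputable def Ld (p m : ℕ) (z : ℝ≥0∞) (f : Fn) : Fn := fun s =>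
  ∑ r ∈ Finset.range m, z ^ cmin p m s r * f (sml p m s r)

/-- The operator `x ↦ a L(R x)`. -/
noncomputable def opv (p m : ℕ) (z a : ℝ≥0∞) (R x : Vec) : Vec := a • Lv p m z (R * x)

/-- Its dual. -/
noncomputable def opd (p m : ℕ) (z a : ℝ≥0∞) (R : Vec) (f : Fn) : Fn := fun s =>
  a * pr R (fun c => Ld p m z f (s + c))

/-- `φ_n(s) = |kⁿ [s]|`, `k x = z L(R x)`. -/
noncomputable def phi (p m : ℕ) (z : ℝ≥0∞) (R : Vec) : ℕ → Fn
  | 0 => fun _ => 1
  | n + 1 => opd p m z z R (phi p m z R n)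

/-- `A(h, G) = ∑_{r mod M} z^{(h □ G)(r)}`, for an `M`-periodic function `G`. -/
noncomputable def AA (z : ℝ≥0∞) (M : ℕ) (h G : ℤ → ℕ) : ℝ≥0∞ :=
  ∑ r ∈ Finset.range M, z ^ ic h G (r : ℤ)

/-- `x` without its term at the empty multiset. -/
noncomputable def PP (x : Vec) : Vec := ⟨fun s => if s = 0 then 0 else x.co s⟩

/-- Truncated difference. -/
noncomputable def sb (x y : Vec) : Vec := ⟨fun s => x.co s - y.co s⟩

/-- The mass `|x|`. -/
noncomputable def ms (x : Vec) : ℝ≥0∞ := pr x (fun _ => 1)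
/-- `N(x) = ∑ x_s #s`. -/
noncomputable def nu (x : Vec) : ℝ≥0∞ := pr x (fun s => (Multiset.card s : ℝ≥0∞))
/-- The norm `‖x‖ = ∑ x_s (1 + #s)`. -/
noncomputable def nm (x : Vec) : ℝ≥0∞ := pr x (fun s => 1 + (Multiset.card s : ℝ≥0∞))

/-! ## 3. Evaluation of series with nonnegative coefficients -/

/-- Nonnegative coefficients. -/
def Nn (F : Ser) : Prop := ∀ n s, 0 ≤ (PowerSeries.coeff n F).coeff s

/-- Support on the states with slopes in `(-p,p)`. -/
def Bs (p : ℕ) (F : Ser) : Prop := ∀ n s, (PowerSeries.coeff n F).coeff s ≠ 0 → bs p s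

/-- The value at `z ∈ [0,∞]` of a series with nonnegative coefficients. -/
noncomputable def ev (z : ℝ≥0∞) (F : Ser) : Vec :=
  ⟨fun s => ∑' n : ℕ, z ^ n * (((PowerSeries.coeff n F).coeff s).toNat : ℝ≥0∞)⟩

/-- The value of the truncation (terms of degree `< N`). -/
noncomputable def evt (z : ℝ≥0∞) (N : ℕ) (F : Ser) : Vec :=
  ⟨fun s => ∑ n ∈ Finset.range N, z ^ n * (((PowerSeries.coeff n F).coeff s).toNat : ℝ≥0∞)⟩

/-- The value of a scalar power series with nonnegative coefficients. -/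
noncomputable def evs (z : ℝ≥0∞) (f : PowerSeries ℤ) : ℝ≥0∞ :=
  ∑' n : ℕ, z ^ n * ((PowerSeries.coeff n f).toNat : ℝ≥0∞)

/-- `P_s(z) = ∑_k z^{(b_s □ e)(k)}`. -/
noncomputable def Pz (p m : ℕ) (z : ℝ≥0∞) (s : Multiset ℤ) : ℝ≥0∞ :=
  ∑' k : ℤ, z ^ ic (bfun p s) (efun p m) k

/-- `R' = 1 + Q (1 + E)`. -/
noncomputable def serR (Q E : Ser) : Ser := 1 + Q * (1 + E)

/-- All series: `V` and `U` are the solutions of `V = z Λ(R' (1 + V - V_∅))`,
`U = 1 + E + z Λ(R' (U - U_∅))`. -/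
structure Dat (p m : ℕ) (Q E H V U : Ser) : Prop where
  hp : 2 ≤ p
  hm : 2 ≤ m
  sys : Sys p m Q E H
  veq : VEq p m Q E V
  ueq : U = 1 + E + PowerSeries.X * lam p m (serR Q E * rm0 U)

end Pool.Agent.Lib.MPba1bba.AS
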