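import Pool.Agent.Lib.MP_ba1bba_al.AS.Spec
import Pool.Agent.Lib.MP_ba1bba_al.SAM

/-!
# EVL: evaluation and the section operator
-/

open scoped ENNReal

namespace Pool.Agent.Lib.MPba1bba.AS

open Pool.Agent.Lib.MPba1bba Vec

namespace EVLM

open Classical in
/-- the number of classes `r` with given minimum and sample -/
noncomputable def Lc (p m : ℕ) (s : Multiset ℤ) (j : ℕ) (t : Multiset ℤ) : ℕ :=
  ((Finset.range m).filter (fun r => cmin p m s r = j ∧ sml p m s r = t)).card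

open Classical in
theorem coeff_lamB (p m : ℕ) (s : Multiset ℤ) (j : ℕ) (t : Multiset ℤ) :
    (PowerSeries.coeff j (lamB p m s)).coeff t = (Lc p m s j t : ℤ) := by
  unfold lamB Lc
  rw [map_sum, AddMonoidAlgebra.coeff_sum, Finsupp.finsetSum_apply, Finset.card_filter]
  push_cast
  refine Finset.sum_congr rfl fun r _ => ?_
  rw [PowerSeries.coeff_monomial]
  by_cases h1 : j = cmin p m s r
  · rw [if_pos h1, AddMonoidAlgebra.coeff_single, Finsupp.single_apply]
    by_cases h2 : sml p m s r = t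
    · rw [if_pos h2, if_pos ⟨h1.symm, h2⟩]
    · rw [if_neg h2, if_neg (fun h => h2 h.2)]
  · rw [if_neg h1, if_neg (fun h => h1 h.1.symm)]
    rfl

theorem coeff_lc (p m : ℕ) (j : ℕ) (x : SR) (t : Multiset ℤ) :
    (LINM.lc p m j x).coeff t = ∑ s ∈ x.coeff.support, x.coeff s * (Lc p m s j t : ℤ) := by
  unfold LINM.lc Finsupp.sum
  rw [AddMonoidAlgebra.coeff_sum, Finsupp.finsetSum_apply]
  refine Finset.sum_congr rfl fun s _ => ?_
  rw [AddMonoidAlgebra.coeff_smul_apply, coeff_lamB, smul_eq_mul]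

theorem coeff_lam' (p m : ℕ) (F : Ser) (n : ℕ) (t : Multiset ℤ) :
    (PowerSeries.coeff n (lam p m F)).coeff t =
      ∑ ij ∈ Finset.HasAntidiagonal.antidiagonal n,
        ∑ s ∈ (PowerSeries.coeff ij.1 F).coeff.support,
          (PowerSeries.coeff ij.1 F).coeff s * (Lc p m s ij.2 t : ℤ) := by
  rw [LINM.coeff_lam, AddMonoidAlgebra.coeff_sum, Finsupp.finsetSum_apply]
  exact Finset.sum_congr rfl fun ij _ => coeff_lc p m ij.2 _ t

/-- natural number coefficients -/
noncomputable def N (F : Ser) (i : ℕ) (s : Multiset ℤ) : ℕ :=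
  ((PowerSeries.coeff i F).coeff s).toNat

theorem N_cast {F : Ser} (hF : Nn F) (i : ℕ) (s : Multiset ℤ) :
    ((N F i s : ℕ) : ℤ) = (PowerSeries.coeff i F).coeff s := Int.toNat_of_nonneg (hF i s)

theorem coeff_lam_nat (p m : ℕ) {F : Ser} (hF : Nn F) (n : ℕ) (t : Multiset ℤ) :
    (PowerSeries.coeff n (lam p m F)).coeff t =
      ((∑ ij ∈ Finset.HasAntidiagonal.antidiagonal n,
        ∑ s ∈ (PowerSeries.coeff ij.1 F).coeff.support, N F ij.1 s * Lc p m s ij.2 t : ℕ) : ℤ) := by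
  rw [coeff_lam']
  push_cast
  refine Finset.sum_congr rfl fun ij _ => Finset.sum_congr rfl fun s _ => ?_
  rw [N_cast hF]

/-- the terms -/
noncomputable def g (p m : ℕ) (z : ℝ≥0∞) (F : Ser) (t : Multiset ℤ) (i j : ℕ) : ℝ≥0∞ :=
  ∑' s : Multiset ℤ, (z ^ i * (N F i s : ℝ≥0∞)) * (z ^ j * (Lc p m s j t : ℝ≥0∞))

theorem term_eq (p m : ℕ) (z : ℝ≥0∞) {F : Ser} (hF : Nn F) (n : ℕ) (t : Multiset ℤ) :
    z ^ n * (((PowerSeries.coeff n (lam p m F)).coeff t).toNat : ℝ≥0∞) =
      ∑ ij ∈ Finset.HasAntidiagonal.antidiagonal n, g p m z F t ij.1 ij.2 := by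
  rw [coeff_lam_nat p m hF, Int.toNat_natCast]
  push_cast
  rw [Finset.mul_sum]
  refine Finset.sum_congr rfl fun ij hij => ?_
  have hij' := Finset.HasAntidiagonal.mem_antidiagonal.1 hij
  unfold g
  rw [tsum_eq_sum (s := (PowerSeries.coeff ij.1 F).coeff.support), Finset.mul_sum]
  · refine Finset.sum_congr rfl fun s _ => ?_
    rw [← hij', pow_add]
    ring
  · intro s hs
    rw [Finsupp.notMem_support_iff] at hs
    unfold N
    rw [hs]
    simp

/-- sums over antidiagonals -/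
theorem tsum_anti (f : ℕ → ℕ → ℝ≥0∞) :
    ∑' n : ℕ, ∑ ij ∈ Finset.HasAntidiagonal.antidiagonal n, f ij.1 ij.2 =
      ∑' i : ℕ, ∑' j : ℕ, f i j := by
  have h1 : ∑' i : ℕ, ∑' j : ℕ, f i j = ∑' q : ℕ × ℕ, f q.1 q.2 :=
    (ENNReal.tsum_prod (f := f)).symm
  rw [h1, ← Finset.HasAntidiagonal.sigmaAntidiagonalEquivProd.tsum_eq, ENNReal.tsum_sigma']
  refine tsum_congr fun n => ?_
  rw [← Finset.tsum_subtype' (Finset.HasAntidiagonal.antidiagonal n) (fun q : ℕ × ℕ => f q.1 q.2)]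
  rfl

open Classical in
theorem sum_Lc (p m : ℕ) (z : ℝ≥0∞) (s t : Multiset ℤ) :
    ∑' j : ℕ, z ^ j * (Lc p m s j t : ℝ≥0∞) =
      ∑ r ∈ Finset.range m, if sml p m s r = t then z ^ cmin p m s r else 0 := by
  unfold Lc
  simp only [Finset.card_filter]
  push_cast
  simp only [Finset.mul_sum]
  rw [Summable.tsum_finsetSum (fun _ _ => ENNReal.summable)]
  refine Finset.sum_congr rfl fun r _ => ?_
  by_cases h : sml p m s r = t
  · rw [if_pos h, tsum_eq_single (cmin p m s r)]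
    · rw [if_pos ⟨rfl, h⟩, mul_one]
    · intro j hj
      rw [if_neg (fun h' => hj h'.1.symm), mul_zero]
  · rw [if_neg h]
    simp [h]

theorem Lv_co (p m : ℕ) (z : ℝ≥0∞) (x : Vec) (t : Multiset ℤ) :
    (Lv p m z x).co t = ∑' s : Multiset ℤ, x.co s * ∑' j : ℕ, z ^ j * (Lc p m s j t : ℝ≥0∞) := by
  classical
  change (∑' s, ∑ r ∈ Finset.range m,
    if sml p m s r = t then x.co s * z ^ cmin p m s r else 0) = _
  refine tsum_congr fun s => ?_
  rw [sum_Lc, Finset.mul_sum]
  refine Finset.sum_congr rfl fun r _ => ?_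
  split_ifs <;> simp

theorem sum_g (p m : ℕ) (z : ℝ≥0∞) (F : Ser) (t : Multiset ℤ) (i : ℕ) :
    ∑' j : ℕ, g p m z F t i j = ∑' s : Multiset ℤ, (z ^ i * (N F i s : ℝ≥0∞)) *
      ∑' j : ℕ, z ^ j * (Lc p m s j t : ℝ≥0∞) := by
  unfold g
  rw [ENNReal.tsum_comm]
  refine tsum_congr fun s => ?_
  rw [ENNReal.tsum_mul_left]

theorem ev_lam (p m : ℕ) (z : ℝ≥0∞) {F : Ser} (hF : Nn F) :
    ev z (lam p m F) = Lv p m z (ev z F) := by
  ext t
  rw [Lv_co]
  change (∑' n : ℕ, z ^ n * (((PowerSeries.coeff n (lam p m F)).coeff t).toNat : ℝ≥0∞)) =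
    ∑' s : Multiset ℤ, (∑' n : ℕ, z ^ n * (N F n s : ℝ≥0∞)) *
      ∑' j : ℕ, z ^ j * (Lc p m s j t : ℝ≥0∞)
  simp only [term_eq p m z hF]
  rw [tsum_anti (g p m z F t)]
  simp only [sum_g]
  rw [ENNReal.tsum_comm]
  refine tsum_congr fun s => ?_
  rw [ENNReal.tsum_mul_right]

theorem evt_lam (p m : ℕ) (z : ℝ≥0∞) {F : Ser} (hF : Nn F) (M : ℕ) :
    evt z M (lam p m F) ≤ Lv p m z (evt z M F) := by
  intro t
  rw [Lv_co]
  change (∑ n ∈ Finset.range M,
      z ^ n * (((PowerSeries.coeff n (lam p m F)).coeff t).toNat : ℝ≥0∞)) ≤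
    ∑' s : Multiset ℤ, (∑ n ∈ Finset.range M, z ^ n * (N F n s : ℝ≥0∞)) *
      ∑' j : ℕ, z ^ j * (Lc p m s j t : ℝ≥0∞)
  simp only [term_eq p m z hF]
  calc ∑ n ∈ Finset.range M,
        ∑ ij ∈ Finset.HasAntidiagonal.antidiagonal n, g p m z F t ij.1 ij.2
      = ∑ n ∈ Finset.range M, ∑ ij ∈ Finset.HasAntidiagonal.antidiagonal n,
          (fun i j => if i < M then g p m z F t i j else 0) ij.1 ij.2 := by
        refine Finset.sum_congr rfl fun n hn => Finset.sum_congr rfl fun ij hij => ?_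
        have hij' := Finset.HasAntidiagonal.mem_antidiagonal.1 hij
        rw [Finset.mem_range] at hn
        simp only
        rw [if_pos (by omega)]
    _ ≤ ∑' n : ℕ, ∑ ij ∈ Finset.HasAntidiagonal.antidiagonal n,
          (fun i j => if i < M then g p m z F t i j else 0) ij.1 ij.2 :=
        ENNReal.sum_le_tsum _
    _ = ∑' i : ℕ, ∑' j : ℕ, (if i < M then g p m z F t i j else 0) :=
        tsum_anti (fun i j => if i < M then g p m z F t i j else 0)
    _ = ∑ i ∈ Finset.range M, ∑' j : ℕ, g p m z F t i j := by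
        rw [tsum_eq_sum (s := Finset.range M)]
        · refine Finset.sum_congr rfl fun i hi => ?_
          rw [Finset.mem_range] at hi
          simp only [if_pos hi]
        · intro i hi
          rw [Finset.mem_range] at hi
          simp only [if_neg hi, tsum_zero]
    _ = _ := by
        simp only [sum_g]
        rw [← Summable.tsum_finsetSum (fun _ _ => ENNReal.summable)]
        refine tsum_congr fun s => ?_
        rw [Finset.sum_mul]

theorem pr_Lv (p m : ℕ) (z : ℝ≥0∞) (x : Vec) (f : Fn) :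
    pr (Lv p m z x) f = pr x (Ld p m z f) := by
  classical
  unfold pr
  change (∑' t, (∑' s, ∑ r ∈ Finset.range m,
    if sml p m s r = t then x.co s * z ^ cmin p m s r else 0) * f t) = _
  simp only [← ENNReal.tsum_mul_right]
  rw [ENNReal.tsum_comm]
  refine tsum_congr fun s => ?_
  simp only [Finset.sum_mul]
  rw [Summable.tsum_finsetSum (fun _ _ => ENNReal.summable)]
  unfold Ld
  rw [Finset.mul_sum]
  refine Finset.sum_congr rfl fun r _ => ?_
  rw [tsum_eq_single (sml p m s r)]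
  · rw [if_pos rfl]; ring
  · intro t ht
    rw [if_neg (fun h => ht h.symm), zero_mul]

theorem bs_sml (p m : ℕ) (s : Multiset ℤ) (r : ℕ) : bs p (sml p m s r) := by
  intro x hx
  unfold sml at hx
  rw [Multiset.mem_sum] at hx
  obtain ⟨y, hy, hxy⟩ := hx
  have h1 := Multiset.mem_of_mem_nsmul hxy
  rw [Multiset.mem_singleton] at h1
  rw [h1]
  exact Finset.mem_Ioo.1 hy

theorem bs_add {p : ℕ} {s t : Multiset ℤ} (hs : bs p s) (ht : bs p t) : bs p (s + t) := by
  intro x hx
  rcases Multiset.mem_add.1 hx with h | h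
  · exact hs x h
  · exact ht x h

theorem Bd_Lv (p m : ℕ) (z : ℝ≥0∞) (x : Vec) : Bd p (Lv p m z x) := by
  classical
  intro t ht
  by_contra hb
  apply ht
  change (∑' s, ∑ r ∈ Finset.range m,
    if sml p m s r = t then x.co s * z ^ cmin p m s r else 0) = 0
  rw [ENNReal.tsum_eq_zero]
  intro s
  apply Finset.sum_eq_zero
  intro r _
  rw [if_neg]
  intro h
  exact hb (h ▸ bs_sml p m s r)

theorem Bd_mul {p : ℕ} {x y : Vec} (hx : Bd p x) (hy : Bd p y) : Bd p (x * y) := by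
  classical
  intro u hu
  by_contra hb
  apply hu
  rw [mul_co, ENNReal.tsum_eq_zero]
  intro s
  rw [ENNReal.tsum_eq_zero]
  intro t
  split_ifs with h
  · by_contra h0
    rw [mul_eq_zero, not_or] at h0
    exact hb (h ▸ bs_add (hx s h0.1) (hy t h0.2))
  · rfl

theorem Bd_add {p : ℕ} {x y : Vec} (hx : Bd p x) (hy : Bd p y) : Bd p (x + y) := by
  intro u hu
  rw [add_co] at hu
  by_contra hb
  apply hu
  have h1 : x.co u = 0 := by
    by_contra h; exact hb (hx u h)
  have h2 : y.co u = 0 := by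
    by_contra h; exact hb (hy u h)
  rw [h1, h2, add_zero]

theorem Bd_ev {p : ℕ} (z : ℝ≥0∞) {F : Ser} (hF : Bs p F) :
    Bd p (ev z F) ∧ ∀ M, Bd p (evt z M F) := by
  have key : ∀ s, ¬ bs p s → ∀ n, z ^ n * (((PowerSeries.coeff n F).coeff s).toNat : ℝ≥0∞) = 0 := by
    intro s hs n
    have : (PowerSeries.coeff n F).coeff s = 0 := by
      by_contra h; exact hs (hF n s h)
    rw [this]; simp
  constructor
  · intro s hs
    by_contra hb
    apply hs
    change (∑' n : ℕ, z ^ n * (((PowerSeries.coeff n F).coeff s).toNat : ℝ≥0∞)) = 0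
    rw [ENNReal.tsum_eq_zero]
    exact key s hb
  · intro M s hs
    by_contra hb
    apply hs
    change (∑ n ∈ Finset.range M, z ^ n * (((PowerSeries.coeff n F).coeff s).toNat : ℝ≥0∞)) = 0
    exact Finset.sum_eq_zero fun n _ => key s hb n

end EVLM

open EVLM in
theorem specEVL : SpecEVL := by
  intro p m
  refine ⟨fun F G => LINM.lam_add p m F G, ?_, ?_, fun z F hF => ⟨ev_lam p m z hF, fun M =>
    evt_lam p m z hF M⟩, pr_Lv p m, ?_, ?_, ?_, Bd_Lv p m, fun x y hx hy => ⟨Bd_mul hx hy,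
    Bd_add hx hy⟩, fun z F hF => Bd_ev z hF⟩
  · intro F hF n t
    rw [coeff_lam_nat p m hF]
    exact Int.natCast_nonneg _
  · intro F n t ht
    by_contra hb
    apply ht
    rw [coeff_lam']
    apply Finset.sum_eq_zero
    intro ij _
    apply Finset.sum_eq_zero
    intro s _
    have : Lc p m s ij.2 t = 0 := by
      classical
      unfold Lc
      rw [Finset.card_eq_zero, Finset.filter_eq_empty_iff]
      intro r _ h
      exact hb (h.2 ▸ bs_sml p m s r)
    rw [this]; simp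
  · intro z x y
    apply ext_pr
    intro f
    rw [pr_Lv, pr_add, pr_add, pr_Lv, pr_Lv]
  · intro z c x
    apply ext_pr
    intro f
    rw [pr_Lv, smul_pr, smul_pr, pr_Lv]
  · intro z x y h
    apply le_of_pr
    intro f
    rw [pr_Lv, pr_Lv]
    exact pr_mono h fun _ => le_rfl

end Pool.Agent.Lib.MPba1bba.AS
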