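import Pool.Agent.Lib.MP_ba1bba_al.AS.Spec

section
/-!
# MP_ba1bba_al, AS: the module ANA (analytic lemma: a double pole)
-/
open scoped NNReal Topology
open Filter

namespace Pool.Agent.Lib.MPba1bba.AS

namespace ANAM

/-! ## Power series converging absolutely at a radius -/

section gen

variable {K : Type*} [NormedField K]

/-- Absolute convergence at the radius `r`. -/
def Ab (r : ℝ) (f : PowerSeries K) : Prop :=
  Summable fun n => ‖PowerSeries.coeff n f‖ * r ^ n

/-- The value at `w`. -/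
noncomputable def vl (f : PowerSeries K) (w : K) : K := ∑' n, PowerSeries.coeff n f * w ^ n

theorem Ab.mono {r r' : ℝ} {f : PowerSeries K} (h : Ab r f) (h0 : 0 ≤ r') (hr : r' ≤ r) :
    Ab r' f :=
  Summable.of_nonneg_of_le (fun n => by positivity)
    (fun n => mul_le_mul_of_nonneg_left (pow_le_pow_left₀ h0 hr n) (norm_nonneg _)) h

theorem Ab.sum {r : ℝ} {f : PowerSeries K} (h : Ab r f) {w : K} (hw : ‖w‖ ≤ r) :
    Summable fun n => ‖PowerSeries.coeff n f * w ^ n‖ := by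
  refine Summable.of_nonneg_of_le (fun n => norm_nonneg _) (fun n => ?_) h
  rw [norm_mul, norm_pow]
  exact mul_le_mul_of_nonneg_left (pow_le_pow_left₀ (norm_nonneg _) hw n) (norm_nonneg _)

theorem coeff_mul_pow (f g : PowerSeries K) (w : K) (n : ℕ) :
    PowerSeries.coeff n (f * g) * w ^ n = ∑ kl ∈ Finset.HasAntidiagonal.antidiagonal n,
      (PowerSeries.coeff kl.1 f * w ^ kl.1) * (PowerSeries.coeff kl.2 g * w ^ kl.2) := by
  rw [PowerSeries.coeff_mul, Finset.sum_mul]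
  refine Finset.sum_congr rfl fun kl hkl => ?_
  rw [Finset.HasAntidiagonal.mem_antidiagonal] at hkl
  rw [← hkl, pow_add]
  ring

theorem vl_mul [CompleteSpace K] {r : ℝ} {f g : PowerSeries K} (hf : Ab r f) (hg : Ab r g) {w : K}
    (hw : ‖w‖ ≤ r) : vl (f * g) w = vl f w * vl g w := by
  unfold vl
  rw [tsum_mul_tsum_eq_tsum_sum_antidiagonal_of_summable_norm (hf.sum hw) (hg.sum hw)]
  exact tsum_congr fun n => coeff_mul_pow f g w n

theorem Ab.mul {r : ℝ} (h0 : 0 ≤ r) {f g : PowerSeries K} (hf : Ab r f) (hg : Ab r g) :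
    Ab r (f * g) := by
  have h1 : Summable fun n => ‖‖PowerSeries.coeff n f‖ * r ^ n‖ := hf.norm
  have h2 : Summable fun n => ‖‖PowerSeries.coeff n g‖ * r ^ n‖ := hg.norm
  have h := summable_norm_sum_mul_antidiagonal_of_summable_norm h1 h2
  refine Summable.of_nonneg_of_le (fun n => by positivity) (fun n => ?_) h
  rw [PowerSeries.coeff_mul]
  calc ‖∑ kl ∈ Finset.HasAntidiagonal.antidiagonal n, PowerSeries.coeff kl.1 f * PowerSeries.coeff kl.2 g‖ * r ^ n
      ≤ (∑ kl ∈ Finset.HasAntidiagonal.antidiagonal n, ‖PowerSeries.coeff kl.1 f * PowerSeries.coeff kl.2 g‖)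
          * r ^ n := mul_le_mul_of_nonneg_right (norm_sum_le _ _) (by positivity)
    _ = ∑ kl ∈ Finset.HasAntidiagonal.antidiagonal n, (‖PowerSeries.coeff kl.1 f‖ * r ^ kl.1) *
          (‖PowerSeries.coeff kl.2 g‖ * r ^ kl.2) := by
        rw [Finset.sum_mul]
        refine Finset.sum_congr rfl fun kl hkl => ?_
        rw [Finset.HasAntidiagonal.mem_antidiagonal] at hkl
        rw [← hkl, pow_add, norm_mul]
        ring
    _ ≤ _ := le_abs_self _

theorem Ab.one_sub_X {r : ℝ} : Ab r (1 - PowerSeries.X : PowerSeries K) := by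
  apply summable_of_ne_finset_zero (s := {0, 1})
  intro n hn
  have h0 : n ≠ 0 := by rintro rfl; simp at hn
  have h1 : n ≠ 1 := by rintro rfl; simp at hn
  simp [PowerSeries.coeff_one, PowerSeries.coeff_X, h0, h1]

end gen

/-! ## Uniqueness of power series -/

theorem uniq {f g : PowerSeries ℂ} {r : ℝ} (hr : 0 < r) (hf : Ab r f) (hg : Ab r g)
    (h : ∀ w : ℂ, ‖w‖ < r → vl f w = vl g w) : f = g := by
  have key : ∀ {k : PowerSeries ℂ}, Ab r k → HasFPowerSeriesAt (vl k)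
      (FormalMultilinearSeries.ofScalars ℂ (fun n => PowerSeries.coeff n k)) 0 := by
    intro k hk
    rw [hasFPowerSeriesAt_iff]
    rw [Metric.eventually_nhds_iff]
    refine ⟨r, hr, fun {w} hw => ?_⟩
    rw [dist_zero_right] at hw
    rw [zero_add]
    have h1 := (hk.sum hw.le).of_norm.hasSum
    simp only [FormalMultilinearSeries.coeff_ofScalars, smul_eq_mul]
    refine h1.congr_fun ?_
    intro n
    ring
  have h2 : (vl f) =ᶠ[𝓝 0] (vl g) := by
    rw [Filter.EventuallyEq, Metric.eventually_nhds_iff]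
    refine ⟨r, hr, fun {w} hw => h w (by rwa [dist_zero_right] at hw)⟩
  have h3 := (key hf).eq_formalMultilinearSeries_of_eventually (key hg) h2
  ext n
  have h4 := congrArg (fun p => FormalMultilinearSeries.coeff p n) h3
  simpa [FormalMultilinearSeries.coeff_ofScalars] using h4

/-- Differentiability of the value. -/
theorem vl_diff {f : PowerSeries ℂ} {r : ℝ} (hf : Ab r f) :
    DifferentiableOn ℂ (vl f) (Metric.ball 0 r) := by
  have := Complex.differentiableOn_tsum_of_summable_norm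
    (F := fun (n : ℕ) (w : ℂ) => PowerSeries.coeff n f * w ^ n) (U := Metric.ball 0 r) hf
    (fun i => by fun_prop) Metric.isOpen_ball (fun i w hw => by
      rw [Metric.mem_ball, dist_zero_right] at hw
      rw [norm_mul, norm_pow]
      exact mul_le_mul_of_nonneg_left (pow_le_pow_left₀ (norm_nonneg _) hw.le i) (norm_nonneg _))
  exact this

/-- The coefficients of a quotient. -/
theorem quot {T P m : PowerSeries ℂ} {ρ : ℝ} (hρ : 1 < ρ) (hT : Ab ρ T) (hP : Ab ρ P)
    (h0 : ∀ w : ℂ, ‖w‖ ≤ 1 → vl T w ≠ 0) (hm : T ^ 2 * m = P) :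
    ∃ R K : ℝ, 1 < R ∧ R < ρ ∧ ∀ n, ‖PowerSeries.coeff n m‖ * R ^ n ≤ K := by
  -- a larger disc
  obtain ⟨ρ', h1, h2⟩ := exists_between hρ
  have hcont : ContinuousOn (vl T) (Metric.closedBall 0 ρ') :=
    (vl_diff hT).continuousOn.mono (Metric.closedBall_subset_ball h2)
  obtain ⟨R₁, hR1, hR1', hR2⟩ : ∃ R₁ : ℝ, 1 < R₁ ∧ R₁ ≤ ρ' ∧ ∀ w : ℂ, ‖w‖ ≤ R₁ → vl T w ≠ 0 := by
    have hcl : IsCompact (Metric.closedBall (0 : ℂ) ρ' ∩ vl T ⁻¹' {0}) := by
      refine (isCompact_closedBall (0 : ℂ) ρ').of_isClosed_subset ?_ Set.inter_subset_left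
      exact hcont.preimage_isClosed_of_isClosed Metric.isClosed_closedBall isClosed_singleton
    rcases (Metric.closedBall (0 : ℂ) ρ' ∩ vl T ⁻¹' {0}).eq_empty_or_nonempty with he | hne
    · refine ⟨ρ', h1, le_rfl, fun w hw h => ?_⟩
      have : w ∈ Metric.closedBall (0 : ℂ) ρ' ∩ vl T ⁻¹' {0} := ⟨by simpa using hw, h⟩
      rw [he] at this
      exact this
    · obtain ⟨w₀, hw₀, hmin⟩ := hcl.exists_isMinOn hne (continuous_norm.continuousOn)
      have h3 : 1 < ‖w₀‖ := by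
        by_contra hc
        exact h0 w₀ (not_lt.mp hc) hw₀.2
      refine ⟨(1 + ‖w₀‖) / 2, by linarith, ?_, fun w hw h => ?_⟩
      · have : ‖w₀‖ ≤ ρ' := by simpa using hw₀.1
        linarith
      · have h5 : ‖w₀‖ ≤ ρ' := by simpa using hw₀.1
        have : w ∈ Metric.closedBall (0 : ℂ) ρ' ∩ vl T ⁻¹' {0} := ⟨by
          simp only [Metric.mem_closedBall, dist_zero_right]
          linarith, h⟩
        have h4 : ‖w₀‖ ≤ ‖w‖ := hmin this
        linarith
  -- the quotient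
  obtain ⟨Rn, hRn⟩ : ∃ Rn : ℝ≥0, (Rn : ℝ) = R₁ := ⟨⟨R₁, by linarith⟩, rfl⟩
  set g : ℂ → ℂ := fun w => vl P w / (vl T w) ^ 2 with hg
  have hRρ : R₁ < ρ := lt_of_le_of_lt hR1' h2
  have hgd : DifferentiableOn ℂ g (Metric.closedBall 0 (Rn : ℝ)) := by
    rw [hRn]
    have hs : Metric.closedBall (0 : ℂ) R₁ ⊆ Metric.ball 0 ρ :=
      Metric.closedBall_subset_ball hRρ
    refine ((vl_diff hP).mono hs).div (((vl_diff hT).mono hs).pow 2) fun w hw => ?_
    have : ‖w‖ ≤ R₁ := by simpa using hw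
    exact pow_ne_zero 2 (hR2 w this)
  have hfp := hgd.hasFPowerSeriesOnBall (by
    rw [← NNReal.coe_lt_coe, hRn]
    show (0 : ℝ) < R₁
    linarith)
  set p := cauchyPowerSeries g 0 (Rn : ℝ) with hp
  obtain ⟨R, hR3, hR4⟩ := exists_between hR1
  obtain ⟨K, hK, hKb⟩ := p.norm_mul_pow_le_of_lt_radius (r := ⟨R, by linarith⟩)
    (lt_of_lt_of_le (by
      rw [ENNReal.coe_lt_coe, ← NNReal.coe_lt_coe, hRn]
      exact hR4) hfp.r_le)
  -- the formal power series of `g`
  set c : PowerSeries ℂ := PowerSeries.mk fun n => p.coeff n with hc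
  have hcb : ∀ n, ‖PowerSeries.coeff n c‖ * R ^ n ≤ K := by
    intro n
    have := hKb n
    rw [FormalMultilinearSeries.norm_apply_eq_norm_coef] at this
    rw [hc, PowerSeries.coeff_mk]
    exact this
  have hcA : Ab 1 c := by
    have hg1 : Summable fun n : ℕ => K * (R⁻¹) ^ n :=
      (summable_geometric_of_lt_one (by positivity) (inv_lt_one_of_one_lt₀ hR3)).mul_left K
    refine Summable.of_nonneg_of_le (fun n => by positivity) (fun n => ?_) hg1
    rw [one_pow, mul_one, inv_pow, ← div_eq_mul_inv, le_div_iff₀ (by positivity)]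
    exact hcb n
  have hval : ∀ w : ℂ, ‖w‖ < 1 → vl c w = g w := by
    intro w hw
    have h5 : w ∈ Metric.eball (0 : ℂ) (Rn : ENNReal) := by
      rw [Metric.mem_eball, edist_zero_right, ← ofReal_norm]
      rw [ENNReal.ofReal_lt_iff_lt_toReal (norm_nonneg _) ENNReal.coe_ne_top]
      rw [ENNReal.coe_toReal, hRn]
      linarith
    have h6 := hfp.hasSum h5
    rw [zero_add] at h6
    rw [← h6.tsum_eq]
    unfold vl
    refine tsum_congr fun n => ?_
    rw [FormalMultilinearSeries.apply_eq_pow_smul_coeff, hc, PowerSeries.coeff_mk, smul_eq_mul]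
    ring
  have hT1 : Ab 1 T := hT.mono (by norm_num) hρ.le
  have hP1 : Ab 1 P := hP.mono (by norm_num) hρ.le
  have hT2 : Ab 1 (T ^ 2) := by rw [pow_two]; exact hT1.mul (by norm_num) hT1
  have heq : T ^ 2 * c = P := by
    refine uniq one_pos (hT2.mul (by norm_num) hcA) hP1 fun w hw => ?_
    rw [vl_mul hT2 hcA hw.le, pow_two, vl_mul hT1 hT1 hw.le, hval w hw, hg]
    have := h0 w hw.le
    field_simp
  have hT0 : T ^ 2 ≠ 0 := by
    intro h
    have h7 : T = 0 := by simpa using h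
    apply h0 0 (by simp)
    rw [h7]
    simp [vl]
  have hmc : m = c := mul_left_cancel₀ hT0 (by rw [hm, heq])
  exact ⟨R, K, hR3, by linarith, fun n => by rw [hmc]; exact hcb n⟩

theorem tail {x : ℕ → ℝ} {K q : ℝ} (hq0 : 0 ≤ q) (hq : q < 1) (hx : ∀ n, |x n| ≤ K * q ^ n) :
    Summable x ∧ ∀ n, |∑ k ∈ Finset.range (n + 1), x k - ∑' k, x k| ≤ (K / (1 - q)) * q ^ n := by
  have hK : 0 ≤ K := by
    have := (abs_nonneg (x 0)).trans (hx 0)
    simpa using this
  have hgeo : Summable fun n : ℕ => K * q ^ n := (summable_geometric_of_lt_one hq0 hq).mul_left K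
  have hs : Summable x := Summable.of_norm_bounded hgeo hx
  refine ⟨hs, fun n => ?_⟩
  have h1 := hs.sum_add_tsum_nat_add (n + 1)
  rw [← h1, sub_add_cancel_left, abs_neg]
  have h2 : HasSum (fun k : ℕ => K * q ^ (k + (n + 1))) (K / (1 - q) * q ^ (n + 1)) := by
    have := (hasSum_geometric_of_lt_one hq0 hq).mul_left (K * q ^ (n + 1))
    have e1 : K / (1 - q) * q ^ (n + 1) = K * q ^ (n + 1) * (1 - q)⁻¹ := by
      rw [div_eq_mul_inv]
      ring
    rw [e1]
    refine this.congr_fun fun k => ?_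
    rw [pow_add]
    ring
  have h3 : ‖∑' k : ℕ, x (k + (n + 1))‖ ≤ K / (1 - q) * q ^ (n + 1) :=
    tsum_of_norm_bounded h2 (fun k => hx (k + (n + 1)))
  refine (Real.norm_eq_abs _ ▸ h3).trans ?_
  have h4 : 0 < 1 - q := by linarith
  have h5 : q ^ (n + 1) ≤ q ^ n := pow_le_pow_of_le_one hq0 hq.le (Nat.le_succ n)
  exact mul_le_mul_of_nonneg_left h5 (by positivity)

/-- Coefficients of a series multiplied by `1 - X`. -/
theorem coeff_one_sub (f : PowerSeries ℝ) (n : ℕ) :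
    PowerSeries.coeff n f = ∑ k ∈ Finset.range (n + 1),
      PowerSeries.coeff k ((1 - PowerSeries.X) * f) := by
  induction n with
  | zero => simp [sub_mul]
  | succ n ih =>
    rw [Finset.sum_range_succ, ← ih, sub_mul, one_mul, map_sub, PowerSeries.coeff_succ_X_mul]
    ring

/-- The case `z₀ = 1`. -/
theorem core (A S N : PowerSeries ℝ) (ρ : ℝ) (hρ : 1 < ρ) (ha : ∀ n, 0 ≤ PowerSeries.coeff n A)
    (ha0 : PowerSeries.coeff 0 A = 0) (ha1 : 0 < PowerSeries.coeff 1 A)
    (hA : HasSum (fun n => PowerSeries.coeff n A) 1)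
    (hAb : Summable fun n => PowerSeries.coeff n A * ρ ^ n)
    (hN : Ab ρ N) (hN0 : 0 < ∑' n, PowerSeries.coeff n N) (h : (1 - A) ^ 2 * S = N) :
    ∃ C C' R K : ℝ, 0 < C ∧ 1 < R ∧ R < ρ ∧
      ∀ n : ℕ, |PowerSeries.coeff n S - (C * n + C')| ≤ K * (R⁻¹) ^ n := by
  set a : ℕ → ℝ := fun n => PowerSeries.coeff n A with hadef
  set t : ℕ → ℝ := fun n => 1 - ∑ k ∈ Finset.range (n + 1), a k with ht
  set T : PowerSeries ℝ := PowerSeries.mk t with hT
  have has : Summable a := hA.summable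
  have ht1 : ∀ n, t n = ∑' k, a (k + (n + 1)) := by
    intro n
    have := has.sum_add_tsum_nat_add (n + 1)
    rw [hA.tsum_eq] at this
    rw [ht]
    linarith
  have ht0 : ∀ n, 0 ≤ t n := by
    intro n
    rw [ht1]
    exact tsum_nonneg fun k => ha _
  have htz : t 0 = 1 := by simp [ht, hadef, ha0]
  -- the bound for `t`
  set D : ℝ := ∑' n, a n * ρ ^ n with hD
  have htb : ∀ n, t n * ρ ^ n ≤ D := by
    intro n
    rw [ht1, ← tsum_mul_right]
    have hs1 : Summable fun k => a (k + (n + 1)) * ρ ^ (k + (n + 1)) :=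
      (summable_nat_add_iff (n + 1)).2 hAb
    have hle : ∀ k, a (k + (n + 1)) * ρ ^ n ≤ a (k + (n + 1)) * ρ ^ (k + (n + 1)) := fun k =>
      mul_le_mul_of_nonneg_left (pow_le_pow_right₀ hρ.le (by omega)) (ha _)
    have hs2 : Summable fun k => a (k + (n + 1)) * ρ ^ n :=
      Summable.of_nonneg_of_le (fun k => mul_nonneg (ha _) (by positivity)) hle hs1
    refine (hs2.tsum_le_tsum hle hs1).trans ?_
    have h2 := hAb.sum_add_tsum_nat_add (n + 1)
    have h3 : 0 ≤ ∑ k ∈ Finset.range (n + 1), a k * ρ ^ k :=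
      Finset.sum_nonneg fun k _ => mul_nonneg (ha _) (by positivity)
    have h4 : ∑' k, a k * ρ ^ k = D := rfl
    have h5 : ∑ k ∈ Finset.range (n + 1), a k * ρ ^ k + ∑' k, a (k + (n + 1)) * ρ ^ (k + (n + 1))
      = D := h2
    linarith
  obtain ⟨r, hr1, hr2⟩ := exists_between hρ
  have hTr : Ab r T := by
    have hq : r / ρ < 1 := by rw [div_lt_one (by linarith)]; exact hr2
    have hq0 : 0 ≤ r / ρ := by positivity
    have hg : Summable fun n : ℕ => D * (r / ρ) ^ n :=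
      (summable_geometric_of_lt_one hq0 hq).mul_left D
    refine Summable.of_nonneg_of_le (fun n => by positivity) (fun n => ?_) hg
    rw [hT, PowerSeries.coeff_mk, Real.norm_eq_abs, abs_of_nonneg (ht0 n), div_pow,
      mul_div_assoc', le_div_iff₀ (by positivity), mul_right_comm]
    exact mul_le_mul_of_nonneg_right (htb n) (by positivity)
  have hfac : (1 - PowerSeries.X) * T = 1 - A := by
    ext n
    rcases n with _ | n
    · simp [sub_mul, hT, htz, ha0, PowerSeries.coeff_zero_eq_constantCoeff]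
      have := ha0
      rw [PowerSeries.coeff_zero_eq_constantCoeff] at this
      rw [this]
      simp
    · rw [sub_mul, one_mul, map_sub, PowerSeries.coeff_succ_X_mul, map_sub, hT,
        PowerSeries.coeff_mk, PowerSeries.coeff_mk, PowerSeries.coeff_one, if_neg (by omega)]
      simp only [ht]
      rw [Finset.sum_range_succ _ (n + 1)]
      ring
  set m : PowerSeries ℝ := (1 - PowerSeries.X) ^ 2 * S with hm
  have hTm : T ^ 2 * m = N := by
    rw [hm, ← h, ← hfac]
    ring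
  -- complex versions
  let φ := PowerSeries.map (algebraMap ℝ ℂ)
  have hcoeff : ∀ (f : PowerSeries ℝ) n, PowerSeries.coeff n (φ f) = ((PowerSeries.coeff n f : ℝ) : ℂ) :=
    fun f n => rfl
  have hAbc : ∀ {f : PowerSeries ℝ} {s : ℝ}, Ab s f → Ab s (φ f) := by
    intro f s hf
    unfold Ab
    simp only [hcoeff, Complex.norm_real]
    exact hf
  have hnz : ∀ w : ℂ, ‖w‖ ≤ 1 → vl (φ T) w ≠ 0 := by
    intro w hw h0
    by_cases hw1 : w = 1
    · subst hw1
      have h1 : vl (φ T) 1 = ((∑' n, t n : ℝ) : ℂ) := by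
        unfold vl
        rw [Complex.ofReal_tsum]
        refine tsum_congr fun n => ?_
        rw [hcoeff, hT, PowerSeries.coeff_mk, one_pow, mul_one]
      rw [h1] at h0
      have h2 : ∑' n, t n = 0 := by exact_mod_cast h0
      have h3 : Summable t := by
        have h4 := (hTr.mono (by norm_num) hr1.le : Ab 1 T)
        unfold Ab at h4
        simp only [one_pow, mul_one, hT, PowerSeries.coeff_mk] at h4
        exact h4.of_norm
      have h5 : t 0 ≤ ∑' n, t n := h3.le_tsum 0 fun n _ => ht0 n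
      rw [htz] at h5
      linarith
    · have hw' : ‖w‖ ≤ 1 := hw
      have hX : Ab 1 (1 - PowerSeries.X : PowerSeries ℂ) := Ab.one_sub_X
      have h1 : vl ((1 - PowerSeries.X) * φ T) w = 0 := by
        rw [vl_mul hX (hAbc (hTr.mono (by norm_num) hr1.le)) hw', h0, mul_zero]
      have h2 : (1 - PowerSeries.X) * φ T = 1 - φ A := by
        have := congrArg φ hfac
        rw [map_mul, map_sub, map_one, map_sub, map_one] at this
        rw [← this]
        congr 2
        simp [φ]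
      rw [h2] at h1
      have h3 : Summable fun n => (a n : ℂ) * w ^ n := by
        have : Ab 1 (φ A) := hAbc (by
          unfold Ab
          simp only [one_pow, mul_one]
          exact has.norm)
        exact (this.sum hw').of_norm
      have h4 : vl (1 - φ A) w = 1 - ∑' n, (a n : ℂ) * w ^ n := by
        have h5 : HasSum (fun n => PowerSeries.coeff n (1 : PowerSeries ℂ) * w ^ n) 1 := by
          have := hasSum_ite_eq (0 : ℕ) (1 : ℂ)
          refine this.congr_fun fun n => ?_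
          rw [PowerSeries.coeff_one]
          by_cases hn : n = 0
          · simp [hn]
          · simp [hn]
        have h6 := h5.sub h3.hasSum
        rw [← h6.tsum_eq]
        unfold vl
        refine tsum_congr fun n => ?_
        rw [map_sub, hcoeff]
        ring
      rw [h4, sub_eq_zero] at h1
      have h7 : HasSum (fun n => (a n : ℂ) * w ^ n) 1 := by
        rw [h1]
        exact h3.hasSum
      have h8 : HasSum (fun n => a n * (w ^ n).re) 1 := by
        have := Complex.hasSum_re h7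
        simpa using this
      have h9 := hA.sub h8
      rw [sub_self] at h9
      have h10 : ∀ n, 0 ≤ a n - a n * (w ^ n).re := by
        intro n
        have h11 : (w ^ n).re ≤ 1 := (Complex.re_le_norm _).trans (by
          rw [norm_pow]
          exact pow_le_one₀ (norm_nonneg _) hw)
        nlinarith [ha n]
      have h12 := (hasSum_zero_iff_of_nonneg h10).1 h9
      have h13 := congrFun h12 1
      simp only [pow_one, Pi.zero_apply] at h13
      have h14 : w.re = 1 := by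
        have : a 1 * (1 - w.re) = 0 := by linarith
        rcases mul_eq_zero.1 this with h15 | h15
        · exact absurd h15 ha1.ne'
        · linarith
      apply hw1
      have h16 : ‖w‖ ^ 2 ≤ 1 := by
        have := norm_nonneg w
        nlinarith
      rw [← Complex.normSq_eq_norm_sq, Complex.normSq_apply, h14] at h16
      have h17 : w.im = 0 := by nlinarith
      exact Complex.ext h14 h17
  have hTmc : (φ T) ^ 2 * φ m = φ N := by
    rw [← map_pow, ← map_mul, hTm]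
  obtain ⟨R, K, hR1, hR2, hmb⟩ := quot hr1 (hAbc hTr) (hAbc (hN.mono (by linarith) hr2.le)) hnz hTmc
  have hmb' : ∀ n, |PowerSeries.coeff n m| ≤ K * (R⁻¹) ^ n := by
    intro n
    have := hmb n
    rw [hcoeff, Complex.norm_real, Real.norm_eq_abs] at this
    rw [inv_pow, ← div_eq_mul_inv, le_div_iff₀ (by positivity)]
    exact this
  have hq0 : 0 ≤ R⁻¹ := by positivity
  have hq1 : R⁻¹ < 1 := inv_lt_one_of_one_lt₀ hR1
  obtain ⟨hs1, hb1⟩ := tail hq0 hq1 hmb'
  set M : ℝ := ∑' n, PowerSeries.coeff n m with hM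
  have hMpos : 0 < M := by
    have e1 : Ab 1 T := hTr.mono (by norm_num) hr1.le
    have e2 : Ab 1 (T ^ 2) := by rw [pow_two]; exact e1.mul (by norm_num) e1
    have e3 : Ab 1 m := by
      unfold Ab
      simp only [one_pow, mul_one]
      exact hs1.norm
    have e4 := vl_mul e2 e3 (w := 1) (by simp)
    rw [hTm, pow_two, vl_mul e1 e1 (by simp)] at e4
    have e5 : vl m 1 = M := by simp [vl, hM]
    have e6 : 0 < vl N 1 := by
      unfold vl
      simpa using hN0
    rw [e5] at e4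
    by_contra hc
    push Not at hc
    have e7 : vl T 1 * vl T 1 * M ≤ 0 := mul_nonpos_of_nonneg_of_nonpos (mul_self_nonneg _) hc
    linarith
  -- first summation
  set D1 : PowerSeries ℝ := (1 - PowerSeries.X) * S with hD1
  have hD1m : (1 - PowerSeries.X) * D1 = m := by rw [hD1, hm]; ring
  have hx : ∀ n, |PowerSeries.coeff n D1 - M| ≤ (K / (1 - R⁻¹)) * (R⁻¹) ^ n := by
    intro n
    rw [coeff_one_sub D1 n, hD1m]
    exact hb1 n
  obtain ⟨hs2, hb2⟩ := tail hq0 hq1 hx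
  refine ⟨M, M + ∑' n, (PowerSeries.coeff n D1 - M), R, K / (1 - R⁻¹) / (1 - R⁻¹), hMpos, hR1,
    by linarith, fun n => ?_⟩
  have := hb2 n
  rw [Finset.sum_sub_distrib, Finset.sum_const, Finset.card_range, nsmul_eq_mul,
    ← coeff_one_sub S n] at this
  convert this using 2
  push_cast
  ring

end ANAM

open ANAM in
theorem specANA : SpecANA := by
  intro b S N z₀ z₁ hz₀ hz₁ hb hb0 hb1 hsum hbs hNs hN0 h
  have hρ : 1 < z₁ / z₀ := by rw [lt_div_iff₀ hz₀]; linarith
  have e : ∀ n, z₀ ^ n * (z₁ / z₀) ^ n = z₁ ^ n := by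
    intro n
    rw [← mul_pow, mul_div_cancel₀ _ hz₀.ne']
  obtain ⟨C, C', R, K, hC, hR, hRρ, hK⟩ := core (PowerSeries.rescale z₀ (PowerSeries.mk b))
    (PowerSeries.rescale z₀ (PowerSeries.mk S)) (PowerSeries.rescale z₀ (PowerSeries.mk N))
    (z₁ / z₀) hρ
    (fun n => by
      rw [PowerSeries.coeff_rescale, PowerSeries.coeff_mk]
      exact mul_nonneg (by positivity) (hb n))
    (by rw [PowerSeries.coeff_rescale, PowerSeries.coeff_mk, hb0, mul_zero])
    (by
      rw [PowerSeries.coeff_rescale, PowerSeries.coeff_mk]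
      exact mul_pos (by positivity) hb1)
    (by
      refine hsum.congr_fun fun n => ?_
      rw [PowerSeries.coeff_rescale, PowerSeries.coeff_mk, mul_comm])
    (by
      refine hbs.congr fun n => ?_
      rw [PowerSeries.coeff_rescale, PowerSeries.coeff_mk, mul_right_comm, e, mul_comm])
    (by
      unfold ANAM.Ab
      refine hNs.congr fun n => ?_
      rw [PowerSeries.coeff_rescale, PowerSeries.coeff_mk, norm_mul, Real.norm_eq_abs,
        Real.norm_eq_abs, abs_of_pos (show 0 < z₀ ^ n by positivity), mul_right_comm, e, mul_comm])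
    (by
      convert hN0 using 2
      funext n
      rw [PowerSeries.coeff_rescale, PowerSeries.coeff_mk, mul_comm])
    (by
      rw [← h, map_mul, map_pow, map_sub, map_one])
  refine ⟨C, C', z₀ * R, K, hC, by nlinarith, ?_, fun n => ?_⟩
  · rw [lt_div_iff₀ hz₀] at hRρ
    linarith
  · have h1 := hK n
    rw [PowerSeries.coeff_rescale, PowerSeries.coeff_mk] at h1
    have h2 : S n - (C * n + C') * (z₀⁻¹) ^ n = (z₀ ^ n * S n - (C * n + C')) * (z₀⁻¹) ^ n := by
      rw [sub_mul, mul_right_comm, ← mul_pow, mul_inv_cancel₀ hz₀.ne', one_pow, one_mul]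
    rw [h2, abs_mul, abs_of_pos (show 0 < (z₀⁻¹) ^ n by positivity), mul_inv, mul_pow,
      mul_comm ((z₀⁻¹) ^ n), ← mul_assoc]
    exact mul_le_mul_of_nonneg_right h1 (by positivity)

end Pool.Agent.Lib.MPba1bba.AS
end

section
/-!
# BAS: basic bounds below the radius of convergence
-/
open scoped ENNReal

namespace Pool.Agent.Lib.MPba1bba.AS

open Pool.Agent.Lib.MPba1bba Vec

namespace BASM

lemma ms_mul (x y : Vec) : ms (x * y) = ms x * ms y := by
  unfold ms
  rw [pr_mul']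
  have h2 : (fun _ : Multiset ℤ => pr y (fun _ => (1 : ℝ≥0∞))) =
      fun _ => pr y (fun _ => 1) * 1 := by funext s; simp
  show pr x (fun _ => pr y (fun _ => (1 : ℝ≥0∞))) = _
  rw [h2, pr_smul', mul_comm]

lemma ms_one : ms 1 = 1 := by unfold ms; rw [pr_one]

lemma ms_add (x y : Vec) : ms (x + y) = ms x + ms y := by unfold ms; rw [pr_add]

/-- growth of a sequence with finite sum -/
lemma le_one_of {a : ℕ → ℝ≥0∞} {q : ℝ≥0∞} (h0 : 1 ≤ a 0) (h : ∀ n, q * a n ≤ a (n + 1))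
    (hs : ∑' n, a n ≠ ∞) : q ≤ 1 := by
  by_contra hq
  push Not at hq
  apply hs
  have h1 : ∀ n, 1 ≤ a n := by
    intro n
    induction n with
    | zero => exact h0
    | succ n ih =>
      refine le_trans ?_ (h n)
      calc (1 : ℝ≥0∞) = 1 * 1 := (one_mul 1).symm
        _ ≤ q * a n := mul_le_mul' hq.le ih
  have h2 : ∑' _ : ℕ, (1 : ℝ≥0∞) = ∞ := ENNReal.tsum_const_eq_top_of_ne_zero one_ne_zero
  rw [eq_top_iff, ← h2]
  exact ENNReal.tsum_le_tsum h1

end BASM

open BASM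

theorem specBAS (hKLI : SpecKLI) (hSMC : SpecSMC) (hEVL : SpecEVL) (hPSR : SpecPSR)
    (hEQZ : SpecEQZ) : SpecBAS := by
  intro p m Q E H V U hD z hz0 hz1 hG
  obtain ⟨_, _, _, _, L5, L6, L7, L8, L9, L10, L11⟩ := hEVL p m
  obtain ⟨S1, S2, S3, S4, S5, S6, S7, S8⟩ := hSMC p m hD.hp hD.hm
  obtain ⟨_, B, _, _, _⟩ := hPSR p m Q E H V U hD
  obtain ⟨e1, e2, e3, e4, e5, e6, e7⟩ := hEQZ p m Q E H V U hD z
  have hm2 := hD.hm
  set R : Vec := ev z (serR Q E) with hR
  set G : Vec := ev z (1 + E + H) with hGd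
  have hBR : Bd p R := (L11 z (serR Q E) B.2.2.2.2.2.2).1
  have hK := hKLI p m z R (by have := hD.hp; omega) (by omega) hz1 hBR
  -- duality
  have hdual : ∀ (x : Vec) (f : Fn), pr (z • Lv p m z (R * x)) f = pr x (opd p m z z R f) := by
    intro x f
    rw [smul_pr, L5, mul_comm R x, pr_mul', ← pr_smul']
    rfl
  have hstep : ∀ f : Fn, f 0 + pr G (opd p m z z R f) ≤ pr G f := by
    intro f
    have h1 : pr G f = pr (1 + ev z E + z • Lv p m z (R * G)) f := by rw [← e5]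
    rw [h1, pr_add, pr_add, hdual, pr_one]
    exact add_le_add le_self_add le_rfl
  have hsumN : ∀ N : ℕ, ∑ n ∈ Finset.range N, phi p m z R n 0 + pr G (phi p m z R N) ≤ ms G := by
    intro N
    induction N with
    | zero => simp [ms, phi]
    | succ N ih =>
      refine le_trans ?_ ih
      rw [Finset.sum_range_succ, add_assoc]
      exact add_le_add le_rfl (hstep (phi p m z R N))
  have h1 : ∑' n : ℕ, phi p m z R n 0 ≤ ms G := by
    apply ENNReal.tsum_le_of_sum_range_le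
    intro N
    exact le_self_add.trans (hsumN N)
  have hfin : ∑' n : ℕ, phi p m z R n 0 ≠ ∞ := ne_top_of_le_ne_top hG h1
  have hphi0 : (1 : ℝ≥0∞) ≤ phi p m z R 0 0 := le_rfl
  have hzle : z ≤ 1 := hz1.le
  -- the second
  have hLd : ∀ (n : ℕ) (t : Multiset ℤ), bs p t →
      (1 + z ^ (p * m)) * phi p m z R n 0 ≤ Ld p m z (phi p m z R n) t := by
    intro n t ht
    obtain ⟨r0, hr0, hc0⟩ := S3 t ht
    obtain ⟨r1, hr1, hne⟩ : ∃ r1 < m, r1 ≠ r0 := by
      by_cases h : r0 = 0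
      · exact ⟨1, by omega, by omega⟩
      · exact ⟨0, by omega, fun h' => h h'.symm⟩
    unfold Ld
    have hsub : ({r0, r1} : Finset ℕ) ⊆ Finset.range m := by
      intro r hr
      rw [Finset.mem_insert, Finset.mem_singleton] at hr
      rw [Finset.mem_range]
      rcases hr with rfl | rfl
      · exact hr0
      · exact hr1
    calc (1 + z ^ (p * m)) * phi p m z R n 0
        = phi p m z R n 0 + z ^ (p * m) * phi p m z R n 0 := by rw [add_mul, one_mul]
      _ ≤ z ^ cmin p m t r0 * phi p m z R n (sml p m t r0) +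
          z ^ cmin p m t r1 * phi p m z R n (sml p m t r1) := by
          refine add_le_add ?_ ?_
          · rw [hc0, pow_zero, one_mul]
            exact (hK n (sml p m t r0) (S1 t r0)).2.1
          · refine mul_le_mul' ?_ (hK n (sml p m t r1) (S1 t r1)).2.1
            exact pow_le_pow_right_of_le_one' hzle (S2 t r1 ht hr1)
      _ = ∑ r ∈ ({r0, r1} : Finset ℕ), z ^ cmin p m t r * phi p m z R n (sml p m t r) := by
          rw [Finset.sum_pair hne.symm]
      _ ≤ _ := Finset.sum_le_sum_of_subset hsub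
  have h2 : z * ms R * (1 + z ^ (p * m)) ≤ 1 := by
    refine le_one_of hphi0 (fun n => ?_) hfin
    show _ ≤ z * pr R (fun c => Ld p m z (phi p m z R n) (0 + c))
    have h3 : ms R * ((1 + z ^ (p * m)) * phi p m z R n 0) ≤
        pr R (fun c => Ld p m z (phi p m z R n) (0 + c)) := by
      unfold ms pr
      rw [← ENNReal.tsum_mul_right]
      refine ENNReal.tsum_le_tsum fun c => ?_
      by_cases hc : R.co c = 0
      · rw [hc]; simp
      · simp only [mul_one, zero_add]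
        exact mul_le_mul' le_rfl (hLd n c (hBR c hc))
    calc z * ms R * (1 + z ^ (p * m)) * phi p m z R n 0
        = z * (ms R * ((1 + z ^ (p * m)) * phi p m z R n 0)) := by ring
      _ ≤ _ := mul_le_mul' le_rfl h3
  -- the third
  have hR0 : 1 ≤ R.co 0 := by
    rw [e3, add_co, one_co, if_pos rfl]
    exact le_self_add
  have h0bs : bs p (0 : Multiset ℤ) := fun x hx => absurd hx (Multiset.notMem_zero x)
  have h3 : z * (1 + ∑ r ∈ Finset.Ico 1 m, z ^ cmin p m 0 r) ≤ 1 := by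
    refine le_one_of hphi0 (fun n => ?_) hfin
    show _ ≤ z * pr R (fun c => Ld p m z (phi p m z R n) (0 + c))
    rw [mul_assoc]
    refine mul_le_mul' le_rfl ?_
    have h4 : Ld p m z (phi p m z R n) 0 ≤ pr R (fun c => Ld p m z (phi p m z R n) (0 + c)) := by
      unfold pr
      refine le_trans ?_ (ENNReal.le_tsum 0)
      simp only [add_zero]
      calc Ld p m z (phi p m z R n) 0 = 1 * Ld p m z (phi p m z R n) 0 := (one_mul _).symm
        _ ≤ _ := mul_le_mul' hR0 le_rfl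
    refine le_trans ?_ h4
    unfold Ld
    rw [Finset.range_eq_Ico, Finset.sum_eq_sum_Ico_succ_bot (by omega : 0 < m), S6.1, S6.2,
      pow_zero, one_mul, add_mul, one_mul, Finset.sum_mul]
    refine add_le_add le_rfl (Finset.sum_le_sum fun r _ => ?_)
    exact mul_le_mul' le_rfl (hK n _ (S1 0 r)).2.1
  -- the fourth
  have hR1 : 1 ≤ ms R := by
    rw [e3, ms_add, ms_one]
    exact le_self_add
  have hRfin : ms R ≠ ∞ := by
    intro h
    rw [h, ENNReal.mul_top hz0, ENNReal.top_mul] at h2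
    · exact absurd h2 (by simp)
    · simp
  have h4 : ms (ev z (serY p)) * ms (ev z E) ≤ 1 := by
    have h5 : ms R = 1 + ms (ev z (serY p)) + ms (ev z (serY p)) * ms (ev z E) * ms R := by
      conv_lhs => rw [e4]
      rw [ms_add, ms_add, ms_one, ms_mul, ms_mul]
    have h6 : ms (ev z (serY p)) * ms (ev z E) * ms R ≤ 1 * ms R := by
      rw [one_mul]
      conv_rhs => rw [h5]
      exact le_add_self
    have hRne : ms R ≠ 0 := fun h => by rw [h] at hR1; simp at hR1
    exact (ENNReal.mul_le_mul_iff_left hRne hRfin).1 h6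
  exact ⟨h1, h2, h3, h4⟩

end Pool.Agent.Lib.MPba1bba.AS
end

section
/-!
# EVA: evaluation of series with nonnegative coefficients
-/
set_option autoImplicit false

open scoped ENNReal
open Classical

namespace Pool.Agent.Lib.MPba1bba.AS

open Pool.Agent.Lib.MPba1bba Vec

namespace EVAM

/-- the vector of an element of the ring -/
noncomputable def vv (A : SR) : Vec := ⟨fun s => ((A.coeff s).toNat : ℝ≥0∞)⟩

/-- nonnegative coefficients -/
def NA (A : SR) : Prop := ∀ s, 0 ≤ A.coeff s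

lemma na_zero : NA 0 := fun s => by
  rw [AddMonoidAlgebra.coeff_zero]
  exact le_rfl

lemma na_add {A B : SR} (hA : NA A) (hB : NA B) : NA (A + B) := fun s => by
  rw [AddMonoidAlgebra.coeff_add, Finsupp.add_apply]
  exact add_nonneg (hA s) (hB s)

lemma na_single (s : Multiset ℤ) {a : ℤ} (ha : 0 ≤ a) : NA (AddMonoidAlgebra.single s a) := by
  intro t
  rw [AddMonoidAlgebra.coeff_single, Finsupp.single_apply]
  split_ifs
  · exact ha
  · exact le_rfl

lemma na_sum {ι : Type} (t : Finset ι) (f : ι → SR) (h : ∀ i ∈ t, NA (f i)) :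
    NA (∑ i ∈ t, f i) := by
  induction t using Finset.induction_on with
  | empty => rw [Finset.sum_empty]; exact na_zero
  | insert a t ha ih =>
    rw [Finset.sum_insert ha]
    exact na_add (h a (Finset.mem_insert_self _ _))
      (ih (fun i hi => h i (Finset.mem_insert_of_mem hi)))

lemma mul_eq (A B : SR) : A * B = ∑ s ∈ A.coeff.support, ∑ t ∈ B.coeff.support,
    AddMonoidAlgebra.single (s + t) (A.coeff s * B.coeff t) := by
  rw [AddMonoidAlgebra.mul_def]
  rfl

lemma na_mul {A B : SR} (hA : NA A) (hB : NA B) : NA (A * B) := by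
  rw [mul_eq]
  exact na_sum _ _ (fun s _ => na_sum _ _ (fun t _ => na_single _ (mul_nonneg (hA s) (hB t))))

lemma vv_zero : vv 0 = 0 := by
  ext s
  show ((((0 : SR).coeff s).toNat : ℕ) : ℝ≥0∞) = 0
  rw [AddMonoidAlgebra.coeff_zero]
  simp

lemma vv_add {A B : SR} (hA : NA A) (hB : NA B) : vv (A + B) = vv A + vv B := by
  ext s
  show ((((A + B).coeff s).toNat : ℕ) : ℝ≥0∞) = _
  rw [AddMonoidAlgebra.coeff_add, Finsupp.add_apply, Int.toNat_add (hA s) (hB s), Nat.cast_add]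
  rfl

lemma vv_sum {ι : Type} (t : Finset ι) (f : ι → SR) (h : ∀ i ∈ t, NA (f i)) :
    vv (∑ i ∈ t, f i) = ∑ i ∈ t, vv (f i) := by
  induction t using Finset.induction_on with
  | empty => rw [Finset.sum_empty, Finset.sum_empty]; exact vv_zero
  | insert a t ha ih =>
    have h2 : ∀ i ∈ t, NA (f i) := fun i hi => h i (Finset.mem_insert_of_mem hi)
    rw [Finset.sum_insert ha, Finset.sum_insert ha,
      vv_add (h a (Finset.mem_insert_self _ _)) (na_sum t f h2), ih h2]

lemma pr_sum {ι : Type} (t : Finset ι) (x : ι → Vec) (f : Fn) :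
    pr (∑ i ∈ t, x i) f = ∑ i ∈ t, pr (x i) f := by
  induction t using Finset.induction_on with
  | empty => rw [Finset.sum_empty, Finset.sum_empty]; exact pr_zero f
  | insert a t ha ih => rw [Finset.sum_insert ha, Finset.sum_insert ha, pr_add, ih]

lemma pr_vv (A : SR) (f : Fn) :
    pr (vv A) f = ∑ s ∈ A.coeff.support, ((A.coeff s).toNat : ℝ≥0∞) * f s := by
  unfold pr
  apply tsum_eq_sum
  intro s hs
  rw [Finsupp.notMem_support_iff] at hs
  show (((A.coeff s).toNat : ℕ) : ℝ≥0∞) * f s = 0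
  rw [hs]
  simp

lemma pr_single (s : Multiset ℤ) (a : ℤ) (f : Fn) :
    pr (vv (AddMonoidAlgebra.single s a)) f = (a.toNat : ℝ≥0∞) * f s := by
  unfold pr
  rw [tsum_eq_single s]
  · show ((((AddMonoidAlgebra.single s a : SR).coeff s).toNat : ℕ) : ℝ≥0∞) * f s = _
    rw [AddMonoidAlgebra.coeff_single, Finsupp.single_eq_same]
  · intro t ht
    show ((((AddMonoidAlgebra.single s a : SR).coeff t).toNat : ℕ) : ℝ≥0∞) * f t = 0
    rw [AddMonoidAlgebra.coeff_single, Finsupp.single_apply, if_neg (fun h => ht h.symm)]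
    simp

lemma vv_mul {A B : SR} (hA : NA A) (hB : NA B) : vv (A * B) = vv A * vv B := by
  apply ext_pr
  intro f
  rw [mul_eq, vv_sum _ _ (fun s _ => na_sum _ _ (fun t _ =>
    na_single _ (mul_nonneg (hA s) (hB t)))), pr_sum, pr_mul', pr_vv]
  refine Finset.sum_congr rfl fun s _ => ?_
  rw [vv_sum _ _ (fun t _ => na_single _ (mul_nonneg (hA s) (hB t))), pr_sum, pr_vv,
    Finset.mul_sum]
  refine Finset.sum_congr rfl fun t _ => ?_
  rw [pr_single]
  have : (A.coeff s * B.coeff t).toNat = (A.coeff s).toNat * (B.coeff t).toNat := by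
    obtain ⟨a, ha⟩ := Int.eq_ofNat_of_zero_le (hA s)
    obtain ⟨b, hb⟩ := Int.eq_ofNat_of_zero_le (hB t)
    rw [ha, hb, ← Int.natCast_mul, Int.toNat_natCast, Int.toNat_natCast, Int.toNat_natCast]
  rw [this, Nat.cast_mul, mul_assoc]

lemma vv_one : vv 1 = 1 := by
  ext s
  show ((((1 : SR).coeff s).toNat : ℕ) : ℝ≥0∞) = if s = 0 then 1 else 0
  rw [AddMonoidAlgebra.one_def, AddMonoidAlgebra.coeff_single, Finsupp.single_apply]
  by_cases h : s = 0
  · rw [if_pos h, if_pos h.symm]; simp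
  · rw [if_neg h, if_neg (fun h' => h h'.symm)]; simp

lemma ev_co (z : ℝ≥0∞) (F : Ser) (s : Multiset ℤ) :
    (ev z F).co s = ∑' n : ℕ, z ^ n * (vv (PowerSeries.coeff n F)).co s := rfl

lemma evt_co (z : ℝ≥0∞) (N : ℕ) (F : Ser) (s : Multiset ℤ) :
    (evt z N F).co s = ∑ n ∈ Finset.range N, z ^ n * (vv (PowerSeries.coeff n F)).co s := rfl

lemma pr_ev (z : ℝ≥0∞) (F : Ser) (f : Fn) :
    pr (ev z F) f = ∑' n : ℕ, z ^ n * pr (vv (PowerSeries.coeff n F)) f := by
  unfold pr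
  simp only [ev_co, ← ENNReal.tsum_mul_right, ← ENNReal.tsum_mul_left]
  rw [ENNReal.tsum_comm]
  refine tsum_congr fun n => tsum_congr fun s => ?_
  ring

lemma pr_evt (z : ℝ≥0∞) (N : ℕ) (F : Ser) (f : Fn) :
    pr (evt z N F) f = ∑ n ∈ Finset.range N, z ^ n * pr (vv (PowerSeries.coeff n F)) f := by
  have h : evt z N F = ∑ n ∈ Finset.range N, z ^ n • vv (PowerSeries.coeff n F) := by
    induction N with
    | zero => ext s; rw [evt_co, Finset.sum_range_zero, Finset.sum_range_zero]; rfl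
    | succ N ih =>
      ext s
      rw [evt_co, Finset.sum_range_succ, ← evt_co, ih, Finset.sum_range_succ]
      rfl
  rw [h, pr_sum]
  refine Finset.sum_congr rfl fun n _ => ?_
  rw [smul_pr]

lemma tsum_anti (z : ℝ≥0∞) (h : ℕ → ℕ → ℝ≥0∞) :
    ∑' n : ℕ, z ^ n * ∑ ij ∈ Finset.HasAntidiagonal.antidiagonal n, h ij.1 ij.2 =
      ∑' i : ℕ, ∑' j : ℕ, z ^ i * z ^ j * h i j := by
  have h1 : ∀ n : ℕ, z ^ n * ∑ ij ∈ Finset.HasAntidiagonal.antidiagonal n, h ij.1 ij.2 =
      ∑' x : Finset.HasAntidiagonal.antidiagonal n, z ^ x.1.1 * z ^ x.1.2 * h x.1.1 x.1.2 := by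
    intro n
    rw [Finset.tsum_subtype (Finset.HasAntidiagonal.antidiagonal n)
      (fun ij : ℕ × ℕ => z ^ ij.1 * z ^ ij.2 * h ij.1 ij.2), Finset.mul_sum]
    refine Finset.sum_congr rfl fun ij hij => ?_
    rw [← pow_add, Finset.HasAntidiagonal.mem_antidiagonal.1 hij]
  rw [tsum_congr h1]
  rw [← ENNReal.tsum_prod (f := fun i j => z ^ i * z ^ j * h i j)]
  rw [← (Finset.HasAntidiagonal.sigmaAntidiagonalEquivProd (A := ℕ)).tsum_eq, ENNReal.tsum_sigma']
  rfl

lemma sum_anti (z : ℝ≥0∞) (N : ℕ) (h : ℕ → ℕ → ℝ≥0∞) :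
    ∑ n ∈ Finset.range N, z ^ n * ∑ ij ∈ Finset.HasAntidiagonal.antidiagonal n, h ij.1 ij.2 ≤
      ∑ i ∈ Finset.range N, ∑ j ∈ Finset.range N, z ^ i * z ^ j * h i j := by
  rw [← Finset.sum_product' (Finset.range N) (Finset.range N)
    (fun i j => z ^ i * z ^ j * h i j)]
  have h2 : ∑ ij ∈ (Finset.range N ×ˢ Finset.range N).filter (fun ij => ij.1 + ij.2 < N),
      z ^ ij.1 * z ^ ij.2 * h ij.1 ij.2 ≤
      ∑ ij ∈ Finset.range N ×ˢ Finset.range N, z ^ ij.1 * z ^ ij.2 * h ij.1 ij.2 :=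
    Finset.sum_le_sum_of_subset (Finset.filter_subset _ _)
  refine le_trans (le_of_eq ?_) h2
  rw [← Finset.sum_fiberwise_of_maps_to (t := Finset.range N) (g := fun ij : ℕ × ℕ => ij.1 + ij.2)]
  · refine Finset.sum_congr rfl fun n hn => ?_
    have hn' := Finset.mem_range.1 hn
    rw [Finset.mul_sum]
    have e : ((Finset.range N ×ˢ Finset.range N).filter (fun ij => ij.1 + ij.2 < N)).filter
        (fun ij : ℕ × ℕ => ij.1 + ij.2 = n) = Finset.HasAntidiagonal.antidiagonal n := by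
      ext ⟨i, j⟩
      simp only [Finset.mem_filter, Finset.mem_product, Finset.mem_range, Finset.HasAntidiagonal.mem_antidiagonal]
      omega
    rw [e]
    refine Finset.sum_congr rfl fun ij hij => ?_
    rw [← pow_add, Finset.HasAntidiagonal.mem_antidiagonal.1 hij]
  · intro ij hij
    rw [Finset.mem_filter] at hij
    exact Finset.mem_range.2 hij.2

lemma coeff_mul_vv {F G : Ser} (hF : Nn F) (hG : Nn G) (n : ℕ) (f : Fn) :
    pr (vv (PowerSeries.coeff n (F * G))) f = ∑ ij ∈ Finset.HasAntidiagonal.antidiagonal n,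
      pr (vv (PowerSeries.coeff ij.1 F) * vv (PowerSeries.coeff ij.2 G)) f := by
  have h1 : ∀ n, NA (PowerSeries.coeff n F) := hF
  have h2 : ∀ n, NA (PowerSeries.coeff n G) := hG
  rw [PowerSeries.coeff_mul, vv_sum _ _ (fun ij _ => na_mul (h1 ij.1) (h2 ij.2)), pr_sum]
  refine Finset.sum_congr rfl fun ij _ => ?_
  rw [vv_mul (h1 ij.1) (h2 ij.2)]

lemma nn_mul {F G : Ser} (hF : Nn F) (hG : Nn G) : Nn (F * G) := by
  intro n
  rw [PowerSeries.coeff_mul]
  exact na_sum _ _ (fun ij _ => na_mul (hF ij.1) (hG ij.2))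

lemma nn_add {F G : Ser} (hF : Nn F) (hG : Nn G) : Nn (F + G) := by
  intro n
  rw [map_add]
  exact na_add (hF n) (hG n)

lemma nn_X {F : Ser} (hF : Nn F) : Nn (PowerSeries.X * F) := by
  intro n
  cases n with
  | zero => rw [PowerSeries.coeff_zero_X_mul]; exact na_zero
  | succ n => rw [PowerSeries.coeff_succ_X_mul]; exact hF n

lemma nn_one : Nn 1 := by
  intro n
  rw [PowerSeries.coeff_one]
  split_ifs
  · rw [AddMonoidAlgebra.one_def]
    exact na_single _ (by norm_num)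
  · exact na_zero

lemma nn_zero : Nn 0 := by
  intro n
  rw [map_zero]
  exact na_zero

end EVAM

open EVAM in
theorem specEVA : SpecEVA := by
  refine ⟨⟨nn_one, nn_zero, ?_⟩, fun F G hF hG => ⟨nn_add hF hG, nn_mul hF hG, nn_X hF⟩,
    ?_, ?_, ?_, ?_⟩
  · intro z N
    refine ⟨?_, ?_, ?_⟩
    · ext s
      rw [ev_co, tsum_eq_single 0]
      · rw [pow_zero, one_mul, PowerSeries.coeff_one, if_pos rfl, vv_one]
      · intro n hn
        rw [PowerSeries.coeff_one, if_neg hn, vv_zero, zero_co, mul_zero]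
    · ext s
      rw [evt_co, Finset.sum_eq_single 0]
      · rw [pow_zero, one_mul, PowerSeries.coeff_one, if_pos rfl, vv_one]
      · intro n _ hn
        rw [PowerSeries.coeff_one, if_neg hn, vv_zero, zero_co, mul_zero]
      · intro h
        exact absurd (Finset.mem_range.2 (Nat.succ_pos N)) h
    · ext s
      rw [ev_co]
      simp only [map_zero, vv_zero, zero_co, mul_zero, tsum_zero]
  · intro z F G hF hG
    refine ⟨?_, ?_, ?_⟩
    · apply ext_pr
      intro f
      rw [pr_add, pr_ev, pr_ev, pr_ev, ← ENNReal.tsum_add]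
      refine tsum_congr fun n => ?_
      rw [map_add, vv_add (hF n) (hG n), pr_add, mul_add]
    · apply ext_pr
      intro f
      rw [pr_ev, pr_mul', pr_ev]
      have e : ∀ n : ℕ, z ^ n * pr (vv (PowerSeries.coeff n (F * G))) f =
          z ^ n * ∑ ij ∈ Finset.HasAntidiagonal.antidiagonal n,
            pr (vv (PowerSeries.coeff ij.1 F) * vv (PowerSeries.coeff ij.2 G)) f := by
        intro n
        rw [coeff_mul_vv hF hG]
      rw [tsum_congr e, tsum_anti z (fun i j =>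
        pr (vv (PowerSeries.coeff i F) * vv (PowerSeries.coeff j G)) f)]
      refine tsum_congr fun i => ?_
      have e2 : (fun s => pr (ev z G) (fun t => f (s + t))) = fun s =>
          ∑' j : ℕ, z ^ j * pr (vv (PowerSeries.coeff j G)) (fun t => f (s + t)) := by
        funext s
        rw [pr_ev]
      rw [e2]
      have e3 : pr (vv (PowerSeries.coeff i F)) (fun s =>
          ∑' j : ℕ, z ^ j * pr (vv (PowerSeries.coeff j G)) (fun t => f (s + t))) =
          ∑' j : ℕ, z ^ j * pr (vv (PowerSeries.coeff i F))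
            (fun s => pr (vv (PowerSeries.coeff j G)) (fun t => f (s + t))) := by
        unfold pr
        simp only [← ENNReal.tsum_mul_left]
        rw [ENNReal.tsum_comm]
        refine tsum_congr fun j => tsum_congr fun s => tsum_congr fun t => ?_
        ring
      rw [e3, ← ENNReal.tsum_mul_left]
      refine tsum_congr fun j => ?_
      rw [pr_mul', mul_assoc]
    · ext s
      rw [ev_co, smul_co, ev_co, tsum_eq_zero_add' ENNReal.summable]
      rw [PowerSeries.coeff_zero_X_mul, vv_zero, zero_co, mul_zero, zero_add,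
        ← ENNReal.tsum_mul_left]
      refine tsum_congr fun n => ?_
      rw [PowerSeries.coeff_succ_X_mul, pow_succ]
      ring
  · intro z N F G hF hG
    refine ⟨?_, ?_, ?_⟩
    · apply ext_pr
      intro f
      rw [pr_add, pr_evt, pr_evt, pr_evt, ← Finset.sum_add_distrib]
      refine Finset.sum_congr rfl fun n _ => ?_
      rw [map_add, vv_add (hF n) (hG n), pr_add, mul_add]
    · apply le_of_pr
      intro f
      rw [pr_evt, pr_mul', pr_evt]
      have e : ∀ n ∈ Finset.range N, z ^ n * pr (vv (PowerSeries.coeff n (F * G))) f =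
          z ^ n * ∑ ij ∈ Finset.HasAntidiagonal.antidiagonal n,
            pr (vv (PowerSeries.coeff ij.1 F) * vv (PowerSeries.coeff ij.2 G)) f := by
        intro n _
        rw [coeff_mul_vv hF hG]
      rw [Finset.sum_congr rfl e]
      refine (sum_anti z N (fun i j =>
        pr (vv (PowerSeries.coeff i F) * vv (PowerSeries.coeff j G)) f)).trans (le_of_eq ?_)
      refine Finset.sum_congr rfl fun i _ => ?_
      have e2 : (fun s => pr (evt z N G) (fun t => f (s + t))) = fun s =>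
          ∑ j ∈ Finset.range N, z ^ j * pr (vv (PowerSeries.coeff j G)) (fun t => f (s + t)) := by
        funext s
        rw [pr_evt]
      rw [e2]
      have e3 : ∀ M : ℕ, pr (vv (PowerSeries.coeff i F)) (fun s =>
          ∑ j ∈ Finset.range M, z ^ j * pr (vv (PowerSeries.coeff j G)) (fun t => f (s + t))) =
          ∑ j ∈ Finset.range M, z ^ j * pr (vv (PowerSeries.coeff i F))
            (fun s => pr (vv (PowerSeries.coeff j G)) (fun t => f (s + t))) := by
        intro M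
        induction M with
        | zero =>
          simp only [Finset.sum_range_zero]
          unfold pr
          simp
        | succ M ih =>
          rw [Finset.sum_range_succ, ← ih, ← pr_smul', ← pr_add']
          congr 1
          funext s
          rw [Finset.sum_range_succ]
      rw [e3, Finset.mul_sum]
      refine Finset.sum_congr rfl fun j _ => ?_
      rw [pr_mul', mul_assoc]
    · ext s
      rw [evt_co, smul_co, evt_co, Finset.sum_range_succ']
      rw [PowerSeries.coeff_zero_X_mul, vv_zero, zero_co, mul_zero, add_zero, Finset.mul_sum]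
      refine Finset.sum_congr rfl fun n _ => ?_
      rw [PowerSeries.coeff_succ_X_mul, pow_succ]
      ring
  · intro z F
    refine ⟨?_, ?_, ?_⟩
    · ext s
      rw [evt_co, Finset.sum_range_zero]
      rfl
    · intro N
      constructor
      · intro s
        rw [evt_co, evt_co, Finset.sum_range_succ]
        exact le_self_add
      · intro s
        rw [evt_co, ev_co]
        exact ENNReal.sum_le_tsum _
    · intro f
      rw [pr_ev, ENNReal.tsum_eq_iSup_nat]
      refine iSup_congr fun N => ?_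
      rw [pr_evt]
  · intro z z' F h s
    rw [ev_co, ev_co]
    exact ENNReal.tsum_le_tsum fun n => mul_le_mul' (pow_le_pow_left' h n) le_rfl

end Pool.Agent.Lib.MPba1bba.AS
end

section
/-!
# MP_ba1bba_al, AS: the module FML (the formal identity)
-/
namespace Pool.Agent.Lib.MPba1bba.AS

open Pool.Agent.Lib.MPba1bba

theorem specFML (hGUV : SpecGUV) (hPSE : SpecPSE) : SpecFML := by
  intro p m Q E H V U hD
  obtain ⟨hadd, hemb, -⟩ := hPSE p m hD.hp hD.hm
  obtain ⟨-, hG, hg, -⟩ := hGUV p m Q E H V U hD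
  set g : PowerSeries ℤ := cf0 (1 + E + H) with hgd
  have hzero : psi p m 0 = 0 := by
    have := hadd 0 0
    rw [add_zero] at this
    exact (left_eq_add.1 this)
  have hsub : ∀ F G : Ser, psi p m (F - G) = psi p m F - psi p m G := by
    intro F G
    have := hadd (F - G) G
    rw [sub_add_cancel] at this
    rw [this, add_sub_cancel_right]
  have htwo : ∀ F : Ser, psi p m (2 * F) = 2 * psi p m F := by
    intro F
    rw [two_mul, hadd, two_mul]
  have e1 : 1 + E + 2 * H + Q * (1 + E + H) ^ 2 = 2 * (U + emb g * V) - (1 + E)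
      + (Q * U ^ 2 + 2 * (emb g * (Q * U * V)) + emb g * (emb g * (Q * V ^ 2))) := by
    rw [← hG]
    have h2 : Q * (1 + E + H) ^ 2
      = Q * U ^ 2 + 2 * (emb g * (Q * U * V)) + emb g * (emb g * (Q * V ^ 2)) := by
      rw [hG]
      ring
    rw [h2]
    ring
  rw [e1, hadd, hadd, hadd, hsub, htwo, htwo, hadd, hemb, hemb, hemb, hemb]
  linear_combination (2 * (1 - cf0 V) * psi p m V + 2 * (1 - cf0 V) * psi p m (Q * U * V)
    + ((1 - cf0 V) * g + cf0 U) * psi p m (Q * V ^ 2)) * hg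

end Pool.Agent.Lib.MPba1bba.AS
end

section
/-!
# MP_ba1bba_al, asymptotics: GAP (the uniform spectral gap)
-/
set_option autoImplicit false

open scoped ENNReal
open Classical

namespace Pool.Agent.Lib.MPba1bba.AS.GAPM

open Pool.Agent.Lib.MPba1bba Vec Finset

theorem Ld_mono {p m : ℕ} {z : ℝ≥0∞} (hS : ∀ s r, bs p (sml p m s r)) {f g : Fn}
    (h : ∀ s, bs p s → f s ≤ g s) (s : Multiset ℤ) : Ld p m z f s ≤ Ld p m z g s :=
  Finset.sum_le_sum fun r _ => mul_le_mul' le_rfl (h _ (hS s r))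

theorem Ld_add (p m : ℕ) (z : ℝ≥0∞) (f g : Fn) (s : Multiset ℤ) :
    Ld p m z (fun s => f s + g s) s = Ld p m z f s + Ld p m z g s := by
  unfold Ld
  rw [← Finset.sum_add_distrib]
  exact Finset.sum_congr rfl fun r _ => mul_add _ _ _

theorem Ld_smul (p m : ℕ) (z b : ℝ≥0∞) (f : Fn) (s : Multiset ℤ) :
    Ld p m z (fun s => b * f s) s = b * Ld p m z f s := by
  unfold Ld
  rw [Finset.mul_sum]
  exact Finset.sum_congr rfl fun r _ => by ring

theorem Ld_tsum (p m : ℕ) (z : ℝ≥0∞) (f : ℕ → Fn) (s : Multiset ℤ) :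
    Ld p m z (fun s => ∑' n, f n s) s = ∑' n, Ld p m z (f n) s := by
  unfold Ld
  simp_rw [← ENNReal.tsum_mul_left]
  exact (Summable.tsum_finsetSum fun _ _ => ENNReal.summable).symm

theorem pr_tsum (x : Vec) (f : ℕ → Fn) : pr x (fun s => ∑' n, f n s) = ∑' n, pr x (f n) := by
  unfold pr
  simp_rw [← ENNReal.tsum_mul_left]
  exact ENNReal.tsum_comm

theorem pr_mono_bd {p : ℕ} {R : Vec} (hR : Bd p R) {f g : Fn} (h : ∀ c, bs p c → f c ≤ g c) :
    pr R f ≤ pr R g := by
  refine ENNReal.tsum_le_tsum fun c => ?_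
  by_cases hc : R.co c = 0
  · rw [hc, zero_mul, zero_mul]
  · exact mul_le_mul' le_rfl (h c (hR c hc))

theorem opd_add (p m : ℕ) (z a : ℝ≥0∞) (R : Vec) (f g : Fn) :
    opd p m z a R (fun s => f s + g s) = fun s => opd p m z a R f s + opd p m z a R g s := by
  funext s
  unfold opd
  simp_rw [Ld_add]
  rw [pr_add', mul_add]

theorem opd_smul (p m : ℕ) (z a b : ℝ≥0∞) (R : Vec) (f : Fn) :
    opd p m z a R (fun s => b * f s) = fun s => b * opd p m z a R f s := by
  funext s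
  unfold opd
  simp_rw [Ld_smul]
  rw [pr_smul']
  ring

theorem opd_tsum (p m : ℕ) (z a : ℝ≥0∞) (R : Vec) (f : ℕ → Fn) (s : Multiset ℤ) :
    opd p m z a R (fun s => ∑' n, f n s) s = ∑' n, opd p m z a R (f n) s := by
  unfold opd
  simp_rw [Ld_tsum]
  rw [pr_tsum, ENNReal.tsum_mul_left]

theorem opd_mono {p m : ℕ} {z a : ℝ≥0∞} {R : Vec} (hS : ∀ s r, bs p (sml p m s r)) {f g : Fn}
    (h : ∀ s, bs p s → f s ≤ g s) (s : Multiset ℤ) : opd p m z a R f s ≤ opd p m z a R g s :=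
  mul_le_mul' le_rfl (pr_mono le_rfl fun _ => Ld_mono hS h _)

/-- lower bound by the term at the empty multiset -/
theorem opd_ge {p m : ℕ} {z a : ℝ≥0∞} {R : Vec} (hR0 : 1 ≤ R.co 0) (f : Fn) (s : Multiset ℤ) :
    a * Ld p m z f s ≤ opd p m z a R f s := by
  unfold opd
  refine mul_le_mul' le_rfl ?_
  calc Ld p m z f s = 1 * Ld p m z f (s + 0) := by rw [one_mul, add_zero]
    _ ≤ R.co 0 * Ld p m z f (s + 0) := mul_le_mul' hR0 le_rfl
    _ ≤ pr R (fun c => Ld p m z f (s + c)) :=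
        ENNReal.le_tsum (f := fun c => R.co c * Ld p m z f (s + c)) 0

theorem bs_add {p : ℕ} {s t : Multiset ℤ} (hs : bs p s) (ht : bs p t) : bs p (s + t) := by
  intro x hx
  rcases Multiset.mem_add.1 hx with h | h
  · exact hs x h
  · exact ht x h

theorem bs_zero (p : ℕ) : bs p 0 := by
  intro x hx
  exact absurd hx (Multiset.notMem_zero x)

/-- the operator on `#` -/
theorem opd_card {p m : ℕ} {z a : ℝ≥0∞} {R : Vec} (hz : z ≤ 1) (hR : Bd p R)
    (h4 : ∀ s, bs p s → ∑ r ∈ Finset.range m, Multiset.card (sml p m s r) ≤ Multiset.card s + m)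
    {s : Multiset ℤ} (hs : bs p s) :
    opd p m z a R (fun t => (Multiset.card t : ℝ≥0∞)) s ≤
      a * ms R * Multiset.card s + a * (nu R + m * ms R) := by
  have h1 : ∀ c, bs p c → Ld p m z (fun t => (Multiset.card t : ℝ≥0∞)) (s + c) ≤
      ((Multiset.card s : ℝ≥0∞) + m) * 1 + Multiset.card c := by
    intro c hc
    have h2 : Ld p m z (fun t => (Multiset.card t : ℝ≥0∞)) (s + c) ≤
        ∑ r ∈ Finset.range m, (Multiset.card (sml p m (s + c) r) : ℝ≥0∞) := by
      refine Finset.sum_le_sum fun r _ => ?_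
      calc z ^ cmin p m (s + c) r * (Multiset.card (sml p m (s + c) r) : ℝ≥0∞)
          ≤ 1 * (Multiset.card (sml p m (s + c) r) : ℝ≥0∞) :=
            mul_le_mul' (pow_le_one' hz _) le_rfl
        _ = _ := one_mul _
    have h3 := h4 (s + c) (bs_add hs hc)
    have h5 : (∑ r ∈ Finset.range m, (Multiset.card (sml p m (s + c) r) : ℝ≥0∞)) ≤
        ((Multiset.card (s + c) + m : ℕ) : ℝ≥0∞) := by
      exact_mod_cast h3
    refine h2.trans (h5.trans (le_of_eq ?_))
    rw [Multiset.card_add]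
    push_cast
    ring
  calc opd p m z a R (fun t => (Multiset.card t : ℝ≥0∞)) s
      ≤ a * pr R (fun c => ((Multiset.card s : ℝ≥0∞) + m) * 1 + Multiset.card c) :=
        mul_le_mul' le_rfl (pr_mono_bd hR h1)
    _ = a * (((Multiset.card s : ℝ≥0∞) + m) * ms R + nu R) := by
        rw [pr_add' R (fun _ => ((Multiset.card s : ℝ≥0∞) + m) * 1) fun c => (Multiset.card c : ℝ≥0∞),
          pr_smul']
        rfl
    _ = a * ms R * Multiset.card s + a * (nu R + m * ms R) := by ring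

theorem inv_lt {x : ℝ≥0∞} (hx : x ≠ 0) : (1 + x)⁻¹ < 1 := by
  rw [ENNReal.inv_lt_one]
  exact ENNReal.lt_add_right ENNReal.one_ne_top hx

end Pool.Agent.Lib.MPba1bba.AS.GAPM

namespace Pool.Agent.Lib.MPba1bba.AS

open GAPM Vec in
theorem specGAP (hLYA : SpecLYA) (hKLI : SpecKLI) (hSMC : SpecSMC) (hEVL : SpecEVL)
    (hPSR : SpecPSR) (hEQZ : SpecEQZ) (hBAS : SpecBAS) (hNOR : SpecNOR) (hNRM : SpecNRM) :
    SpecGAP := by
  intro p m Q E H V U hD z₀ hz₀
  obtain ⟨K, hKt, hK1, hK⟩ := hNOR p m Q E H V U hD z₀ hz₀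
  have hp := hD.hp
  have hm := hD.hm
  obtain ⟨hS1, hS2, hS3, hS4, hS5, hS6, hS7, hS8⟩ := hSMC p m hp hm
  have hz0p : z₀ ^ (p * m) ≠ 0 := pow_ne_zero _ hz₀
  have hz0c : z₀ ^ (2 + p * m) ≠ 0 := pow_ne_zero _ hz₀
  have hDt : 2 * K ^ 2 + m * K ^ 2 ≠ ∞ := by
    refine ENNReal.add_ne_top.2 ⟨?_, ?_⟩
    · exact ENNReal.mul_ne_top (by norm_num) (ENNReal.pow_ne_top hKt)
    · exact ENNReal.mul_ne_top (ENNReal.natCast_ne_top m) (ENNReal.pow_ne_top hKt)
  obtain ⟨ε, δ, he0, he1, hd0, hd1, hL⟩ := hLYA (z₀ ^ (2 + p * m)) ((1 + z₀ ^ (p * m))⁻¹)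
    (2 * K ^ 2 + m * K ^ 2) (z₀ ^ (2 + p * m)) hz0c hz0c (inv_lt hz0p) hDt
  refine ⟨ε, δ, he0, he1, hd0, hd1, ?_⟩
  intro z hz0z hz1 hG
  have hz1' : z ≤ 1 := hz1.le
  have hzne : z ≠ 0 := fun h => hz₀ (le_antisymm (h ▸ hz0z) bot_le)
  obtain ⟨hKE, hKR, hKQ⟩ := hK z hz0z hz1 hG
  obtain ⟨hB1, hB2, hB3, hB4⟩ := hBAS p m Q E H V U hD z hzne hz1 hG
  obtain ⟨hP1, hP2, hP3, hP4, hP5⟩ := hPSR p m Q E H V U hD
  obtain ⟨hE1, hE2, hE3, hE4, hE5, hE6, hE7⟩ := hEQZ p m Q E H V U hD z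
  obtain ⟨hV1, hV2, hV3, hV4, hV5, hV6, hV7, hV8, hV9, hV10, hV11⟩ := hEVL p m
  obtain ⟨hN1, hN2, hN3, hN4, hN5, hN6, hN7⟩ := hNRM
  set R := ev z (serR Q E) with hR
  have hRB : Bd p R := (hV11 z (serR Q E) hP2.2.2.2.2.2.2).1
  have hRRB : Bd p (R * R) := (hV10 R R hRB hRB).1
  have hR0 : 1 ≤ R.co 0 := by
    rw [hE3]
    have : (1 : Vec).co 0 = 1 := by rw [one_co, if_pos rfl]
    rw [add_co, this]
    exact le_self_add
  have hRR0 : 1 ≤ (R * R).co 0 := by
    have h1 : (1 : Vec) ≤ R := by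
      rw [hE3]
      intro s
      rw [add_co]
      exact le_self_add
    have h2 : (1 : Vec) ≤ R * R := by
      have := mul_mono h1 h1
      rwa [one_mul] at this
    have h3 := h2 0
    rwa [one_co, if_pos rfl] at h3
  have hKL := hKLI p m z R (by omega) (by omega) hz1 hRB
  -- the function Φ
  set Φ : Fn := fun s => ∑' n, phi p m z R n s with hΦ
  have hΦ0t : Φ 0 ≠ ∞ := ne_top_of_le_ne_top hG hB1
  have hΦ01 : 1 ≤ Φ 0 := by
    have h1 : phi p m z R 0 0 = 1 := rfl
    rw [← h1]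
    exact ENNReal.le_tsum (f := fun n => phi p m z R n 0) 0
  have hΦ0n : Φ 0 ≠ 0 := fun h => by rw [h] at hΦ01; exact absurd hΦ01 (by simp)
  have hΦe : ∀ s, Φ s = 1 + opd p m z z R Φ s := by
    intro s
    have h1 : Φ s = phi p m z R 0 s + ∑' n, phi p m z R (n + 1) s :=
      tsum_eq_zero_add' ENNReal.summable
    rw [h1]
    congr 1
    exact (opd_tsum p m z z R (phi p m z R) s).symm
  have hΦle : ∀ s, opd p m z z R Φ s ≤ Φ s := by
    intro s
    rw [hΦe s]
    exact le_add_self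
  have hΦL : ∀ s, bs p s → Φ s ≤ Ld p m z Φ s := by
    intro s hs
    rw [hΦ, Ld_tsum]
    exact ENNReal.tsum_le_tsum fun n => (hKL n s hs).1
  have hΦge : ∀ s, bs p s → Φ 0 ≤ Φ s := fun s hs => ENNReal.tsum_le_tsum fun n => (hKL n s hs).2.1
  have hΦup : ∀ s, bs p s → Φ s ≤ (Multiset.card s + 1) * Φ 0 := by
    intro s hs
    rw [hΦ]
    simp only
    rw [← ENNReal.tsum_mul_left]
    exact ENNReal.tsum_le_tsum fun n => (hKL n s hs).2.2
  have hΦL0 : Φ 0 + z ^ (p * m) * Φ 0 ≤ Ld p m z Φ 0 := by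
    unfold Ld
    have h1 : ∑ r ∈ Finset.range 2, z ^ cmin p m 0 r * Φ (sml p m 0 r) ≤
        ∑ r ∈ Finset.range m, z ^ cmin p m 0 r * Φ (sml p m 0 r) :=
      Finset.sum_le_sum_of_subset (Finset.range_mono hm)
    refine le_trans ?_ h1
    rw [Finset.sum_range_succ, Finset.sum_range_one, hS6.1, hS6.2, pow_zero, one_mul]
    refine add_le_add le_rfl (mul_le_mul' ?_ (hΦge _ (hS1 0 1)))
    exact pow_le_pow_right_of_le_one' hz1' (hS2 0 1 (bs_zero p) (by omega))
  -- the function μ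
  set b : ℝ≥0∞ := (Φ 0)⁻¹ with hb
  have hb1 : b * Φ 0 = 1 := ENNReal.inv_mul_cancel hΦ0n hΦ0t
  set μ : Fn := fun s => b * Φ s with hμ
  have hμ1 : ∀ s, bs p s → 1 ≤ μ s ∧ μ s ≤ 1 + (Multiset.card s : ℝ≥0∞) := by
    intro s hs
    constructor
    · rw [← hb1]
      exact mul_le_mul' le_rfl (hΦge s hs)
    · calc μ s = b * Φ s := rfl
        _ ≤ b * ((Multiset.card s + 1) * Φ 0) := mul_le_mul' le_rfl (hΦup s hs)
        _ = (1 + Multiset.card s) * (b * Φ 0) := by ring
        _ = 1 + (Multiset.card s : ℝ≥0∞) := by rw [hb1, mul_one]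
  have hμ0 : μ 0 = 1 := hb1
  have hzp : z₀ ^ (2 + p * m) ≤ z ^ (2 + p * m) := pow_le_pow_left' hz0z _
  have hzp1 : z ^ (2 + p * m) ≤ z * z ^ (p * m) := by
    have h2 : z ^ (2 + p * m) = z * (z * z ^ (p * m)) := by ring
    rw [h2]
    calc z * (z * z ^ (p * m)) ≤ 1 * (z * z ^ (p * m)) := mul_le_mul' hz1' le_rfl
      _ = z * z ^ (p * m) := one_mul _
  have hzR : z * ms R ≤ (1 + z₀ ^ (p * m))⁻¹ := by
    rw [ENNReal.le_inv_iff_mul_le]
    refine le_trans (mul_le_mul' le_rfl ?_) hB2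
    exact add_le_add le_rfl (pow_le_pow_left' hz0z _)
  have hmsK : ms R ≤ K := le_trans (by rw [(hN1 R R).2.2.1]; exact le_self_add) hKR
  have hnuK : nu R ≤ K := le_trans (by rw [(hN1 R R).2.2.1]; exact le_add_self) hKR
  have hKK : K ≤ K ^ 2 := by
    rw [pow_two]
    calc K = 1 * K := (one_mul K).symm
      _ ≤ K * K := mul_le_mul' hK1 le_rfl
  -- transitions
  have htr : ∀ (a : ℝ≥0∞) (X : Vec), 1 ≤ X.co 0 → z ^ 2 ≤ a → ∀ s, bs p s → s ≠ 0 →
      ∃ t, bs p t ∧ Multiset.card t < Multiset.card s ∧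
        ∀ f : Fn, z₀ ^ (2 + p * m) * f t ≤ opd p m z a X f s := by
    intro a X hX ha s hs hs0
    obtain ⟨r, hr, hc⟩ := hS5 s hs hs0
    refine ⟨sml p m s r, hS1 s r, hc, ?_⟩
    intro f
    refine le_trans ?_ (opd_ge (p := p) (m := m) (z := z) (a := a) hX f s)
    calc z₀ ^ (2 + p * m) * f (sml p m s r) ≤ z ^ (2 + p * m) * f (sml p m s r) :=
          mul_le_mul' hzp le_rfl
      _ = z ^ 2 * (z ^ (p * m) * f (sml p m s r)) := by ring
      _ ≤ a * (z ^ cmin p m s r * f (sml p m s r)) :=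
          mul_le_mul' ha (mul_le_mul' (pow_le_pow_right_of_le_one' hz1' (hS2 s r hs hr)) le_rfl)
      _ ≤ a * Ld p m z f s := by
          refine mul_le_mul' le_rfl ?_
          exact Finset.single_le_sum (f := fun r => z ^ cmin p m s r * f (sml p m s r))
            (fun _ _ => bot_le) (Finset.mem_range.2 hr)
  -- the operator T₁
  have hT1Φ : ∀ s, bs p s → opd p m z (z ^ 2) (R * R) Φ s +
      (if s = 0 then z * z ^ (p * m) * Φ 0 else 0) ≤ Φ s := by
    intro s hs
    have h1 : opd p m z (z ^ 2) (R * R) Φ s = z * pr R (fun c => opd p m z z R Φ (s + c)) := by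
      unfold opd
      rw [pr_mul', pr_smul' z R fun c => pr R fun c' => Ld p m z Φ (s + c + c')]
      simp only [add_assoc]
      ring
    have h2 : z * pr R (fun c => opd p m z z R Φ (s + c)) ≤ z * pr R (fun c => Φ (s + c)) :=
      mul_le_mul' le_rfl (pr_mono le_rfl fun c => hΦle _)
    refine le_trans ?_ (hΦle s)
    refine le_trans (add_le_add (h1.le.trans h2) le_rfl) ?_
    split_ifs with h0
    · subst h0
      have h3 : z ^ (p * m) * Φ 0 ≤
          pr R (fun c => if c = 0 then z ^ (p * m) * Φ 0 else 0) := by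
        calc z ^ (p * m) * Φ 0 = 1 * (if (0 : Multiset ℤ) = 0 then z ^ (p * m) * Φ 0 else 0) := by
              rw [if_pos rfl, one_mul]
          _ ≤ R.co 0 * (if (0 : Multiset ℤ) = 0 then z ^ (p * m) * Φ 0 else 0) :=
              mul_le_mul' hR0 le_rfl
          _ ≤ _ := ENNReal.le_tsum
              (f := fun c => R.co c * (if c = 0 then z ^ (p * m) * Φ 0 else 0)) 0
      calc z * pr R (fun c => Φ (0 + c)) + z * z ^ (p * m) * Φ 0
          = z * (pr R (fun c => Φ (0 + c)) + z ^ (p * m) * Φ 0) := by ring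
        _ ≤ z * (pr R (fun c => Φ (0 + c)) +
            pr R (fun c => if c = 0 then z ^ (p * m) * Φ 0 else 0)) :=
            mul_le_mul' le_rfl (add_le_add le_rfl h3)
        _ = z * pr R (fun c => Φ (0 + c) + if c = 0 then z ^ (p * m) * Φ 0 else 0) := by
            rw [pr_add']
        _ ≤ z * pr R (fun c => Ld p m z Φ (0 + c)) := by
            refine mul_le_mul' le_rfl (pr_mono_bd hRB fun c hc => ?_)
            by_cases hc0 : c = 0
            · rw [if_pos hc0, hc0]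
              exact hΦL0
            · rw [if_neg hc0, add_zero]
              exact hΦL _ (bs_add (bs_zero p) hc)
        _ = opd p m z z R Φ 0 := rfl
    · rw [add_zero]
      exact mul_le_mul' le_rfl (pr_mono_bd hRB fun c hc => hΦL _ (bs_add hs hc))
  obtain ⟨W₁, hW1, hW1'⟩ := hL (bs p) (fun f => opd p m z (z ^ 2) (R * R) f) μ (bs_zero p)
    (fun f g => opd_add p m z (z ^ 2) (R * R) f g)
    (fun c f => opd_smul p m z (z ^ 2) c (R * R) f)
    (fun f g h s _ => opd_mono hS1 h s) hμ1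
    (by
      intro s hs
      have h1 : opd p m z (z ^ 2) (R * R) μ s = b * opd p m z (z ^ 2) (R * R) Φ s :=
        congrFun (opd_smul p m z (z ^ 2) b (R * R) Φ) s
      rw [h1]
      exact mul_le_mul' le_rfl (le_self_add.trans (hT1Φ s hs)))
    (by
      have h1 : opd p m z (z ^ 2) (R * R) μ 0 = b * opd p m z (z ^ 2) (R * R) Φ 0 :=
        congrFun (opd_smul p m z (z ^ 2) b (R * R) Φ) 0
      have h2 := hT1Φ 0 (bs_zero p)
      rw [if_pos rfl] at h2
      calc opd p m z (z ^ 2) (R * R) μ 0 + z₀ ^ (2 + p * m)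
          ≤ b * opd p m z (z ^ 2) (R * R) Φ 0 + z * z ^ (p * m) * (b * Φ 0) := by
            rw [h1, hb1, mul_one]
            exact add_le_add le_rfl (hzp.trans hzp1)
        _ = b * (opd p m z (z ^ 2) (R * R) Φ 0 + z * z ^ (p * m) * Φ 0) := by ring
        _ ≤ b * Φ 0 := mul_le_mul' le_rfl h2)
    (by
      intro s hs
      refine le_trans (opd_card hz1' hRRB hS4 hs) ?_
      rw [(hN1 R R).1, (hN1 R R).2.1]
      refine add_le_add ?_ ?_
      · refine mul_le_mul' ?_ le_rfl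
        calc z ^ 2 * (ms R * ms R) = (z * ms R) * (z * ms R) := by ring
          _ ≤ 1 * (1 + z₀ ^ (p * m))⁻¹ := by
              refine mul_le_mul' (hzR.trans (inv_lt hz0p).le) hzR
          _ = _ := one_mul _
      · calc z ^ 2 * (nu R * ms R + ms R * nu R + m * (ms R * ms R))
            ≤ 1 * (K * K + K * K + m * (K * K)) := by
              refine mul_le_mul' (pow_le_one' hz1' _) ?_
              exact add_le_add (add_le_add (mul_le_mul' hnuK hmsK) (mul_le_mul' hmsK hnuK))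
                (mul_le_mul' le_rfl (mul_le_mul' hmsK hmsK))
          _ = 2 * K ^ 2 + m * K ^ 2 := by ring)
    (htr (z ^ 2) (R * R) hRR0 le_rfl)
  obtain ⟨W₂, hW2, hW2'⟩ := hL (bs p) (fun f s => if s = 0 then 0 else opd p m z z R f s) μ
    (bs_zero p)
    (by
      intro f g
      funext s
      split_ifs with h0
      · rw [add_zero]
      · exact congrFun (opd_add p m z z R f g) s)
    (by
      intro c f
      funext s
      split_ifs with h0
      · rw [mul_zero]
      · exact congrFun (opd_smul p m z z c R f) s)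
    (by
      intro f g h s _
      split_ifs with h0
      · exact le_rfl
      · exact opd_mono hS1 h s) hμ1
    (by
      intro s hs
      split_ifs with h0
      · exact bot_le
      · have h1 : opd p m z z R μ s = b * opd p m z z R Φ s :=
          congrFun (opd_smul p m z z b R Φ) s
        rw [h1]
        exact mul_le_mul' le_rfl (hΦle s))
    (by
      rw [if_pos rfl, zero_add, hμ0]
      refine hzp.trans (pow_le_one' hz1' _))
    (by
      intro s hs
      split_ifs with h0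
      · exact bot_le
      · refine le_trans (opd_card hz1' hRB hS4 hs) ?_
        refine add_le_add (mul_le_mul' hzR le_rfl) ?_
        calc z * (nu R + m * ms R) ≤ 1 * (K + m * K) := by
              refine mul_le_mul' hz1' (add_le_add hnuK (mul_le_mul' le_rfl hmsK))
          _ = K + m * K := one_mul _
          _ ≤ 2 * K ^ 2 + m * K ^ 2 := by
              refine add_le_add ?_ (mul_le_mul' le_rfl hKK)
              calc K ≤ K ^ 2 := hKK
                _ = 1 * K ^ 2 := (one_mul _).symm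
                _ ≤ 2 * K ^ 2 := mul_le_mul' (by norm_num) le_rfl)
    (by
      intro s hs hs0
      have hzz : z ^ 2 ≤ z := by
        rw [pow_two]
        calc z * z ≤ 1 * z := mul_le_mul' hz1' le_rfl
          _ = z := one_mul z
      obtain ⟨t, ht, hc, hf⟩ := htr z R hR0 hzz s hs hs0
      refine ⟨t, ht, hc, ?_⟩
      intro f
      rw [if_neg hs0]
      exact hf f)
  refine ⟨W₁, W₂, hW1, hW2, hW1', ?_⟩
  intro s hs hs0
  have h := hW2' s hs
  rwa [if_neg hs0] at h

end Pool.Agent.Lib.MPba1bba.AS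
end

section
/-!
# Module INJ: the injection lemma for inf-convolutions with periodic functions
-/
open scoped ENNReal
open Classical

namespace Pool.Agent.Lib.MPba1bba.AS

namespace INJM

/-- periodicity for integer multiples -/
theorem per {G : ℤ → ℕ} {M : ℕ} (hG : ∀ x : ℤ, G (x + M) = G x) (x k : ℤ) :
    G (x + M * k) = G x := by
  have h1 : ∀ (n : ℕ) (y : ℤ), G (y + M * n) = G y := by
    intro n
    induction n with
    | zero => intro y; simp
    | succ n ih =>
      intro y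
      have : y + (M : ℤ) * ((n + 1 : ℕ) : ℤ) = (y + M * n) + M := by push_cast; ring
      rw [this, hG, ih]
  obtain ⟨n, rfl | rfl⟩ := Int.eq_nat_or_neg k
  · exact h1 n x
  · have := h1 n (x + M * (-(n : ℤ)))
    rw [← this]
    congr 1
    ring

theorem per_of_dvd {G : ℤ → ℕ} {M : ℕ} (hG : ∀ x : ℤ, G (x + M) = G x) {x y : ℤ}
    (h : (M : ℤ) ∣ x - y) : G x = G y := by
  obtain ⟨k, hk⟩ := h
  have : x = y + M * k := by linarith
  rw [this, per hG]

/-- the chosen point -/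
theorem ex_pt {h G : ℤ → ℕ} {n : ℕ} (hf : ∀ k : ℕ, {x : ℤ | h x ≤ k}.Finite) (ρ : ℤ)
    (hex : ∃ x : ℤ, h x + G (ρ - x) ≤ n) :
    ∃ x : ℤ, h x + G (ρ - x) ≤ n ∧ ∀ w : ℤ, h w + G (ρ - w) ≤ n →
      G (ρ - x) ≤ G (ρ - w) ∧ (G (ρ - w) = G (ρ - x) → w ≤ x) := by
  have hfin : {x : ℤ | h x + G (ρ - x) ≤ n}.Finite :=
    (hf n).subset fun x hx => le_trans (Nat.le_add_right _ _) hx
  obtain ⟨x0, hx0⟩ := hex
  have hne : hfin.toFinset.Nonempty := ⟨x0, by simpa using hx0⟩
  obtain ⟨x1, hx1, hmin⟩ := Finset.exists_min_image hfin.toFinset (fun x => G (ρ - x)) hne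
  have hne2 : (hfin.toFinset.filter fun x => G (ρ - x) = G (ρ - x1)).Nonempty :=
    ⟨x1, Finset.mem_filter.2 ⟨hx1, rfl⟩⟩
  obtain ⟨x2, hx2, hmax⟩ := Finset.exists_max_image _ (fun x : ℤ => x) hne2
  rw [Finset.mem_filter] at hx2
  refine ⟨x2, by simpa using hx2.1, fun w hw => ?_⟩
  have hw' : w ∈ hfin.toFinset := by simpa using hw
  refine ⟨?_, fun he => ?_⟩
  · rw [hx2.2]; exact hmin w hw'
  · exact hmax w (by rw [Finset.mem_filter]; exact ⟨hw', he.trans hx2.2⟩)

/-- the core of the injectivity -/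
theorem core {m M n : ℕ} {h G : ℤ → ℕ} (hm : 1 ≤ m)
    (hq : ∀ x y w : ℤ, x ≤ w → w ≤ y → h w ≤ max (h x) (h y))
    (hG : ∀ x : ℤ, G (x + M) = G x) {ρ ρ' x x' : ℤ}
    (h1 : h x + G (ρ - x) ≤ n)
    (h2 : ∀ w : ℤ, h w + G (ρ - w) ≤ n → G (ρ - x) ≤ G (ρ - w) ∧ (G (ρ - w) = G (ρ - x) → w ≤ x))
    (h1' : h x' + G (ρ' - x') ≤ n)
    (h2' : ∀ w : ℤ, h w + G (ρ' - w) ≤ n →
      G (ρ' - x') ≤ G (ρ' - w) ∧ (G (ρ' - w) = G (ρ' - x') → w ≤ x'))
    (j j' r : ℤ) (hx : x = r + m * j) (hx' : x' = r + m * j') (hjj : j < j')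
    (hd : (M : ℤ) ∣ (ρ - x + j) - (ρ' - x' + j')) : False := by
  have hdd : x' - x = m * (j' - j) := by rw [hx, hx']; ring
  have hm' : (1 : ℤ) ≤ m := by exact_mod_cast hm
  have hle : j' - j ≤ x' - x := by rw [hdd]; nlinarith
  rcases le_or_gt (G (ρ' - x')) (G (ρ - x)) with hc | hc
  · have hw := hq x x' (x + (j' - j)) (by linarith) (by linarith)
    have hg : G (ρ - (x + (j' - j))) = G (ρ' - x') :=
      per_of_dvd hG (by
        have : ρ - (x + (j' - j)) - (ρ' - x') = (ρ - x + j) - (ρ' - x' + j') := by ring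
        rw [this]; exact hd)
    have had : h (x + (j' - j)) + G (ρ - (x + (j' - j))) ≤ n := by
      rw [hg]
      rcases le_max_iff.1 hw with hh | hh <;> omega
    obtain ⟨ha, hb⟩ := h2 _ had
    have := hb (by rw [hg] at ha ⊢; omega)
    linarith
  · have hw := hq x x' (x' - (j' - j)) (by linarith) (by linarith)
    have hg : G (ρ' - (x' - (j' - j))) = G (ρ - x) :=
      per_of_dvd hG (by
        have : ρ' - (x' - (j' - j)) - (ρ - x) = -((ρ - x + j) - (ρ' - x' + j')) := by ring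
        rw [this]; exact (dvd_neg).2 hd)
    have had : h (x' - (j' - j)) + G (ρ' - (x' - (j' - j))) ≤ n := by
      rw [hg]
      rcases le_max_iff.1 hw with hh | hh <;> omega
    have := (h2' _ had).1
    rw [hg] at this
    omega

end INJM

open INJM in
theorem specINJ : SpecINJ := by
  intro m M n h G hm hM hf hq hG
  have hm' : (0 : ℤ) < m := by exact_mod_cast hm
  have hM' : (0 : ℤ) < M := by exact_mod_cast hM
  have hch : ∀ ρ : ℕ, ∃ x : ℤ, (∃ x : ℤ, h x + G ((ρ : ℤ) - x) ≤ n) →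
      (h x + G ((ρ : ℤ) - x) ≤ n ∧ ∀ w : ℤ, h w + G ((ρ : ℤ) - w) ≤ n →
        G ((ρ : ℤ) - x) ≤ G ((ρ : ℤ) - w) ∧ (G ((ρ : ℤ) - w) = G ((ρ : ℤ) - x) → w ≤ x)) := by
    intro ρ
    by_cases hex : ∃ x : ℤ, h x + G ((ρ : ℤ) - x) ≤ n
    · obtain ⟨x, hx⟩ := ex_pt hf (ρ : ℤ) hex
      exact ⟨x, fun _ => hx⟩
    · exact ⟨0, fun hh => absurd hh hex⟩
  choose X hX using hch
  rw [← Finset.card_sigma]
  refine Finset.card_le_card_of_injOn
    (fun ρ => ⟨(X ρ % m).toNat, (((ρ : ℤ) - X ρ + X ρ / m) % M).toNat⟩) ?_ ?_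
  · intro ρ hρ
    rw [Finset.mem_coe, Finset.mem_filter, Finset.mem_range] at hρ
    obtain ⟨hρM, hex⟩ := hρ
    obtain ⟨hx1, -⟩ := hX ρ hex
    have e1 := Int.emod_nonneg (X ρ) hm'.ne'
    have e2 := Int.emod_lt_of_pos (X ρ) hm'
    have e3 := Int.emod_nonneg ((ρ : ℤ) - X ρ + X ρ / m) hM'.ne'
    have e4 := Int.emod_lt_of_pos ((ρ : ℤ) - X ρ + X ρ / m) hM'
    rw [Finset.mem_coe, Finset.mem_sigma]
    refine ⟨Finset.mem_range.2 (by beta_reduce; dsimp only; omega), ?_⟩
    rw [Finset.mem_filter, Finset.mem_range]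
    beta_reduce
    dsimp only
    refine ⟨by omega, X ρ / m, ?_⟩
    rw [Int.toNat_of_nonneg e1, Int.toNat_of_nonneg e3, Int.emod_add_mul_ediv]
    have : G (((ρ : ℤ) - X ρ + X ρ / m) % M - X ρ / m) = G ((ρ : ℤ) - X ρ) := by
      apply per_of_dvd hG
      have := Int.emod_add_mul_ediv ((ρ : ℤ) - X ρ + X ρ / m) M
      exact ⟨-(((ρ : ℤ) - X ρ + X ρ / m) / M), by linarith⟩
    rw [this]
    exact hx1
  · intro ρ hρ ρ' hρ' heq
    rw [Finset.mem_coe, Finset.mem_filter, Finset.mem_range] at hρ hρ'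
    obtain ⟨hρM, hex⟩ := hρ
    obtain ⟨hρM', hex'⟩ := hρ'
    obtain ⟨hx1, hx2⟩ := hX ρ hex
    obtain ⟨hx1', hx2'⟩ := hX ρ' hex'
    have e1 := Int.emod_nonneg (X ρ) hm'.ne'
    have e1' := Int.emod_nonneg (X ρ') hm'.ne'
    have e3 := Int.emod_nonneg ((ρ : ℤ) - X ρ + X ρ / m) hM'.ne'
    have e3' := Int.emod_nonneg ((ρ' : ℤ) - X ρ' + X ρ' / m) hM'.ne'
    simp only [Sigma.mk.injEq, heq_eq_eq] at heq
    obtain ⟨hr, ht⟩ := heq
    have hr' : X ρ % m = X ρ' % m := by omega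
    have ht' : ((ρ : ℤ) - X ρ + X ρ / m) % M = ((ρ' : ℤ) - X ρ' + X ρ' / m) % M := by omega
    have hdvd : (M : ℤ) ∣ ((ρ : ℤ) - X ρ + X ρ / m) - ((ρ' : ℤ) - X ρ' + X ρ' / m) :=
      Int.dvd_of_emod_eq_zero (Int.emod_emod_of_dvd _ (dvd_refl _) ▸
        (Int.emod_eq_emod_iff_emod_sub_eq_zero.1 ht'))
    have hxe : X ρ = X ρ % m + m * (X ρ / m) := (Int.emod_add_mul_ediv _ _).symm
    have hxe' : X ρ' = X ρ % m + m * (X ρ' / m) := by
      rw [hr']; exact (Int.emod_add_mul_ediv _ _).symm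
    rcases lt_trichotomy (X ρ / m) (X ρ' / m) with hlt | he | hgt
    · exact (core hm hq hG hx1 hx2 hx1' hx2' _ _ _ hxe hxe' hlt hdvd).elim
    · have hxx : X ρ = X ρ' := by rw [hxe, hxe', he]
      have hd2 : (M : ℤ) ∣ (ρ : ℤ) - ρ' := by
        have : (ρ : ℤ) - ρ' = ((ρ : ℤ) - X ρ + X ρ / m) - ((ρ' : ℤ) - X ρ' + X ρ' / m) := by
          rw [hxx]; ring
        rw [this]; exact hdvd
      have : (ρ : ℤ) = ρ' := by
        have := Int.emod_emod_of_dvd (ρ : ℤ) (dvd_refl (M : ℤ))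
        have h3 := Int.emod_eq_emod_iff_emod_sub_eq_zero.2 (Int.emod_eq_zero_of_dvd hd2)
        rwa [Int.emod_eq_of_lt (by omega) (by omega), Int.emod_eq_of_lt (by omega) (by omega)] at h3
      exact_mod_cast this
    · exact (core hm hq hG hx1' hx2' hx1 hx2 _ _ _ hxe' hxe hgt
        (by rw [← neg_sub]; exact (dvd_neg).2 hdvd)).elim

end Pool.Agent.Lib.MPba1bba.AS
end

section
open scoped ENNReal

namespace Pool.Agent.Lib.MPba1bba.AS

open Pool.Agent.Lib.MPba1bba Vec

namespace LYAM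

/-- the auxiliary function -/
noncomputable def eta (K : ℕ) (c q : ℝ≥0∞) : Fn := fun s =>
  if Multiset.card s ≤ K then (c / 2) * q ^ Multiset.card s else 0

theorem le_half_of {x y g : ℝ≥0∞} (h : x ≤ g / (2 * y)) (hy : y ≠ 0) (hy' : y ≠ ∞) :
    x * y ≤ g / 2 := by
  have h2 : (2 : ℝ≥0∞) * y ≠ 0 := mul_ne_zero (by norm_num) hy
  have h3 : (2 : ℝ≥0∞) * y ≠ ∞ := ENNReal.mul_ne_top (by norm_num) hy'
  have h4 : x * (2 * y) ≤ g := by
    calc x * (2 * y) ≤ g / (2 * y) * (2 * y) := by gcongr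
      _ = g := ENNReal.div_mul_cancel h2 h3
  rw [ENNReal.le_div_iff_mul_le (Or.inl (by norm_num)) (Or.inl (by norm_num))]
  calc x * y * 2 = x * (2 * y) := by ring
    _ ≤ g := h4

end LYAM

open LYAM

theorem specLYA : SpecLYA := by
  intro c θ D a hc ha hθ hD
  -- constants
  set c' : ℝ≥0∞ := min c 1 with hc'
  set a' : ℝ≥0∞ := min a 1 with ha'
  have hc0 : c' ≠ 0 := by
    rw [hc']; exact ne_of_gt (lt_min (pos_iff_ne_zero.2 hc) one_pos)
  have ha0 : a' ≠ 0 := by
    rw [ha']; exact ne_of_gt (lt_min (pos_iff_ne_zero.2 ha) one_pos)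
  have hc1 : c' ≤ 1 := min_le_right _ _
  have ha1 : a' ≤ 1 := min_le_right _ _
  set κ : ℝ≥0∞ := 1 - θ with hκ
  have hκ0 : κ ≠ 0 := by rw [hκ]; exact (tsub_pos_of_lt hθ).ne'
  have hκ1 : κ ≤ 1 := tsub_le_self
  have hκt : κ ≠ ∞ := ne_top_of_le_ne_top (by simp) hκ1
  have hθκ : θ + κ = 1 := by rw [hκ]; exact add_tsub_cancel_of_le hθ.le
  have hθt : θ ≠ ∞ := (hθ.trans ENNReal.one_lt_top).ne
  obtain ⟨K, hK⟩ : ∃ K : ℕ, 2 * D / κ ≤ K := by
    have : 2 * D / κ ≠ ∞ := ENNReal.div_ne_top (ENNReal.mul_ne_top (by simp) hD) hκ0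
    obtain ⟨n, hn⟩ := ENNReal.exists_nat_gt this
    exact ⟨n, hn.le⟩
  have hDK : D ≤ κ * K / 2 := by
    rw [ENNReal.le_div_iff_mul_le (Or.inl (by norm_num)) (Or.inl (by norm_num))]
    calc D * 2 = 2 * D := mul_comm _ _
      _ = 2 * D / κ * κ := (ENNReal.div_mul_cancel hκ0 hκt).symm
      _ ≤ K * κ := by gcongr
      _ = κ * K := mul_comm _ _
  set q : ℝ≥0∞ := a' / 2 with hq
  have hq1 : q ≤ 1 := by
    rw [hq]
    exact (ENNReal.half_le_self).trans ha1
  have hqq : q + q = a' := by rw [hq]; exact ENNReal.add_halves a'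
  have hq0 : q ≠ 0 := by rw [hq]; exact (ENNReal.half_pos ha0).ne'
  set γ : ℝ≥0∞ := (c' / 2) * q ^ K with hγ
  have hγ0 : γ ≠ 0 := mul_ne_zero (ENNReal.half_pos hc0).ne' (pow_ne_zero _ hq0)
  have hhalf : c' / 2 ≤ 1 / 2 := by gcongr
  have hγh : γ ≤ c' / 2 := by
    rw [hγ]; exact mul_le_of_le_one_right' (pow_le_one' hq1 K)
  have hγ1 : γ ≤ 1 := hγh.trans (hhalf.trans (ENNReal.half_le_self))
  have hγt : γ ≠ ∞ := ne_top_of_le_ne_top (by simp) hγ1
  set ε : ℝ≥0∞ := min (γ / (2 * (D + 1))) (1 / 2) with hε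
  have hD1 : D + 1 ≠ ∞ := ENNReal.add_ne_top.2 ⟨hD, by simp⟩
  have hD0 : D + 1 ≠ 0 := by simp
  have hε0 : ε ≠ 0 := by
    rw [hε]
    refine (lt_min ?_ (by norm_num)).ne'
    exact ENNReal.div_pos hγ0 (ENNReal.mul_ne_top (by norm_num) hD1)
  have hεh : ε ≤ 1 / 2 := min_le_right _ _
  have hhalf1 : (1 / 2 : ℝ≥0∞) ≤ 1 := ENNReal.half_le_self
  have hε1 : ε ≤ 1 := hεh.trans hhalf1
  have hεt : ε ≠ ∞ := ne_top_of_le_ne_top (by simp) hε1
  have hεD : ε * D ≤ γ / 2 := by
    calc ε * D ≤ ε * (D + 1) := by gcongr; exact le_self_add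
      _ ≤ γ / 2 := le_half_of (min_le_left _ _) hD0 hD1
  set δ' : ℝ≥0∞ := min (γ / (2 * (1 + K))) (ε * κ / 4) with hδ'
  have hK1 : (1 : ℝ≥0∞) + K ≠ ∞ := ENNReal.add_ne_top.2 ⟨by simp, by simp⟩
  have hK0 : (1 : ℝ≥0∞) + K ≠ 0 := by simp
  have hδ0 : δ' ≠ 0 := by
    rw [hδ']
    refine (lt_min ?_ ?_).ne'
    · exact ENNReal.div_pos hγ0 (ENNReal.mul_ne_top (by norm_num) hK1)
    · exact ENNReal.div_pos (mul_ne_zero hε0 hκ0) (by norm_num)
  have hδK : δ' * (1 + K) ≤ γ / 2 := le_half_of (min_le_left _ _) hK0 hK1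
  have hδκ : δ' * 4 ≤ ε * κ := by
    have : δ' ≤ ε * κ / 4 := min_le_right _ _
    calc δ' * 4 ≤ ε * κ / 4 * 4 := by gcongr
      _ = ε * κ := ENNReal.div_mul_cancel (by norm_num) (by norm_num)
  have hδle : δ' ≤ 1 := by
    have h1 : δ' ≤ δ' * 4 := by
      calc δ' = δ' * 1 := (mul_one _).symm
        _ ≤ δ' * 4 := by gcongr; norm_num
    exact h1.trans (hδκ.trans (mul_le_one' hε1 hκ1))
  have hδt : δ' ≠ ∞ := ne_top_of_le_ne_top (by simp) hδle
  refine ⟨ε, δ' / 2, pos_iff_ne_zero.2 hε0, hε1, ENNReal.half_pos hδ0, ?_, ?_⟩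
  · calc δ' / 2 < δ' := ENNReal.half_lt_self hδ0 hδt
      _ ≤ 1 := hδle
  intro B T μ hB0 hadd hsmul hmono hμ hTμ hTμ0 hT1 hstep
  set η : Fn := eta K c' q with hη
  have hηle : ∀ s, η s ≤ c' / 2 := by
    intro s
    rw [hη]; unfold eta
    split_ifs
    · exact mul_le_of_le_one_right' (pow_le_one' hq1 _)
    · exact bot_le
  have hη1 : ∀ s, η s ≤ 1 / 2 := fun s => (hηle s).trans hhalf
  have hηt : ∀ s, η s ≠ ∞ := fun s => ne_top_of_le_ne_top (by simp) (hη1 s)
  set V : Fn := fun s => μ s - η s with hV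
  have hVη : ∀ s, B s → V s + η s = μ s := by
    intro s hs
    exact tsub_add_cancel_of_le ((hη1 s).trans (hhalf1.trans (hμ s hs).1))
  have hVhalf : ∀ s, B s → 1 / 2 ≤ V s := by
    intro s hs
    have h1 : (1 : ℝ≥0∞) ≤ V s + 1 / 2 := by
      calc (1 : ℝ≥0∞) ≤ μ s := (hμ s hs).1
        _ = V s + η s := (hVη s hs).symm
        _ ≤ V s + 1 / 2 := by gcongr; exact hη1 s
    have h2 : (1 / 2 : ℝ≥0∞) + 1 / 2 ≤ V s + 1 / 2 := by
      rw [ENNReal.add_halves]; exact h1
    exact (ENNReal.add_le_add_iff_right (by norm_num)).1 h2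
  have hVμ : ∀ s, V s ≤ μ s := fun s => tsub_le_self
  have hTV : ∀ s, B s → T V s ≤ T μ s := fun s hs => hmono V μ (fun t _ => hVμ t) s hs
  have hTVη : ∀ s, B s → T V s + T η s ≤ T μ s := by
    intro s hs
    have h1 := hmono (fun t => V t + η t) μ (fun t ht => (hVη t ht).le) s hs
    rw [hadd] at h1
    exact h1
  -- gain on small states
  have hsmall : ∀ s, B s → Multiset.card s ≤ K → T V s + γ ≤ V s := by
    intro s hs hcard
    have hηs : η s = (c' / 2) * q ^ Multiset.card s := by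
      rw [hη]; unfold eta; rw [if_pos hcard]
    have hγη : γ ≤ η s := by
      rw [hηs, hγ]
      gcongr 1
      exact pow_le_pow_right_of_le_one' hq1 hcard
    by_cases h0 : s = 0
    · subst h0
      have hη0 : η 0 = c' / 2 := by rw [hηs]; simp
      have h1 : T V 0 + c' / 2 + η 0 ≤ V 0 + η 0 := by
        rw [hVη 0 hB0, hη0, add_assoc, ENNReal.add_halves]
        calc T V 0 + c' ≤ T μ 0 + c := add_le_add (hTV 0 hB0) (min_le_left _ _)
          _ ≤ μ 0 := hTμ0
      have h2 := (ENNReal.add_le_add_iff_right (hηt 0)).1 h1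
      calc T V 0 + γ ≤ T V 0 + c' / 2 := by gcongr
        _ ≤ V 0 := h2
    · obtain ⟨t, ht, htc, htT⟩ := hstep s hs h0
      have hηη : η s + η s ≤ T η s := by
        have e1 : η t = (c' / 2) * q ^ Multiset.card t := by
          rw [hη]; unfold eta; rw [if_pos (by omega)]
        have e2 : q ^ (Multiset.card s - 1) ≤ q ^ Multiset.card t :=
          pow_le_pow_right_of_le_one' hq1 (by omega)
        have e3 : q * q ^ (Multiset.card s - 1) = q ^ Multiset.card s := by
          rw [← pow_succ']; congr 1; omega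
        calc η s + η s = (q + q) * ((c' / 2) * q ^ (Multiset.card s - 1)) := by
              rw [hηs, ← e3]; ring
          _ ≤ a' * η t := by
              rw [hqq, e1]; gcongr
          _ ≤ a * η t := by gcongr; exact min_le_left _ _
          _ ≤ T η s := htT η
      have h1 : T V s + η s + η s ≤ V s + η s := by
        calc T V s + η s + η s = T V s + (η s + η s) := by ring
          _ ≤ T V s + T η s := by gcongr
          _ ≤ T μ s := hTVη s hs
          _ ≤ μ s := hTμ s hs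
          _ = V s + η s := (hVη s hs).symm
      have h2 := (ENNReal.add_le_add_iff_right (hηt s)).1 h1
      calc T V s + γ ≤ T V s + η s := by gcongr
        _ ≤ V s := h2
  have hlarge : ∀ s, B s → K < Multiset.card s → T V s ≤ V s := by
    intro s hs hcard
    have hηs : η s = 0 := by
      rw [hη]; unfold eta; rw [if_neg (by omega)]
    have : V s = μ s := by rw [hV]; simp [hηs]
    rw [this]
    exact (hTV s hs).trans (hTμ s hs)
  -- the Lyapunov function
  refine ⟨fun s => V s + ε * Multiset.card s, ?_, ?_⟩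
  · intro s hs
    constructor
    · calc ε * (1 + Multiset.card s) = ε + ε * Multiset.card s := by ring
        _ ≤ V s + ε * Multiset.card s := by
            gcongr
            exact hεh.trans (hVhalf s hs)
    · calc V s + ε * Multiset.card s ≤ (1 + Multiset.card s) + 1 * Multiset.card s := by
            gcongr
            exact (hVμ s).trans (hμ s hs).2
        _ ≤ (1 + Multiset.card s) + 1 * (1 + Multiset.card s) := by
            gcongr; exact le_add_self
        _ = 2 * (1 + Multiset.card s) := by ring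
  · intro s hs
    have hTW : T (fun t => V t + ε * Multiset.card t) s
        ≤ T V s + ε * (θ * Multiset.card s + D) := by
      have e1 : T (fun t => V t + ε * (Multiset.card t : ℝ≥0∞)) s
          = T V s + ε * T (fun t => (Multiset.card t : ℝ≥0∞)) s := by
        rw [hadd V (fun t => ε * (Multiset.card t : ℝ≥0∞)), hsmul]
      rw [e1]
      gcongr
      exact hT1 s hs
    have hW2 : V s + ε * Multiset.card s ≤ 2 * (1 + Multiset.card s) := by
      calc V s + ε * Multiset.card s ≤ (1 + Multiset.card s) + 1 * Multiset.card s := by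
            gcongr
            exact (hVμ s).trans (hμ s hs).2
        _ ≤ (1 + Multiset.card s) + 1 * (1 + Multiset.card s) := by
            gcongr; exact le_add_self
        _ = 2 * (1 + Multiset.card s) := by ring
    have hWt : V s + ε * Multiset.card s ≠ ∞ := by
      refine ne_top_of_le_ne_top ?_ hW2
      exact ENNReal.mul_ne_top (by norm_num) (ENNReal.add_ne_top.2 ⟨by simp, by simp⟩)
    have main : T (fun t => V t + ε * Multiset.card t) s + δ' * (1 + Multiset.card s)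
        ≤ V s + ε * Multiset.card s := by
      refine (add_le_add hTW le_rfl).trans ?_
      by_cases hcard : Multiset.card s ≤ K
      · have hcK : (Multiset.card s : ℝ≥0∞) ≤ K := by exact_mod_cast hcard
        calc T V s + ε * (θ * Multiset.card s + D) + δ' * (1 + Multiset.card s)
            = T V s + (ε * D + δ' * (1 + Multiset.card s)) + ε * (θ * Multiset.card s) := by ring
          _ ≤ T V s + (γ / 2 + γ / 2) + ε * (1 * Multiset.card s) := by
              gcongr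
              exact (by gcongr : δ' * (1 + (Multiset.card s : ℝ≥0∞)) ≤ δ' * (1 + K)).trans hδK
          _ = (T V s + γ) + ε * Multiset.card s := by rw [ENNReal.add_halves, one_mul]
          _ ≤ V s + ε * Multiset.card s := by
              gcongr
              exact hsmall s hs hcard
      · have hcard' : K < Multiset.card s := by omega
        have hcK : (K : ℝ≥0∞) ≤ Multiset.card s := by exact_mod_cast hcard'.le
        have h1c : (1 : ℝ≥0∞) ≤ Multiset.card s := by
          exact_mod_cast (by omega : 1 ≤ Multiset.card s)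
        have e1 : ε * D ≤ ε * κ * Multiset.card s / 2 := by
          calc ε * D ≤ ε * (κ * K / 2) := by gcongr
            _ ≤ ε * (κ * Multiset.card s / 2) := by gcongr
            _ = ε * κ * Multiset.card s / 2 := by
                rw [mul_div_assoc, mul_div_assoc, mul_assoc]
        have e2 : δ' * (1 + Multiset.card s) ≤ ε * κ * Multiset.card s / 2 := by
          rw [ENNReal.le_div_iff_mul_le (Or.inl (by norm_num)) (Or.inl (by norm_num))]
          calc δ' * (1 + Multiset.card s) * 2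
              ≤ δ' * (Multiset.card s + Multiset.card s) * 2 := by gcongr
            _ = δ' * 4 * Multiset.card s := by ring
            _ ≤ ε * κ * Multiset.card s := by gcongr
        calc T V s + ε * (θ * Multiset.card s + D) + δ' * (1 + Multiset.card s)
            = T V s + (ε * D + δ' * (1 + Multiset.card s)) + ε * θ * Multiset.card s := by ring
          _ ≤ V s + (ε * κ * Multiset.card s / 2 + ε * κ * Multiset.card s / 2)
                + ε * θ * Multiset.card s := by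
              gcongr
              exact hlarge s hs hcard'
          _ = V s + ε * (θ + κ) * Multiset.card s := by rw [ENNReal.add_halves]; ring
          _ = V s + ε * Multiset.card s := by rw [hθκ, mul_one]
    have hδW : δ' / 2 * (V s + ε * Multiset.card s) ≤ δ' * (1 + Multiset.card s) := by
      calc δ' / 2 * (V s + ε * Multiset.card s) ≤ δ' / 2 * (2 * (1 + Multiset.card s)) := by
            gcongr
        _ = δ' / 2 * 2 * (1 + Multiset.card s) := by ring
        _ = δ' * (1 + Multiset.card s) := by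
            rw [ENNReal.div_mul_cancel (by norm_num) (by norm_num)]
    have fin := (add_le_add (le_refl (T (fun t => V t + ε * Multiset.card t) s)) hδW).trans main
    change T (fun t => V t + ε * Multiset.card t) s ≤ (1 - δ' / 2) * (V s + ε * Multiset.card s)
    rw [ENNReal.sub_mul (fun _ _ => hWt), one_mul]
    refine ENNReal.le_sub_of_add_le_right ?_ fin
    exact ENNReal.mul_ne_top (ENNReal.div_ne_top hδt (by norm_num)) hWt

end Pool.Agent.Lib.MPba1bba.AS
end

section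
open scoped ENNReal

namespace Pool.Agent.Lib.MPba1bba.AS

open Pool.Agent.Lib.MPba1bba Vec

theorem specMOB : SpecMOB := by
  intro Y E Q R D hQ hR
  have h1 : (1 + Y) * Q = Y * R := by
    have e1 : Y * R = (Y + Y * E * Q) + Y * Q := by rw [hR]; ring
    rw [e1, ← hQ]; ring
  have h2 : R = 1 + Y + Y * E * R := by
    have e1 : 1 + Y + Y * E * R = 1 + (Y + Y * E * Q) + E * (Y + Y * E * Q) := by
      rw [hR]; ring
    rw [e1, ← hQ, hR]; ring
  have hZ : geo (Q * D) = 1 + Q * D * geo (Q * D) := geo_eq _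
  set Z := geo (Q * D) with hZdef
  have key : (1 + Y) + Y * (E + D) * (R * Z) = R * Z := by
    have e1 : (1 + Y) + Y * (E + D) * (R * Z)
        = (1 + Y) + Y * E * R * Z + (Y * R) * D * Z := by ring
    rw [e1, ← h1]
    have e2 : (1 + Y) + Y * E * R * Z + (1 + Y) * Q * D * Z
        = (1 + Y) * (1 + Q * D * Z) + Y * E * R * Z := by ring
    rw [e2, ← hZ]
    have e3 : (1 + Y) * Z + Y * E * R * Z = (1 + Y + Y * E * R) * Z := by ring
    rw [e3, ← h2]
  have first : (1 + Y) * geo (Y * (E + D)) ≤ R * Z := geo_le (le_of_eq key)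
  refine ⟨first, ?_⟩
  refine (mul_mono le_rfl first).trans (le_of_eq ?_)
  have e4 : (1 + E + D) * (R * Z) = (1 + E) * R * Z + D * R * Z := by ring
  rw [e4]
  have e5 : (1 + E) * R * Z = (1 + E) * R * (1 + Q * D * Z) := by rw [← hZ]
  rw [e5]
  have e6 : (1 + E) * R * (1 + Q * D * Z) + D * R * Z
      = (1 + E) * R + R * D * Z * (1 + Q * (1 + E)) := by ring
  rw [e6, ← hR]
  ring

end Pool.Agent.Lib.MPba1bba.AS
end

section
open scoped ENNReal

namespace Pool.Agent.Lib.MPba1bba.AS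

open Pool.Agent.Lib.MPba1bba Vec

namespace NORM

theorem le_inv_of {a b : ℝ≥0∞} (_hb0 : b ≠ 0) (_hbt : b ≠ ∞) (h : b * a ≤ 1) : a ≤ b⁻¹ := by
  rw [ENNReal.le_inv_iff_mul_le, mul_comm]; exact h

theorem theta_lt {w : ℝ≥0∞} (hw : w ≠ 0) : (1 + w)⁻¹ < 1 := by
  rw [ENNReal.inv_lt_one]
  exact ENNReal.lt_add_right ENNReal.one_ne_top hw

/-- the fixed point of `x ↦ θ x + c` -/
theorem fix_eq {θ c : ℝ≥0∞} (hθ : θ < 1) : θ * (c / (1 - θ)) + c = c / (1 - θ) := by
  have h0 : 1 - θ ≠ 0 := (tsub_pos_of_lt hθ).ne'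
  have ht : 1 - θ ≠ ∞ := ne_top_of_le_ne_top ENNReal.one_ne_top tsub_le_self
  have h1 : c = (1 - θ) * (c / (1 - θ)) := (ENNReal.mul_div_cancel h0 ht).symm
  calc θ * (c / (1 - θ)) + c = θ * (c / (1 - θ)) + (1 - θ) * (c / (1 - θ)) := by rw [← h1]
    _ = (θ + (1 - θ)) * (c / (1 - θ)) := by ring
    _ = c / (1 - θ) := by rw [add_tsub_cancel_of_le hθ.le, one_mul]

end NORM

open NORM

theorem specNOR (hNRM : SpecNRM) (hBAS : SpecBAS) (hEQT : SpecEQT) (hPSR : SpecPSR)
    (hEVA : SpecEVA) (hEVL : SpecEVL) : SpecNOR := by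
  intro p m Q E H V U hD z₀ hz₀
  have hp := hD.hp
  have hm := hD.hm
  obtain ⟨hN1, hN2, hN3, hN4, hN5, hN6, hN7⟩ := hNRM
  set i : ℝ≥0∞ := z₀⁻¹ with hi
  have hit : i ≠ ∞ := ENNReal.inv_ne_top.2 hz₀
  set θ : ℝ≥0∞ := (1 + z₀ ^ (p * m))⁻¹ with hθ
  have hθ1 : θ < 1 := theta_lt (pow_ne_zero _ hz₀)
  have hθ0 : 1 - θ ≠ 0 := (tsub_pos_of_lt hθ1).ne'
  set C₀ : ℝ≥0∞ := (1 + i) * p * (i + i * i * i) + m * ((1 + i) * i) with hC₀
  have hC₀t : C₀ ≠ ∞ := by
    rw [hC₀]
    finiteness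
  set C₁ : ℝ≥0∞ := C₀ / (1 - θ) with hC₁
  have hC₁t : C₁ ≠ ∞ := ENNReal.div_ne_top hC₀t hθ0
  set A : ℝ≥0∞ := i + C₁ with hA
  set B : ℝ≥0∞ := i + (p * i + i * i * (p * i + p * C₁)) with hB
  refine ⟨1 + A + B, ?_, ?_, ?_⟩
  · rw [hA, hB]
    finiteness
  · rw [add_assoc]; exact le_self_add
  intro z hz hz1 hG
  have hz0 : z ≠ 0 := by
    intro h; rw [h] at hz; exact hz₀ (le_antisymm hz bot_le)
  have hzt : z ≠ ∞ := (hz1.trans ENNReal.one_lt_top).ne
  obtain ⟨-, hB2, -, hB4⟩ := hBAS p m Q E H V U hD z hz0 hz1 hG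
  obtain ⟨⟨-, -, nE, -⟩, ⟨bY, bQ, bE, -, -, -, bR⟩, -⟩ := hPSR p m Q E H V U hD
  obtain ⟨hT1, hT2, hT3, hT4, hT5, -⟩ := hEQT p m Q E H V U hD z
  obtain ⟨-, -, -, -, hev5, -⟩ := hEVA
  obtain ⟨-, -, -, -, -, -, -, -, -, hBdm, hBd⟩ := hEVL p m
  obtain ⟨hYp, hYn, hYz⟩ := hN7 p z hz1.le
  have hYz := hYz hp
  set Y := ev z (serY p) with hY
  set EE := ev z E with hEE
  set R := ev z (serR Q E) with hR
  -- bounds for the masses
  have hzi : z⁻¹ ≤ i := ENNReal.inv_le_inv.2 hz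
  have hr : ms R ≤ i := by
    refine (le_inv_of hz0 hzt ?_).trans hzi
    calc z * ms R = z * ms R * 1 := (mul_one _).symm
      _ ≤ z * ms R * (1 + z ^ (p * m)) := by gcongr; exact le_self_add
      _ ≤ 1 := hB2
  have he : ms EE ≤ i := by
    refine (le_inv_of hz0 hzt ?_).trans hzi
    calc z * ms EE ≤ ms Y * ms EE := by gcongr
      _ ≤ 1 := hB4
  have hzr : z * ms R ≤ θ := by
    have h1 : (1 + z ^ (p * m)) * (z * ms R) ≤ 1 := by rw [mul_comm]; exact hB2
    have h2 : z * ms R ≤ (1 + z ^ (p * m))⁻¹ :=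
      le_inv_of (by simp) (by finiteness) h1
    refine h2.trans (ENNReal.inv_le_inv.2 ?_)
    gcongr
  -- the truncations
  have key : ∀ x : Vec, x ≤ EE →
      ms ((1 + Y) * geo (Y * x)) ≤ ms R ∧
      ms (geo (Y * x)) = 1 + ms Y * ms x * ms (geo (Y * x)) ∧
      ms ((1 + Y) * geo (Y * x)) = (1 + ms Y) * ms (geo (Y * x)) ∧
      nu ((1 + Y) * geo (Y * x)) =
        nu Y * ms (geo (Y * x)) +
          (1 + ms Y) * ((nu Y * ms x + ms Y * nu x) * ms (geo (Y * x)) ^ 2) := by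
    intro x hx
    refine ⟨?_, ?_, ?_, ?_⟩
    · rw [hT4]
      exact (hN2 _ _ (mul_mono le_rfl (geo_mono (mul_mono le_rfl hx)))).1
    · conv_lhs => rw [geo_eq (Y * x)]
      rw [(hN1 1 (Y * x * geo (Y * x))).2.2.2.2.1, hN4.1, (hN1 (Y * x) (geo (Y * x))).1,
        (hN1 Y x).1]
    · rw [(hN1 (1 + Y) (geo (Y * x))).1, (hN1 1 Y).2.2.2.2.1, hN4.1]
    · rw [(hN1 (1 + Y) (geo (Y * x))).2.1, (hN1 1 Y).2.2.2.2.1, (hN1 1 Y).2.2.2.2.2.1, hN4.1,
        hN4.2.1, (hN5 (Y * x)).2.1, (hN1 Y x).2.1, zero_add]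
  have hxE : ∀ N, evt z N E ≤ EE := fun N => ((hev5 z E).2.1 N).2
  have step : ∀ N, 2 ≤ N → nu (evt z (N + 1) E) ≤ θ * nu (evt z N E) + C₀ := by
    intro N hN
    have h1 : nu (evt z (N + 1) E) ≤ z ^ 2 * nu (Lv p m z ((1 + evt z N E) *
        ((1 + Y) * geo (Y * evt z N E)))) := by
      rw [← (hN3 (z ^ 2) _).2.1]
      refine le_trans ?_ (hN2 _ _ (hT3 N hN)).2.1
      rw [(hN1 _ _).2.2.2.2.2.1]
      exact le_self_add
    obtain ⟨k1, k2, k3, k4⟩ := key (evt z N E) (hxE N)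
    have hxe : ms (evt z N E) ≤ ms EE := (hN2 _ _ (hxE N)).1
    have bdx : Bd p (evt z N E) := (hBd z E bE).2 N
    have bd1 : Bd p (1 : Vec) := by
      intro s hs
      have : s = 0 := by
        by_contra h
        exact hs (by rw [one_co, if_neg h])
      rw [this]
      intro x hx
      simp at hx
    have bdY : Bd p Y := (hBd z (serY p) bY).1
    have bdpow : ∀ n : ℕ, Bd p ((Y * evt z N E) ^ n) := by
      intro n
      induction n with
      | zero => rw [pow_zero]; exact bd1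
      | succ n ih => rw [pow_succ]; exact (hBdm _ _ ih (hBdm _ _ bdY bdx).1).1
    have bdg : Bd p (geo (Y * evt z N E)) := by
      intro s hs
      have : ∃ n : ℕ, ((Y * evt z N E) ^ n).co s ≠ 0 := by
        by_contra h
        push Not at h
        apply hs
        change (∑' n : ℕ, ((Y * evt z N E) ^ n).co s) = 0
        simp [h]
      obtain ⟨n, hn⟩ := this
      exact bdpow n s hn
    have bdF : Bd p ((1 + evt z N E) * ((1 + Y) * geo (Y * evt z N E))) :=
      (hBdm _ _ (hBdm _ _ bd1 bdx).2 (hBdm _ _ (hBdm _ _ bd1 bdY).2 bdg).1).1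
    have h2 := (hN6 p m z _ hp hm hz1.le bdF).1
    set x := evt z N E with hx
    set g := ms (geo (Y * x)) with hg
    have hgr : g ≤ ms R := by
      refine le_trans ?_ k1
      rw [k3]
      calc g = 1 * g := (one_mul _).symm
        _ ≤ (1 + ms Y) * g := by gcongr; exact le_self_add
    have hyg : (1 + ms Y) * g ≤ ms R := by rw [← k3]; exact k1
    have h3 : nu ((1 + x) * ((1 + Y) * geo (Y * x))) ≤ ms R ^ 2 * nu x +
        (1 + i) * p * (i + i * i * i) := by
      rw [(hN1 _ _).2.1, k3, k4, (hN1 1 x).2.2.2.2.1, (hN1 1 x).2.2.2.2.2.1, hN4.1, hN4.2.1,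
        zero_add]
      have e1 : nu x * ((1 + ms Y) * g) + (1 + ms x) * (nu Y * g + (1 + ms Y) *
            ((nu Y * ms x + ms Y * nu x) * g ^ 2))
          = (1 + ms Y) * g * ((1 + ms Y * ms x * g) + ms Y * g) * nu x
            + (1 + ms x) * nu Y * (g + ((1 + ms Y) * g) * ms x * g) := by ring
      rw [e1, ← k2]
      have e2 : (1 + ms Y) * g * (g + ms Y * g) * nu x = ((1 + ms Y) * g) ^ 2 * nu x := by ring
      rw [e2]
      gcongr
      · exact hxe.trans he
      · exact hgr.trans hr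
      · exact hyg.trans hr
      · exact hxe.trans he
      · exact hgr.trans hr
    have h4 : ms ((1 + x) * ((1 + Y) * geo (Y * x))) ≤ (1 + i) * i := by
      rw [(hN1 _ _).1, (hN1 1 x).2.2.2.2.1, hN4.1]
      gcongr
      · exact hxe.trans he
      · exact k1.trans hr
    calc nu (evt z (N + 1) E) ≤ z ^ 2 * nu (Lv p m z ((1 + x) * ((1 + Y) * geo (Y * x)))) := h1
      _ ≤ z ^ 2 * ((ms R ^ 2 * nu x + (1 + i) * p * (i + i * i * i)) + m * ((1 + i) * i)) := by
          gcongr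
          exact h2.trans (by gcongr)
      _ = (z * ms R) * (z * ms R) * nu x + z ^ 2 * C₀ := by rw [hC₀]; ring
      _ ≤ θ * 1 * nu x + 1 * C₀ := by
          gcongr
          · exact hzr.trans hθ1.le
          · exact pow_le_one' hz1.le 2
      _ = θ * nu x + C₀ := by ring
  have bound : ∀ N, nu (evt z N E) ≤ C₁ := by
    have h2 : nu (evt z 2 E) ≤ C₁ := by
      rw [hT1]
      have : nu (0 : Vec) = 0 := pr_zero _
      rw [this]; exact bot_le
    have hmono : ∀ N, evt z N E ≤ evt z (N + 1) E := fun N => ((hev5 z E).2.1 N).1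
    have hge : ∀ k, nu (evt z (2 + k) E) ≤ C₁ := by
      intro k
      induction k with
      | zero => exact h2
      | succ k ih =>
        calc nu (evt z (2 + k + 1) E) ≤ θ * nu (evt z (2 + k) E) + C₀ := step _ (by omega)
          _ ≤ θ * C₁ + C₀ := by gcongr
          _ = C₁ := fix_eq hθ1
    intro N
    have : evt z N E ≤ evt z (2 + N) E := by
      have h3 : ∀ k, evt z N E ≤ evt z (N + k) E := by
        intro k
        induction k with
        | zero => exact le_rfl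
        | succ k ih => exact ih.trans (hmono _)
      rw [add_comm 2 N]
      exact h3 2
    exact (hN2 _ _ this).2.1.trans (hge N)
  have hnuE : nu EE ≤ C₁ := by
    change pr EE _ ≤ C₁
    rw [hEE, (hev5 z E).2.2]
    exact iSup_le bound
  have hnmE : nm EE ≤ A := by
    rw [(hN1 EE EE).2.2.1, hA]
    gcongr
  obtain ⟨k1, k2, k3, k4⟩ := key EE le_rfl
  set g := ms (geo (Y * EE)) with hg
  have hyg : (1 + ms Y) * g ≤ ms R := by rw [← k3]; exact k1
  have hgr : g ≤ ms R := by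
    calc g = 1 * g := (one_mul _).symm
      _ ≤ (1 + ms Y) * g := by gcongr; exact le_self_add
      _ ≤ ms R := hyg
  have hnmR : nm R ≤ B := by
    rw [(hN1 R R).2.2.1, hB]
    gcongr
    rw [show nu R = nu ((1 + Y) * geo (Y * EE)) by rw [hT4], k4]
    have e1 : nu Y * g + (1 + ms Y) * ((nu Y * ms EE + ms Y * nu EE) * g ^ 2)
        = nu Y * g + ((1 + ms Y) * g) * g * (nu Y * ms EE + ms Y * nu EE) := by ring
    rw [e1]
    gcongr
    · exact hgr.trans hr
    · exact hyg.trans hr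
    · exact hgr.trans hr
  have hQR : ev z Q ≤ R := by
    rw [hT5, hT4]
    refine mul_mono ?_ le_rfl
    intro s
    rw [add_co]
    exact le_add_self
  refine ⟨?_, ?_, ?_⟩
  · exact hnmE.trans (by rw [add_comm 1 A, add_assoc]; exact le_self_add)
  · exact hnmR.trans le_add_self
  · exact (hN2 _ _ hQR).2.2.trans (hnmR.trans le_add_self)

end Pool.Agent.Lib.MPba1bba.AS
end

section
/-!
# MP_ba1bba_al, asymptotics: norms
-/
open scoped ENNReal
open Classical

namespace Pool.Agent.Lib.MPba1bba.AS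

open Pool.Agent.Lib.MPba1bba Vec

namespace NRMM

theorem ms_mul (x y : Vec) : ms (x * y) = ms x * ms y := by
  unfold ms
  rw [pr_mul']
  have : (fun _ : Multiset ℤ => pr y (fun _ => 1)) = fun s => pr y (fun _ => 1) * (1 : ℝ≥0∞) := by
    ext s; simp
  rw [this, pr_smul', mul_comm]

theorem nu_mul (x y : Vec) : nu (x * y) = nu x * ms y + ms x * nu y := by
  unfold nu ms
  rw [pr_mul']
  have : (fun s : Multiset ℤ => pr y (fun t => (Multiset.card (s + t) : ℝ≥0∞))) =
      fun s => pr y (fun _ => 1) * (Multiset.card s : ℝ≥0∞)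
        + pr y (fun t => (Multiset.card t : ℝ≥0∞)) * (1 : ℝ≥0∞) := by
    ext s
    have h1 : (fun t : Multiset ℤ => (Multiset.card (s + t) : ℝ≥0∞)) =
        fun t => (Multiset.card s : ℝ≥0∞) * (1 : ℝ≥0∞) + (Multiset.card t : ℝ≥0∞) := by
      ext t; simp
    rw [h1, pr_add', pr_smul']
    ring
  rw [this, pr_add', pr_smul', pr_smul']
  ring

theorem nm_eq (x : Vec) : nm x = ms x + nu x := by
  unfold nm ms nu
  rw [pr_add']

theorem nm_mul (x y : Vec) : nm (x * y) ≤ nm x * nm y := by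
  rw [nm_eq, nm_eq, nm_eq, ms_mul, nu_mul]
  calc ms x * ms y + (nu x * ms y + ms x * nu y)
      ≤ ms x * ms y + (nu x * ms y + ms x * nu y) + nu x * nu y := le_self_add
    _ = _ := by ring

theorem ms_one : ms 1 = 1 := by unfold ms; rw [pr_one]
theorem nu_one : nu 1 = 0 := by unfold nu; rw [pr_one]; simp
theorem nm_one : nm 1 = 1 := by rw [nm_eq, ms_one, nu_one]; simp

theorem ms_pow (x : Vec) (n : ℕ) : ms (x ^ n) = ms x ^ n := by
  induction n with
  | zero => simp [ms_one]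
  | succ n ih => rw [pow_succ, pow_succ, ms_mul, ih]

theorem nm_pow (x : Vec) (n : ℕ) : nm (x ^ n) ≤ nm x ^ n := by
  induction n with
  | zero => simp [nm_one]
  | succ n ih =>
    rw [pow_succ, pow_succ]
    exact (nm_mul _ _).trans (mul_le_mul' ih le_rfl)

theorem nu_pow (x : Vec) (n : ℕ) : nu (x ^ (n + 1)) = (n + 1) * ms x ^ n * nu x := by
  induction n with
  | zero => simp
  | succ n ih =>
    rw [pow_succ, nu_mul, ih, ms_pow]
    push_cast
    ring

theorem sq_geom (a : ℝ≥0∞) : (∑' n : ℕ, a ^ n) ^ 2 = ∑' n : ℕ, (n + 1) * a ^ n := by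
  rw [pow_two, ← ENNReal.tsum_mul_right]
  have h1 : ∑' i : ℕ, a ^ i * ∑' n : ℕ, a ^ n = ∑' i : ℕ, ∑' j : ℕ, a ^ (i + j) := by
    refine tsum_congr fun i => ?_
    rw [← ENNReal.tsum_mul_left]
    exact tsum_congr fun j => by rw [pow_add]
  rw [h1, ← ENNReal.tsum_prod (f := fun i j => a ^ (i + j)),
    ← Finset.HasAntidiagonal.sigmaAntidiagonalEquivProd.tsum_eq, ENNReal.tsum_sigma']
  refine tsum_congr fun n => ?_
  rw [tsum_fintype]
  have : ∀ b : Finset.HasAntidiagonal.antidiagonal n,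
      a ^ ((Finset.HasAntidiagonal.sigmaAntidiagonalEquivProd ⟨n, b⟩).1 + (Finset.HasAntidiagonal.sigmaAntidiagonalEquivProd ⟨n, b⟩).2)
        = a ^ n := by
    intro b
    have := Finset.HasAntidiagonal.mem_antidiagonal.1 b.2
    rw [Finset.HasAntidiagonal.sigmaAntidiagonalEquivProd_apply, this]
  rw [Finset.sum_congr rfl fun b _ => this b]
  simp

theorem ms_geo (x : Vec) : ms (geo x) = ∑' n : ℕ, ms x ^ n := by
  unfold ms
  rw [pr_geo]
  exact tsum_congr fun n => ms_pow x n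

theorem nu_geo (x : Vec) : nu (geo x) = nu x * ms (geo x) ^ 2 := by
  rw [ms_geo, sq_geom]
  have : nu (geo x) = ∑' n : ℕ, nu (x ^ n) := by
    unfold nu
    rw [pr_geo]
  rw [this, tsum_eq_zero_add' ENNReal.summable, pow_zero, nu_one, zero_add, ← ENNReal.tsum_mul_left]
  refine tsum_congr fun n => ?_
  rw [nu_pow]
  ring

theorem nm_geo (x : Vec) : nm (geo x) ≤ ∑' n : ℕ, nm x ^ n := by
  have : nm (geo x) = ∑' n : ℕ, nm (x ^ n) := by
    unfold nm
    rw [pr_geo]
  rw [this]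
  exact ENNReal.tsum_le_tsum fun n => nm_pow x n

theorem pr_le_of_supp {x : Vec} {f g : Fn} (h : ∀ s, x.co s ≠ 0 → f s ≤ g s) : pr x f ≤ pr x g := by
  unfold pr
  refine ENNReal.tsum_le_tsum fun s => ?_
  by_cases hs : x.co s = 0
  · simp [hs]
  · exact mul_le_mul' le_rfl (h s hs)

theorem ms_Lv (hE : SpecEVL) {p m : ℕ} {z : ℝ≥0∞} (hz : z ≤ 1) (x : Vec) :
    ms (Lv p m z x) ≤ m * ms x := by
  unfold ms
  rw [(hE p m).2.2.2.2.1 z x]
  have h : ∀ s, Ld p m z (fun _ => 1) s ≤ (m : ℝ≥0∞) * 1 := by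
    intro s
    unfold Ld
    calc ∑ r ∈ Finset.range m, z ^ cmin p m s r * 1 ≤ ∑ r ∈ Finset.range m, (1 : ℝ≥0∞) := by
          refine Finset.sum_le_sum fun r _ => ?_
          rw [mul_one]
          exact pow_le_one' hz _
      _ = (m : ℝ≥0∞) * 1 := by simp
  refine (pr_mono le_rfl h).trans ?_
  rw [pr_smul']

theorem nu_Lv (hS : SpecSMC) (hE : SpecEVL) {p m : ℕ} (hp : 2 ≤ p) (hm : 2 ≤ m) {z : ℝ≥0∞} (hz : z ≤ 1)
    {x : Vec} (hx : Bd p x) : nu (Lv p m z x) ≤ nu x + m * ms x := by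
  unfold nu ms
  rw [(hE p m).2.2.2.2.1 z x]
  have h : ∀ s, x.co s ≠ 0 → Ld p m z (fun s => (Multiset.card s : ℝ≥0∞)) s
      ≤ (Multiset.card s : ℝ≥0∞) + (m : ℝ≥0∞) * 1 := by
    intro s hs
    have h4 := (hS p m hp hm).2.2.2.1 s (hx s hs)
    unfold Ld
    calc ∑ r ∈ Finset.range m, z ^ cmin p m s r * (Multiset.card (sml p m s r) : ℝ≥0∞)
        ≤ ∑ r ∈ Finset.range m, (Multiset.card (sml p m s r) : ℝ≥0∞) := by
          refine Finset.sum_le_sum fun r _ => ?_
          calc z ^ cmin p m s r * (Multiset.card (sml p m s r) : ℝ≥0∞)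
              ≤ 1 * (Multiset.card (sml p m s r) : ℝ≥0∞) := mul_le_mul' (pow_le_one' hz _) le_rfl
            _ = _ := one_mul _
      _ = ((∑ r ∈ Finset.range m, Multiset.card (sml p m s r) : ℕ) : ℝ≥0∞) := by push_cast; rfl
      _ ≤ ((Multiset.card s + m : ℕ) : ℝ≥0∞) := by exact_mod_cast h4
      _ = _ := by push_cast; ring
  refine (pr_le_of_supp h).trans ?_
  rw [pr_add', pr_smul']

theorem pr_Y (p : ℕ) (z : ℝ≥0∞) (f : Fn) : pr (ev z (serY p)) f =
    ∑ i ∈ Finset.Ioo 0 p, z ^ (min i (p - i)) * f ({2 * (i : ℤ) - p} : Multiset ℤ) := by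
  have h1 : ∀ n s, (((PowerSeries.coeff n (serY p)).coeff s).toNat : ℝ≥0∞) =
      ∑ i ∈ Finset.Ioo 0 p, if n = min i (p - i) then
        (if ({2 * (i : ℤ) - p} : Multiset ℤ) = s then (1 : ℝ≥0∞) else 0) else 0 := by
    intro n s
    have h2 : (PowerSeries.coeff n (serY p)).coeff s =
        ((∑ i ∈ Finset.Ioo 0 p, if n = min i (p - i) then
          (if ({2 * (i : ℤ) - p} : Multiset ℤ) = s then 1 else 0) else 0 : ℕ) : ℤ) := by
      unfold serY
      rw [map_sum, AddMonoidAlgebra.coeff_sum, Finsupp.finsetSum_apply]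
      push_cast
      refine Finset.sum_congr rfl fun i _ => ?_
      rw [PowerSeries.coeff_monomial]
      split_ifs with h3 h4
      · subst h4
        rw [AddMonoidAlgebra.coeff_single, Finsupp.single_eq_same]
      · rw [AddMonoidAlgebra.coeff_single, Finsupp.single_apply, if_neg h4]
      · rfl
    rw [h2, Int.toNat_natCast]
    push_cast
    refine Finset.sum_congr rfl fun i _ => ?_
    split_ifs <;> simp
  unfold pr ev
  simp only [h1]
  have h3 : ∀ s : Multiset ℤ, (∑' n : ℕ, z ^ n * ∑ i ∈ Finset.Ioo 0 p, (if n = min i (p - i) then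
        (if ({2 * (i : ℤ) - p} : Multiset ℤ) = s then (1 : ℝ≥0∞) else 0) else 0)) =
      ∑ i ∈ Finset.Ioo 0 p, z ^ (min i (p - i)) *
        (if ({2 * (i : ℤ) - p} : Multiset ℤ) = s then (1 : ℝ≥0∞) else 0) := by
    intro s
    simp only [Finset.mul_sum]
    rw [Summable.tsum_finsetSum (fun i _ => ENNReal.summable)]
    refine Finset.sum_congr rfl fun i _ => ?_
    rw [tsum_eq_single (min i (p - i))]
    · simp
    · intro n hn
      rw [if_neg hn, mul_zero]
  simp only [h3, Finset.sum_mul]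
  rw [Summable.tsum_finsetSum (fun i _ => ENNReal.summable)]
  refine Finset.sum_congr rfl fun i _ => ?_
  rw [tsum_eq_single ({2 * (i : ℤ) - p} : Multiset ℤ)]
  · simp
  · intro s hs
    rw [if_neg (fun h => hs h.symm)]
    simp

end NRMM

open NRMM in
theorem specNRM (hSMC : SpecSMC) (hEVL : SpecEVL) : SpecNRM := by
  refine ⟨?_, ?_, ?_, ⟨ms_one, nu_one, nm_one⟩, ?_, ?_, ?_⟩
  · intro x y
    refine ⟨ms_mul x y, nu_mul x y, nm_eq x, nm_mul x y, pr_add _ _ _, pr_add _ _ _, pr_add _ _ _⟩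
  · intro x y h
    exact ⟨pr_mono h fun _ => le_rfl, pr_mono h fun _ => le_rfl, pr_mono h fun _ => le_rfl⟩
  · intro c x
    exact ⟨smul_pr _ _ _, smul_pr _ _ _, smul_pr _ _ _⟩
  · intro x
    exact ⟨ms_geo x, nu_geo x, nm_geo x⟩
  · intro p m z x hp hm hz hx
    refine ⟨nu_Lv hSMC hEVL hp hm hz hx, ms_Lv hEVL hz x, ?_⟩
    rw [nm_eq, nm_eq]
    have h1 := nu_Lv hSMC hEVL hp hm hz hx
    have h2 := ms_Lv hEVL (p := p) (m := m) hz x
    have hm1 : (1 : ℝ≥0∞) ≤ 2 * m := by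
      have : 1 ≤ 2 * m := by omega
      exact_mod_cast this
    calc ms (Lv p m z x) + nu (Lv p m z x) ≤ m * ms x + (nu x + m * ms x) := add_le_add h2 h1
      _ = 2 * m * ms x + 1 * nu x := by ring
      _ ≤ 2 * m * ms x + 2 * m * nu x := by gcongr
      _ = 2 * m * (ms x + nu x) := by ring
  · intro p z hz
    have hle : ∑ i ∈ Finset.Ioo 0 p, z ^ (min i (p - i)) ≤ (p : ℝ≥0∞) := by
      calc ∑ i ∈ Finset.Ioo 0 p, z ^ (min i (p - i)) ≤ ∑ i ∈ Finset.Ioo 0 p, (1 : ℝ≥0∞) :=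
            Finset.sum_le_sum fun i _ => pow_le_one' hz _
        _ = ((p - 0 - 1 : ℕ) : ℝ≥0∞) := by simp
        _ ≤ (p : ℝ≥0∞) := by
            have : p - 0 - 1 ≤ p := by omega
            exact_mod_cast this
    refine ⟨?_, ?_, ?_⟩
    · unfold ms
      rw [pr_Y]
      simpa using hle
    · unfold nu
      rw [pr_Y]
      simpa using hle
    · intro hp
      unfold ms
      rw [pr_Y]
      have h1 : (1 : ℕ) ∈ Finset.Ioo 0 p := Finset.mem_Ioo.2 ⟨by omega, by omega⟩
      refine le_trans ?_ (Finset.single_le_sum (f := fun i : ℕ => z ^ (min i (p - i)) * (1 : ℝ≥0∞))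
        (fun _ _ => bot_le) h1)
      have : min 1 (p - 1) = 1 := by omega
      simp [this]

end Pool.Agent.Lib.MPba1bba.AS
end

section
/-!
# MP_ba1bba_al, AS: the module OMG (the growth rate)
-/
open scoped Topology
open Filter

namespace Pool.Agent.Lib.MPba1bba.AS

theorem specOMG : SpecOMG := by
  intro S z₀ r C C' K hS hz0 hz1 hzr hC h
  set w : ℝ := z₀⁻¹ with hw
  have hw0 : 0 < w := by positivity
  have hw1 : 1 ≤ w := (one_le_inv₀ hz0).2 hz1.le
  have hr0 : 0 < r := hz0.trans hzr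
  have hrw : r⁻¹ ≤ w := inv_anti₀ hz0 hzr.le
  have hri : 0 < r⁻¹ := by positivity
  have hK : 0 ≤ K := by
    have := (abs_nonneg _).trans (h 0)
    simpa using this
  have hKn : ∀ n : ℕ, K * (r⁻¹) ^ n ≤ K * w ^ n := fun n =>
    mul_le_mul_of_nonneg_left (pow_le_pow_left₀ hri.le hrw n) hK
  set M : ℝ := C + |C'| + K with hM
  have hM0 : 0 < M := by positivity
  -- upper bound
  have hub : ∀ n : ℕ, ∑ k ∈ Finset.range (n + 1), S k ≤ M * ((n : ℝ) + 1) ^ (2 : ℝ) * w ^ n := by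
    intro n
    have h1 : ∀ k ∈ Finset.range (n + 1), S k ≤ M * ((n : ℝ) + 1) * w ^ n := by
      intro k hk
      have hkn : k ≤ n := by simpa [Nat.lt_succ_iff] using hk
      have h2 := (abs_le.1 (h k)).2
      have h3 := hKn k
      have h4 : w ^ k ≤ w ^ n := pow_le_pow_right₀ hw1 hkn
      have h5 : (k : ℝ) ≤ n := by exact_mod_cast hkn
      have h6 : C * k + C' + K ≤ M * ((n : ℝ) + 1) := by
        have h7 : C' ≤ |C'| := le_abs_self _
        have h8 : C * k ≤ C * n := mul_le_mul_of_nonneg_left h5 hC.le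
        have h9 : (0 : ℝ) ≤ n := Nat.cast_nonneg n
        have h10 : 0 ≤ |C'| := abs_nonneg _
        rw [hM]
        nlinarith [mul_nonneg h10 h9, mul_nonneg hK h9]
      calc S k ≤ (C * k + C' + K) * w ^ k := by nlinarith
        _ ≤ (M * ((n : ℝ) + 1)) * w ^ k := mul_le_mul_of_nonneg_right h6 (by positivity)
        _ ≤ (M * ((n : ℝ) + 1)) * w ^ n := mul_le_mul_of_nonneg_left h4 (by positivity)
    refine (Finset.sum_le_sum h1).trans (le_of_eq ?_)
    rw [Finset.sum_const, Finset.card_range, nsmul_eq_mul, Real.rpow_two]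
    push_cast
    ring
  -- lower bound
  have hlb : ∀ᶠ n : ℕ in atTop, w ^ n ≤ ∑ k ∈ Finset.range (n + 1), S k := by
    have h1 : Tendsto (fun n : ℕ => C * (n : ℝ) + (C' - K)) atTop atTop :=
      tendsto_atTop_add_const_right _ _ ((tendsto_natCast_atTop_atTop).const_mul_atTop hC)
    filter_upwards [h1.eventually_ge_atTop 1] with n hn
    have h2 := (abs_le.1 (h n)).1
    have h3 := hKn n
    have h4 : S n ≤ ∑ k ∈ Finset.range (n + 1), S k :=
      Finset.single_le_sum (fun k _ => hS k) (Finset.self_mem_range_succ n)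
    have h5 : w ^ n ≤ (C * n + (C' - K)) * w ^ n := le_mul_of_one_le_left (by positivity) hn
    nlinarith
  -- the roots
  have hlim : Tendsto (fun n : ℕ => M ^ (1 / (n : ℝ)) * ((n : ℝ) + 1) ^ (2 / (n : ℝ)) * w) atTop
      (𝓝 (1 / z₀)) := by
    have h1 : Tendsto (fun n : ℕ => M ^ (1 / (n : ℝ))) atTop (𝓝 1) := by
      have := (tendsto_const_nhds (x := M)).rpow tendsto_one_div_atTop_nhds_zero_nat
        (Or.inl hM0.ne')
      rwa [Real.rpow_zero] at this
    have h2 : Tendsto (fun n : ℕ => ((n : ℝ) + 1) ^ (2 / (n : ℝ))) atTop (𝓝 1) := by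
      have h3 := tendsto_rpow_div_mul_add 2 1 (-1) (by norm_num)
      have h4 : Tendsto (fun n : ℕ => (n : ℝ) + 1) atTop atTop :=
        tendsto_atTop_add_const_right _ _ tendsto_natCast_atTop_atTop
      refine (h3.comp h4).congr fun n => ?_
      simp only [Function.comp]
      congr 2
      ring
    have h5 := (h1.mul h2).mul_const w
    rw [one_mul, one_mul, hw, ← one_div] at h5
    rw [hw]
    rw [one_div] at h5 ⊢
    exact h5
  have hlow : Tendsto (fun _ : ℕ => w) atTop (𝓝 (1 / z₀)) := by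
    rw [one_div]
    exact tendsto_const_nhds
  refine tendsto_of_tendsto_of_tendsto_of_le_of_le' hlow hlim ?_ ?_
  · filter_upwards [hlb, eventually_ne_atTop 0] with n hn hn0
    calc w = (w ^ n) ^ (1 / (n : ℝ)) := by
          rw [one_div, Real.pow_rpow_inv_natCast hw0.le hn0]
      _ ≤ _ := Real.rpow_le_rpow (by positivity) hn (by positivity)
  · filter_upwards [eventually_ne_atTop 0] with n hn0
    refine (Real.rpow_le_rpow (Finset.sum_nonneg fun k _ => hS k) (hub n)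
      (by positivity)).trans (le_of_eq ?_)
    rw [Real.mul_rpow (by positivity) (by positivity), Real.mul_rpow (by positivity) (by positivity),
      one_div, Real.pow_rpow_inv_natCast hw0.le hn0, ← Real.rpow_mul (by positivity), div_eq_mul_inv]

end Pool.Agent.Lib.MPba1bba.AS
end

section
open scoped ENNReal

namespace Pool.Agent.Lib.MPba1bba.AS

open Pool.Agent.Lib.MPba1bba Vec

namespace PRTM

theorem pow_bound {z z' l : ℝ≥0∞} (hl : 1 ≤ l) (h : z' ≤ l * z) {c N : ℕ} (hc : c ≤ N) :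
    z' ^ c ≤ l ^ N * z ^ c := by
  calc z' ^ c ≤ (l * z) ^ c := pow_le_pow_left' h c
    _ = l ^ c * z ^ c := mul_pow _ _ _
    _ ≤ l ^ N * z ^ c := by
        gcongr

end PRTM

open PRTM

open Classical in
theorem specPRT (hSMC : SpecSMC) : SpecPRT := by
  intro p m z z' l hp hm hl h
  obtain ⟨_, hc, _⟩ := hSMC p m hp hm
  refine ⟨?_, ?_, ?_⟩
  · intro x hx t
    change (∑' s, ∑ r ∈ Finset.range m,
        if sml p m s r = t then x.co s * z' ^ cmin p m s r else 0) ≤
      l ^ (p * m) * ∑' s, ∑ r ∈ Finset.range m,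
        if sml p m s r = t then x.co s * z ^ cmin p m s r else 0
    rw [← ENNReal.tsum_mul_left]
    refine ENNReal.tsum_le_tsum fun s => ?_
    rw [Finset.mul_sum]
    refine Finset.sum_le_sum fun r hr => ?_
    split_ifs
    · by_cases hs : x.co s = 0
      · simp [hs]
      · calc x.co s * z' ^ cmin p m s r ≤ x.co s * (l ^ (p * m) * z ^ cmin p m s r) := by
              gcongr
              exact pow_bound hl h (hc s r (hx s hs) (Finset.mem_range.1 hr))
          _ = l ^ (p * m) * (x.co s * z ^ cmin p m s r) := by ring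
    · simp
  · intro s
    change (∑' n : ℕ, z' ^ n * (((PowerSeries.coeff n (serY p)).coeff s).toNat : ℝ≥0∞)) ≤
      l ^ (p * m) * ∑' n : ℕ, z ^ n * (((PowerSeries.coeff n (serY p)).coeff s).toNat : ℝ≥0∞)
    rw [← ENNReal.tsum_mul_left]
    refine ENNReal.tsum_le_tsum fun n => ?_
    by_cases hn : n ≤ p * m
    · calc z' ^ n * _ ≤ (l ^ (p * m) * z ^ n) *
            (((PowerSeries.coeff n (serY p)).coeff s).toNat : ℝ≥0∞) := by
            gcongr
            exact pow_bound hl h hn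
        _ = _ := by ring
    · have h0 : PowerSeries.coeff n (serY p) = 0 := by
        unfold serY
        rw [map_sum]
        refine Finset.sum_eq_zero fun i hi => ?_
        rw [PowerSeries.coeff_monomial, if_neg]
        intro he
        rw [Finset.mem_Ioo] at hi
        have h1 : n ≤ p := by omega
        have h2 : p ≤ p * m := Nat.le_mul_of_pos_right p (by omega)
        omega
      rw [h0]
      simp
  · calc z' ≤ l * z := h
      _ = l ^ 1 * z := by rw [pow_one]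
      _ ≤ l ^ (p * m) * z := by
          gcongr
          exact Nat.one_le_iff_ne_zero.2 (by positivity)

end Pool.Agent.Lib.MPba1bba.AS
end

section
/-!
# MP_ba1bba_al, asymptotics: common lemmas for PTE and PTV
-/
set_option autoImplicit false

open scoped ENNReal
open Classical

namespace Pool.Agent.Lib.MPba1bba.AS.PTXC

open Pool.Agent.Lib.MPba1bba Vec

theorem bs_zero (p : ℕ) : bs p 0 := fun x hx => absurd hx (Multiset.notMem_zero x)

theorem Bd_one (p : ℕ) : Bd p 1 := by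
  intro s hs
  rw [one_co] at hs
  by_cases h : s = 0
  · rw [h]
    exact bs_zero p
  · rw [if_neg h] at hs
    exact absurd rfl hs

theorem Bd_smul {p : ℕ} {x : Vec} (c : ℝ≥0∞) (h : Bd p x) : Bd p (c • x) := by
  intro s hs
  refine h s fun h0 => hs ?_
  rw [smul_co, h0, mul_zero]

theorem Bd_mono {p : ℕ} {x y : Vec} (hxy : x ≤ y) (h : Bd p y) : Bd p x := by
  intro s hs
  refine h s fun h0 => hs ?_
  have h1 := hxy s
  rw [h0] at h1
  exact le_antisymm h1 bot_le

theorem sb_le (x y : Vec) : sb x y ≤ x := fun _ => tsub_le_self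

theorem le_add_sb (x y : Vec) : x ≤ y + sb x y := fun _ => le_add_tsub

theorem Bd_pow {p : ℕ} (hmul : ∀ x y : Vec, Bd p x → Bd p y → Bd p (x * y)) {x : Vec} (h : Bd p x)
    (n : ℕ) : Bd p (x ^ n) := by
  induction n with
  | zero => rw [pow_zero]; exact Bd_one p
  | succ n ih => rw [pow_succ]; exact hmul _ _ ih h

theorem Bd_geo {p : ℕ} (hmul : ∀ x y : Vec, Bd p x → Bd p y → Bd p (x * y)) {x : Vec}
    (h : Bd p x) : Bd p (geo x) := by
  intro s hs
  by_contra hb
  apply hs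
  change ∑' n : ℕ, (x ^ n).co s = 0
  rw [ENNReal.tsum_eq_zero]
  intro n
  by_contra hn
  exact hb (Bd_pow hmul h n s hn)

theorem pr_mono_bd {p : ℕ} {R : Vec} (hR : Bd p R) {f g : Fn} (h : ∀ c, bs p c → f c ≤ g c) :
    pr R f ≤ pr R g := by
  refine ENNReal.tsum_le_tsum fun c => ?_
  by_cases hc : R.co c = 0
  · rw [hc, zero_mul, zero_mul]
  · exact mul_le_mul' le_rfl (h c (hR c hc))

theorem pr_le_nm {p : ℕ} {W : Fn} (hW : ∀ s, bs p s → W s ≤ 2 * (1 + (Multiset.card s : ℝ≥0∞)))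
    {x : Vec} (hx : Bd p x) : pr x W ≤ 2 * nm x := by
  refine (pr_mono_bd hx hW).trans (le_of_eq ?_)
  exact pr_smul' 2 x _

theorem nm_le_pr {p : ℕ} {W : Fn} {ε : ℝ≥0∞}
    (hW : ∀ s, bs p s → ε * (1 + (Multiset.card s : ℝ≥0∞)) ≤ W s)
    {x : Vec} (hx : Bd p x) : ε * nm x ≤ pr x W := by
  refine le_trans (le_of_eq ?_) (pr_mono_bd hx hW)
  exact (pr_smul' ε x _).symm

theorem smul_add_vec (c : ℝ≥0∞) (x y : Vec) : c • (x + y) = c • x + c • y := smul_add c x y

/-- `(1 + η)(E + D) = E + ((1 + η) D + η E)` -/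
theorem shift_eq (η : ℝ≥0∞) (E D : Vec) :
    (1 + η) • (E + D) = E + ((1 + η) • D + η • E) := by
  rw [smul_add, add_smul 1 η E, one_smul]
  abel

theorem le_shift (η : ℝ≥0∞) (E D : Vec) : D ≤ (1 + η) • D + η • E := by
  intro s
  rw [add_co, smul_co]
  refine le_trans ?_ le_self_add
  calc D.co s = 1 * D.co s := (one_mul _).symm
    _ ≤ (1 + η) * D.co s := mul_le_mul' le_self_add le_rfl

/-- Comparison of the two Neumann series. -/
theorem ser_bound {Y Y' E D x : Vec} {η : ℝ≥0∞} (hY : Y' ≤ (1 + η) • Y) (hx : x ≤ E + D) :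
    (1 + Y') * geo (Y' * x) ≤
      (1 + η) • ((1 + Y) * geo (Y * (E + ((1 + η) • D + η • E)))) := by
  have h1 : (1 + Y' : Vec) ≤ (1 + η) • (1 + Y) := by
    rw [smul_add]
    refine add_mono ?_ hY
    intro s
    rw [smul_co]
    calc (1 : Vec).co s = 1 * (1 : Vec).co s := (one_mul _).symm
      _ ≤ (1 + η) * (1 : Vec).co s := mul_le_mul' le_self_add le_rfl
  have h2 : Y' * x ≤ Y * (E + ((1 + η) • D + η • E)) := by
    refine (mul_mono hY hx).trans (le_of_eq ?_)
    rw [smul_mul_assoc, ← mul_smul_comm, shift_eq]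
  refine (mul_mono h1 (geo_mono h2)).trans (le_of_eq ?_)
  rw [smul_mul_assoc]

theorem nm_geo_le {x : Vec} (hN : nm (geo x) ≤ ∑' n : ℕ, nm x ^ n) (hx : nm x ≤ 1 / 2) :
    nm (geo x) ≤ 2 := by
  refine hN.trans ?_
  calc ∑' n : ℕ, nm x ^ n ≤ ∑' n : ℕ, (1 / 2 : ℝ≥0∞) ^ n :=
        ENNReal.tsum_le_tsum fun n => pow_le_pow_left' hx n
    _ = 2 := by
        rw [ENNReal.tsum_geometric, one_div, ENNReal.one_sub_inv_two, inv_inv]

/-- Duality for the operator `a L(R x)`. -/
theorem pr_opv {p m : ℕ} (hL : ∀ (z : ℝ≥0∞) (x : Vec) (f : Fn), pr (Lv p m z x) f = pr x (Ld p m z f))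
    (z a : ℝ≥0∞) (R x : Vec) (W : Fn) :
    pr (a • Lv p m z (R * x)) W = pr x (opd p m z a R W) := by
  rw [smul_pr, hL, mul_comm R x, pr_mul']
  have : opd p m z a R W = fun s => a * pr R (fun c => Ld p m z W (s + c)) := rfl
  rw [this, pr_smul']

open Classical in
theorem co_eq_pr (x : Vec) (u : Multiset ℤ) : x.co u = pr x (fun s => if s = u then 1 else 0) := by
  unfold pr
  rw [tsum_eq_single u]
  · simp
  · intro v hv
    simp [hv]

/-- Monotone convergence for truncated differences. -/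
theorem pr_sb_le {x : Vec} {y : ℕ → Vec} {e : Vec} (hmono : ∀ N, y N ≤ y (N + 1))
    (hsup : ∀ f : Fn, pr x f = ⨆ N, pr (y N) f) {f : Fn} {C : ℝ≥0∞}
    (h : ∀ N, pr (sb (y N) e) f ≤ C) : pr (sb x e) f ≤ C := by
  have hm : Monotone y := monotone_nat_of_le_succ hmono
  unfold pr
  rw [ENNReal.tsum_eq_iSup_sum]
  refine iSup_le fun T => ?_
  have h1 : ∀ s, (sb x e).co s * f s = ⨆ N, (sb (y N) e).co s * f s := by
    intro s
    have h2 : x.co s = ⨆ N, (y N).co s := by
      rw [co_eq_pr, hsup]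
      exact iSup_congr fun N => (co_eq_pr (y N) s).symm
    change (x.co s - e.co s) * f s = ⨆ N, ((y N).co s - e.co s) * f s
    rw [h2, ENNReal.iSup_sub, ENNReal.iSup_mul]
  rw [Finset.sum_congr rfl fun s _ => h1 s, ENNReal.finsetSum_iSup_of_monotone]
  · refine iSup_le fun N => ?_
    refine le_trans ?_ (h N)
    exact ENNReal.sum_le_tsum T
  · intro s N N' hN
    exact mul_le_mul' (tsub_le_tsub_right (hm hN s) _) le_rfl

end Pool.Agent.Lib.MPba1bba.AS.PTXC
end

section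
/-!
# MP_ba1bba_al, asymptotics: PTE (perturbation of `E`)
-/
set_option autoImplicit false

open scoped ENNReal
open Classical

namespace Pool.Agent.Lib.MPba1bba.AS.PTEM

open Pool.Agent.Lib.MPba1bba Vec PTXC

theorem real_consts (n : ℕ) (k e dl t : ℝ) (hk : 1 ≤ k) (he : 0 < e) (he1 : e ≤ 1) (hd : 0 < dl)
    (hd1 : dl < 1) (ht : 0 < t) (htk : 32 * k * t ≤ dl * e) :
    ∃ l : ℝ, 1 < l ∧ k * (l ^ n * t + (l ^ n - 1) * k) ≤ 1 / 2 ∧
      ((l ^ n) ^ 4 - 1) * (2 * (k + 1)) + (l ^ n) ^ 4 * ((1 - dl) *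
        (l ^ n * (e * t) + (l ^ n - 1) * (2 * k) + 4 * k * (l ^ n * t + (l ^ n - 1) * k) ^ 2)) ≤
        e * t := by
  have hkt : k * t ≤ 1 / 32 := by nlinarith [mul_le_mul hd1.le he1 he.le (by norm_num : (0:ℝ) ≤ 1)]
  have h1 : ∀ᶠ l in nhds (1 : ℝ), k * (l ^ n * t + (l ^ n - 1) * k) < 1 / 2 := by
    have hc : Continuous fun l : ℝ => k * (l ^ n * t + (l ^ n - 1) * k) := by fun_prop
    have h2 : k * ((1 : ℝ) ^ n * t + ((1 : ℝ) ^ n - 1) * k) < 1 / 2 := by
      rw [one_pow]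
      nlinarith
    exact hc.continuousAt.eventually_lt_const h2
  have h2 : ∀ᶠ l in nhds (1 : ℝ), ((l ^ n) ^ 4 - 1) * (2 * (k + 1)) + (l ^ n) ^ 4 * ((1 - dl) *
        (l ^ n * (e * t) + (l ^ n - 1) * (2 * k) + 4 * k * (l ^ n * t + (l ^ n - 1) * k) ^ 2)) <
        e * t := by
    have hc : Continuous fun l : ℝ => ((l ^ n) ^ 4 - 1) * (2 * (k + 1)) + (l ^ n) ^ 4 * ((1 - dl) *
        (l ^ n * (e * t) + (l ^ n - 1) * (2 * k) + 4 * k * (l ^ n * t + (l ^ n - 1) * k) ^ 2)) := by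
      fun_prop
    have h3 : (((1 : ℝ) ^ n) ^ 4 - 1) * (2 * (k + 1)) + ((1 : ℝ) ^ n) ^ 4 * ((1 - dl) *
        ((1 : ℝ) ^ n * (e * t) + ((1 : ℝ) ^ n - 1) * (2 * k) +
          4 * k * ((1 : ℝ) ^ n * t + ((1 : ℝ) ^ n - 1) * k) ^ 2)) < e * t := by
      simp only [one_pow, sub_self, zero_mul, one_mul, add_zero, zero_add]
      have h4 : 4 * k * t ^ 2 ≤ dl * e / 8 * t := by nlinarith
      have h5 : (1 - dl) * (e * t + 4 * k * t ^ 2) ≤ (1 - dl) * (e * t + dl * e / 8 * t) :=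
        mul_le_mul_of_nonneg_left (by linarith) (by linarith)
      have h6 : (1 - dl) * (e * t + dl * e / 8 * t) = (1 - dl) * (1 + dl / 8) * (e * t) := by ring
      have h7 : (1 - dl) * (1 + dl / 8) < 1 := by nlinarith
      have h8 : 0 < e * t := mul_pos he ht
      nlinarith
    exact hc.continuousAt.eventually_lt_const h3
  have h3 : ∀ᶠ l in nhdsWithin (1 : ℝ) (Set.Ioi 1),
      (k * (l ^ n * t + (l ^ n - 1) * k) < 1 / 2 ∧
      ((l ^ n) ^ 4 - 1) * (2 * (k + 1)) + (l ^ n) ^ 4 * ((1 - dl) *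
        (l ^ n * (e * t) + (l ^ n - 1) * (2 * k) + 4 * k * (l ^ n * t + (l ^ n - 1) * k) ^ 2)) <
        e * t) ∧ l ∈ Set.Ioi (1 : ℝ) :=
    ((h1.and h2).filter_mono nhdsWithin_le_nhds).and self_mem_nhdsWithin
  obtain ⟨l, ⟨h4, h5⟩, h6⟩ := h3.exists
  exact ⟨l, h6, h4.le, h5.le⟩

theorem consts (n : ℕ) (ε δ K ρ₀ : ℝ≥0∞) (he : 0 < ε) (he1 : ε ≤ 1) (hd : 0 < δ) (hd1 : δ < 1)
    (hK : 1 ≤ K) (hKt : K ≠ ∞) (hρ : 0 < ρ₀) :
    ∃ l t η η₄ : ℝ≥0∞, 1 < l ∧ l ≠ ∞ ∧ t ≤ ρ₀ ∧ l ^ n = 1 + η ∧ (l ^ n) ^ 4 = 1 + η₄ ∧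
      K * ((1 + η) * t + η * K) ≤ 1 / 2 ∧
      η₄ * (2 * (K + 1)) + (1 + η₄) * ((1 - δ) *
        ((1 + η) * (ε * t) + η * (2 * K) + 4 * K * ((1 + η) * t + η * K) ^ 2)) ≤ ε * t := by
  have het : ε ≠ ∞ := ne_top_of_le_ne_top ENNReal.one_ne_top he1
  have hdt : δ ≠ ∞ := hd1.ne_top
  lift K to NNReal using hKt
  lift ε to NNReal using het
  lift δ to NNReal using hdt
  have hK' : (1 : NNReal) ≤ K := by exact_mod_cast hK
  have he' : 0 < ε := by exact_mod_cast he
  have he1' : ε ≤ 1 := by exact_mod_cast he1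
  have hd' : 0 < δ := by exact_mod_cast hd
  have hd1' : δ < 1 := by exact_mod_cast hd1
  obtain ⟨t, ht0, htρ, htk⟩ : ∃ t : NNReal, 0 < t ∧ (t : ℝ≥0∞) ≤ ρ₀ ∧ 32 * K * t ≤ δ * ε := by
    have hK0 : 0 < K := lt_of_lt_of_le one_pos hK'
    have hs : 0 < δ * ε / (32 * K) := by positivity
    obtain ⟨r, hr0, hr1⟩ : ∃ r : NNReal, 0 < r ∧ (r : ℝ≥0∞) ≤ ρ₀ := by
      by_cases h : ρ₀ = ∞
      · exact ⟨1, one_pos, by rw [h]; exact le_top⟩
      · lift ρ₀ to NNReal using h
        exact ⟨ρ₀, by exact_mod_cast hρ, le_rfl⟩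
    refine ⟨min r (δ * ε / (32 * K)), lt_min hr0 hs, le_trans ?_ hr1, ?_⟩
    · exact_mod_cast min_le_left _ _
    · calc 32 * K * min r (δ * ε / (32 * K)) ≤ 32 * K * (δ * ε / (32 * K)) :=
            mul_le_mul' le_rfl (min_le_right _ _)
        _ = δ * ε := by field_simp
  obtain ⟨l, hl1, hl2, hl3⟩ := real_consts n K ε δ t (by exact_mod_cast hK') (by exact_mod_cast he')
    (by exact_mod_cast he1') (by exact_mod_cast hd') (by exact_mod_cast hd1')
    (by exact_mod_cast ht0) (by exact_mod_cast htk)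
  have hl0 : 0 ≤ l := by linarith
  have hln : 1 ≤ l ^ n := one_le_pow₀ hl1.le
  have hln4 : 1 ≤ (l ^ n) ^ 4 := one_le_pow₀ hln
  set L : NNReal := ⟨l, hl0⟩ with hL
  have hLc : (L : ℝ) = l := rfl
  set η : NNReal := ⟨l ^ n - 1, by linarith⟩ with hη
  have hηc : (η : ℝ) = l ^ n - 1 := rfl
  set η₄ : NNReal := ⟨(l ^ n) ^ 4 - 1, by linarith⟩ with hη₄
  have hη₄c : (η₄ : ℝ) = (l ^ n) ^ 4 - 1 := rfl
  have e1 : L ^ n = 1 + η := by
    apply NNReal.coe_injective
    push_cast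
    rw [hLc, hηc]
    ring
  have e2 : (L ^ n) ^ 4 = 1 + η₄ := by
    apply NNReal.coe_injective
    push_cast
    rw [hLc, hη₄c]
    ring
  refine ⟨(L : ℝ≥0∞), (t : ℝ≥0∞), (η : ℝ≥0∞), (η₄ : ℝ≥0∞), ?_, ENNReal.coe_ne_top, htρ, ?_, ?_, ?_, ?_⟩
  · have : (1 : NNReal) < L := hl1
    exact_mod_cast this
  · exact_mod_cast e1
  · exact_mod_cast e2
  · have h : K * ((1 + η) * t + η * K) ≤ 1 / 2 := by
      rw [← NNReal.coe_le_coe]
      push_cast
      rw [hηc]
      calc (K : ℝ) * ((1 + (l ^ n - 1)) * t + (l ^ n - 1) * K) =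
            K * (l ^ n * t + (l ^ n - 1) * K) := by ring
        _ ≤ 1 / 2 := hl2
    have h2 : ((K * ((1 + η) * t + η * K) : NNReal) : ℝ≥0∞) ≤ ((1 / 2 : NNReal) : ℝ≥0∞) :=
      ENNReal.coe_le_coe.2 h
    have h3 : ((1 / 2 : NNReal) : ℝ≥0∞) = 1 / 2 := by
      rw [ENNReal.coe_div (by norm_num)]
      norm_num
    rw [h3] at h2
    push_cast at h2
    exact h2
  · have h : η₄ * (2 * (K + 1)) + (1 + η₄) * ((1 - δ) *
        ((1 + η) * (ε * t) + η * (2 * K) + 4 * K * ((1 + η) * t + η * K) ^ 2)) ≤ ε * t := by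
      rw [← NNReal.coe_le_coe]
      push_cast [NNReal.coe_sub hd1'.le]
      rw [hηc, hη₄c]
      refine le_trans (le_of_eq ?_) hl3
      ring
    have h2 := ENNReal.coe_le_coe.2 h
    push_cast at h2
    exact h2

end Pool.Agent.Lib.MPba1bba.AS.PTEM

namespace Pool.Agent.Lib.MPba1bba.AS

open PTEM PTXC Vec in
theorem specPTE (hMOB : SpecMOB) (hPRT : SpecPRT) (hNRM : SpecNRM) (hEQZ : SpecEQZ)
    (hEQT : SpecEQT) (hPSR : SpecPSR) (hEVA : SpecEVA) (hEVL : SpecEVL) : SpecPTE := by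
  intro p m Q E H V U hD ε δ K ρ₀ he he1 hd hd1 hK hKt hρ
  obtain ⟨l, t, η, η₄, hl1, hlt, htρ, hη, hη₄, hc1, hc2⟩ :=
    consts (p * m) ε δ K ρ₀ he he1 hd hd1 hK hKt hρ
  refine ⟨l, hl1, hlt, ?_⟩
  intro z z' hz1 hzz' hz'l hKE hKQ hKR
  rintro ⟨W, hW, hWop⟩
  have hp := hD.hp
  have hm := hD.hm
  have het : ε ≠ ∞ := ne_top_of_le_ne_top ENNReal.one_ne_top he1
  obtain ⟨hP1, hP2, hP3, hP4, hP5⟩ := hPSR p m Q E H V U hD
  obtain ⟨hE1, hE2, hE3, hE4, hE5, hE6, hE7⟩ := hEQZ p m Q E H V U hD z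
  obtain ⟨hV1, hV2, hV3, hV4, hV5, hV6, hV7, hV8, hV9, hV10, hV11⟩ := hEVL p m
  obtain ⟨hN1, hN2, hN3, hN4, hN5, hN6, hN7⟩ := hNRM
  obtain ⟨hT1, hT2, hT3, hT4, hT5, hT6, hT7⟩ := hEQT p m Q E H V U hD z'
  obtain ⟨hR1, hR2, hR3⟩ := hPRT p m z z' l hp hm hl1.le hz'l
  obtain ⟨-, -, -, -, hA5, hA6⟩ := hEVA
  have hmul : ∀ x y : Vec, Bd p x → Bd p y → Bd p (x * y) := fun x y hx hy => (hV10 x y hx hy).1
  have hadd : ∀ x y : Vec, Bd p x → Bd p y → Bd p (x + y) := fun x y hx hy => (hV10 x y hx hy).2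
  rw [hη] at hR1 hR2 hR3
  -- notation
  set Ez := ev z E with hEz
  set Y := ev z (serY p) with hY
  set Qz := ev z Q with hQz
  set R := ev z (serR Q E) with hR
  have bE : Bd p Ez := (hV11 z E hP2.2.2.1).1
  have bQ : Bd p Qz := (hV11 z Q hP2.2.1).1
  have bR : Bd p R := (hV11 z (serR Q E) hP2.2.2.2.2.2.2).1
  have bY' : Bd p (ev z' (serY p)) := (hV11 z' (serY p) hP2.1).1
  have bx : ∀ N, Bd p (evt z' N E) := fun N => (hV11 z' E hP2.2.2.1).2 N
  set D : ℕ → Vec := fun N => sb (evt z' N E) Ez with hDdef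
  have bD : ∀ N, Bd p (D N) := fun N => Bd_mono (sb_le _ _) (bx N)
  set D' : ℕ → Vec := fun N => (1 + η) • D N + η • Ez with hD'def
  have bD' : ∀ N, Bd p (D' N) := fun N => hadd _ _ (Bd_smul _ (bD N)) (Bd_smul _ bE)
  set Z : ℕ → Vec := fun N => geo (Qz * D' N) with hZdef
  have bZ : ∀ N, Bd p (Z N) := fun N => Bd_geo hmul (hmul _ _ bQ (bD' N))
  have hxle : ∀ N, evt z' N E ≤ Ez + D N := fun N => le_add_sb _ _
  -- the recursion for the truncations
  have key : ∀ N, 2 ≤ N → evt z' (N + 1) E + z' ^ 2 • (1 : Vec) ≤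
      (1 + η₄) • (Ez + z ^ 2 • (1 : Vec) + z ^ 2 • Lv p m z (R * R * (D' N * Z N))) := by
    intro N hN
    refine (hT3 N hN).trans ?_
    set X := (1 + evt z' N E) * ((1 + ev z' (serY p)) * geo (ev z' (serY p) * evt z' N E)) with hX
    have bX : Bd p X := by
      refine hmul _ _ (hadd _ _ (Bd_one p) (bx N)) (hmul _ _ (hadd _ _ (Bd_one p) bY') ?_)
      exact Bd_geo hmul (hmul _ _ bY' (bx N))
    have h1 : X ≤ (1 + η) • ((1 + Ez) * R + R * R * D' N * Z N) := by
      have h2 := ser_bound hR2 (hxle N)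
      have h3 : (1 + evt z' N E : Vec) ≤ 1 + Ez + D' N := by
        refine (add_mono le_rfl (hxle N)).trans ?_
        rw [← add_assoc]
        exact add_mono le_rfl (le_shift η Ez (D N))
      refine (mul_mono h3 h2).trans ?_
      rw [mul_smul_comm]
      exact smul_mono le_rfl (hMOB Y Ez Qz R (D' N) hE2 hE3).2
    have h4 : Lv p m z' X ≤ (1 + η) • ((1 + η) • (Lv p m z ((1 + Ez) * R) +
        Lv p m z (R * R * (D' N * Z N)))) := by
      refine (hR1 X bX).trans (smul_mono le_rfl ?_)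
      refine (hV8 z X _ h1).trans (le_of_eq ?_)
      rw [hV7, hV6, mul_assoc (R * R)]
    have h5 : z' ^ 2 ≤ (1 + η) ^ 2 * z ^ 2 := by
      rw [← mul_pow]
      exact pow_le_pow_left' hR3 2
    refine (smul_mono h5 h4).trans (le_of_eq ?_)
    rw [← hη₄, hη]
    have h6 : Ez + z ^ 2 • (1 : Vec) = z ^ 2 • Lv p m z ((1 + Ez) * R) := hE1
    rw [h6]
    simp only [smul_smul, smul_add]
    ring_nf
  have hz2 : z ^ 2 ≠ ∞ := ENNReal.pow_ne_top hz1.ne_top
  have keyD : ∀ N, 2 ≤ N → D (N + 1) ≤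
      η₄ • (Ez + z ^ 2 • (1 : Vec)) + (1 + η₄) • (z ^ 2 • Lv p m z (R * R * (D' N * Z N))) := by
    intro N hN s
    have h1 := key N hN s
    simp only [add_co, smul_co] at h1 ⊢
    change (evt z' (N + 1) E).co s - Ez.co s ≤ _
    rw [tsub_le_iff_left]
    have h2 : z ^ 2 ≤ z' ^ 2 := pow_le_pow_left' hzz' 2
    have hfin : z ^ 2 * (1 : Vec).co s ≠ ∞ := by
      refine ENNReal.mul_ne_top hz2 ?_
      rw [one_co]
      split_ifs <;> simp
    have h3 : z ^ 2 * (1 : Vec).co s + (evt z' (N + 1) E).co s ≤ z ^ 2 * (1 : Vec).co s +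
        (Ez.co s + (η₄ * (Ez.co s + z ^ 2 * (1 : Vec).co s) +
          (1 + η₄) * (z ^ 2 * (Lv p m z (R * R * (D' N * Z N))).co s))) := by
      calc z ^ 2 * (1 : Vec).co s + (evt z' (N + 1) E).co s
          ≤ z' ^ 2 * (1 : Vec).co s + (evt z' (N + 1) E).co s :=
            add_le_add (mul_le_mul' h2 le_rfl) le_rfl
        _ = (evt z' (N + 1) E).co s + z' ^ 2 * (1 : Vec).co s := add_comm _ _
        _ ≤ _ := h1
        _ = _ := by ring
    exact (ENNReal.add_le_add_iff_left hfin).1 h3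
  -- the bound
  have hrec : ∀ N, 2 ≤ N → pr (D N) W ≤ ε * t → pr (D (N + 1)) W ≤ ε * t := by
    intro N hN hρN
    have hnD : nm (D N) ≤ t := by
      have h1 : ε * nm (D N) ≤ ε * t :=
        (nm_le_pr (fun s hs => (hW s hs).1) (bD N)).trans hρN
      exact (ENNReal.mul_le_mul_iff_right he.ne' het).1 h1
    have hnD' : nm (D' N) ≤ (1 + η) * t + η * K := by
      change nm ((1 + η) • D N + η • Ez) ≤ _
      rw [(hN1 _ _).2.2.2.2.2.2, (hN3 _ _).2.2, (hN3 _ _).2.2]
      exact add_le_add (mul_le_mul' le_rfl hnD) (mul_le_mul' le_rfl hKE)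
    set d := (1 + η) * t + η * K with hd'
    have hnQD : nm (Qz * D' N) ≤ K * d :=
      ((hN1 _ _).2.2.2.1).trans (mul_le_mul' hKQ hnD')
    have hnZ : nm (Z N) ≤ 2 := nm_geo_le (hN5 _).2.2 (hnQD.trans hc1)
    have hpE : pr Ez W ≤ 2 * K :=
      (pr_le_nm (fun s hs => (hW s hs).2) bE).trans (mul_le_mul' le_rfl hKE)
    have hpD' : pr (D' N) W ≤ (1 + η) * (ε * t) + η * (2 * K) := by
      change pr ((1 + η) • D N + η • Ez) W ≤ _
      rw [pr_add, smul_pr, smul_pr]
      exact add_le_add (mul_le_mul' le_rfl hρN) (mul_le_mul' le_rfl hpE)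
    have hpDZ : pr (D' N * Z N) W ≤
        (1 + η) * (ε * t) + η * (2 * K) + 4 * K * d ^ 2 := by
      have h1 : D' N * Z N = D' N + D' N * (Qz * D' N * Z N) := by
        have h2 : Z N = 1 + Qz * D' N * Z N := geo_eq (Qz * D' N)
        calc D' N * Z N = D' N * (1 + Qz * D' N * Z N) := by rw [← h2]
          _ = D' N + D' N * (Qz * D' N * Z N) := by ring
      rw [h1, pr_add]
      refine add_le_add hpD' ?_
      refine (pr_le_nm (fun s hs => (hW s hs).2)
        (hmul _ _ (bD' N) (hmul _ _ (hmul _ _ bQ (bD' N)) (bZ N)))).trans ?_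
      calc 2 * nm (D' N * (Qz * D' N * Z N)) ≤ 2 * (d * (K * d * 2)) := by
            refine mul_le_mul' le_rfl (((hN1 _ _).2.2.2.1).trans (mul_le_mul' hnD' ?_))
            exact ((hN1 _ _).2.2.2.1).trans (mul_le_mul' hnQD hnZ)
        _ = 4 * K * d ^ 2 := by ring
    have hpL : pr (z ^ 2 • Lv p m z (R * R * (D' N * Z N))) W ≤
        (1 - δ) * ((1 + η) * (ε * t) + η * (2 * K) + 4 * K * d ^ 2) := by
      rw [pr_opv hV5]
      refine (pr_mono_bd (hmul _ _ (bD' N) (bZ N)) hWop).trans ?_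
      rw [pr_smul']
      exact mul_le_mul' le_rfl hpDZ
    have hp1 : pr (Ez + z ^ 2 • (1 : Vec)) W ≤ 2 * (K + 1) := by
      refine (pr_le_nm (fun s hs => (hW s hs).2)
        (hadd _ _ bE (Bd_smul _ (Bd_one p)))).trans (mul_le_mul' le_rfl ?_)
      rw [(hN1 _ _).2.2.2.2.2.2, (hN3 _ _).2.2, hN4.2.2, mul_one]
      exact add_le_add hKE (pow_le_one' hz1.le 2)
    refine (pr_mono (keyD N hN) (fun _ => le_rfl)).trans ?_
    rw [pr_add, smul_pr, smul_pr]
    exact (add_le_add (mul_le_mul' le_rfl hp1) (mul_le_mul' le_rfl hpL)).trans hc2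
  have h2 : pr (D 2) W ≤ ε * t := by
    have h3 : D 2 = 0 := by
      change sb (evt z' 2 E) Ez = 0
      rw [hT1]
      ext s
      change 0 - Ez.co s = 0
      exact zero_tsub _
    rw [h3, pr_zero]
    exact bot_le
  have hge : ∀ N, 2 ≤ N → pr (D N) W ≤ ε * t := by
    intro N hN
    induction N, hN using Nat.le_induction with
    | base => exact h2
    | succ N hN ih => exact hrec N hN ih
  have hmono : ∀ N, evt z' N E ≤ evt z' (N + 1) E := fun N => ((hA5 z' E).2.1 N).1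
  have hmono' : Monotone fun N => evt z' N E := monotone_nat_of_le_succ hmono
  have hall : ∀ N, pr (D N) (fun s => 1 + (Multiset.card s : ℝ≥0∞)) ≤ t := by
    intro N
    have h3 : D N ≤ D (max N 2) := fun s => tsub_le_tsub_right (hmono' (le_max_left N 2) s) _
    have h4 : ε * nm (D (max N 2)) ≤ ε * t :=
      (nm_le_pr (fun s hs => (hW s hs).1) (bD _)).trans (hge _ (le_max_right N 2))
    exact (pr_mono h3 fun _ => le_rfl).trans
      ((ENNReal.mul_le_mul_iff_right he.ne' het).1 h4)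
  exact (pr_sb_le hmono (hA5 z' E).2.2 hall).trans htρ

end Pool.Agent.Lib.MPba1bba.AS
end

section
/-!
# MP_ba1bba_al, asymptotics: PTV (perturbation of `V`, `U`)
-/
set_option autoImplicit false

open scoped ENNReal
open Classical

namespace Pool.Agent.Lib.MPba1bba.AS.PTVM

open Pool.Agent.Lib.MPba1bba Vec PTXC

theorem real_consts (n : ℕ) (k e dl t : ℝ) (hk : 1 ≤ k) (he : 0 < e) (he1 : e ≤ 1) (hd : 0 < dl)
    (hd1 : dl < 1) (htk : 16 * k * t ≤ dl * e) :
    ∃ l : ℝ, 1 < l ∧ k * (l ^ n * t + (l ^ n - 1) * k) ≤ 1 / 2 ∧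
      (l ^ n) ^ 3 * ((1 - dl) * (e + 4 * k * (l ^ n * t + (l ^ n - 1) * k))) ≤
        (1 - dl / 2) * e := by
  have hkt : k * t ≤ 1 / 16 := by
    nlinarith [mul_le_mul hd1.le he1 he.le (by norm_num : (0:ℝ) ≤ 1)]
  have h1 : ∀ᶠ l in nhds (1 : ℝ), k * (l ^ n * t + (l ^ n - 1) * k) < 1 / 2 := by
    have hc : Continuous fun l : ℝ => k * (l ^ n * t + (l ^ n - 1) * k) := by fun_prop
    have h2 : k * ((1 : ℝ) ^ n * t + ((1 : ℝ) ^ n - 1) * k) < 1 / 2 := by
      rw [one_pow]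
      nlinarith
    exact hc.continuousAt.eventually_lt_const h2
  have h2 : ∀ᶠ l in nhds (1 : ℝ),
      (l ^ n) ^ 3 * ((1 - dl) * (e + 4 * k * (l ^ n * t + (l ^ n - 1) * k))) <
        (1 - dl / 2) * e := by
    have hc : Continuous fun l : ℝ =>
        (l ^ n) ^ 3 * ((1 - dl) * (e + 4 * k * (l ^ n * t + (l ^ n - 1) * k))) := by
      fun_prop
    have h3 : ((1 : ℝ) ^ n) ^ 3 * ((1 - dl) * (e + 4 * k * ((1 : ℝ) ^ n * t +
        ((1 : ℝ) ^ n - 1) * k))) < (1 - dl / 2) * e := by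
      simp only [one_pow, sub_self, zero_mul, one_mul, add_zero]
      have h5 : (1 - dl) * (e + 4 * k * t) ≤ (1 - dl) * (e + dl * e / 4) :=
        mul_le_mul_of_nonneg_left (by linarith) (by linarith)
      have h7 : (1 - dl) * (e + dl * e / 4) < (1 - dl / 2) * e := by
        have : (1 - dl / 2) * e - (1 - dl) * (e + dl * e / 4) = dl * e * (1 / 4 + dl / 4) := by ring
        have h8 : 0 < dl * e * (1 / 4 + dl / 4) := by positivity
        linarith
      linarith
    exact hc.continuousAt.eventually_lt_const h3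
  have h3 : ∀ᶠ l in nhdsWithin (1 : ℝ) (Set.Ioi 1),
      (k * (l ^ n * t + (l ^ n - 1) * k) < 1 / 2 ∧
      (l ^ n) ^ 3 * ((1 - dl) * (e + 4 * k * (l ^ n * t + (l ^ n - 1) * k))) <
        (1 - dl / 2) * e) ∧ l ∈ Set.Ioi (1 : ℝ) :=
    ((h1.and h2).filter_mono nhdsWithin_le_nhds).and self_mem_nhdsWithin
  obtain ⟨l, ⟨h4, h5⟩, h6⟩ := h3.exists
  exact ⟨l, h6, h4.le, h5.le⟩

theorem consts (n : ℕ) (ε δ K : ℝ≥0∞) (he : 0 < ε) (he1 : ε ≤ 1) (hd : 0 < δ) (hd1 : δ < 1)
    (hK : 1 ≤ K) (hKt : K ≠ ∞) :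
    ∃ l t η : ℝ≥0∞, 1 < l ∧ l ≠ ∞ ∧ 0 < t ∧ t ≠ ∞ ∧ η ≠ ∞ ∧ l ^ n = 1 + η ∧
      K * ((1 + η) * t + η * K) ≤ 1 / 2 ∧
      (1 + η) ^ 3 * ((1 - δ) * (ε + 4 * K * ((1 + η) * t + η * K))) ≤ (1 - δ / 2) * ε := by
  have het : ε ≠ ∞ := ne_top_of_le_ne_top ENNReal.one_ne_top he1
  have hdt : δ ≠ ∞ := hd1.ne_top
  lift K to NNReal using hKt
  lift ε to NNReal using het
  lift δ to NNReal using hdt
  have hK' : (1 : NNReal) ≤ K := by exact_mod_cast hK
  have he' : 0 < ε := by exact_mod_cast he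
  have he1' : ε ≤ 1 := by exact_mod_cast he1
  have hd' : 0 < δ := by exact_mod_cast hd
  have hd1' : δ < 1 := by exact_mod_cast hd1
  have hK0 : 0 < K := lt_of_lt_of_le one_pos hK'
  set t : NNReal := δ * ε / (16 * K) with ht
  have ht0 : 0 < t := by positivity
  have htk : 16 * K * t ≤ δ * ε := by
    rw [ht]
    apply le_of_eq
    field_simp
  obtain ⟨l, hl1, hl2, hl3⟩ := real_consts n K ε δ t (by exact_mod_cast hK') (by exact_mod_cast he')
    (by exact_mod_cast he1') (by exact_mod_cast hd') (by exact_mod_cast hd1')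
    (by exact_mod_cast htk)
  have hl0 : 0 ≤ l := by linarith
  have hln : 1 ≤ l ^ n := one_le_pow₀ hl1.le
  set L : NNReal := ⟨l, hl0⟩ with hL
  have hLc : (L : ℝ) = l := rfl
  set η : NNReal := ⟨l ^ n - 1, by linarith⟩ with hη
  have hηc : (η : ℝ) = l ^ n - 1 := rfl
  have e1 : L ^ n = 1 + η := by
    apply NNReal.coe_injective
    push_cast
    rw [hLc, hηc]
    ring
  refine ⟨(L : ℝ≥0∞), (t : ℝ≥0∞), (η : ℝ≥0∞), ?_, ENNReal.coe_ne_top, ?_, ENNReal.coe_ne_top,
    ENNReal.coe_ne_top, ?_, ?_, ?_⟩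
  · have : (1 : NNReal) < L := hl1
    exact_mod_cast this
  · exact_mod_cast ht0
  · exact_mod_cast e1
  · have h : K * ((1 + η) * t + η * K) ≤ 1 / 2 := by
      rw [← NNReal.coe_le_coe]
      push_cast
      rw [hηc]
      calc (K : ℝ) * ((1 + (l ^ n - 1)) * t + (l ^ n - 1) * K) =
            K * (l ^ n * t + (l ^ n - 1) * K) := by ring
        _ ≤ 1 / 2 := hl2
    have h2 : ((K * ((1 + η) * t + η * K) : NNReal) : ℝ≥0∞) ≤ ((1 / 2 : NNReal) : ℝ≥0∞) :=
      ENNReal.coe_le_coe.2 h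
    have h3 : ((1 / 2 : NNReal) : ℝ≥0∞) = 1 / 2 := by
      rw [ENNReal.coe_div (by norm_num)]
      norm_num
    rw [h3] at h2
    push_cast at h2
    exact h2
  · have hdh : δ / 2 ≤ 1 := by
      calc δ / 2 ≤ δ := half_le_self δ.2
        _ ≤ 1 := hd1'.le
    have h : (1 + η) ^ 3 * ((1 - δ) * (ε + 4 * K * ((1 + η) * t + η * K))) ≤ (1 - δ / 2) * ε := by
      rw [← NNReal.coe_le_coe]
      push_cast [NNReal.coe_sub hd1'.le, NNReal.coe_sub hdh]
      rw [hηc]
      refine le_trans (le_of_eq ?_) hl3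
      ring
    have h2 := ENNReal.coe_le_coe.2 h
    rw [ENNReal.coe_mul, ENNReal.coe_mul, ENNReal.coe_mul, ENNReal.coe_sub, ENNReal.coe_sub,
      ENNReal.coe_div (by norm_num)] at h2
    push_cast at h2
    exact h2

/-- The bounded recursion. -/
theorem rec_bound {δ C₁ : ℝ≥0∞} (hd : 0 < δ) (hd1 : δ < 1) {a : ℕ → ℝ≥0∞} (h0 : a 0 = 0)
    (h : ∀ N, a (N + 1) ≤ C₁ + (1 - δ / 2) * a N) (N : ℕ) : a N ≤ C₁ * (δ / 2)⁻¹ := by
  have hd2 : δ / 2 ≠ 0 := (ENNReal.half_pos hd.ne').ne'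
  have hd2t : δ / 2 ≠ ∞ := ne_top_of_le_ne_top hd1.ne_top ENNReal.half_le_self
  have hd21 : δ / 2 ≤ 1 := ENNReal.half_le_self.trans hd1.le
  induction N with
  | zero => rw [h0]; exact bot_le
  | succ N ih =>
    refine (h N).trans ?_
    calc C₁ + (1 - δ / 2) * a N ≤ C₁ + (1 - δ / 2) * (C₁ * (δ / 2)⁻¹) :=
          add_le_add le_rfl (mul_le_mul' le_rfl ih)
      _ = (δ / 2 + (1 - δ / 2)) * (C₁ * (δ / 2)⁻¹) := by
          have h1 : C₁ = δ / 2 * (C₁ * (δ / 2)⁻¹) := by
            calc C₁ = C₁ * (δ / 2 * (δ / 2)⁻¹) := by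
                  rw [ENNReal.mul_inv_cancel hd2 hd2t, mul_one]
              _ = δ / 2 * (C₁ * (δ / 2)⁻¹) := by ring
          rw [add_mul, ← h1]
      _ = C₁ * (δ / 2)⁻¹ := by rw [add_tsub_cancel_of_le hd21, one_mul]

theorem PP_le (x : Vec) : PP x ≤ x := by
  intro s
  change (if s = 0 then 0 else x.co s) ≤ x.co s
  split_ifs
  · exact bot_le
  · exact le_rfl

/-- products with `PP x` have no component at the empty multiset -/
theorem mul_PP_zero (x y : Vec) : (x * PP y).co 0 = 0 := by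
  rw [mul_co]
  rw [ENNReal.tsum_eq_zero]
  intro s
  rw [ENNReal.tsum_eq_zero]
  intro t
  split_ifs with h
  · have ht : t = 0 := (add_eq_zero.1 h).2
    rw [ht]
    change x.co s * (if (0 : Multiset ℤ) = 0 then 0 else y.co 0) = 0
    rw [if_pos rfl, mul_zero]
  · rfl

end Pool.Agent.Lib.MPba1bba.AS.PTVM

namespace Pool.Agent.Lib.MPba1bba.AS

open PTVM PTXC Vec in
theorem specPTV (hMOB : SpecMOB) (hPRT : SpecPRT) (hNRM : SpecNRM) (hEQZ : SpecEQZ)
    (hEQT : SpecEQT) (hPSR : SpecPSR) (hEVA : SpecEVA) (hEVL : SpecEVL) : SpecPTV := by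
  intro p m Q E H V U hD ε δ K he he1 hd hd1 hK hKt
  obtain ⟨l, ρ₀, η, hl1, hlt, hρ0, hρt, hηt, hη, hc1, hc2⟩ := consts (p * m) ε δ K he he1 hd hd1 hK hKt
  have het : ε ≠ ∞ := ne_top_of_le_ne_top ENNReal.one_ne_top he1
  set d := (1 + η) * ρ₀ + η * K with hd'
  have hd2 : δ / 2 ≠ 0 := (ENNReal.half_pos hd.ne').ne'
  -- constants
  set C₁ : ℝ≥0∞ := 2 * (1 + (K + ρ₀)) + (1 + η) ^ 3 * (2 * (2 * m * (K * 2))) with hC₁
  have hΛt : (1 + η) ≠ ∞ := ENNReal.add_ne_top.2 ⟨ENNReal.one_ne_top, hηt⟩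
  have hC₁t : C₁ ≠ ∞ := by
    refine ENNReal.add_ne_top.2 ⟨?_, ?_⟩
    · exact ENNReal.mul_ne_top (by norm_num) (ENNReal.add_ne_top.2 ⟨ENNReal.one_ne_top,
        ENNReal.add_ne_top.2 ⟨hKt, hρt⟩⟩)
    · refine ENNReal.mul_ne_top (ENNReal.pow_ne_top hΛt) (ENNReal.mul_ne_top (by norm_num) ?_)
      exact ENNReal.mul_ne_top (ENNReal.mul_ne_top (by norm_num) (ENNReal.natCast_ne_top m))
        (ENNReal.mul_ne_top hKt (by norm_num))
  set C₂ : ℝ≥0∞ := ε⁻¹ * (C₁ * (δ / 2)⁻¹) with hC₂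
  have hC₂t : C₂ ≠ ∞ :=
    ENNReal.mul_ne_top (ENNReal.inv_ne_top.2 he.ne') (ENNReal.mul_ne_top hC₁t (ENNReal.inv_ne_top.2 hd2))
  set C : ℝ≥0∞ := C₂ + (K + ρ₀) + (1 + η) * (K * 2) with hC
  have hCt : C ≠ ∞ := by
    refine ENNReal.add_ne_top.2 ⟨ENNReal.add_ne_top.2 ⟨hC₂t, ENNReal.add_ne_top.2 ⟨hKt, hρt⟩⟩, ?_⟩
    exact ENNReal.mul_ne_top hΛt (ENNReal.mul_ne_top hKt (by norm_num))
  refine ⟨l, ρ₀, C, hl1, hρ0, hCt, ?_⟩
  intro z z' hz1 hzz' hz'l hz'1 hKE hKQ hKR hDρ
  rintro ⟨W, hW, hWop⟩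
  have hp := hD.hp
  have hm := hD.hm
  obtain ⟨hP1, hP2, hP3, hP4, hP5⟩ := hPSR p m Q E H V U hD
  obtain ⟨hE1, hE2, hE3, hE4, hE5, hE6, hE7⟩ := hEQZ p m Q E H V U hD z
  obtain ⟨hF1, hF2, hF3, hF4, hF5, hF6, hF7⟩ := hEQZ p m Q E H V U hD z'
  obtain ⟨hV1, hV2, hV3, hV4, hV5, hV6, hV7, hV8, hV9, hV10, hV11⟩ := hEVL p m
  obtain ⟨hN1, hN2, hN3, hN4, hN5, hN6, hN7⟩ := hNRM
  obtain ⟨hT1, hT2, hT3, hT4, hT5, hT6, hT7⟩ := hEQT p m Q E H V U hD z'
  obtain ⟨hR1, hR2, hR3⟩ := hPRT p m z z' l hp hm hl1.le hz'l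
  obtain ⟨-, -, -, -, hA5, hA6⟩ := hEVA
  have hmul : ∀ x y : Vec, Bd p x → Bd p y → Bd p (x * y) := fun x y hx hy => (hV10 x y hx hy).1
  have hadd : ∀ x y : Vec, Bd p x → Bd p y → Bd p (x + y) := fun x y hx hy => (hV10 x y hx hy).2
  rw [hη] at hR1 hR2 hR3
  set Ez := ev z E with hEz
  set Y := ev z (serY p) with hY
  set Qz := ev z Q with hQz
  set R := ev z (serR Q E) with hR
  set E' := ev z' E with hE'
  set R' := ev z' (serR Q E) with hR'
  have bE : Bd p Ez := (hV11 z E hP2.2.2.1).1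
  have bQ : Bd p Qz := (hV11 z Q hP2.2.1).1
  have bR : Bd p R := (hV11 z (serR Q E) hP2.2.2.2.2.2.2).1
  have bE' : Bd p E' := (hV11 z' E hP2.2.2.1).1
  have bR' : Bd p R' := (hV11 z' (serR Q E) hP2.2.2.2.2.2.2).1
  set D : Vec := sb E' Ez with hDdef
  have bD : Bd p D := Bd_mono (sb_le _ _) bE'
  set D' : Vec := (1 + η) • D + η • Ez with hD'def
  have bD' : Bd p D' := hadd _ _ (Bd_smul _ bD) (Bd_smul _ bE)
  set Z : Vec := geo (Qz * D') with hZdef
  have bZ : Bd p Z := Bd_geo hmul (hmul _ _ bQ bD')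
  have hnD' : nm D' ≤ d := by
    change nm ((1 + η) • D + η • Ez) ≤ _
    rw [(hN1 _ _).2.2.2.2.2.2, (hN3 _ _).2.2, (hN3 _ _).2.2]
    exact add_le_add (mul_le_mul' le_rfl hDρ) (mul_le_mul' le_rfl hKE)
  have hnQD : nm (Qz * D') ≤ K * d := ((hN1 _ _).2.2.2.1).trans (mul_le_mul' hKQ hnD')
  have hnZ : nm Z ≤ 2 := nm_geo_le (hN5 _).2.2 (hnQD.trans hc1)
  -- comparison of R'
  have hRR : R' ≤ (1 + η) • (R * Z) := by
    rw [hT4]
    refine (ser_bound hR2 (le_add_sb E' Ez)).trans (smul_mono le_rfl ?_)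
    exact (hMOB Y Ez Qz R D' hE2 hE3).1
  have hnE' : nm E' ≤ K + ρ₀ := by
    refine ((hN2 _ _ (le_add_sb E' Ez)).2.2).trans ?_
    rw [(hN1 _ _).2.2.2.2.2.2]
    exact add_le_add hKE hDρ
  have hnR' : nm R' ≤ (1 + η) * (K * 2) := by
    refine ((hN2 _ _ hRR).2.2).trans ?_
    rw [(hN3 _ _).2.2]
    exact mul_le_mul' le_rfl (((hN1 _ _).2.2.2.1).trans (mul_le_mul' hKR hnZ))
  have hnQ' : nm (ev z' Q) ≤ (1 + η) * (K * 2) := by
    refine le_trans ?_ hnR'
    refine (hN2 _ _ ?_).2.2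
    rw [hF3]
    intro s
    rw [add_co, mul_add, mul_one, add_co]
    exact le_self_add.trans le_add_self
  -- the operator
  have hop : ∀ x : Vec, Bd p x → z' • Lv p m z' (R' * x) ≤
      ((1 + η) ^ 3) • (z • Lv p m z (R * (Z * x))) := by
    intro x bx
    have h1 : Lv p m z' (R' * x) ≤ (1 + η) • Lv p m z (R' * x) := hR1 _ (hmul _ _ bR' bx)
    have h2 : Lv p m z (R' * x) ≤ (1 + η) • Lv p m z (R * (Z * x)) := by
      refine (hV8 z _ _ (mul_mono hRR (le_refl x))).trans (le_of_eq ?_)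
      rw [smul_mul_assoc, hV7, mul_assoc]
    refine (smul_mono hR3 (h1.trans (smul_mono le_rfl h2))).trans (le_of_eq ?_)
    simp only [smul_smul]
    ring_nf
  -- the pairing with W
  have hpair : ∀ x : Vec, Bd p x → pr (z • Lv p m z (R * (Z * PP x))) W ≤
      (1 - δ) * (pr x W + 2 * (K * d * 2 * nm x)) := by
    intro x bx
    have bPP : Bd p (PP x) := Bd_mono (PP_le x) bx
    have bX : Bd p (Z * PP x) := hmul _ _ bZ bPP
    rw [pr_opv hV5]
    have h1 : pr (Z * PP x) (opd p m z z R W) ≤ pr (Z * PP x) (fun s => (1 - δ) * W s) := by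
      refine ENNReal.tsum_le_tsum fun s => ?_
      by_cases hs0 : s = 0
      · rw [hs0, mul_PP_zero, zero_mul, zero_mul]
      · by_cases hs : (Z * PP x).co s = 0
        · rw [hs, zero_mul, zero_mul]
        · exact mul_le_mul' le_rfl (hWop s (bX s hs) hs0)
    refine h1.trans ?_
    rw [pr_smul']
    refine mul_le_mul' le_rfl ?_
    have h2 : Z * PP x = PP x + Qz * D' * Z * PP x := by
      have h3 : Z = 1 + Qz * D' * Z := geo_eq (Qz * D')
      calc Z * PP x = (1 + Qz * D' * Z) * PP x := by rw [← h3]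
        _ = _ := by ring
    rw [h2, pr_add]
    refine add_le_add (pr_mono (PP_le x) fun _ => le_rfl) ?_
    refine (pr_le_nm (fun s hs => (hW s hs).2) (hmul _ _ (hmul _ _ (hmul _ _ bQ bD') bZ) bPP)).trans ?_
    refine mul_le_mul' le_rfl ?_
    refine ((hN1 _ _).2.2.2.1).trans (mul_le_mul' ?_ (hN2 _ _ (PP_le x)).2.2)
    exact ((hN1 _ _).2.2.2.1).trans (mul_le_mul' hnQD hnZ)
  have hpair2 : ∀ x : Vec, Bd p x → pr (z' • Lv p m z' (R' * PP x)) W ≤ (1 - δ / 2) * pr x W := by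
    intro x bx
    have bPP : Bd p (PP x) := Bd_mono (PP_le x) bx
    refine (pr_mono (hop _ bPP) fun _ => le_rfl).trans ?_
    rw [smul_pr]
    refine (mul_le_mul' le_rfl (hpair x bx)).trans ?_
    have h1 : ε * nm x ≤ pr x W := nm_le_pr (fun s hs => (hW s hs).1) bx
    have h2 : nm x ≤ ε⁻¹ * pr x W := by
      calc nm x = ε⁻¹ * (ε * nm x) := by
            rw [← mul_assoc, ENNReal.inv_mul_cancel he.ne' het, one_mul]
        _ ≤ ε⁻¹ * pr x W := mul_le_mul' le_rfl h1
    calc (1 + η) ^ 3 * ((1 - δ) * (pr x W + 2 * (K * d * 2 * nm x)))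
        ≤ (1 + η) ^ 3 * ((1 - δ) * (ε * (ε⁻¹ * pr x W) + 2 * (K * d * 2 * (ε⁻¹ * pr x W)))) := by
          refine mul_le_mul' le_rfl (mul_le_mul' le_rfl (add_le_add ?_ ?_))
          · rw [← mul_assoc, ENNReal.mul_inv_cancel he.ne' het, one_mul]
          · exact mul_le_mul' le_rfl (mul_le_mul' le_rfl h2)
      _ = (1 + η) ^ 3 * ((1 - δ) * (ε + 4 * K * d)) * (ε⁻¹ * pr x W) := by ring
      _ ≤ (1 - δ / 2) * ε * (ε⁻¹ * pr x W) := mul_le_mul' hc2 le_rfl
      _ = (1 - δ / 2) * pr x W := by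
          rw [mul_assoc, ← mul_assoc ε, ENNReal.mul_inv_cancel he.ne' het, one_mul]
  -- the limit
  have hlim : ∀ F : Ser, Bs p F → (∀ N, pr (evt z' N F) W ≤ C₁ * (δ / 2)⁻¹) →
      nm (ev z' F) ≤ C := by
    intro F hF h
    have h1 : nm (ev z' F) = ⨆ N, pr (evt z' N F) (fun s => 1 + (Multiset.card s : ℝ≥0∞)) :=
      (hA5 z' F).2.2 _
    rw [h1]
    refine iSup_le fun N => ?_
    have h2 : ε * nm (evt z' N F) ≤ C₁ * (δ / 2)⁻¹ :=
      (nm_le_pr (fun s hs => (hW s hs).1) ((hV11 z' F hF).2 N)).trans (h N)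
    have h3 : nm (evt z' N F) ≤ C₂ := by
      calc nm (evt z' N F) = ε⁻¹ * (ε * nm (evt z' N F)) := by
            rw [← mul_assoc, ENNReal.inv_mul_cancel he.ne' het, one_mul]
        _ ≤ C₂ := mul_le_mul' le_rfl h2
    refine h3.trans ?_
    rw [hC, add_assoc]
    exact le_self_add
  have hVb : ∀ N, pr (evt z' N V) W ≤ C₁ * (δ / 2)⁻¹ := by
    have b0 : ∀ N, Bd p (evt z' N V) := (hV11 z' V hP2.2.2.2.2.1).2
    refine rec_bound hd hd1 ?_ ?_
    · rw [(hA5 z' V).1, pr_zero]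
    · intro N
      refine (pr_mono (hT6 N) fun _ => le_rfl).trans ?_
      have h1 : z' • Lv p m z' (R' * (1 + PP (evt z' N V))) =
          z' • Lv p m z' (R' * 1) + z' • Lv p m z' (R' * PP (evt z' N V)) := by
        rw [mul_add, hV6, smul_add]
      rw [h1, pr_add]
      refine add_le_add ?_ (hpair2 _ (b0 N))
      refine (pr_mono (hop 1 (Bd_one p)) fun _ => le_rfl).trans ?_
      rw [smul_pr, mul_one]
      have b1 : Bd p (z • Lv p m z (R * Z)) := Bd_smul _ (hV9 z _)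
      have h2 : nm (z • Lv p m z (R * Z)) ≤ 2 * m * (K * 2) := by
        rw [(hN3 _ _).2.2]
        calc z * nm (Lv p m z (R * Z)) ≤ 1 * (2 * m * nm (R * Z)) :=
              mul_le_mul' hz1.le (hN6 p m z _ hp hm hz1.le (hmul _ _ bR bZ)).2.2
          _ = 2 * m * nm (R * Z) := one_mul _
          _ ≤ 2 * m * (K * 2) :=
              mul_le_mul' le_rfl (((hN1 _ _).2.2.2.1).trans (mul_le_mul' hKR hnZ))
      rw [hC₁]
      refine le_trans ?_ le_add_self
      refine mul_le_mul' le_rfl ?_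
      exact (pr_le_nm (fun s hs => (hW s hs).2) b1).trans (mul_le_mul' le_rfl h2)
  have hUb : ∀ N, pr (evt z' N U) W ≤ C₁ * (δ / 2)⁻¹ := by
    have b0 : ∀ N, Bd p (evt z' N U) := (hV11 z' U hP2.2.2.2.2.2.1).2
    refine rec_bound hd hd1 ?_ ?_
    · rw [(hA5 z' U).1, pr_zero]
    · intro N
      refine (pr_mono (hT7 N) fun _ => le_rfl).trans ?_
      rw [pr_add]
      refine add_le_add ?_ (hpair2 _ (b0 N))
      rw [hC₁]
      refine le_trans ?_ le_self_add
      refine (pr_le_nm (fun s hs => (hW s hs).2) (hadd _ _ (Bd_one p) bE')).trans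
        (mul_le_mul' le_rfl ?_)
      rw [(hN1 _ _).2.2.2.2.2.2, hN4.2.2]
      exact add_le_add le_rfl hnE'
  refine ⟨hlim V hP2.2.2.2.2.1 hVb, hlim U hP2.2.2.2.2.2.1 hUb, ?_, ?_⟩
  · refine hnE'.trans ?_
    rw [hC, add_comm C₂, add_assoc]
    exact le_self_add
  · refine hnQ'.trans ?_
    rw [hC]
    exact le_add_self

end Pool.Agent.Lib.MPba1bba.AS
end
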