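import Pool.Agent.Lib.MP_ba1bba_al.AS.Defs

/-!
# MP_ba1bba_al, asymptotics: Specs of all modules (proofs in the docstrings)

The landed theorems of `Pool/Agent/Lib/MP_ba1bba_al` (`specIC`, `specEFN`, `specBFN`, `specSRT`,
`specSTR`, `specEFF`, `main`, ...) may be imported and used in every module.
Pairing `⟨x, f⟩ = Vec.pr x f`. `K`, `C` ... are finite constants.
Facts on `Vec` (commutative semiring with convolution product, `Vec.geo x = ∑ xⁿ`, `pr_mul'`,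
`geo_eq`, `geo_le`, monotonicity) are in `AS/Vec.lean`.
-/

open scoped ENNReal
open Classical

namespace Pool.Agent.Lib.MPba1bba.AS

open Pool.Agent.Lib.MPba1bba Vec

/-! ## I. Profiles -/

/-- **INJ** [150]. Injection lemma. For `ρ` in the left set (with representative in `[0,M)`) let `x = x(ρ)`
be: `G(ρ - x)` minimal among all `x` with `h x + G(ρ - x) ≤ n`, and, among these, `x` maximal (the set
`{x | h x ≤ n}` is finite). Write `x = r + m j`, `0 ≤ r < m`, and map `ρ` to `(r, (ρ - x + j) mod M)`; this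
is in the right set, by `j` and periodicity. Injective: let `ρ, ρ'` have the same image, `x = r + m j`,
`x' = r + m j'`, `t = ρ - x`, `t' = ρ' - x'`, so `t + j ≡ t' + j'` mod `M`. If `j = j'` then `x = x'`, `ρ ≡ ρ'`.
Let `j < j'`, `d = j' - j`, `1 ≤ d ≤ m d = x' - x`. (a) `G(t) ≥ G(t')`: let `w = x + d ∈ (x, x']`; `ρ - w ≡ t'`, so
`G(ρ - w) = G(t') ≤ G(t)`, `h w ≤ max (h x) (h x') ≤ n - G(t')`; so `w` is admissible for `ρ`, by minimality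
`G(ρ-w) = G(ρ - x)`, and `w > x` contradicts the maximality of `x`. (b) `G(t) < G(t')`: let
`w = x' - d ∈ [x, x')`, `ρ' - w ≡ t`, `G(ρ' - w) = G(t) < G(t')` and `h w ≤ max (h x) (h x') ≤ n - G(t)`: `w` is
admissible for `ρ'` with a smaller value of `G`, contradiction. -/
def SpecINJ : Prop := ∀ (m M n : ℕ) (h G : ℤ → ℕ), 1 ≤ m → 1 ≤ M →
  (∀ k : ℕ, {x : ℤ | h x ≤ k}.Finite) → (∀ x y w : ℤ, x ≤ w → w ≤ y → h w ≤ max (h x) (h y)) →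
  (∀ x : ℤ, G (x + M) = G x) →
  ((Finset.range M).filter fun ρ : ℕ => ∃ x : ℤ, h x + G ((ρ : ℤ) - x) ≤ n).card ≤
    ∑ r ∈ Finset.range m,
      ((Finset.range M).filter fun ρ : ℕ => ∃ j : ℤ, h (r + m * j) + G ((ρ : ℤ) - j) ≤ n).card

/-- **LAY** [80], from INJ. Layer cake: for `z < 1` and `v : ℕ`, `z^v = (1 - z) ∑_n [v ≤ n] zⁿ`
(`ENNReal.tsum_geometric`), and `ic h G ρ ≤ n ↔ ∃ x, h x + G (ρ - x) ≤ n` (`specIC`); so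
`AA z M h G = (1 - z) ∑_n zⁿ card {ρ | ...}`. -/
def SpecLAY : Prop := ∀ (m M : ℕ) (h G : ℤ → ℕ) (z : ℝ≥0∞), z < 1 → 1 ≤ m → 1 ≤ M →
  (∀ k : ℕ, {x : ℤ | h x ≤ k}.Finite) → (∀ x y w : ℤ, x ≤ w → w ≤ y → h w ≤ max (h x) (h y)) →
  (∀ x : ℤ, G (x + M) = G x) →
  AA z M h G ≤ ∑ r ∈ Finset.range m, AA z M (fun j => h (r + m * j)) G

/-- **FUT** [200]. The futures of a state. Induction on `n`. `n = 0`: `I = Unit`, `w = 1`, `G = 0`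
(`b_s` has a zero by `specBFN`/`specSRT`; `ic (b_s(r + m ·)) 0 = cmin`). The fourth statement for `n` follows
from the third for `n`: `z^{cmin(s,r)} AA z M b_{sml(s,r)} G = AA z M (b_s(r + m ·)) G` for `G` of period
`M = mⁿ` with `(p |.|) □ G = G`: by `specSTR`, `b_s(r+m ·) □ (p|.|) = cmin + b_sml(· - y)`, so
`b_s(r+m ·) □ G = b_s(r+m ·) □ (p|.|) □ G = cmin + (b_sml □ G)(· - y)`, and a sum over the residues mod `M` of a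
periodic function does not change under a shift. `n + 1` from `n`: `φ_{n+1}(s) = z ∑_c R_c (Ld φ_n)(s + c)`, only
`c` with `bs p c` contribute, `s + c` is again bounded; by the fourth statement it is
`z ∑_c R_c ∑_i w_i ∑_{r<m} ∑_{ρ<mⁿ} z^{(b_{s+c}(r + m ·) □ G_i)(ρ)}`. Take the index set `Multiset ℤ × I` (only
bounded `c`, put weight `0` and `G = 0` for the others), the weight `z R_c w_i` and
`G'(y) = min_j b_c(y - m j) + G_i(j)`: it has period `m^{n+1}` (`j → j + mⁿ`), satisfies `(p|.|) □ G' = G'` as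
`(p|.|) □ b_c = b_c` (`specBFN` with `s = 0`), and `(b_s □ G')(r + m ρ) = min_j (b_s □ b_c)(r + m (ρ - j)) + G_i(j)
= (b_{s+c}(r + m ·) □ G_i)(ρ)`; the numbers `r + m ρ`, `r < m`, `ρ < mⁿ` are the numbers below `m^{n+1}`. -/
def SpecFUT : Prop := ∀ (p m : ℕ) (z : ℝ≥0∞) (R : Vec), 1 ≤ p → 1 ≤ m → Bd p R → ∀ n : ℕ,
  ∃ (I : Type) (w : I → ℝ≥0∞) (G : I → ℤ → ℕ),
    (∀ i (x : ℤ), G i (x + ((m ^ n : ℕ) : ℤ)) = G i x) ∧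
    (∀ i, ic (fun j => p * j.natAbs) (G i) = G i) ∧
    (∀ s, bs p s → phi p m z R n s = ∑' i, w i * AA z (m ^ n) (bfun p s) (G i)) ∧
    (∀ s, bs p s → Ld p m z (phi p m z R n) s =
      ∑' i, w i * ∑ r ∈ Finset.range m, AA z (m ^ n) (fun j => bfun p s (r + m * j)) (G i))

/-- **KLI** [150], from LAY, FUT. (1) termwise by LAY with `h = b_s` (sublevel sets finite and
`h w ≤ max (h x) (h y)`: by the sorted formula `specSRT`, `b_s` decreases up to the number of negative slopes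
and increases afterwards; or: it is convex). (2) `b_s(j₀) = 0` for some `j₀`, so `b_s(x) ≤ p |x - j₀|` (Lipschitz),
`(b_s □ G)(ρ) ≤ (b_∅ □ G)(ρ - j₀)`; sum over the residues with periodicity. (3) by `specBFN`,
`b_s(x) ≥ p |x - a|` for some `a ≤ card s` (`a = card A`), so `z^{(b_s □ G)(ρ)} ≤ ∑_{a ≤ card s} z^{(b_∅ □ G)(ρ - a)}`
(`z ≤ 1`), and each `a` contributes `AA z M b_∅ G`. -/
def SpecKLI : Prop := ∀ (p m : ℕ) (z : ℝ≥0∞) (R : Vec), 1 ≤ p → 1 ≤ m → z < 1 → Bd p R →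
  ∀ (n : ℕ) (s : Multiset ℤ), bs p s →
    phi p m z R n s ≤ Ld p m z (phi p m z R n) s ∧
    phi p m z R n 0 ≤ phi p m z R n s ∧
    phi p m z R n s ≤ (Multiset.card s + 1) * phi p m z R n 0

/-- **SMC** [180]. Facts on samples. (1) definition of `sml`. (2) there is `j₀` with `b_s(j₀) = 0`, a point of the
class of `r` at distance `≤ m`, and `b_s` is `p`-Lipschitz. (3) the class of `j₀`. (4) `b_s` is described by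
`specSRT` with `n = card s` sorted slopes, increments `-p` before `0` and `p` after `n`; `card (sml s r)` is the
number of `j` with `|b_s(r + m (j+1)) - b_s(r + m j)| < p`; for `k = r + m j ≤ -m` the difference is `-p m`, for
`k ≥ n` it is `p m`; so these `k`, for all `r` together, are in `(-m, n)`. (5) if `n ≥ 2` take `r = 0`: the windows
`[m j, m (j + 1))` have `j ≥ 0`, `m j < n`, their number is `≤ (n + m - 1)/m < n`. If `n = 1`, `s = {x}`: if `m ≥ 3`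
take `r = 0` (only `j = 0` could count, with difference `x + p (m-1) ≥ p`); if `m = 2` take `r = 0` if `x ≥ 0`
(difference `x + p`) and `r = 1` if `x < 0` (only `k = -1` could count, `r + m j = -1`, difference `-p + x`; the
next one `k = 1` has `2p`). (6) `b_∅ = p |.|`. (7) for `b_∅` the only `k = r + m j` that can count is the one with
`-m < k < 0` (for `k ≥ 0` or `k ≤ -m` the difference is `± p m`). (8) take a zero `j₀` of `b_s`: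
`b_s □ e ≤ b_s(j₀) + e(0) = 0` at `k = j₀`. -/
def SpecSMC : Prop := ∀ p m : ℕ, 2 ≤ p → 2 ≤ m →
  (∀ s r, bs p (sml p m s r)) ∧
  (∀ s r, bs p s → r < m → cmin p m s r ≤ p * m) ∧
  (∀ s, bs p s → ∃ r < m, cmin p m s r = 0) ∧
  (∀ s, bs p s → ∑ r ∈ Finset.range m, Multiset.card (sml p m s r) ≤ Multiset.card s + m) ∧
  (∀ s, bs p s → s ≠ 0 → ∃ r < m, Multiset.card (sml p m s r) < Multiset.card s) ∧
  (cmin p m 0 0 = 0 ∧ sml p m 0 0 = 0) ∧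
  (∀ r < m, Multiset.card (sml p m 0 r) ≤ 1) ∧
  (∀ s, bs p s → ∃ k : ℤ, ic (bfun p s) (efun p m) k = 0)

/-! ## II. The Lyapunov function -/

/-- **LYA** [200]. Foster-Lyapunov lemma. We may replace `c`, `a` by `min c 1`, `min a 1`; `c ≤ μ(0)`. Let
`K₀ : ℕ` with `K₀ (1 - θ) ≥ 2 D`, `K₀ ≥ 1`, `η(s) = (c/2) (a/2)^{#s}` if `#s ≤ K₀`, else `0`; `η ≤ 1/2 ≤ μ/2`.
`V = μ - η ≥ 1/2`. By additivity `T V + T η = T μ`. (i) `s = 0`: `T V(0) ≤ T μ(0) ≤ μ(0) - c ≤ V(0) - c/2`.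
(ii) `1 ≤ #s ≤ K₀`: `T η(s) ≥ a η(t) ≥ a (c/2)(a/2)^{#s - 1} = 2 η(s)`, so `T V(s) ≤ μ(s) - 2 η(s) = V(s) - η(s)`. In both
cases the gain is at least `γ = (c/2) (a/2)^{K₀}`. (iii) `#s > K₀`: `T V(s) ≤ T μ(s) ≤ μ(s) = V(s)`.
Let `ε = min(γ/(2 (D + 1)), 1/2)` and `W = V + ε #`. Then `T W(s) ≤ T V(s) + ε θ #s + ε D`. If `#s ≤ K₀`:
`T W ≤ V - γ + ε #s + γ/2 = W - γ/2 ≤ W - γ/(2 (1 + K₀)) (1 + #s)`. If `#s > K₀`: `ε θ #s + ε D ≤ ε #s - ε (1-θ) #s / 2`,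
so `T W ≤ W - ε (1-θ) #s/2 ≤ W - (ε (1-θ)/4) (1 + #s)`. With `δ' = min(γ/(2(1+K₀)), ε (1-θ)/4)` and
`W ≤ 2 (1 + #s)`, `T W ≤ (1 - δ'/2) W`. `W ≥ 1/2 + ε #s ≥ ε (1 + #s)`. (Work with real numbers if you like; all values
are finite: `T μ ≤ μ < ∞`.) -/
def SpecLYA : Prop := ∀ (c θ D a : ℝ≥0∞), c ≠ 0 → a ≠ 0 → θ < 1 → D ≠ ∞ →
  ∃ ε δ : ℝ≥0∞, 0 < ε ∧ ε ≤ 1 ∧ 0 < δ ∧ δ < 1 ∧
    ∀ (B : Multiset ℤ → Prop) (T : Fn → Fn) (μ : Fn), B 0 →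
      (∀ f g : Fn, T (fun s => f s + g s) = fun s => T f s + T g s) →
      (∀ (b : ℝ≥0∞) (f : Fn), T (fun s => b * f s) = fun s => b * T f s) →
      (∀ f g : Fn, (∀ s, B s → f s ≤ g s) → ∀ s, B s → T f s ≤ T g s) →
      (∀ s, B s → 1 ≤ μ s ∧ μ s ≤ 1 + (Multiset.card s : ℝ≥0∞)) →
      (∀ s, B s → T μ s ≤ μ s) → T μ 0 + c ≤ μ 0 →
      (∀ s, B s → T (fun t => (Multiset.card t : ℝ≥0∞)) s ≤ θ * Multiset.card s + D) →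
      (∀ s, B s → s ≠ 0 → ∃ t, B t ∧ Multiset.card t < Multiset.card s ∧ ∀ f : Fn, a * f t ≤ T f s) →
      ∃ W : Fn, (∀ s, B s → ε * (1 + Multiset.card s) ≤ W s ∧ W s ≤ 2 * (1 + Multiset.card s)) ∧
        ∀ s, B s → T W s ≤ (1 - δ) * W s

/-! ## III. Evaluation of series -/

/-- **EVA** [180]. Evaluation is compatible with the ring operations on series with nonnegative coefficients
(Tonelli in `[0,∞]`; the coefficient of `u` in `F * G` at degree `n` is the finite sum of the products of the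
coefficients of `s`, `t` with `s + t = u` over the antidiagonal of `n`; for nonnegative integers `toNat` is
additive and multiplicative; `AddMonoidAlgebra` multiplication: `AddMonoidAlgebra.mul_apply` or a sum over the
supports). The truncated products are smaller as all terms are nonnegative. -/
def SpecEVA : Prop :=
  (Nn 1 ∧ Nn 0 ∧ ∀ z N, ev z 1 = 1 ∧ evt z (N + 1) 1 = 1 ∧ ev z 0 = 0) ∧
  (∀ F G : Ser, Nn F → Nn G → Nn (F + G) ∧ Nn (F * G) ∧ Nn (PowerSeries.X * F)) ∧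
  (∀ (z : ℝ≥0∞) (F G : Ser), Nn F → Nn G →
    ev z (F + G) = ev z F + ev z G ∧ ev z (F * G) = ev z F * ev z G ∧
    ev z (PowerSeries.X * F) = z • ev z F) ∧
  (∀ (z : ℝ≥0∞) (N : ℕ) (F G : Ser), Nn F → Nn G →
    evt z N (F + G) = evt z N F + evt z N G ∧ evt z N (F * G) ≤ evt z N F * evt z N G ∧
    evt z (N + 1) (PowerSeries.X * F) = z • evt z N F) ∧
  (∀ (z : ℝ≥0∞) (F : Ser), evt z 0 F = 0 ∧ (∀ N, evt z N F ≤ evt z (N + 1) F ∧ evt z N F ≤ ev z F) ∧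
    (∀ f : Fn, pr (ev z F) f = ⨆ N, pr (evt z N F) f)) ∧
  (∀ (z z' : ℝ≥0∞) (F : Ser), z ≤ z' → ev z F ≤ ev z' F)

/-- **EVL** [150]. Evaluation and the section operator. Additivity of `lam`: it is a sum over the support of an
additive expression (`Finsupp.sum_add_index'`); see also the landed modules. -/
def SpecEVL : Prop := ∀ p m : ℕ,
  (∀ F G : Ser, lam p m (F + G) = lam p m F + lam p m G) ∧
  (∀ F : Ser, Nn F → Nn (lam p m F)) ∧ (∀ F : Ser, Bs p (lam p m F)) ∧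
  (∀ (z : ℝ≥0∞) (F : Ser), Nn F → ev z (lam p m F) = Lv p m z (ev z F) ∧
    ∀ N, evt z N (lam p m F) ≤ Lv p m z (evt z N F)) ∧
  (∀ (z : ℝ≥0∞) (x : Vec) (f : Fn), pr (Lv p m z x) f = pr x (Ld p m z f)) ∧
  (∀ (z : ℝ≥0∞) (x y : Vec), Lv p m z (x + y) = Lv p m z x + Lv p m z y) ∧
  (∀ (z c : ℝ≥0∞) (x : Vec), Lv p m z (c • x) = c • Lv p m z x) ∧
  (∀ (z : ℝ≥0∞) (x y : Vec), x ≤ y → Lv p m z x ≤ Lv p m z y) ∧
  (∀ (z : ℝ≥0∞) (x : Vec), Bd p (Lv p m z x)) ∧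
  (∀ x y : Vec, Bd p x → Bd p y → Bd p (x * y) ∧ Bd p (x + y)) ∧
  (∀ (z : ℝ≥0∞) (F : Ser), Bs p F → Bd p (ev z F) ∧ ∀ N, Bd p (evt z N F))

/-- **UVX** [150]. For all series `A, R` the equation `V = A + z Λ(R (V - V_∅))` has exactly one solution
(coefficient by coefficient: the coefficient of `zⁿ` of the right side depends only on the coefficients of `V` of
degree `< n`); it is nonnegative and bounded if `A` and `R` are. -/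
def SpecUVX : Prop := ∀ (p m : ℕ) (A R : Ser),
  ∃ V : Ser, V = A + PowerSeries.X * lam p m (R * rm0 V) ∧
    (∀ V' : Ser, V' = A + PowerSeries.X * lam p m (R * rm0 V') → V' = V) ∧
    (Nn A → Nn R → Nn V) ∧ (Bs p A → Bs p V)

/-- **PSR** [180], from EVA, EVL, UVX, SMC. Positivity and boundedness. `Y` is clear. `Q = Y + Y E Q`,
`E = z² (Λ(1) - 1) + z² Λ(E + Q (1+E)²)` with `Λ(1) - 1 = ∑_{1 ≤ r < m} z^{cmin(∅,r)} [sml(∅,r)]` nonnegative,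
`H = z Λ(R' (1+E+H))`: simultaneous induction on the degree for `Q`, `E` (all coefficients of degree `< n` are
nonnegative; use e.g. truncations and `SpecEVA` (2)), then for `H`. `R' = 1 + Y + Y E R'` (ring identity).
`V = z Λ(R') + z Λ(R' rm0 V)`. The coefficient of `z¹ [∅]` of `V`: `Λ(R' (1 + rm0 V))` has the constant
coefficient `Λ([∅]) = [∅]` + nonnegative terms (`cmin ∅ 0 = 0`, `sml ∅ 0 = 0`). The coefficient of degree `0` of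
`V` is `0` and the one of `U` at `∅` is `≥ 1`. The last: `(2 : ℤ) - p` is the slope of the letter `i = 1` of `Y`,
`Q = Y + (nonnegative)`. -/
def SpecPSR : Prop := ∀ (p m : ℕ) (Q E H V U : Ser), Dat p m Q E H V U →
  (Nn (serY p) ∧ Nn Q ∧ Nn E ∧ Nn H ∧ Nn V ∧ Nn U ∧ Nn (serR Q E) ∧ Nn (lam p m 1 - 1) ∧
    Nn (rm0 V) ∧ Nn (rm0 U)) ∧
  (Bs p (serY p) ∧ Bs p Q ∧ Bs p E ∧ Bs p H ∧ Bs p V ∧ Bs p U ∧ Bs p (serR Q E)) ∧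
  (serR Q E = 1 + serY p + serY p * E * serR Q E) ∧
  (PowerSeries.coeff 0 (cf0 V) = 0 ∧ 1 ≤ PowerSeries.coeff 1 (cf0 V) ∧
    1 ≤ PowerSeries.coeff 0 (cf0 U)) ∧
  0 < (PowerSeries.coeff 1 Q).coeff ({2 - (p : ℤ)} : Multiset ℤ)

/-- **EQZ** [120], from EVA, EVL, PSR. The equations after evaluation. For the first write the equation as
`E + z² = z² Λ((1 + E) R')`, as `1 + E + Q (1+E)² = (1 + E) R'`. `ev z (F - F_∅) = PP (ev z F)`. -/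
def SpecEQZ : Prop := ∀ (p m : ℕ) (Q E H V U : Ser), Dat p m Q E H V U → ∀ z : ℝ≥0∞,
  ev z E + z ^ 2 • 1 = z ^ 2 • Lv p m z ((1 + ev z E) * ev z (serR Q E)) ∧
  ev z Q = ev z (serY p) + ev z (serY p) * ev z E * ev z Q ∧
  ev z (serR Q E) = 1 + ev z Q * (1 + ev z E) ∧
  ev z (serR Q E) = 1 + ev z (serY p) + ev z (serY p) * ev z E * ev z (serR Q E) ∧
  ev z (1 + E + H) = 1 + ev z E + z • Lv p m z (ev z (serR Q E) * ev z (1 + E + H)) ∧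
  ev z V = z • Lv p m z (ev z (serR Q E) * (1 + PP (ev z V))) ∧
  ev z U = 1 + ev z E + z • Lv p m z (ev z (serR Q E) * PP (ev z U))

/-- **EQT** [180], from EVA, EVL, PSR. Upper bounds for truncations, `x_N = evt z N E`, `Y = ev z (serY p)`.
(1) `E = z² (Λ(..) - 1)`, and the coefficient of degree `0` of `Λ((1+E) R')` is `[∅]` [so `E` has order `≥ 3`; here we
only need that the coefficients of degree `0, 1` vanish]. (2) `R' = 1 + Y + Y E R'`, `Y` has order `≥ 1`, so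
`evt (N+1) R' ≤ 1 + Y + Y x_N evt N R'`, and by induction `evt N R' ≤ (1 + Y) geo (Y x_N)` (`geo_eq`, monotonicity).
(3) for `N ≥ 2` the truncation at `N + 1 ≥ 3` of `E + z² = z² Λ((1+E) R')`. (4) as (2) with `geo_le`, or pass to the
supremum. (5) `V`, (6) `U`: truncate the equations. (7) `G = 1 + E + H = U + V G_∅`-type bound: see ZST. -/
def SpecEQT : Prop := ∀ (p m : ℕ) (Q E H V U : Ser), Dat p m Q E H V U → ∀ z : ℝ≥0∞,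
  evt z 2 E = 0 ∧
  (∀ N, evt z N (serR Q E) ≤ (1 + ev z (serY p)) * geo (ev z (serY p) * evt z N E)) ∧
  (∀ N, 2 ≤ N → evt z (N + 1) E + z ^ 2 • 1 ≤
    z ^ 2 • Lv p m z ((1 + evt z N E) * ((1 + ev z (serY p)) * geo (ev z (serY p) * evt z N E)))) ∧
  ev z (serR Q E) = (1 + ev z (serY p)) * geo (ev z (serY p) * ev z E) ∧
  ev z Q = ev z (serY p) * geo (ev z (serY p) * ev z E) ∧
  (∀ N, evt z (N + 1) V ≤ z • Lv p m z (ev z (serR Q E) * (1 + PP (evt z N V)))) ∧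
  (∀ N, evt z (N + 1) U ≤ 1 + ev z E + z • Lv p m z (ev z (serR Q E) * PP (evt z N U)))

/-! ## IV. Bounds below the radius of convergence -/

/-- **NRM** [100], from SMC, EVL. Norms. `nm = ms + nu`, `ms` is multiplicative, `nu` a derivation,
`1 + #(s+t) ≤ (1 + #s)(1 + #t)`. `nu (xⁿ) = n (ms x)^{n-1} nu x`, so `nu (geo x) = nu x (∑ n (ms x)^{n-1})
= nu x (∑ (ms x)ⁿ)²`. For bounded `x`: `nu (L x) ≤ nu x + m ms x`, `ms (L x) ≤ m ms x` (`z ≤ 1`, SMC (4)).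
`geo`: `nm (geo x) ≤ ∑ (nm x)ⁿ`. -/
def SpecNRM : Prop :=
  (∀ x y : Vec, ms (x * y) = ms x * ms y ∧ nu (x * y) = nu x * ms y + ms x * nu y ∧
    nm x = ms x + nu x ∧ nm (x * y) ≤ nm x * nm y ∧ ms (x + y) = ms x + ms y ∧
    nu (x + y) = nu x + nu y ∧ nm (x + y) = nm x + nm y) ∧
  (∀ x y : Vec, x ≤ y → ms x ≤ ms y ∧ nu x ≤ nu y ∧ nm x ≤ nm y) ∧
  (∀ (c : ℝ≥0∞) (x : Vec), ms (c • x) = c * ms x ∧ nu (c • x) = c * nu x ∧ nm (c • x) = c * nm x) ∧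
  (ms 1 = 1 ∧ nu 1 = 0 ∧ nm 1 = 1) ∧
  (∀ x : Vec, ms (geo x) = ∑' n : ℕ, ms x ^ n ∧ nu (geo x) = nu x * ms (geo x) ^ 2 ∧
    nm (geo x) ≤ ∑' n : ℕ, nm x ^ n) ∧
  (∀ (p m : ℕ) (z : ℝ≥0∞) (x : Vec), 2 ≤ p → 2 ≤ m → z ≤ 1 → Bd p x →
    nu (Lv p m z x) ≤ nu x + m * ms x ∧ ms (Lv p m z x) ≤ m * ms x ∧ nm (Lv p m z x) ≤ 2 * m * nm x) ∧
  (∀ (p : ℕ) (z : ℝ≥0∞), z ≤ 1 → ms (ev z (serY p)) ≤ p ∧ nu (ev z (serY p)) ≤ p ∧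
    (2 ≤ p → z ≤ ms (ev z (serY p))))

/-- **BAS** [150], from KLI, SMC, EVL, PSR, EQZ. Let `G = ev z (1 + E + H)`, `R = ev z R'`, `ms G < ∞`, `z < 1`.
(1) `G ≥ 1 + k G`, `k x = z L(R x)`, so `G ≥ ∑_{j<n} kʲ 1` and `ms (kʲ 1) = ⟨1, φ_j⟩ = φ_j(∅)` (duality
`⟨k x, f⟩ = ⟨x, opd f⟩`). (2) `φ_{n+1}(s) = z ⟨R, Ld φ_n (s + ·)⟩ ≥ z ms(R) (1 + z^{pm}) φ_n(∅)`, since
`Ld φ_n(t) ≥ φ_n(∅) ∑_r z^{cmin(t,r)}` (KLI (2)), one `cmin` is `0` and the others are `≤ p m`, `m ≥ 2`; so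
`φ_n(∅) ≥ (z ms(R)(1+z^{pm}))ⁿ`, the sum is finite. (3) the term `c = ∅` (`R_∅ ≥ 1`) of `φ_{n+1}(∅)` is at least
`z (Ld φ_n)(∅) ≥ z (1 + ∑_{1≤r<m} z^{cmin(∅,r)}) φ_n(∅)`. (4) `R = 1 + Y + Y E R` and `ms R < ∞`
(`R ≤` by (2); `z ≠ 0`): `ms R ≥ 1 + ms Y ms E ms R`. -/
def SpecBAS : Prop := ∀ (p m : ℕ) (Q E H V U : Ser), Dat p m Q E H V U → ∀ z : ℝ≥0∞, z ≠ 0 → z < 1 →
  ms (ev z (1 + E + H)) ≠ ∞ →
  ∑' n : ℕ, phi p m z (ev z (serR Q E)) n 0 ≤ ms (ev z (1 + E + H)) ∧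
  z * ms (ev z (serR Q E)) * (1 + z ^ (p * m)) ≤ 1 ∧
  z * (1 + ∑ r ∈ Finset.Ico 1 m, z ^ cmin p m 0 r) ≤ 1 ∧
  ms (ev z (serY p)) * ms (ev z E) ≤ 1

/-- **NOR** [200], from NRM, BAS, EQT, PSR, EVA, EVL. Uniform bounds for the norms. `x = x_N = evt z N E ≤ ev z E`,
`g = ms (geo (Y x)) ≤ ms R`, `1 + y x g = g` with `y = ms Y`, `x` also for `ms x`. By EQT (3)
`nu x_{N+1} ≤ z² (nu ((1+x) R(x)) + m ms ((1+x) R(x)))`, `R(x) = (1 + Y) geo (Y x)`, `ms R(x) = (1+y) g ≤ ms R`,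
`nu (geo (Y x)) = (nu Y ms x + y nu x) g²`, so `nu ((1+x) R(x)) = nu x (1+y) g + (1 + x)(nu Y g + (1+y)(nu Y x +
y nu x) g²)`; the coefficient of `nu x` is `(1+y) g (1 + (1+x) y g) = ((1+y) g)²`, as `1 + y x g = g`. So
`nu x_{N+1} ≤ (z ms R)² nu x_N + C`, with `z ms R ≤ 1/(1 + z₀^{pm}) < 1` (BAS) and `C` bounded
(`ms R ≤ 1/z`, `ms E ≤ 1/ms Y ≤ 1/z`, `ms Y, nu Y ≤ p`), `nu x_2 = 0`; so `nu x_N ≤ C/(1 - θ²)` and
`nu (ev z E)` is the supremum. Then `nu R' = nu Y g + (1+y) nu(Y E) g²` and `Q ≤ R'` (`R' = 1 + Q (1+E)`). -/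
def SpecNOR : Prop := ∀ (p m : ℕ) (Q E H V U : Ser), Dat p m Q E H V U → ∀ z₀ : ℝ≥0∞, z₀ ≠ 0 →
  ∃ K : ℝ≥0∞, K ≠ ∞ ∧ 1 ≤ K ∧ ∀ z, z₀ ≤ z → z < 1 → ms (ev z (1 + E + H)) ≠ ∞ →
    nm (ev z E) ≤ K ∧ nm (ev z (serR Q E)) ≤ K ∧ nm (ev z Q) ≤ K

/-- **GAP** [250], from LYA, KLI, SMC, EVL, PSR, EQZ, BAS, NOR, NRM. The uniform spectral gap. Let
`R = ev z R'`, `Φ = ∑_n φ_n`, finite by BAS and KLI, `μ = Φ/Φ(∅)`, `1 ≤ μ_s ≤ 1 + #s` for bounded `s`;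
`opd z R Φ = Φ - 1`; `Φ ≤ Ld Φ` on bounded states, and `Ld Φ(∅) = Φ(∅) + ∑_{r ≥ 1} z^{cmin} Φ(sml) ≥ (1 + z^{pm}) Φ(∅)`.
Operator `T₂ f (s) = 0` if `s = ∅`, `opd z R f s` otherwise: `T₂ μ ≤ μ`, `T₂ μ(∅) + 1 ≤ μ(∅)`.
`T₂(#)(s) ≤ z ∑_c R_c (#s + #c + m) = z ms(R) #s + z (nu R + m ms R)` (SMC (4)). Operator
`T₁ f (s) = opd (z²) (R R) f s = z ⟨R, c ↦ opd z R f (s + c)⟩`: `T₁ Φ(s) ≤ z ⟨R, c ↦ Φ(s+c)⟩ ≤ opd z R Φ (s) -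
[s = ∅] z · z^{pm} Φ(∅) ≤ Φ(s) - [s = ∅] z^{1+pm} Φ(∅)` (KLI and `R_∅ ≥ 1`).
`T₁(#)(s) ≤ z² (ms R)² #s + z² (2 nu R ms R + m (ms R)²)`. Transitions: `T f (s) ≥ z^{2+pm} f(sml(s,r))` with the `r` of
SMC (5). Apply LYA with `c = a = z₀^{2+pm}`, `θ = 1/(1 + z₀^{pm})` (BAS (2)), `D = 2 K² + m K²`, `B = bs p`. -/
def SpecGAP : Prop := ∀ (p m : ℕ) (Q E H V U : Ser), Dat p m Q E H V U → ∀ z₀ : ℝ≥0∞, z₀ ≠ 0 →
  ∃ ε δ : ℝ≥0∞, 0 < ε ∧ ε ≤ 1 ∧ 0 < δ ∧ δ < 1 ∧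
    ∀ z, z₀ ≤ z → z < 1 → ms (ev z (1 + E + H)) ≠ ∞ →
    ∃ W₁ W₂ : Fn,
      (∀ s, bs p s → ε * (1 + Multiset.card s) ≤ W₁ s ∧ W₁ s ≤ 2 * (1 + Multiset.card s)) ∧
      (∀ s, bs p s → ε * (1 + Multiset.card s) ≤ W₂ s ∧ W₂ s ≤ 2 * (1 + Multiset.card s)) ∧
      (∀ s, bs p s → opd p m z (z ^ 2) (ev z (serR Q E) * ev z (serR Q E)) W₁ s ≤ (1 - δ) * W₁ s) ∧
      (∀ s, bs p s → s ≠ 0 → opd p m z z (ev z (serR Q E)) W₂ s ≤ (1 - δ) * W₂ s)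

/-! ## V. Beyond the radius of convergence -/

/-- **MOB** [80]. Möbius identities. First `(1 + Y) Q = Y R` and `R = 1 + Y + Y E R`: ring identities from the two
hypotheses. Let `Z = geo (Q D)`, `Z = 1 + Q D Z`, `y₀ = R Z`. Then `(1 + Y) + Y (E + D) y₀ = (1+Y) + Y E R Z + Y R D Z
= (1+Y) + Y E R Z + (1 + Y) Q D Z = (1 + Y) Z + Y E R Z = R Z`, so the first by `geo_le`. The second:
`(1 + E + D) R Z = (1+E) R + (1 + E) R Q D Z + D R Z = (1+E) R + R D Z ((1+E) Q + 1) = (1 + E) R + R R D Z`. -/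
def SpecMOB : Prop := ∀ Y E Q R D : Vec, Q = Y + Y * E * Q → R = 1 + Q * (1 + E) →
  (1 + Y) * geo (Y * (E + D)) ≤ R * geo (Q * D) ∧
  (1 + E + D) * ((1 + Y) * geo (Y * (E + D))) ≤ (1 + E) * R + R * R * D * geo (Q * D)

/-- **PRT** [60], from SMC. Perturbation in `z`: `z' ≤ λ z`, `λ ≥ 1`, `Λ = λ^{p m}`: `z'^{cmin} ≤ λ^{cmin} z^{cmin}`,
`cmin ≤ p m` on bounded states, `min i (p-i) ≤ p`. -/
def SpecPRT : Prop := ∀ (p m : ℕ) (z z' l : ℝ≥0∞), 2 ≤ p → 2 ≤ m → 1 ≤ l → z' ≤ l * z →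
  (∀ x, Bd p x → Lv p m z' x ≤ l ^ (p * m) • Lv p m z x) ∧
  ev z' (serY p) ≤ l ^ (p * m) • ev z (serY p) ∧ z' ≤ l ^ (p * m) * z

/-- **PTE** [250], from MOB, PRT, NRM, EQZ, EQT, PSR, EVA, EVL. Perturbation of `E`. Notation: unprimed at `z`, primed
at `z'`, `Λ = λ^{p m}`. Let `x_N = evt z' N E`, `D = D_N = sb x_N (ev z E)`, so `x_N ≤ E + D` and `D_2 = 0`. Put
`D' = Λ D + (Λ - 1) E`, so `Λ (E + D) = E + D'`. By EQT (3) at `z'`, PRT and MOB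
`x_{N+1} + z'² ≤ z'² L'((1 + x_N) (1 + Y') geo(Y' x_N)) ≤ Λ⁴ z² L((1 + E + D') (1 + Y) geo(Y (E + D')))
≤ Λ⁴ z² L((1 + E) R + R R D' Z')`, `Z' = geo(Q D')`, `= Λ⁴ (E + z² + z² L(R R D' Z'))`. As `z ≤ z'`:
`D_{N+1} ≤ (Λ⁴ - 1)(E + z²) + Λ⁴ z² L(R R D' Z')`. Let `ρ = ⟨D_N, W⟩`, `d = nm D' ≤ Λ ρ/ε + (Λ - 1) K`. If `K d ≤ 1/2`:
`nm Z' ≤ 2`, `D' Z' = D' + D' Q D' Z'`, `⟨D' Z', W⟩ ≤ Λ ρ + 2 (Λ - 1) K + 4 K d²`, and
`⟨D_{N+1}, W⟩ ≤ (Λ⁴ - 1) 2 (K + 1) + Λ⁴ (1 - δ)(Λ ρ + 2 (Λ - 1) K + 4 K d²)`. Choose first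
`ρ* ≤ ε ρ₀` so small that `4 K (ρ*/ε)² < δ ρ*/4`, `K ρ*/ε < 1/4`, then `λ > 1` so close to `1` that the right side with
`ρ = ρ*` is `≤ ρ*` and `K d ≤ 1/2` (continuity at `Λ = 1`, where it is `≤ (1-δ)(1 + δ/4) ρ* < ρ*`). So
`⟨D_N, W⟩ ≤ ρ*` for all `N`, `nm D_N ≤ ρ*/ε ≤ ρ₀`; monotone convergence (`EVA`). -/
def SpecPTE : Prop := ∀ (p m : ℕ) (Q E H V U : Ser), Dat p m Q E H V U →
  ∀ ε δ K ρ₀ : ℝ≥0∞, 0 < ε → ε ≤ 1 → 0 < δ → δ < 1 → 1 ≤ K → K ≠ ∞ → 0 < ρ₀ →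
  ∃ l : ℝ≥0∞, 1 < l ∧ l ≠ ∞ ∧ ∀ z z' : ℝ≥0∞, z < 1 → z ≤ z' → z' ≤ l * z →
    nm (ev z E) ≤ K → nm (ev z Q) ≤ K → nm (ev z (serR Q E)) ≤ K →
    (∃ W : Fn, (∀ s, bs p s → ε * (1 + Multiset.card s) ≤ W s ∧ W s ≤ 2 * (1 + Multiset.card s)) ∧
      ∀ s, bs p s → opd p m z (z ^ 2) (ev z (serR Q E) * ev z (serR Q E)) W s ≤ (1 - δ) * W s) →
    nm (sb (ev z' E) (ev z E)) ≤ ρ₀

/-- **PTV** [250], from MOB, PRT, NRM, EQZ, EQT, PSR, EVA, EVL. Perturbation of `V`, `U`. `Λ = λ^{pm}`,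
`D = sb (ev z' E) (ev z E)`, `nm D ≤ ρ₀`, `D' = Λ D + (Λ - 1) E`, `d = nm D' ≤ Λ ρ₀ + (Λ - 1) K`, `Z' = geo(Q D')`. By EQT (4)
and MOB `ev z' R' ≤ Λ (1 + Y) geo(Y (E + D')) ≤ Λ R Z'`. For bounded `x`: `z' L'(ev z' R' · x) ≤ Λ³ z L(R Z' x)`. Let
`v_N = evt z' N V`: `v_{N+1} ≤ Λ³ z L(R Z') + Λ³ z L(R (Z' PP v_N))`, and `Z' PP v_N` has no component at `∅`, so
`⟨z L(R (Z' PP v_N)), W⟩ ≤ (1 - δ) ⟨Z' PP v_N, W⟩ ≤ (1-δ)(⟨v_N, W⟩ + 2 nm(Q D' Z') nm v_N) ≤ (1 - δ)(1 + 4 K d/ε) ⟨v_N, W⟩`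
if `K d ≤ 1/2`. With `ρ₀` small and `λ` near `1`: `Λ³ (1-δ)(1 + 4 K d/ε) ≤ 1 - δ/2`, so
`⟨v_N, W⟩ ≤ C₁ + (1 - δ/2) ⟨v_{N-1}, W⟩` is bounded, and `nm v_N ≤ ⟨v_N, W⟩/ε`. The same for `U`.
`nm (ev z' E) ≤ K + ρ₀`, `nm (ev z' R') ≤ 2 Λ K`, `Q ≤ R'`. -/
def SpecPTV : Prop := ∀ (p m : ℕ) (Q E H V U : Ser), Dat p m Q E H V U →
  ∀ ε δ K : ℝ≥0∞, 0 < ε → ε ≤ 1 → 0 < δ → δ < 1 → 1 ≤ K → K ≠ ∞ →
  ∃ l ρ₀ C : ℝ≥0∞, 1 < l ∧ 0 < ρ₀ ∧ C ≠ ∞ ∧ ∀ z z' : ℝ≥0∞, z < 1 → z ≤ z' → z' ≤ l * z → z' ≤ 1 →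
    nm (ev z E) ≤ K → nm (ev z Q) ≤ K → nm (ev z (serR Q E)) ≤ K →
    nm (sb (ev z' E) (ev z E)) ≤ ρ₀ →
    (∃ W : Fn, (∀ s, bs p s → ε * (1 + Multiset.card s) ≤ W s ∧ W s ≤ 2 * (1 + Multiset.card s)) ∧
      ∀ s, bs p s → s ≠ 0 → opd p m z z (ev z (serR Q E)) W s ≤ (1 - δ) * W s) →
    nm (ev z' V) ≤ C ∧ nm (ev z' U) ≤ C ∧ nm (ev z' E) ≤ C ∧ nm (ev z' Q) ≤ C

/-- **GFI** [120], from EVA, PSR, PSE, SMC. Some `z > 0` with `ms (ev z G) < ∞`, `G = 1 + E + H`: by the landed `main` (and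
uniqueness in it) `σ(n)` is the coefficient of `Ψ(1 + E + 2 H + Q (1+E+H)²)`, which is at least the one of `Ψ(G)`,
which is at least the mass of the coefficient of `G` (the coefficient of degree `0` of `P_s` is `≥ 1`, SMC (8)).
And `σ(n) ≤ 4ⁿ` (words in four letters). So `ms (ev z G) ≤ ∑ (4 z)ⁿ < ∞` for `z = 1/8`. -/
def SpecGFI : Prop := ∀ (p m : ℕ) (Q E H V U : Ser), Dat p m Q E H V U →
  ∃ z : ℝ≥0∞, z ≠ 0 ∧ z < 1 ∧ ms (ev z (1 + E + H)) ≠ ∞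

/-- **GUV** [150], from UVX, EVL, PSR, EVA. The decomposition `G = U + G_∅ V`, `G = 1 + E + H`, as formal series; and
`(1 - V_∅) G_∅ = U_∅`. `Λ(emb f * F) = emb f * Λ F`. Let `g = cf0 G` and `Δ = G - U - emb g * V`. From
`G = 1 + E + z Λ(R' G)`, `G = rm0 G + emb g`: `z Λ(R' rm0 Δ) = [G - (1+E) - emb g z Λ R'] - [U - (1 + E)] -
emb g [V - z Λ R'] = Δ`, so `Δ = 0` by the uniqueness in UVX (`A = 0`). Take the coefficient of `∅`. The last two statements: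
evaluation (`evs z (cf0 F) = (ev z F).co 0`, `ev z (emb f * F) = evs z f • ev z F`), and, if `B = V_∅` has `B(z) < 1` and
`U(z)`, `V(z)` are finite: the truncations satisfy `g_N ≤ U_∅ + B g_N` with `g_N` finite, so `g ≤ U_∅/(1 - B)`. -/
def SpecGUV : Prop := ∀ (p m : ℕ) (Q E H V U : Ser), Dat p m Q E H V U →
  (∀ (f : PowerSeries ℤ) (F : Ser), lam p m (emb f * F) = emb f * lam p m F ∧
    cf0 (emb f * F) = f * cf0 F) ∧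
  1 + E + H = U + emb (cf0 (1 + E + H)) * V ∧
  (1 - cf0 V) * cf0 (1 + E + H) = cf0 U ∧
  (∀ z : ℝ≥0∞, z < 1 → ms (ev z (1 + E + H)) ≠ ∞ → evs z (cf0 V) < 1) ∧
  (∀ z : ℝ≥0∞, z < 1 → evs z (cf0 V) < 1 → ms (ev z U) ≠ ∞ → ms (ev z V) ≠ ∞ →
    ms (ev z (1 + E + H)) ≠ ∞)

/-- **ZST** [200], from BAS, NOR, GAP, PTE, PTV, GFI, GUV, EVA, PSR, NRM. The point `z*`. Let `z*` be the supremum of the `z < 1`
with `ms (ev z G) < ∞` (an interval with left end `0`); `z* > 0` (GFI), `z* < 1` as `z (1 + z^{pm}) ≤ 1` on it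
(BAS (2), `ms R' ≥ 1`). Let `z₀ = z*/2`; NOR gives `K`, GAP gives `ε, δ`, PTV gives `l, ρ₀, C`, PTE with this `ρ₀` gives
`l'`; for `z < z*` close to `z*` and `z' = min(l, l') z > z*`, `z' < 1`: `nm` of `V, U, E, Q` at `z'` are finite. Let
`B = V_∅`; `B(z) < 1` for `z < z*` (GUV), so `B(z*) ≤ 1` (`B` is left continuous). If `B(z*) < 1` then by continuity
(`B(z') < ∞`) `B(z'') < 1` for some `z* < z'' < z'`, so `ms (ev z'' G) < ∞` by GUV: contradiction. So `B(z*) = 1`.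
The last: pass to the limit `z → z*` in BAS (3). -/
def SpecZST : Prop := ∀ (p m : ℕ) (Q E H V U : Ser), Dat p m Q E H V U →
  ∃ z z' : ℝ≥0∞, 0 < z ∧ z < z' ∧ z' < 1 ∧ evs z (cf0 V) = 1 ∧
    nm (ev z' V) ≠ ∞ ∧ nm (ev z' U) ≠ ∞ ∧ nm (ev z' E) ≠ ∞ ∧ nm (ev z' Q) ≠ ∞ ∧
    z * (1 + ∑ r ∈ Finset.Ico 1 m, z ^ cmin p m 0 r) ≤ 1

/-! ## VI. From the series to the sphere sizes -/

/-- **PSE** [120]. Evaluation of `Ψ`. `pcoef p m s n` is the number of `k` with `(b_s □ e)(k) = n`, a finite number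
(`specEFF`), so `∑_n zⁿ pcoef(s,n) = ∑_k z^{(b_s □ e)(k)}`. Linearity as for `lam`. Last: by `specBFN`,
`b_s(x) ≥ p |x - a|` for some `a ≤ card s`, so `z^{(b_s □ e)(k)} ≤ ∑_{a ≤ card s} z^{e(k - a)}` (`z ≤ 1`; `p|.| □ e = e`). -/
def SpecPSE : Prop := ∀ p m : ℕ, 2 ≤ p → 2 ≤ m →
  (∀ F G : Ser, psi p m (F + G) = psi p m F + psi p m G) ∧
  (∀ (f : PowerSeries ℤ) (F : Ser), psi p m (emb f * F) = f * psi p m F) ∧
  (∀ F : Ser, Nn F → (∀ n, 0 ≤ PowerSeries.coeff n (psi p m F)) ∧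
    ∀ z : ℝ≥0∞, evs z (psi p m F) = pr (ev z F) (Pz p m z)) ∧
  (∀ (z : ℝ≥0∞) (s : Multiset ℤ), z ≤ 1 → Pz p m z s ≤ (Multiset.card s + 1) * Pz p m z 0)

/-- **PZF** [180], from SMC, PSE. `P_∅(z) = ∑_k z^{e(k)}` is finite if `z < 1` and `θ = z² (1 + 2 a) < 1`,
`a = ∑_{1≤r<m} z^{cmin(∅,r)}`. An optimal digit list of `k` is `[d₀]`, and `e(k) = p |k|`, or `d₀ :: rest` with `rest ≠ []`,
and `e(k) ≥ p |k - m l| + 2 + e(l)`, `l = dval rest`. So with `v(k) = min_l p |k - m l| + e(l)` either `e(k) = p |k|` or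
`e(k) ≥ 2 + v(k)`. Let `A_n = ∑_{e(k) ≤ n} z^{e(k)}`, a finite sum. `A_n ≤ ∑_k z^{p|k|} + z² ∑_{v(k) ≤ n} z^{v(k)}`
(write `e(k) = 2 + v(k)`: also `e(k) ≤ 2 + v(k)` by `specEFN`). With `k = r + m k'`:
`v(k) = min_j p |r + m j| + e(k' - j) = (b_∅(r + m ·) □ e)(k') = cmin(∅,r) + (b_{sml(∅,r)} □ e)(k' - y)` (`specSTR`,
`(p|.|) □ e = e`). For `r = 0` this is `e(k' - y)` and the sum is at most `A_n`; for `r ≥ 1` the state `t = sml(∅,r)` has at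
most one element, `(b_t □ e)(k) ≥ e(k - a)` for `a = 0` or `1`, so the sum is at most `z^{cmin(∅,r)} 2 A_n`. So
`A_n ≤ C + θ A_n`, `A_n ≤ C/(1 - θ)` for all `n`. -/
def SpecPZF : Prop := ∀ (p m : ℕ) (z : ℝ≥0∞), 2 ≤ p → 2 ≤ m → z < 1 →
  z ^ 2 * (1 + 2 * ∑ r ∈ Finset.Ico 1 m, z ^ cmin p m 0 r) < 1 → Pz p m z 0 ≠ ∞

/-- **FML** [150], from GUV, PSE. The formal identity. With `B = V_∅`, `u = U_∅`, `G = 1 + E + H`:
`(1-B) G_∅ = u`, `G = U + G_∅ V`, so `emb(1 - B) G = emb(1-B) U + emb u V`. `Ψ(1 + E + 2 H + Q G²) =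
2 Ψ(G) - Ψ(1 + E) + Ψ(Q G²)`; multiply by `(1 - B)²` and use that `Ψ` is linear over the scalar series. -/
def SpecFML : Prop := ∀ (p m : ℕ) (Q E H V U : Ser), Dat p m Q E H V U →
  (1 - cf0 V) ^ 2 * psi p m (1 + E + 2 * H + Q * (1 + E + H) ^ 2) =
    2 * (1 - cf0 V) ^ 2 * psi p m U + 2 * (1 - cf0 V) * cf0 U * psi p m V
      - (1 - cf0 V) ^ 2 * psi p m (1 + E) + (1 - cf0 V) ^ 2 * psi p m (Q * U ^ 2)
      + 2 * (1 - cf0 V) * cf0 U * psi p m (Q * U * V) + cf0 U ^ 2 * psi p m (Q * V ^ 2)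

/-- **ANA** [250]. Analytic lemma. Let `f = (1 - B)/(z₀ - z)`, a power series with coefficients
`f_n = z₀^{-n-1} ∑_{k > n} b_k z₀^k ≥ 0` (as `∑ b_k z₀^k = 1`), absolutely convergent on `|z| < z₁`. `f(z) ≠ 0` for `|z| ≤ z₀`:
if `z ≠ z₀` then `|B(z)| ≤ 1`, with `B(z) = 1` only if all `b_n zⁿ` are equal to `b_n z₀ⁿ`, and `n = 1` gives `z = z₀`;
`f(z₀) = B'(z₀) > 0`. By compactness of the disc `f ≠ 0` on `|z| < r'` for some `z₀ < r' < z₁`. So `N/f²` is analytic on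
`|z| < r'` and its Taylor coefficients `m_n` satisfy `|m_n| ≤ K r⁻ⁿ`, `z₀ < r < r'`. By uniqueness of power series
`(z₀ - z)² S = ∑ m_n zⁿ`, so `S_n = ∑_{j ≤ n} m_j (n - j + 1) z₀^{-(n-j)-2}`, which is
`z₀^{-n-2} ((n+1) M(z₀) - z₀ M'(z₀)) - (tail)`, `M(z₀) = N(z₀)/f(z₀)² > 0`, and the tail
`∑_{j>n} m_j (n - j + 1) z₀^{j-n-2}` is `O(r⁻ⁿ)`. -/
def SpecANA : Prop := ∀ (b S N : ℕ → ℝ) (z₀ z₁ : ℝ), 0 < z₀ → z₀ < z₁ → (∀ n, 0 ≤ b n) → b 0 = 0 → 0 < b 1 →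
  HasSum (fun n => b n * z₀ ^ n) 1 → Summable (fun n => b n * z₁ ^ n) →
  Summable (fun n => |N n| * z₁ ^ n) → 0 < ∑' n, N n * z₀ ^ n →
  (1 - PowerSeries.mk b) ^ 2 * PowerSeries.mk S = PowerSeries.mk N →
  ∃ C C' r K : ℝ, 0 < C ∧ z₀ < r ∧ r < z₁ ∧ ∀ n : ℕ, |S n - (C * n + C') * (z₀⁻¹) ^ n| ≤ K * (r⁻¹) ^ n

/-- **OMG** [100]. The growth rate. `S_n z₀ⁿ/n → C > 0`; so `∑_{k ≤ n} S_k` is between `c n z₀⁻ⁿ` (`n ≥ n₀`) and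
`C'' n² z₀⁻ⁿ`, and `n`-th roots. -/
def SpecOMG : Prop := ∀ (S : ℕ → ℝ) (z₀ r C C' K : ℝ), (∀ n, 0 ≤ S n) → 0 < z₀ → z₀ < 1 → z₀ < r → 0 < C →
  (∀ n : ℕ, |S n - (C * n + C') * (z₀⁻¹) ^ n| ≤ K * (r⁻¹) ^ n) →
  Filter.Tendsto (fun n : ℕ => (∑ k ∈ Finset.range (n + 1), S k) ^ (1 / (n : ℝ)))
    Filter.atTop (nhds (1 / z₀))

/-- **ASM** [200], from UVX, ZST, PSE, PZF, FML, ANA, OMG, PSR, EVA, NRM. Assembly. `Q, E, H` from the landed `main`,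
`V`, `U` from UVX (`V = z Λ R' + z Λ(R' rm0 V)`). Let `z₀ = z`, `z₀ < z'` from ZST; `P_∅(z₁) < ∞` for some
`z₀ < z₁ ≤ z'` by PZF: with `a = ∑ z₀^{cmin}`, `z₀ (1 + a) ≤ 1` gives `z₀² (1 + 2 a) ≤ 2 z₀ - z₀² < 1`, and continuity.
Every `Ψ(F)`, `F` a product of `1, E, Q, U, V`, converges at `z₁`: `⟨ev F, Pz⟩ ≤ P_∅ nm(ev F)`. So the right side `N`
of FML converges absolutely at `z₁` (real power series absolutely summable at `z₁` form a ring). At `z₀`: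
`N(z₀) = u(z₀)² Ψ(Q V²)(z₀) > 0` (`B(z₀) = 1`; `u ≥ 1`; `Q, V ≠ 0`, `P_s > 0`). ANA with `b = V_∅`, `S = σ`. Uniqueness
of the root: `B` is strictly increasing. Then OMG. -/
def SpecASM : Prop := MainAS

end Pool.Agent.Lib.MPba1bba.AS
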