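import Pool.Agent.Lib.MP_ba1bba_al.Spec
import Pool.Agent.Lib.MP_ba1bba_al.AS.Spec
import Pool.Agent.Lib.MP_ba1bba_al.SAM
import Pool.Agent.Lib.MP_ba1bba_al.AS.PTV

section
section
/-!
# MP_ba1bba_al : SML
-/
namespace Pool.Agent.Lib.MPba1bba

namespace SMLM

theorem bzero (p : ℕ) (k : ℤ) : bfun p 0 k = p * k.natAbs := by
  have hne : {n : ℕ | ∃ A B : Multiset ℤ, A + B = 0 ∧
    n = sumPos A + sumNeg B + p * (k - (A.card : ℤ)).natAbs}.Nonempty :=
    ⟨_, 0, 0, by simp, rfl⟩
  obtain ⟨A, B, h, hk⟩ := Nat.sInf_mem hne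
  obtain ⟨hA, hB⟩ := add_eq_zero.1 h
  have hk : bfun p 0 k = sumPos A + sumNeg B + p * (k - (A.card : ℤ)).natAbs := hk
  rw [hk, hA, hB]
  simp [sumPos, sumNeg]

end SMLM

theorem specSML : SpecSML := by
  intro p m hp hm
  constructor
  · rw [cmin]
    have h : (⨅ j : ℤ, bfun p 0 (((0 : ℕ) : ℤ) + m * j)) ≤ bfun p 0 (((0 : ℕ) : ℤ) + m * 0) :=
      ciInf_le (OrderBot.bddBelow _) 0
    rw [SMLM.bzero] at h
    simpa using h
  · rw [sml]
    apply Finset.sum_eq_zero
    intro x hx
    rw [Finset.mem_Ioo] at hx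
    have hemp : {j : ℤ | (bfun p 0 (((0 : ℕ) : ℤ) + m * (j + 1)) : ℤ) -
        bfun p 0 (((0 : ℕ) : ℤ) + m * j) = x} = ∅ := by
      rw [Set.eq_empty_iff_forall_notMem]
      intro j hj
      have hj : (bfun p 0 (((0 : ℕ) : ℤ) + m * (j + 1)) : ℤ) -
        bfun p 0 (((0 : ℕ) : ℤ) + m * j) = x := hj
      rw [SMLM.bzero, SMLM.bzero] at hj
      push_cast at hj
      rw [zero_add, zero_add, abs_mul, abs_mul] at hj
      have hm' : (1 : ℤ) ≤ m := by exact_mod_cast hm
      have hp' : (1 : ℤ) ≤ p := by exact_mod_cast hp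
      rw [abs_of_nonneg (by omega : (0 : ℤ) ≤ m)] at hj
      have hj2 : (p : ℤ) * m * (|j + 1| - |j|) = x := by rw [← hj]; ring
      rcases le_or_gt 0 j with h0 | h0
      · rw [abs_of_nonneg h0, abs_of_nonneg (by omega : (0 : ℤ) ≤ j + 1)] at hj2
        have : x = p * m := by rw [← hj2]; ring
        nlinarith
      · rw [abs_of_neg h0, abs_of_nonpos (by omega : j + 1 ≤ 0)] at hj2
        have : x = -(p * m) := by rw [← hj2]; ring
        nlinarith
    rw [hemp, Set.ncard_empty, zero_smul]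

end Pool.Agent.Lib.MPba1bba
end

section
/-!
# MP_ba1bba_al: module STT (states of trees and tails)
-/
namespace Pool.Agent.Lib.MPba1bba

namespace STTM

variable {p m : ℕ}

theorem bdd_add {σ τ : Sta} (hσ : bdd p σ) (hτ : bdd p τ) : bdd p (σ + τ) := by
  intro x hx
  have hx' : x ∈ σ.2.1 + τ.2.1 := hx
  rcases Multiset.mem_add.1 hx' with h | h
  · exact hσ x h
  · exact hτ x h

theorem bdd_zero (c : ℕ) (x : ℤ) : bdd p (c, 0, x) := by
  intro y hy
  exact absurd hy (Multiset.notMem_zero y)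

end STTM

open STTM in
/-- Module STT. -/
theorem specSTT (hRAD : SpecRAD) (hSAM : SpecSAM) : SpecSTT := by
  intro p m hp hm
  obtain ⟨hic, -, h0, hc, hmm⟩ := hRAD p m hp hm
  have hsam := hSAM p m hp hm
  have key : ∀ w : Tr, (okR p m w ∨ okU p m w) →
      pf p m w = rlz p m (stt p m w) ∧ bdd p (stt p m w) := by
    intro w
    induction w with
    | nil =>
      intro _
      exact ⟨h0.symm, bdd_zero 0 0⟩
    | mm i w ih =>
      intro h
      have hi : 0 < i := by rcases h with h | h <;> exact h.1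
      have hip : i < p := by rcases h with h | h <;> exact h.2.1
      have hw : okR p m w ∨ okU p m w := by
        rcases h with h | h
        · exact Or.inl h.2.2.1
        · exact Or.inr h.2.2.1
      obtain ⟨ih1, ih2⟩ := ih hw
      constructor
      · simp only [pf, stt]
        rw [ih1]
        exact hmm i (stt p m w) hi hip
      · simp only [stt]
        apply bdd_add _ ih2
        intro y hy
        have hy' : y = 2 * (i : ℤ) - p := Multiset.mem_singleton.1 hy
        subst hy'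
        constructor <;> omega
    | ee r v w ihv ihw =>
      intro h
      have hv : okR p m v := by rcases h with h | h <;> exact h.2.1
      have hw : okR p m w ∨ okU p m w := by
        rcases h with h | h
        · exact Or.inl h.2.2.1
        · exact Or.inr h.2.2.1
      obtain ⟨v1, v2⟩ := ihv (Or.inl hv)
      obtain ⟨w1, w2⟩ := ihw hw
      obtain ⟨s1, s2⟩ := hsam r (stt p m v) v2
      constructor
      · simp only [pf, stt]
        rw [v1, w1, s1, hic, add_assoc, hc, add_comm (stt p m w)]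
      · simp only [stt]
        exact bdd_add (bdd_add (bdd_zero 2 0) s2) w2
    | uu r w ih =>
      intro h
      have hw : okU p m w := by
        rcases h with h | h
        · exact h.elim
        · exact h.2
      obtain ⟨w1, w2⟩ := ih (Or.inr hw)
      obtain ⟨s1, s2⟩ := hsam r (stt p m w) w2
      constructor
      · simp only [pf, stt]
        rw [w1, s1, hc]
      · simp only [stt]
        exact bdd_add (bdd_zero 1 0) s2
  refine ⟨key, ?_⟩
  intro tl
  induction tl with
  | nil =>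
    intro _
    exact ⟨h0.symm, bdd_zero 0 0⟩
  | cons y tl ih =>
    obtain ⟨w, r⟩ := y
    intro h
    obtain ⟨-, hw, -, htl⟩ := h
    obtain ⟨t1, t2⟩ := ih htl
    obtain ⟨w1, w2⟩ := key w (Or.inl hw)
    obtain ⟨s1, s2⟩ := hsam r (stt p m w + ts p m tl) (bdd_add w2 t2)
    constructor
    · simp only [gt, ts]
      rw [w1, t1, hic, s1, hc]
    · simp only [ts]
      exact bdd_add (bdd_zero 1 0) s2

end Pool.Agent.Lib.MPba1bba
end

section
/-!
# MP_ba1bba_al: the digit unfolding is a bijection (module THB)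
-/
namespace Pool.Agent.Lib.MPba1bba

namespace THBM

/-- The inverse of `th`. -/
def un (m : ℕ) : Tr → List Tr → ℤ → List (Tr × ℕ) → Tr × List (Tr × ℕ) × ℤ
  | c, [], k, tl => (c, tl, k)
  | c, c' :: rest, k, tl => un m c' rest (k / m) ((c, (k % m).toNat) :: tl)

theorem maps (p m : ℕ) : ∀ (tl : List (Tr × ℕ)) (c : Tr) (rest : List Tr) (k : ℤ),
    okS p m c rest → okTl p m tl → (tl = [] ∨ c = Tr.nil ∨ endM c) →
    okX p m (th m c rest tl k)
  | [], c, rest, k, h, _, _ => by
      simpa only [th, okX] using h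
  | (w, r) :: tl, c, rest, k, h, h2, h3 => by
      obtain ⟨_, hw, h4, h5⟩ := h2
      have h3' : c = Tr.nil ∨ endM c := by
        rcases h3 with h3 | h3
        · exact absurd h3 (List.cons_ne_nil _ _)
        · exact h3
      rw [th]
      exact maps p m tl w (c :: rest) _ ⟨hw, h3', h⟩ h5 h4

theorem un_th (p m : ℕ) (hm : 1 ≤ m) : ∀ (tl : List (Tr × ℕ)) (c : Tr) (rest : List Tr) (k : ℤ),
    okTl p m tl →
    un m (th m c rest tl k).1 (th m c rest tl k).2.1 (th m c rest tl k).2.2 [] =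
      un m c rest k tl
  | [], c, rest, k, _ => by
      simp only [th]
  | (w, r) :: tl, c, rest, k, h => by
      obtain ⟨hr, _, _, h5⟩ := h
      rw [th, un_th p m hm tl w (c :: rest) _ h5, un]
      have hm' : (0 : ℤ) < m := by exact_mod_cast hm
      have e1 : ((r : ℤ) + m * k) / m = k := by
        rw [Int.add_mul_ediv_left _ _ hm'.ne', Int.ediv_eq_zero_of_lt (by positivity)
          (by exact_mod_cast hr), zero_add]
      have e2 : (((r : ℤ) + m * k) % m).toNat = r := by
        rw [Int.add_mul_emod_self_left, Int.emod_eq_of_lt (by positivity) (by exact_mod_cast hr)]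
        exact Int.toNat_natCast r
      rw [e1, e2]

theorem surj (p m : ℕ) (hm : 1 ≤ m) : ∀ (rest : List Tr) (c : Tr) (k : ℤ) (tl : List (Tr × ℕ)),
    okS p m c rest → okTl p m tl → (tl = [] ∨ c = Tr.nil ∨ endM c) →
    okF p m (un m c rest k tl) ∧
      th m (un m c rest k tl).1 [] (un m c rest k tl).2.1 (un m c rest k tl).2.2 =
        th m c rest tl k
  | [], c, k, tl, h, h2, h3 => ⟨⟨h, h2, h3⟩, rfl⟩
  | c' :: rest, c, k, tl, h, h2, h3 => by
      obtain ⟨hc, hc', hs⟩ := h
      have hm' : (0 : ℤ) < m := by exact_mod_cast hm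
      have hr0 : 0 ≤ k % m := Int.emod_nonneg _ hm'.ne'
      have hr1 : k % m < m := Int.emod_lt_of_pos _ hm'
      have hr : (k % m).toNat < m := by omega
      obtain ⟨h4, h5⟩ := surj p m hm rest c' (k / m) ((c, (k % m).toNat) :: tl) hs
        ⟨hr, hc, h3, h2⟩ (Or.inr hc')
      refine ⟨h4, ?_⟩
      rw [un, h5, th]
      congr 1
      rw [Int.toNat_of_nonneg hr0]
      exact Int.emod_add_mul_ediv k m

end THBM

open THBM in
theorem specTHB : SpecTHB := by
  intro p m hm
  refine ⟨?_, ?_, ?_⟩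
  · rintro ⟨c, tl, k⟩ ⟨h1, h2, h3⟩
    exact maps p m tl c [] k h1 h2 h3
  · rintro ⟨c, tl, k⟩ ⟨h1, h2, h3⟩ ⟨c', tl', k'⟩ ⟨h1', h2', h3'⟩ h
    have e1 := un_th p m hm tl c [] k h2
    have e2 := un_th p m hm tl' c' [] k' h2'
    dsimp only at h
    rw [h, e2] at e1
    exact e1.symm
  · rintro ⟨c, rest, k⟩ h
    obtain ⟨h1, h2⟩ := surj p m hm rest c k [] h trivial (Or.inl rfl)
    exact ⟨_, h1, h2⟩

end Pool.Agent.Lib.MPba1bba
end

section
/-!
# MP_ba1bba_al: module UNQ, uniqueness of the solution of the system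
-/
set_option autoImplicit false

namespace Pool.Agent.Lib.MPba1bba

namespace UNQM

open PowerSeries

theorem dvd_of_all {F G : Ser} (h : ∀ n : ℕ, (X : Ser) ^ n ∣ F - G) : F = G := by
  ext1 n
  have h1 := (X_pow_dvd_iff.1 (h (n + 1))) n (Nat.lt_succ_self n)
  rw [map_sub, sub_eq_zero] at h1
  exact h1

theorem dvd_mul_sub {F G F' G' : Ser} {n : ℕ} (h : (X : Ser) ^ n ∣ F - F')
    (h' : (X : Ser) ^ n ∣ G - G') : (X : Ser) ^ n ∣ F * G - F' * G' := by
  have e : F * G - F' * G' = (F - F') * G + F' * (G - G') := by ring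
  rw [e]
  exact dvd_add (h.mul_right _) (h'.mul_left _)

theorem dvd_lam (hLIN : SpecLIN) (p m : ℕ) {F G : Ser} {n : ℕ} (h : (X : Ser) ^ n ∣ F - G) :
    (X : Ser) ^ n ∣ lam p m F - lam p m G := by
  rcases n with _ | n
  · simp
  rw [X_pow_dvd_iff] at h ⊢
  intro i hi
  rw [map_sub, sub_eq_zero]
  apply (hLIN p m).2 F G n _ i (by omega)
  intro j hj
  have := h j (by omega)
  rwa [map_sub, sub_eq_zero] at this

theorem coeff_serY (p : ℕ) : constantCoeff (serY p) = 0 := by
  rw [serY, map_sum]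
  apply Finset.sum_eq_zero
  intro i hi
  rw [Finset.mem_Ioo] at hi
  rw [← coeff_zero_eq_constantCoeff_apply, coeff_monomial, if_neg]
  omega

theorem X_dvd_serY (p : ℕ) : (X : Ser) ∣ serY p := X_dvd_iff.2 (coeff_serY p)

end UNQM

open UNQM PowerSeries in
theorem specUNQ (hLIN : SpecLIN) : SpecUNQ := by
  intro p m
  constructor
  · intro Q E H Q' E' H' h h'
    obtain ⟨hQ, hE, hH⟩ := h
    obtain ⟨hQ', hE', hH'⟩ := h'
    obtain ⟨Y1, hY1⟩ := X_dvd_serY p
    have key : ∀ n : ℕ, (X : Ser) ^ n ∣ Q' - Q ∧ (X : Ser) ^ n ∣ E' - E ∧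
        (X : Ser) ^ n ∣ H' - H := by
      intro n
      induction n with
      | zero => simp
      | succ n ih =>
        obtain ⟨iQ, iE, iH⟩ := ih
        have i1 : (X : Ser) ^ n ∣ (1 + E') - (1 + E) := by
          have : (1 + E') - (1 + E) = E' - E := by ring
          rw [this]; exact iE
        have i2 : (X : Ser) ^ n ∣ (1 + E' + Q' * (1 + E') ^ 2) - (1 + E + Q * (1 + E) ^ 2) := by
          have h1 := dvd_mul_sub iQ (dvd_mul_sub i1 i1)
          have : (1 + E' + Q' * (1 + E') ^ 2) - (1 + E + Q * (1 + E) ^ 2) =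
            (E' - E) + (Q' * ((1 + E') * (1 + E')) - Q * ((1 + E) * (1 + E))) := by ring
          rw [this]
          exact dvd_add iE h1
        have i3 : (X : Ser) ^ n ∣ ((1 + Q' * (1 + E')) * (1 + E' + H')) -
            ((1 + Q * (1 + E)) * (1 + E + H)) := by
          apply dvd_mul_sub
          · have : (1 + Q' * (1 + E')) - (1 + Q * (1 + E)) = Q' * (1 + E') - Q * (1 + E) := by ring
            rw [this]
            exact dvd_mul_sub iQ i1
          · have : (1 + E' + H') - (1 + E + H) = (E' - E) + (H' - H) := by ring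
            rw [this]
            exact dvd_add iE iH
        refine ⟨?_, ?_, ?_⟩
        · have h1 := dvd_mul_sub iE iQ
          have : Q' - Q = X * (Y1 * (E' * Q' - E * Q)) := by
            have e1 : Q' - Q = (serY p + serY p * E' * Q') - (serY p + serY p * E * Q) := by
              rw [← hQ, ← hQ']
            rw [e1, hY1]
            ring
          rw [this, pow_succ']
          exact mul_dvd_mul_left _ (h1.mul_left _)
        · have h1 := dvd_lam hLIN p m i2
          have : E' - E = X * (X * (lam p m (1 + E' + Q' * (1 + E') ^ 2) -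
              lam p m (1 + E + Q * (1 + E) ^ 2))) := by
            calc E' - E = X ^ 2 * (lam p m (1 + E' + Q' * (1 + E') ^ 2) - 1) -
                X ^ 2 * (lam p m (1 + E + Q * (1 + E) ^ 2) - 1) := by rw [← hE, ← hE']
              _ = _ := by ring
          rw [this, pow_succ']
          exact mul_dvd_mul_left _ (h1.mul_left _)
        · have h1 := dvd_lam hLIN p m i3
          have : H' - H = X * (lam p m ((1 + Q' * (1 + E')) * (1 + E' + H')) -
              lam p m ((1 + Q * (1 + E)) * (1 + E + H))) := by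
            calc H' - H = X * lam p m ((1 + Q' * (1 + E')) * (1 + E' + H')) -
                X * lam p m ((1 + Q * (1 + E)) * (1 + E + H)) := by rw [← hH, ← hH']
              _ = _ := by ring
          rw [this, pow_succ']
          exact mul_dvd_mul_left _ h1
    exact ⟨dvd_of_all fun n => (key n).1, dvd_of_all fun n => (key n).2.1,
      dvd_of_all fun n => (key n).2.2⟩
  · intro A E H H' hH hH'
    apply dvd_of_all
    intro n
    induction n with
    | zero => simp
    | succ n ih =>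
      have i3 : (X : Ser) ^ n ∣ ((1 + A) * (1 + E + H')) - ((1 + A) * (1 + E + H)) := by
        have : ((1 + A) * (1 + E + H')) - ((1 + A) * (1 + E + H)) = (1 + A) * (H' - H) := by ring
        rw [this]
        exact ih.mul_left _
      have h1 := dvd_lam hLIN p m i3
      have : H' - H = X * (lam p m ((1 + A) * (1 + E + H')) -
          lam p m ((1 + A) * (1 + E + H))) := by
        calc H' - H = X * lam p m ((1 + A) * (1 + E + H')) -
            X * lam p m ((1 + A) * (1 + E + H)) := by rw [← hH, ← hH']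
          _ = _ := by ring
      rw [this, pow_succ']
      exact mul_dvd_mul_left _ h1

end Pool.Agent.Lib.MPba1bba
end

section
/-!
# Module WRD: words
-/
namespace Pool.Agent.Lib.MPba1bba

namespace WRDM

variable {p q : ℕ}

/-- The letters. -/
def Lt (p q : ℕ) (x : BS p q) : Prop :=
  x = gA p q ∨ x = (gA p q)⁻¹ ∨ x = gT p q ∨ x = (gT p q)⁻¹

theorem Lt.inv {x : BS p q} (h : Lt p q x) : Lt p q x⁻¹ := by
  rcases h with h | h | h | h
  · right; left; rw [h]
  · left; rw [h, inv_inv]
  · right; right; right; rw [h]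
  · right; right; left; rw [h, inv_inv]

theorem one : IsWord p q 1 0 := ⟨[], rfl, by simp, rfl⟩

theorem letter {x : BS p q} (h : Lt p q x) : IsWord p q x 1 := ⟨[x], rfl, fun y hy => by
    rw [List.mem_singleton] at hy; rw [hy]; exact h, by simp⟩

theorem mul {g h : BS p q} {n k : ℕ} (hg : IsWord p q g n) (hh : IsWord p q h k) :
    IsWord p q (g * h) (n + k) := by
  obtain ⟨l, hl, hl1, hl2⟩ := hg
  obtain ⟨l', hl', hl1', hl2'⟩ := hh
  refine ⟨l ++ l', by simp [hl, hl'], fun x hx => ?_, by simp [hl2, hl2']⟩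
  rcases List.mem_append.1 hx with hx | hx
  · exact hl1 x hx
  · exact hl1' x hx

theorem inv {g : BS p q} {n : ℕ} (hg : IsWord p q g n) : IsWord p q g⁻¹ n := by
  obtain ⟨l, hl, hl1, hl2⟩ := hg
  refine ⟨(l.map fun x => x⁻¹).reverse, by simp [hl], fun x hx => ?_, ?_⟩
  · rw [List.mem_reverse, List.mem_map] at hx
    obtain ⟨y, hy, rfl⟩ := hx
    exact Lt.inv (hl1 y hy)
  · rw [← hl2, List.prod_inv_reverse]

theorem pow {g : BS p q} {n : ℕ} (hg : IsWord p q g n) (i : ℕ) : IsWord p q (g ^ i) (i * n) := by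
  induction i with
  | zero => simpa using one
  | succ i ih => rw [pow_succ, Nat.succ_mul]; exact mul ih hg

theorem gA_word : IsWord p q (gA p q) 1 := letter (Or.inl rfl)
theorem gT_word : IsWord p q (gT p q) 1 := letter (Or.inr (Or.inr (Or.inl rfl)))

theorem zpow (i : ℤ) : IsWord p q (gA p q ^ i) i.natAbs := by
  have h := pow (gA_word (p := p) (q := q)) i.natAbs
  rw [mul_one] at h
  rcases Int.natAbs_eq i with hi | hi
  · rw [hi, Int.natAbs_natCast, zpow_natCast]
    simpa using h
  · rw [hi, zpow_neg, zpow_natCast, Int.natAbs_neg, Int.natAbs_natCast]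
    exact inv (by simpa using h)

theorem exists_word (g : BS p q) : ∃ n, IsWord p q g n := by
  obtain ⟨w, rfl⟩ := PresentedGroup.mk_surjective _ g
  induction w using FreeGroup.induction_on with
  | C1 => exact ⟨0, by simpa using one⟩
  | of b =>
    cases b
    · exact ⟨1, gT_word⟩
    · exact ⟨1, gA_word⟩
  | inv_of b h =>
    obtain ⟨n, hn⟩ := h
    exact ⟨n, by rw [map_inv]; exact inv hn⟩
  | mul x y hx hy =>
    obtain ⟨n, hn⟩ := hx
    obtain ⟨k, hk⟩ := hy
    exact ⟨n + k, by rw [map_mul]; exact mul hn hk⟩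

theorem rel : gT p q * gA p q ^ p * (gT p q)⁻¹ = gA p q ^ q := by
  have h : (PresentedGroup.mk ({relator p q} : Set (FreeGroup Bool))) (relator p q) = 1 :=
    PresentedGroup.one_of_mem (Set.mem_singleton _)
  unfold relator at h
  simp only [map_mul, map_pow, map_inv] at h
  exact mul_inv_eq_one.1 h

theorem shift (m : ℕ) (hq : q = p * m) (j : ℤ) :
    gT p q * (gA p q ^ p) ^ j = (gA p q ^ p) ^ (m * j) * gT p q := by
  have h : gT p q * gA p q ^ p * (gT p q)⁻¹ = (gA p q ^ p) ^ m := by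
    rw [rel, ← pow_mul, ← hq]
  have h2 : gT p q * (gA p q ^ p) ^ j * (gT p q)⁻¹ = (gA p q ^ p) ^ (m * j) := by
    rw [zpow_mul, zpow_natCast, ← h, conj_zpow]
  rw [← h2, inv_mul_cancel_right]

end WRDM

theorem specWRD : SpecWRD := fun p q =>
  ⟨WRDM.one, fun _ _ _ _ => WRDM.mul, fun _ _ => WRDM.inv, WRDM.zpow, WRDM.gT_word,
    WRDM.exists_word, fun g => Nat.sInf_mem (WRDM.exists_word g), fun g n h => Nat.sInf_le h,
    WRDM.shift⟩

end Pool.Agent.Lib.MPba1bba
end

section
/-!
# MP_ba1bba_al, asymptotics: module UVX, solution of `V = A + z Λ(R (V - V_∅))`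
-/
set_option autoImplicit false

open scoped ENNReal
open Classical

namespace Pool.Agent.Lib.MPba1bba.AS

open Pool.Agent.Lib.MPba1bba Vec PowerSeries

namespace UVXM

theorem coeff_emb (f : PowerSeries ℤ) (n : ℕ) :
    PowerSeries.coeff n (emb f) = AddMonoidAlgebra.single (0 : Multiset ℤ) (PowerSeries.coeff n f) := by
  rw [emb, PowerSeries.coeff_map]
  rw [eq_intCast, AddMonoidAlgebra.intCast_def]
  simp

theorem coeff_rm0 (F : Ser) (n : ℕ) (s : Multiset ℤ) :
    (PowerSeries.coeff n (rm0 F)).coeff s = if s = 0 then 0 else (PowerSeries.coeff n F).coeff s := by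
  rw [rm0, map_sub, coeff_emb, AddMonoidAlgebra.coeff_sub, Finsupp.sub_apply,
    AddMonoidAlgebra.coeff_single, Finsupp.single_apply, cf0, PowerSeries.coeff_mk]
  by_cases h : s = 0
  · subst h; simp
  · rw [if_neg h, if_neg (fun h' => h h'.symm), sub_zero]

theorem nn_rm0 {F : Ser} (h : Nn F) : Nn (rm0 F) := by
  intro n s
  rw [coeff_rm0]
  split_ifs
  · exact le_rfl
  · exact h n s

theorem dvd_rm0 {F G : Ser} {n : ℕ} (h : (X : Ser) ^ n ∣ F - G) : (X : Ser) ^ n ∣ rm0 F - rm0 G := by
  rw [X_pow_dvd_iff] at h ⊢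
  intro i hi
  have h1 := h i hi
  rw [map_sub, sub_eq_zero] at h1
  rw [map_sub, sub_eq_zero]
  ext s
  rw [coeff_rm0, coeff_rm0, h1]

/-- A contraction of power series has a fixed point. -/
theorem fix (T : Ser → Ser) (hT : ∀ (F G : Ser) (n : ℕ), (X : Ser) ^ n ∣ F - G →
    (X : Ser) ^ (n + 1) ∣ T F - T G) :
    ∃ V : Ser, V = T V ∧ (∀ V' : Ser, V' = T V' → V' = V) ∧
      ∀ n i : ℕ, i < n → PowerSeries.coeff i V = PowerSeries.coeff i (T^[n] 0) := by
  have h1 : ∀ n : ℕ, (X : Ser) ^ n ∣ T^[n + 1] 0 - T^[n] 0 := by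
    intro n
    induction n with
    | zero => simp
    | succ n ih =>
      rw [Function.iterate_succ_apply' T (n + 1), Function.iterate_succ_apply' T n]
      rw [Function.iterate_succ_apply' T n] at ih
      exact hT _ _ n ih
  have h2 : ∀ n k i : ℕ, i < n → PowerSeries.coeff i (T^[n + k] 0) = PowerSeries.coeff i (T^[n] 0) := by
    intro n k
    induction k with
    | zero => intro i _; rfl
    | succ k ih =>
      intro i hi
      rw [← ih i hi]
      have := (X_pow_dvd_iff.1 (h1 (n + k))) i (by omega)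
      rw [map_sub, sub_eq_zero] at this
      exact this
  refine ⟨PowerSeries.mk fun n => PowerSeries.coeff n (T^[n + 1] 0), ?_, ?_, ?_⟩
  swap
  · intro V' hV'
    apply UNQM.dvd_of_all
    have h3 : ∀ n : ℕ, (X : Ser) ^ n ∣ V' - T^[n] 0 := by
      intro n
      induction n with
      | zero => simp
      | succ n ih =>
        rw [Function.iterate_succ_apply' T n]
        have h5 := hT _ _ n ih
        rwa [← hV'] at h5
    intro n
    rw [X_pow_dvd_iff]
    intro i hi
    have := (X_pow_dvd_iff.1 (h3 n)) i hi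
    rw [map_sub, sub_eq_zero] at this
    rw [map_sub, sub_eq_zero, this, PowerSeries.coeff_mk]
    have := h2 (i + 1) (n - (i + 1)) i (by omega)
    rw [← this]
    congr 3
    omega
  · have h4 : ∀ n : ℕ, (X : Ser) ^ n ∣
        (PowerSeries.mk fun n => PowerSeries.coeff n (T^[n + 1] 0)) - T^[n] 0 := by
      intro n
      rw [X_pow_dvd_iff]
      intro i hi
      rw [map_sub, sub_eq_zero, PowerSeries.coeff_mk]
      have := h2 (i + 1) (n - (i + 1)) i (by omega)
      rw [← this]
      congr 3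
      omega
    apply UNQM.dvd_of_all
    intro n
    rcases n with _ | n
    · simp
    have h5 := hT _ _ n (h4 n)
    rw [← Function.iterate_succ_apply' T n] at h5
    have h6 := h4 (n + 1)
    have : (PowerSeries.mk fun n => PowerSeries.coeff n (T^[n + 1] 0)) -
        T (PowerSeries.mk fun n => PowerSeries.coeff n (T^[n + 1] 0)) =
        ((PowerSeries.mk fun n => PowerSeries.coeff n (T^[n + 1] 0)) - T^[n + 1] 0) -
        (T (PowerSeries.mk fun n => PowerSeries.coeff n (T^[n + 1] 0)) - T^[n + 1] 0) := by ring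
    rw [this]
    exact dvd_sub h6 h5
  · intro n i hi
    rw [PowerSeries.coeff_mk]
    have := h2 (i + 1) (n - (i + 1)) i (by omega)
    rw [← this]
    congr 3
    omega

theorem bs_add {p : ℕ} {F G : Ser} (hF : Bs p F) (hG : Bs p G) : Bs p (F + G) := by
  intro n s h
  rw [map_add, AddMonoidAlgebra.coeff_add, Finsupp.add_apply] at h
  by_cases h1 : (PowerSeries.coeff n F).coeff s = 0
  · rw [h1, zero_add] at h
    exact hG n s h
  · exact hF n s h1

theorem bs_X {p : ℕ} {F : Ser} (hF : Bs p F) : Bs p (PowerSeries.X * F) := by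
  intro n s h
  rcases n with _ | n
  · exfalso
    apply h
    rw [PowerSeries.coeff_zero_X_mul]
    rfl
  · rw [PowerSeries.coeff_succ_X_mul] at h
    exact hF n s h

end UVXM

open UVXM in
theorem specUVX (hA : SpecEVA) (hL : SpecEVL) : SpecUVX := by
  intro p m A R
  obtain ⟨V, h1, h2, h3⟩ := fix (fun V => A + PowerSeries.X * lam p m (R * rm0 V)) (by
    intro F G n h
    have e : (A + PowerSeries.X * lam p m (R * rm0 F)) - (A + PowerSeries.X * lam p m (R * rm0 G)) =
        PowerSeries.X * (lam p m (R * rm0 F) - lam p m (R * rm0 G)) := by ring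
    rw [e, pow_succ']
    apply mul_dvd_mul_left
    apply UNQM.dvd_lam specLIN
    rw [← mul_sub]
    exact (dvd_rm0 h).mul_left _)
  refine ⟨V, h1, h2, ?_, ?_⟩
  · intro hAn hRn
    have h4 : ∀ n : ℕ, Nn ((fun V => A + PowerSeries.X * lam p m (R * rm0 V))^[n] 0) := by
      intro n
      induction n with
      | zero => exact hA.1.2.1
      | succ n ih =>
        rw [Function.iterate_succ_apply']
        have i1 := (hA.2.1 R _ hRn (nn_rm0 ih)).2.1
        have i2 := (hL p m).2.1 _ i1
        have i3 := (hA.2.1 _ _ i2 i2).2.2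
        exact (hA.2.1 A _ hAn i3).1
    intro n s
    rw [h3 (n + 1) n (Nat.lt_succ_self n)]
    exact h4 (n + 1) n s
  · intro hAb
    rw [h1]
    exact bs_add hAb (bs_X ((hL p m).2.2.1 _))

end Pool.Agent.Lib.MPba1bba.AS
end

section
/-!
# EQT: upper bounds for truncations
-/
set_option autoImplicit false

open scoped ENNReal
open Classical

namespace Pool.Agent.Lib.MPba1bba.AS

open Pool.Agent.Lib.MPba1bba Vec

namespace EQTM

open EVAM

lemma evt_rm0 (z : ℝ≥0∞) (N : ℕ) (F : Ser) : evt z N (rm0 F) = PP (evt z N F) := by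
  ext s
  show ∑ n ∈ Finset.range N, z ^ n * (((PowerSeries.coeff n (rm0 F)).coeff s).toNat : ℝ≥0∞) =
    if s = 0 then 0 else ∑ n ∈ Finset.range N, z ^ n * (((PowerSeries.coeff n F).coeff s).toNat : ℝ≥0∞)
  simp only [UVXM.coeff_rm0]
  by_cases h : s = 0
  · simp [h]
  · simp [h]

end EQTM

open EVAM EQTM in
theorem specEQT (hEVL : SpecEVL) (hPSR : SpecPSR) : SpecEQT := by
  intro p m Q E H V U hD z
  obtain ⟨⟨A1, A2, A3⟩, B, C, D, F5, F6⟩ := specEVA
  obtain ⟨L1, L2, L3, L4, L5, L6, L7, L8, L9, L10, L11⟩ := hEVL p m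
  obtain ⟨⟨nY, nQ, nE, nH, nV, nU, nR, nl, nrV, nrU⟩, _, hR, _, _⟩ := hPSR p m Q E H V U hD
  obtain ⟨hQ, hE, hH⟩ := hD.sys
  obtain ⟨Y1, hY1⟩ := UNQM.X_dvd_serY p
  have nY1 : Nn Y1 := by
    intro n
    have := nY (n + 1)
    rw [hY1, PowerSeries.coeff_succ_X_mul] at this
    exact this
  set y : Vec := ev z (serY p) with hy
  have hyz : z • ev z Y1 = y := by rw [hy, hY1]; exact ((C z Y1 Y1 nY1 nY1).2.2).symm
  -- truncations are smaller
  have tle : ∀ (F : Ser) (N : ℕ), evt z N F ≤ ev z F := fun F N => ((F5 z F).2.1 N).2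
  have tmono : ∀ (F : Ser) (N : ℕ), evt z N F ≤ evt z (N + 1) F := fun F N => ((F5 z F).2.1 N).1
  have t0 : ∀ F : Ser, evt z 0 F = 0 := fun F => (F5 z F).1
  have tX : ∀ (F : Ser) (N : ℕ), Nn F → evt z (N + 1) (PowerSeries.X * F) = z • evt z N F :=
    fun F N h => (D z N F F h h).2.2
  have tmul : ∀ (F G : Ser) (N : ℕ), Nn F → Nn G → evt z N (F * G) ≤ evt z N F * evt z N G :=
    fun F G N h h' => (D z N F G h h').2.1
  have tadd : ∀ (F G : Ser) (N : ℕ), Nn F → Nn G → evt z N (F + G) = evt z N F + evt z N G :=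
    fun F G N h h' => (D z N F G h h').1
  have vadd : ∀ (F G : Ser), Nn F → Nn G → ev z (F + G) = ev z F + ev z G :=
    fun F G h h' => (C z F G h h').1
  have vmul : ∀ (F G : Ser), Nn F → Nn G → ev z (F * G) = ev z F * ev z G :=
    fun F G h h' => (C z F G h h').2.1
  -- the general solution of `F = A + Y E F`
  have gen : ∀ A F : Ser, Nn A → Nn F → F = A + serY p * E * F → ∀ N,
      evt z N F ≤ ev z A * geo (y * evt z N E) := by
    intro A F nA nF hF N
    induction N with
    | zero => rw [t0]; exact Vec.zero_le _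
    | succ N ih =>
      have e1 : F = A + PowerSeries.X * (Y1 * (E * F)) := by
        conv_lhs => rw [hF, hY1]
        ring
      have n1 : Nn (E * F) := nn_mul nE nF
      have n2 : Nn (Y1 * (E * F)) := nn_mul nY1 n1
      have h1 : evt z (N + 1) F = evt z (N + 1) A + z • evt z N (Y1 * (E * F)) := by
        conv_lhs => rw [e1]
        rw [tadd _ _ _ nA (nn_X n2), tX _ _ n2]
      rw [h1]
      have h2 : z • evt z N (Y1 * (E * F)) ≤ y * evt z N E * (ev z A * geo (y * evt z N E)) := by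
        have h3 : evt z N (Y1 * (E * F)) ≤ ev z Y1 * (evt z N E * (ev z A * geo (y * evt z N E))) := by
          refine (tmul _ _ _ nY1 n1).trans (mul_mono (tle _ _) ?_)
          exact (tmul _ _ _ nE nF).trans (mul_mono le_rfl ih)
        refine (smul_mono le_rfl h3).trans (le_of_eq ?_)
        rw [← smul_mul, hyz, mul_assoc]
      refine (add_mono (tle _ _) h2).trans ?_
      have h4 : ev z A + y * evt z N E * (ev z A * geo (y * evt z N E)) =
          ev z A * geo (y * evt z N E) := by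
        conv_rhs => rw [geo_eq]
        ring
      rw [h4]
      exact mul_mono le_rfl (geo_mono (mul_mono le_rfl (tmono _ _)))
  have gen2 : ∀ A F : Ser, Nn A → Nn F → F = A + serY p * E * F →
      ev z F = ev z A * geo (y * ev z E) := by
    intro A F nA nF hF
    apply le_antisymm
    · apply le_of_pr
      intro f
      rw [(F5 z F).2.2]
      apply iSup_le
      intro N
      refine pr_mono ((gen A F nA nF hF N).trans (mul_mono le_rfl (geo_mono (mul_mono le_rfl
        (tle _ _))))) (fun _ => le_rfl)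
    · apply geo_le
      have : ev z F = ev z A + y * ev z E * ev z F := by
        conv_lhs => rw [hF]
        rw [vadd _ _ nA (nn_mul (nn_mul nY nE) nF), vmul _ _ (nn_mul nY nE) nF, vmul _ _ nY nE]
      exact le_of_eq this.symm
  have n1Y : Nn (1 + serY p) := nn_add nn_one nY
  have e1Y : ev z (1 + serY p) = 1 + y := by rw [vadd _ _ nn_one nY, (A3 z 0).1]
  have hRY : serR Q E = (1 + serY p) + serY p * E * serR Q E := hR
  have one_le : ∀ N, evt z N 1 ≤ 1 := by
    intro N
    have := tle 1 N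
    rwa [(A3 z 0).1] at this
  -- the equation of `E`
  have hE2 : E + PowerSeries.X * (PowerSeries.X * 1) =
      PowerSeries.X * (PowerSeries.X * lam p m ((1 + E) * serR Q E)) := by
    have e : (1 + E) * serR Q E = 1 + E + Q * (1 + E) ^ 2 := by unfold serR; ring
    rw [e]
    linear_combination hE
  have c4 := gen2 (1 + serY p) (serR Q E) n1Y nR hRY
  refine ⟨?_, ?_, ?_, ?_, ?_, ?_, ?_⟩
  · have h1 : ∀ n < 2, PowerSeries.coeff n E = 0 := by
      intro n hn
      rw [hE]
      apply (PowerSeries.X_pow_dvd_iff.1 (Dvd.intro _ rfl)) n hn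
    ext s
    rw [evt_co, zero_co]
    refine Finset.sum_eq_zero (fun n hn => ?_)
    rw [h1 n (Finset.mem_range.1 hn), vv_zero, zero_co, mul_zero]
  · intro N
    have := gen (1 + serY p) (serR Q E) n1Y nR hRY N
    rwa [e1Y] at this
  · intro N hN
    obtain ⟨M, rfl⟩ : ∃ M, N = M + 2 := ⟨N - 2, by omega⟩
    have nW : Nn ((1 + E) * serR Q E) := nn_mul (nn_add nn_one nE) nR
    have nL := L2 _ nW
    have h1 : evt z (M + 2 + 1) (E + PowerSeries.X * (PowerSeries.X * 1)) =
        evt z (M + 2 + 1) E + z ^ 2 • (1 : Vec) := by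
      rw [tadd _ _ _ nE (nn_X (nn_X nn_one)), tX _ _ (nn_X nn_one), tX _ _ nn_one, (A3 z M).2.1,
        smul_smul, pow_two]
    have h2 : evt z (M + 2 + 1) (PowerSeries.X * (PowerSeries.X * lam p m ((1 + E) * serR Q E))) =
        z ^ 2 • evt z (M + 1) (lam p m ((1 + E) * serR Q E)) := by
      rw [tX _ _ (nn_X nL), tX _ _ nL, smul_smul, pow_two]
    rw [← h1, hE2, h2]
    apply smul_mono le_rfl
    refine ((L4 z _ nW).2 (M + 1)).trans ?_
    apply L8
    refine (tmono _ _).trans ((tmul _ _ _ (nn_add nn_one nE) nR).trans (mul_mono ?_ ?_))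
    · rw [tadd _ _ _ nn_one nE]
      exact add_mono (one_le _) le_rfl
    · have := gen (1 + serY p) (serR Q E) n1Y nR hRY (M + 2)
      rwa [e1Y] at this
  · rw [c4, e1Y]
  · exact gen2 (serY p) Q nY nQ hQ
  · intro N
    have hv := hD.veq
    unfold VEq at hv
    have n1 : Nn (serR Q E * (1 + rm0 V)) := nn_mul nR (nn_add nn_one nrV)
    have h1 : evt z (N + 1) V = z • evt z N (lam p m (serR Q E * (1 + rm0 V))) := by
      conv_lhs => rw [hv]
      exact tX _ _ (L2 _ n1)
    rw [h1]
    apply smul_mono le_rfl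
    refine ((L4 z _ n1).2 N).trans ?_
    apply L8
    refine (tmul _ _ _ nR (nn_add nn_one nrV)).trans (mul_mono (tle _ _) ?_)
    rw [tadd _ _ _ nn_one nrV, evt_rm0]
    exact add_mono (one_le _) le_rfl
  · intro N
    have n1 : Nn (serR Q E * rm0 U) := nn_mul nR nrU
    have h1 : evt z (N + 1) U = evt z (N + 1) (1 + E) +
        z • evt z N (lam p m (serR Q E * rm0 U)) := by
      conv_lhs => rw [hD.ueq]
      rw [tadd _ _ _ (nn_add nn_one nE) (nn_X (L2 _ n1)), tX _ _ (L2 _ n1)]
    rw [h1, tadd _ _ _ nn_one nE]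
    refine add_mono (add_mono (one_le _) (tle _ _)) (smul_mono le_rfl ?_)
    refine ((L4 z _ n1).2 N).trans ?_
    apply L8
    refine (tmul _ _ _ nR nrU).trans (mul_mono (tle _ _) ?_)
    rw [evt_rm0]

end Pool.Agent.Lib.MPba1bba.AS
end

section
/-!
# EQZ: the equations after evaluation
-/
set_option autoImplicit false

open scoped ENNReal

namespace Pool.Agent.Lib.MPba1bba.AS

open Pool.Agent.Lib.MPba1bba Vec

namespace EQZM

theorem ev_rm0 (z : ℝ≥0∞) (F : Ser) : ev z (rm0 F) = PP (ev z F) := by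
  classical
  ext s
  change (∑' n : ℕ, z ^ n * (((PowerSeries.coeff n (rm0 F)).coeff s).toNat : ℝ≥0∞)) =
    if s = 0 then 0 else ∑' n : ℕ, z ^ n * (((PowerSeries.coeff n F).coeff s).toNat : ℝ≥0∞)
  simp only [UVXM.coeff_rm0]
  by_cases h : s = 0
  · simp [h]
  · simp [h]

end EQZM

open EQZM in
theorem specEQZ (hEVA : SpecEVA) (hEVL : SpecEVL) (hPSR : SpecPSR) : SpecEQZ := by
  intro p m Q E H V U hD z
  obtain ⟨⟨n1, n0, e1⟩, ecl, eev, -⟩ := hEVA
  obtain ⟨-, ln, -, lev, -⟩ := hEVL p m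
  obtain ⟨⟨nY, nQ, nE, nH, nV, nU, nR, nL, nrV, nrU⟩, -, hRR, -⟩ := hPSR p m Q E H V U hD
  have ev1 : ev z 1 = 1 := (e1 z 0).1
  have nadd : ∀ {F G : Ser}, Nn F → Nn G → Nn (F + G) := fun hF hG => (ecl _ _ hF hG).1
  have nmul : ∀ {F G : Ser}, Nn F → Nn G → Nn (F * G) := fun hF hG => (ecl _ _ hF hG).2.1
  have nX : ∀ {F : Ser}, Nn F → Nn (PowerSeries.X * F) := fun hF => (ecl _ _ hF n1).2.2
  have eadd : ∀ {F G : Ser}, Nn F → Nn G → ev z (F + G) = ev z F + ev z G :=
    fun hF hG => (eev z _ _ hF hG).1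
  have emul : ∀ {F G : Ser}, Nn F → Nn G → ev z (F * G) = ev z F * ev z G :=
    fun hF hG => (eev z _ _ hF hG).2.1
  have eX : ∀ {F : Ser}, Nn F → ev z (PowerSeries.X * F) = z • ev z F :=
    fun hF => (eev z _ _ hF n1).2.2
  have elam : ∀ {F : Ser}, Nn F → ev z (lam p m F) = Lv p m z (ev z F) :=
    fun hF => (lev z _ hF).1
  obtain ⟨sQ, sE, sH⟩ := hD.sys
  have nE1 : Nn (1 + E) := nadd n1 nE
  refine ⟨?_, ?_, ?_, ?_, ?_, ?_, ?_⟩
  · have h1 : E + PowerSeries.X * (PowerSeries.X * 1) =
        PowerSeries.X * (PowerSeries.X * lam p m ((1 + E) * serR Q E)) := by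
      have h2 : 1 + E + Q * (1 + E) ^ 2 = (1 + E) * serR Q E := by
        unfold serR; ring
      rw [← h2]
      conv_lhs => rw [sE]
      ring
    have h3 := congrArg (ev z) h1
    have nER : Nn ((1 + E) * serR Q E) := nmul nE1 nR
    rw [eadd nE (nX (nX n1)), eX (nX n1), eX n1, ev1, eX (nX (ln _ nER)), eX (ln _ nER),
      elam nER, emul nE1 nR, eadd n1 nE, ev1] at h3
    rw [smul_smul, smul_smul, ← sq] at h3
    exact h3
  · have h3 := congrArg (ev z) sQ
    rw [eadd nY (nmul (nmul nY nE) nQ), emul (nmul nY nE) nQ, emul nY nE] at h3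
    exact h3
  · have h3 : ev z (serR Q E) = ev z (1 + Q * (1 + E)) := rfl
    rw [eadd n1 (nmul nQ nE1), emul nQ nE1, eadd n1 nE, ev1] at h3
    exact h3
  · have h3 := congrArg (ev z) hRR
    rw [eadd (nadd n1 nY) (nmul (nmul nY nE) nR), emul (nmul nY nE) nR, emul nY nE,
      eadd n1 nY, ev1] at h3
    exact h3
  · have nG : Nn (1 + E + H) := nadd nE1 nH
    have h1 : 1 + E + H = 1 + E + PowerSeries.X * lam p m (serR Q E * (1 + E + H)) := by
      have : H = PowerSeries.X * lam p m (serR Q E * (1 + E + H)) := sH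
      conv_lhs => rw [this]
    have h3 := congrArg (ev z) h1
    rw [eadd nE1 (nX (ln _ (nmul nR nG))), eadd n1 nE, ev1, eX (ln _ (nmul nR nG)),
      elam (nmul nR nG), emul nR nG] at h3
    exact h3
  · have h1 : V = PowerSeries.X * lam p m (serR Q E * (1 + rm0 V)) := hD.veq
    have n1V : Nn (1 + rm0 V) := nadd n1 nrV
    have h3 := congrArg (ev z) h1
    rw [eX (ln _ (nmul nR n1V)), elam (nmul nR n1V), emul nR n1V, eadd n1 nrV, ev1,
      ev_rm0] at h3
    exact h3
  · have h3 := congrArg (ev z) hD.ueq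
    rw [eadd nE1 (nX (ln _ (nmul nR nrU))), eadd n1 nE, ev1, eX (ln _ (nmul nR nrU)),
      elam (nmul nR nrU), emul nR nrU, ev_rm0] at h3
    exact h3

end Pool.Agent.Lib.MPba1bba.AS
end

section
/-!
# GUV: decomposition of the generating function at the empty state
-/
open scoped ENNReal

namespace Pool.Agent.Lib.MPba1bba.AS

open Pool.Agent.Lib.MPba1bba Vec

namespace GUVM

open LINM

theorem lc_smul (p m j : ℕ) (c : ℤ) (x : SR) : lc p m j (c • x) = c • lc p m j x :=
  map_zsmul (AddMonoidHom.mk' (lc p m j) (lc_add p m j)) c x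

theorem lc_sum (p m j : ℕ) {ι : Type} (T : Finset ι) (x : ι → SR) :
    lc p m j (∑ i ∈ T, x i) = ∑ i ∈ T, lc p m j (x i) :=
  map_sum (AddMonoidHom.mk' (lc p m j) (lc_add p m j)) x T

theorem coeff_emb (f : PowerSeries ℤ) (n : ℕ) :
    PowerSeries.coeff n (emb f) = ((PowerSeries.coeff n f : ℤ) : SR) := by
  rw [emb, PowerSeries.coeff_map]
  rfl

theorem coeff_emb_mul (f : PowerSeries ℤ) (F : Ser) (n : ℕ) :
    PowerSeries.coeff n (emb f * F) = ∑ ab ∈ Finset.HasAntidiagonal.antidiagonal n,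
      PowerSeries.coeff ab.1 f • PowerSeries.coeff ab.2 F := by
  rw [PowerSeries.coeff_mul]
  refine Finset.sum_congr rfl fun ab _ => ?_
  rw [coeff_emb, zsmul_eq_mul]

theorem lam_emb (p m : ℕ) (f : PowerSeries ℤ) (F : Ser) :
    lam p m (emb f * F) = emb f * lam p m F := by
  ext n : 1
  rw [coeff_lam, coeff_emb_mul]
  have h1 : ∀ ij ∈ Finset.HasAntidiagonal.antidiagonal n,
      lc p m ij.2 (PowerSeries.coeff ij.1 (emb f * F)) =
      ∑ ab ∈ Finset.HasAntidiagonal.antidiagonal ij.1,
        PowerSeries.coeff ab.1 f • lc p m ij.2 (PowerSeries.coeff ab.2 F) := by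
    intro ij _
    rw [coeff_emb_mul, lc_sum]
    refine Finset.sum_congr rfl fun ab _ => lc_smul _ _ _ _ _
  have h2 : ∀ ak ∈ Finset.HasAntidiagonal.antidiagonal n,
      PowerSeries.coeff ak.1 f • PowerSeries.coeff ak.2 (lam p m F) =
      ∑ bj ∈ Finset.HasAntidiagonal.antidiagonal ak.2,
        PowerSeries.coeff ak.1 f • lc p m bj.2 (PowerSeries.coeff bj.1 F) := by
    intro ak _
    rw [coeff_lam, Finset.smul_sum]
  rw [Finset.sum_congr rfl h1, Finset.sum_congr rfl h2]
  simp only [Finset.sum_sigma']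
  apply Finset.sum_nbij' (fun ⟨⟨_i, j⟩, ⟨k, l⟩⟩ ↦ ⟨(k, l + j), (l, j)⟩)
    (fun ⟨⟨i, _j⟩, ⟨k, l⟩⟩ ↦ ⟨(i + k, l), (i, k)⟩) <;> aesop (add simp [add_assoc])

theorem coeff_cf0 (F : Ser) (n : ℕ) :
    PowerSeries.coeff n (cf0 F) = (PowerSeries.coeff n F).coeff 0 := by
  rw [cf0, PowerSeries.coeff_mk]

theorem cf0_add (F G : Ser) : cf0 (F + G) = cf0 F + cf0 G := by
  ext n
  rw [coeff_cf0, map_add, map_add, coeff_cf0, coeff_cf0, AddMonoidAlgebra.coeff_add]
  rfl

theorem cf0_emb_mul (f : PowerSeries ℤ) (F : Ser) : cf0 (emb f * F) = f * cf0 F := by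
  ext n
  rw [coeff_cf0, coeff_emb_mul, PowerSeries.coeff_mul, AddMonoidAlgebra.coeff_sum,
    Finsupp.finsetSum_apply]
  refine Finset.sum_congr rfl fun ab _ => ?_
  rw [coeff_cf0, AddMonoidAlgebra.coeff_smul_apply, smul_eq_mul]

theorem emb_mul (f g : PowerSeries ℤ) : emb (f * g) = emb f * emb g := map_mul _ f g

theorem emb_add (f g : PowerSeries ℤ) : emb (f + g) = emb f + emb g := map_add _ f g

theorem rm0_add (F G : Ser) : rm0 (F + G) = rm0 F + rm0 G := by
  unfold rm0
  rw [cf0_add, emb_add]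
  ring

theorem rm0_emb_mul (f : PowerSeries ℤ) (F : Ser) : rm0 (emb f * F) = emb f * rm0 F := by
  unfold rm0
  rw [cf0_emb_mul, emb_mul]
  ring

theorem rm0_sub (F G : Ser) : rm0 (F - G) = rm0 F - rm0 G := by
  have h := rm0_add (F - G) G
  rw [sub_add_cancel] at h
  rw [h, add_sub_cancel_right]

theorem lam_sub (p m : ℕ) (F G : Ser) : lam p m (F - G) = lam p m F - lam p m G := by
  have h := lam_add p m (F - G) G
  rw [sub_add_cancel] at h
  rw [h, add_sub_cancel_right]

theorem rm0_zero : rm0 0 = 0 := by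
  have h := rm0_add 0 0
  rw [add_zero] at h
  exact left_eq_add.1 h

/-- The decomposition. -/
theorem decomp (hU : SpecUVX) {p m : ℕ} {Q E H V U : Ser} (d : Dat p m Q E H V U) :
    1 + E + H = U + emb (cf0 (1 + E + H)) * V := by
  obtain ⟨-, -, hH⟩ := d.sys
  have hV := d.veq
  have hUe := d.ueq
  unfold VEq at hV
  change H = PowerSeries.X * lam p m (serR Q E * (1 + E + H)) at hH
  change V = PowerSeries.X * lam p m (serR Q E * (1 + rm0 V)) at hV
  generalize serR Q E = R at hH hV hUe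
  have hG : (1 + E + H) = 1 + E + PowerSeries.X * lam p m (R * (1 + E + H)) :=
    congrArg (fun x => 1 + E + x) hH
  generalize 1 + E + H = G at hG
  set g := cf0 G with hg
  have h1 : lam p m (R * G) = lam p m (R * rm0 G) + emb g * lam p m R := by
    have e : R * G = R * rm0 G + emb g * R := by
      unfold rm0
      rw [← hg]
      ring
    rw [e, lam_add, lam_emb]
  have h2 : V = PowerSeries.X * lam p m R + PowerSeries.X * lam p m (R * rm0 V) := by
    conv_lhs => rw [hV]
    rw [mul_add, mul_one, lam_add, mul_add]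
  have h3 : G - U - emb g * V = 0 + PowerSeries.X * lam p m (R * rm0 (G - U - emb g * V)) := by
    have e1 : lam p m (R * rm0 (G - U - emb g * V)) = lam p m (R * rm0 G) - lam p m (R * rm0 U)
        - emb g * lam p m (R * rm0 V) := by
      rw [rm0_sub, rm0_sub, rm0_emb_mul, mul_sub, mul_sub, lam_sub, lam_sub,
        show R * (emb g * rm0 V) = emb g * (R * rm0 V) by ring, lam_emb]
    rw [e1]
    have e2 : G - (1 + E) = PowerSeries.X * lam p m (R * rm0 G) +
        emb g * (PowerSeries.X * lam p m R) := by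
      conv_lhs => rw [hG, h1]
      ring
    have e3 : U - (1 + E) = PowerSeries.X * lam p m (R * rm0 U) := by
      conv_lhs => rw [hUe]
      ring
    have e4 : emb g * V = emb g * (PowerSeries.X * lam p m R) +
        emb g * (PowerSeries.X * lam p m (R * rm0 V)) := by
      conv_lhs => rw [h2]
      ring
    linear_combination e2 - e3 - e4
  obtain ⟨W, -, hW, -⟩ := hU p m 0 R
  have h4 := hW _ h3
  have h5 := hW 0 (by rw [rm0_zero, mul_zero, lam_zero, mul_zero, add_zero])
  rw [← h5] at h4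
  linear_combination h4

theorem coeff_emb_co (f : PowerSeries ℤ) (n : ℕ) (s : Multiset ℤ) :
    (PowerSeries.coeff n (emb f)).coeff s = if s = 0 then PowerSeries.coeff n f else 0 := by
  have h : PowerSeries.coeff n (emb f) = (PowerSeries.coeff n f) • (1 : SR) := by
    rw [coeff_emb, zsmul_eq_mul, mul_one]
  rw [h, AddMonoidAlgebra.coeff_smul_apply, AddMonoidAlgebra.one_def,
    AddMonoidAlgebra.coeff_single_apply, smul_eq_mul]
  by_cases hs : s = 0
  · rw [if_pos hs, if_pos hs.symm, mul_one]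
  · rw [if_neg hs, if_neg (fun h => hs h.symm), mul_zero]

theorem ev_emb (z : ℝ≥0∞) (f : PowerSeries ℤ) : ev z (emb f) = evs z f • (1 : Vec) := by
  ext s
  rw [smul_co, one_co]
  show ∑' n : ℕ, z ^ n * (((PowerSeries.coeff n (emb f)).coeff s).toNat : ℝ≥0∞) = _
  simp only [coeff_emb_co]
  by_cases hs : s = 0
  · simp only [if_pos hs, mul_one]
    rfl
  · simp [hs]

theorem evt_emb (z : ℝ≥0∞) (N : ℕ) (f : PowerSeries ℤ) : evt z N (emb f) =
    (∑ n ∈ Finset.range N, z ^ n * ((PowerSeries.coeff n f).toNat : ℝ≥0∞)) • (1 : Vec) := by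
  ext s
  rw [smul_co, one_co]
  show ∑ n ∈ Finset.range N, z ^ n * (((PowerSeries.coeff n (emb f)).coeff s).toNat : ℝ≥0∞) = _
  simp only [coeff_emb_co]
  by_cases hs : s = 0
  · simp only [if_pos hs, mul_one]
  · simp [hs]

theorem evs_cf0 (z : ℝ≥0∞) (F : Ser) : evs z (cf0 F) = (ev z F).co 0 := by
  show ∑' n : ℕ, z ^ n * ((PowerSeries.coeff n (cf0 F)).toNat : ℝ≥0∞) =
    ∑' n : ℕ, z ^ n * (((PowerSeries.coeff n F).coeff 0).toNat : ℝ≥0∞)
  simp only [coeff_cf0]

theorem evt_co0 (z : ℝ≥0∞) (N : ℕ) (F : Ser) : (evt z N F).co 0 =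
    ∑ n ∈ Finset.range N, z ^ n * ((PowerSeries.coeff n (cf0 F)).toNat : ℝ≥0∞) := by
  show ∑ n ∈ Finset.range N, z ^ n * (((PowerSeries.coeff n F).coeff 0).toNat : ℝ≥0∞) = _
  simp only [coeff_cf0]

theorem nn_emb {f : PowerSeries ℤ} (h : ∀ n, 0 ≤ PowerSeries.coeff n f) : Nn (emb f) := by
  intro n s
  rw [coeff_emb_co]
  split_ifs
  · exact h n
  · exact le_rfl

theorem co_le_ms (x : Vec) (s : Multiset ℤ) : x.co s ≤ ms x := by
  have h : x.co s * 1 ≤ ∑' s, x.co s * 1 := ENNReal.le_tsum s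
  rw [mul_one] at h
  exact h

theorem evs_eq_iSup (z : ℝ≥0∞) (f : PowerSeries ℤ) : evs z f =
    ⨆ N, ∑ n ∈ Finset.range N, z ^ n * ((PowerSeries.coeff n f).toNat : ℝ≥0∞) :=
  ENNReal.tsum_eq_iSup_nat

end GUVM

open GUVM in
theorem specGUV (hU : SpecUVX) (hEVA : SpecEVA) (hPSR : SpecPSR) : SpecGUV := by
  intro p m Q E H V U d
  obtain ⟨⟨n1, -, -⟩, a2, a3, a4, a5, -⟩ := hEVA
  obtain ⟨⟨-, -, nE, nH, nV, nU, -, -, -, -⟩, -, -, ⟨-, -, hu0⟩, -⟩ := hPSR p m Q E H V U d
  have nG : Nn (1 + E + H) := (a2 _ _ (a2 _ _ n1 nE).1 nH).1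
  have hdec := decomp hU d
  have hcf : cf0 (1 + E + H) = cf0 U + cf0 (1 + E + H) * cf0 V := by
    conv_lhs => rw [hdec]
    rw [cf0_add, cf0_emb_mul]
  have ng : ∀ n, 0 ≤ PowerSeries.coeff n (cf0 (1 + E + H)) := by
    intro n
    rw [coeff_cf0]
    exact nG n 0
  have nem := nn_emb ng
  refine ⟨fun f F => ⟨lam_emb p m f F, cf0_emb_mul f F⟩, hdec, ?_, ?_, ?_⟩
  · linear_combination hcf
  · intro z _ hfin
    have e1 : ev z (1 + E + H) = ev z U + evs z (cf0 (1 + E + H)) • ev z V := by
      conv_lhs => rw [hdec]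
      rw [(a3 z _ _ nU (a2 _ _ nem nV).2.1).1, (a3 z _ _ nem nV).2.1, ev_emb, smul_mul, one_mul]
    have e2 : evs z (cf0 (1 + E + H)) =
        evs z (cf0 U) + evs z (cf0 (1 + E + H)) * evs z (cf0 V) := by
      have h := congrArg (fun x : Vec => x.co 0) e1
      simp only [add_co, smul_co] at h
      rw [← evs_cf0, ← evs_cf0, ← evs_cf0] at h
      exact h
    have e3 : evs z (cf0 (1 + E + H)) ≠ ∞ := by
      rw [evs_cf0]
      exact ne_top_of_le_ne_top hfin (co_le_ms _ _)
    have e4 : 1 ≤ evs z (cf0 U) := by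
      have h : z ^ 0 * ((PowerSeries.coeff 0 (cf0 U)).toNat : ℝ≥0∞) ≤ evs z (cf0 U) :=
        ENNReal.le_tsum 0
      refine le_trans ?_ h
      rw [pow_zero, one_mul]
      have h2 : 1 ≤ (PowerSeries.coeff 0 (cf0 U)).toNat := by omega
      exact_mod_cast h2
    by_contra hcon
    rw [not_lt] at hcon
    have h5 : evs z (cf0 (1 + E + H)) + 1 ≤ evs z (cf0 (1 + E + H)) := by
      calc evs z (cf0 (1 + E + H)) + 1 = 1 + evs z (cf0 (1 + E + H)) * 1 := by
            rw [mul_one, add_comm]
        _ ≤ evs z (cf0 U) + evs z (cf0 (1 + E + H)) * evs z (cf0 V) :=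
            add_le_add e4 (mul_le_mul' le_rfl hcon)
        _ = evs z (cf0 (1 + E + H)) := e2.symm
    exact absurd h5 (not_le.2 (ENNReal.lt_add_right e3 one_ne_zero))
  · intro z hz1 hB hUf hVf
    have hzt : z ≠ ∞ := ne_top_of_lt hz1
    have hu : evs z (cf0 U) ≠ ∞ := by
      rw [evs_cf0]
      exact ne_top_of_le_ne_top hUf (co_le_ms _ _)
    -- bound of the truncations
    have key : ∀ N, ∑ n ∈ Finset.range N, z ^ n *
        ((PowerSeries.coeff n (cf0 (1 + E + H))).toNat : ℝ≥0∞) ≤
        evs z (cf0 U) / (1 - evs z (cf0 V)) := by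
      intro N
      set gN := ∑ n ∈ Finset.range N, z ^ n *
        ((PowerSeries.coeff n (cf0 (1 + E + H))).toNat : ℝ≥0∞) with hgN
      have f1 : gN ≠ ∞ := by
        rw [hgN]
        refine (ENNReal.sum_lt_top.2 fun n _ => ?_).ne
        exact ENNReal.mul_lt_top (ENNReal.pow_lt_top hzt.lt_top) (ENNReal.natCast_lt_top _)
      have f2 : evt z N (1 + E + H) ≤ ev z U + gN • ev z V := by
        conv_lhs => rw [hdec]
        rw [(a4 z N _ _ nU (a2 _ _ nem nV).2.1).1]
        refine Vec.add_mono ((a5 z U).2.1 N).2 ?_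
        refine (a4 z N _ _ nem nV).2.1.trans ?_
        rw [evt_emb, smul_mul, one_mul]
        exact smul_mono le_rfl ((a5 z V).2.1 N).2
      have f3 : gN ≤ evs z (cf0 U) + gN * evs z (cf0 V) := by
        have h := f2 0
        rw [evt_co0, add_co, smul_co, ← evs_cf0, ← evs_cf0] at h
        exact h
      have hBt : evs z (cf0 V) ≠ ∞ := ne_top_of_lt hB
      have h1B : 1 - evs z (cf0 V) ≠ 0 := (tsub_pos_of_lt hB).ne'
      rw [ENNReal.le_div_iff_mul_le (Or.inl h1B) (Or.inl (ENNReal.sub_ne_top ENNReal.one_ne_top)),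
        ENNReal.mul_sub (fun _ _ => f1), mul_one]
      exact tsub_le_iff_right.2 f3
    have hg : evs z (cf0 (1 + E + H)) ≠ ∞ := by
      rw [evs_eq_iSup]
      refine ne_top_of_le_ne_top ?_ (iSup_le key)
      exact (ENNReal.div_lt_top hu (tsub_pos_of_lt hB).ne').ne
    have e1 : ev z (1 + E + H) = ev z U + evs z (cf0 (1 + E + H)) • ev z V := by
      conv_lhs => rw [hdec]
      rw [(a3 z _ _ nU (a2 _ _ nem nV).2.1).1, (a3 z _ _ nem nV).2.1, ev_emb, smul_mul, one_mul]
    rw [e1]
    unfold ms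
    rw [pr_add, smul_pr]
    exact ENNReal.add_ne_top.2 ⟨hUf, ENNReal.mul_ne_top hg hVf⟩

end Pool.Agent.Lib.MPba1bba.AS
end

section
/-!
# PSR: positivity and boundedness
-/
set_option autoImplicit false

open scoped ENNReal
open Classical

namespace Pool.Agent.Lib.MPba1bba.AS

open Pool.Agent.Lib.MPba1bba Vec

namespace PSRM

open EVAM

/-- closed under sums and products -/
structure Cl (P : SR → Prop) : Prop where
  zero : P 0
  add : ∀ A B, P A → P B → P (A + B)
  mul : ∀ A B, P A → P B → P (A * B)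

/-- all coefficients of degree `< N` satisfy `P` -/
def TT (P : SR → Prop) (N : ℕ) (F : Ser) : Prop := ∀ i < N, P (PowerSeries.coeff i F)

variable {P : SR → Prop}

lemma cl_sum (h : Cl P) {ι : Type} (t : Finset ι) (f : ι → SR) (hf : ∀ i ∈ t, P (f i)) :
    P (∑ i ∈ t, f i) := by
  induction t using Finset.induction_on with
  | empty => rw [Finset.sum_empty]; exact h.zero
  | insert a t ha ih =>
    rw [Finset.sum_insert ha]
    exact h.add _ _ (hf a (Finset.mem_insert_self _ _))
      (ih (fun i hi => hf i (Finset.mem_insert_of_mem hi)))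

lemma tt_add (h : Cl P) {N : ℕ} {F G : Ser} (hF : TT P N F) (hG : TT P N G) : TT P N (F + G) := by
  intro i hi
  rw [map_add]
  exact h.add _ _ (hF i hi) (hG i hi)

lemma tt_mul (h : Cl P) {N : ℕ} {F G : Ser} (hF : TT P N F) (hG : TT P N G) : TT P N (F * G) := by
  intro i hi
  rw [PowerSeries.coeff_mul]
  refine cl_sum h _ _ (fun jk hjk => ?_)
  have := Finset.HasAntidiagonal.mem_antidiagonal.1 hjk
  exact h.mul _ _ (hF jk.1 (by omega)) (hG jk.2 (by omega))

lemma tt_X (h : Cl P) {N : ℕ} {F : Ser} (hF : TT P N F) : TT P (N + 1) (PowerSeries.X * F) := by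
  intro i hi
  cases i with
  | zero => rw [PowerSeries.coeff_zero_X_mul]; exact h.zero
  | succ i => rw [PowerSeries.coeff_succ_X_mul]; exact hF i (by omega)

lemma tt_mono {N M : ℕ} (hNM : N ≤ M) {F : Ser} (hF : TT P M F) : TT P N F :=
  fun i hi => hF i (by omega)

lemma tt_all {F : Ser} (hF : ∀ n, P (PowerSeries.coeff n F)) (N : ℕ) : TT P N F :=
  fun i _ => hF i

lemma all_tt {F : Ser} (hF : ∀ N, TT P N F) (n : ℕ) : P (PowerSeries.coeff n F) :=
  hF (n + 1) n (Nat.lt_succ_self n)

lemma cl_NA : Cl NA := ⟨na_zero, fun _ _ => na_add, fun _ _ => na_mul⟩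

/-- bounded support -/
def BA (p : ℕ) (A : SR) : Prop := ∀ s, A.coeff s ≠ 0 → bs p s

lemma bs_add {p : ℕ} {s t : Multiset ℤ} (hs : bs p s) (ht : bs p t) : bs p (s + t) := by
  intro x hx
  rw [Multiset.mem_add] at hx
  rcases hx with h | h
  · exact hs x h
  · exact ht x h

lemma ba_zero (p : ℕ) : BA p 0 := by
  intro s h
  rw [AddMonoidAlgebra.coeff_zero] at h
  exact absurd rfl h

lemma ba_add {p : ℕ} {A B : SR} (hA : BA p A) (hB : BA p B) : BA p (A + B) := by
  intro s h
  rw [AddMonoidAlgebra.coeff_add, Finsupp.add_apply] at h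
  by_cases h1 : A.coeff s = 0
  · rw [h1, zero_add] at h
    exact hB s h
  · exact hA s h1

lemma ba_single {p : ℕ} {s : Multiset ℤ} (a : ℤ) (hs : bs p s) :
    BA p (AddMonoidAlgebra.single s a) := by
  intro t h
  rw [AddMonoidAlgebra.coeff_single, Finsupp.single_apply] at h
  by_cases h1 : s = t
  · rw [← h1]; exact hs
  · rw [if_neg h1] at h
    exact absurd rfl h

lemma ba_sum {p : ℕ} {ι : Type} (t : Finset ι) (f : ι → SR) (h : ∀ i ∈ t, BA p (f i)) :
    BA p (∑ i ∈ t, f i) := by
  induction t using Finset.induction_on with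
  | empty => rw [Finset.sum_empty]; exact ba_zero p
  | insert a t ha ih =>
    rw [Finset.sum_insert ha]
    exact ba_add (h a (Finset.mem_insert_self _ _))
      (ih (fun i hi => h i (Finset.mem_insert_of_mem hi)))

lemma ba_mul {p : ℕ} {A B : SR} (hA : BA p A) (hB : BA p B) : BA p (A * B) := by
  rw [mul_eq]
  refine ba_sum _ _ (fun s hs => ba_sum _ _ (fun t ht => ba_single _ (bs_add (hA s ?_) (hB t ?_))))
  · exact Finsupp.mem_support_iff.1 hs
  · exact Finsupp.mem_support_iff.1 ht

lemma cl_BA (p : ℕ) : Cl (BA p) := ⟨ba_zero p, fun _ _ => ba_add, fun _ _ => ba_mul⟩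

lemma bs_zero (p : ℕ) : bs p 0 := fun x hx => absurd hx (Multiset.notMem_zero x)

lemma ba_one (p : ℕ) : BA p 1 := by
  rw [AddMonoidAlgebra.one_def]
  exact ba_single _ (bs_zero p)

lemma bs_one (p : ℕ) : ∀ n, BA p (PowerSeries.coeff n (1 : Ser)) := by
  intro n
  rw [PowerSeries.coeff_one]
  split_ifs
  · exact ba_one p
  · exact ba_zero p

lemma ttn {F : Ser} (h : Nn F) (N : ℕ) : TT NA N F := fun i _ => h i

lemma nn_of {F : Ser} (h : ∀ N, TT NA N F) : Nn F := fun n => h (n + 1) n (Nat.lt_succ_self n)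

lemma ttb {p : ℕ} {F : Ser} (h : Bs p F) (N : ℕ) : TT (BA p) N F := fun i _ => h i

lemma bs_of {p : ℕ} {F : Ser} (h : ∀ N, TT (BA p) N F) : Bs p F :=
  fun n => h (n + 1) n (Nat.lt_succ_self n)

lemma mon_one : PowerSeries.monomial 0 (AddMonoidAlgebra.single (0 : Multiset ℤ) (1 : ℤ)) =
    (1 : Ser) := by
  rw [← AddMonoidAlgebra.one_def, PowerSeries.monomial_zero_eq_C_apply, map_one]

lemma tt_lam {p m : ℕ} (h : ∀ F : Ser, Nn F → Nn (lam p m F)) {N : ℕ} {F : Ser}
    (hF : TT NA N F) : TT NA N (lam p m F) := by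
  intro i hi
  set F' : Ser := PowerSeries.mk (fun j => if j < N then PowerSeries.coeff j F else 0) with hF'
  have h1 : Nn F' := by
    intro n
    rw [hF', PowerSeries.coeff_mk]
    split_ifs with hn
    · exact hF n hn
    · exact na_zero
  have h2 : PowerSeries.coeff i (lam p m F) = PowerSeries.coeff i (lam p m F') := by
    apply LINM.lam_congr
    intro j hj
    rw [hF', PowerSeries.coeff_mk, if_pos (by omega)]
  rw [h2]
  exact h F' h1 i

lemma na_serY (p : ℕ) : Nn (serY p) := by
  intro n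
  unfold serY
  rw [map_sum]
  refine na_sum _ _ (fun i _ => ?_)
  rw [PowerSeries.coeff_monomial]
  split_ifs
  · exact na_single _ (by norm_num)
  · exact na_zero

lemma ba_serY (p : ℕ) : ∀ n, BA p (PowerSeries.coeff n (serY p)) := by
  intro n
  unfold serY
  rw [map_sum]
  refine ba_sum _ _ (fun i hi => ?_)
  rw [Finset.mem_Ioo] at hi
  rw [PowerSeries.coeff_monomial]
  split_ifs
  · apply ba_single
    intro x hx
    rw [Multiset.mem_singleton] at hx
    subst hx
    constructor
    · omega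
    · omega
  · exact ba_zero p

end PSRM

open EVAM PSRM in
theorem specPSR (hEVL : SpecEVL) (hUVX : SpecUVX) (hSMC : SpecSMC) : SpecPSR := by
  intro p m Q E H V U hD
  obtain ⟨L1, L2, L3, -⟩ := hEVL p m
  obtain ⟨S1, S2, S3, S4, S5, S6, -⟩ := hSMC p m hD.hp hD.hm
  obtain ⟨hQ, hE, hH⟩ := hD.sys
  have hm := hD.hm
  have hp := hD.hp
  -- the letter series
  obtain ⟨Y1, hY1⟩ := UNQM.X_dvd_serY p
  have hY1n : Nn Y1 := by
    intro n
    have := na_serY p (n + 1)
    rw [hY1, PowerSeries.coeff_succ_X_mul] at this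
    exact this
  have hY1b : Bs p Y1 := by
    intro n
    have := ba_serY p (n + 1)
    rw [hY1, PowerSeries.coeff_succ_X_mul] at this
    exact this
  -- `Λ 1`
  have hl1 : lam p m 1 - 1 = ∑ r ∈ Finset.Ico 1 m,
      PowerSeries.monomial (cmin p m 0 r) (AddMonoidAlgebra.single (sml p m 0 r) (1 : ℤ)) := by
    have h1 : lam p m 1 = lamB p m 0 := by
      have := LINM.lam_monomial p m 0 0
      rw [pow_zero, one_mul] at this
      rw [mon_one] at this
      exact this
    rw [h1]
    unfold lamB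
    rw [Finset.range_eq_Ico, Finset.sum_eq_sum_Ico_succ_bot (by omega : 0 < m), S6.1, S6.2]
    rw [mon_one]
    ring
  have nl1 : Nn (lam p m 1 - 1) := by
    intro n
    rw [hl1, map_sum]
    refine na_sum _ _ (fun i _ => ?_)
    rw [PowerSeries.coeff_monomial]
    split_ifs
    · exact na_single _ (by norm_num)
    · exact na_zero
  -- `Q` and `E`
  have hE2 : E = PowerSeries.X * (PowerSeries.X * ((lam p m 1 - 1) +
      lam p m (E + Q * ((1 + E) * (1 + E))))) := by
    conv_lhs => rw [hE]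
    have : (1 : Ser) + E + Q * (1 + E) ^ 2 = 1 + (E + Q * ((1 + E) * (1 + E))) := by ring
    rw [this, L1]
    ring
  have hQ2 : Q = serY p + PowerSeries.X * (Y1 * (E * Q)) := by
    conv_lhs => rw [hQ]
    have : serY p * E * Q = PowerSeries.X * (Y1 * (E * Q)) := by
      rw [hY1]; ring
    rw [this]
  have key : ∀ N, TT NA N Q ∧ TT NA N E := by
    intro N
    induction N with
    | zero => exact ⟨fun i hi => absurd hi (Nat.not_lt_zero i), fun i hi => absurd hi (Nat.not_lt_zero i)⟩
    | succ N ih =>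
      have o : TT NA N (1 : Ser) := ttn nn_one N
      constructor
      · rw [hQ2]
        exact tt_add cl_NA (ttn (na_serY p) _)
          (tt_X cl_NA (tt_mul cl_NA (ttn hY1n _) (tt_mul cl_NA ih.2 ih.1)))
      · rw [hE2]
        refine tt_mono (Nat.le_succ _) (tt_X cl_NA (tt_X cl_NA (tt_add cl_NA (ttn nl1 _)
          (tt_lam L2 (tt_add cl_NA ih.2 (tt_mul cl_NA ih.1 (tt_mul cl_NA
            (tt_add cl_NA o ih.2) (tt_add cl_NA o ih.2))))))))
  have nQ : Nn Q := nn_of (fun N => (key N).1)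
  have nE : Nn E := nn_of (fun N => (key N).2)
  have nR : Nn (serR Q E) := nn_add nn_one (nn_mul nQ (nn_add nn_one nE))
  have nH : Nn H := by
    apply nn_of
    intro N
    induction N with
    | zero => exact fun i hi => absurd hi (Nat.not_lt_zero i)
    | succ N ih =>
      rw [hH]
      refine tt_X cl_NA (tt_lam L2 (tt_mul cl_NA (ttn nR _) (tt_add cl_NA
        (tt_add cl_NA (ttn nn_one _) (ttn nE _)) ih)))
  -- boundedness
  have bE : Bs p E := by
    apply bs_of
    intro N
    have h1 : TT (BA p) N (lam p m 1 - 1) := by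
      intro i _
      rw [hl1, map_sum]
      refine ba_sum _ _ (fun i _ => ?_)
      rw [PowerSeries.coeff_monomial]
      split_ifs
      · exact ba_single _ (S1 _ _)
      · exact ba_zero p
    rw [hE2]
    exact tt_mono (by omega) (tt_X (cl_BA p) (tt_X (cl_BA p) (tt_add (cl_BA p) h1
      (ttb (L3 _) N))))
  have bQ : Bs p Q := by
    apply bs_of
    intro N
    induction N with
    | zero => exact fun i hi => absurd hi (Nat.not_lt_zero i)
    | succ N ih =>
      rw [hQ2]
      exact tt_add (cl_BA p) (ttb (ba_serY p) _)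
          (tt_X (cl_BA p) (tt_mul (cl_BA p) (ttb hY1b _) (tt_mul (cl_BA p) (ttb bE _) ih)))
  have bX : ∀ F : Ser, Bs p (PowerSeries.X * lam p m F) := by
    intro F
    apply bs_of
    intro N
    exact tt_mono (Nat.le_succ _) (tt_X (cl_BA p) (ttb (L3 F) N))
  have bH : Bs p H := by rw [hH]; exact bX _
  have bV : Bs p V := by
    have hv := hD.veq
    unfold VEq at hv
    rw [hv]
    exact bX _
  have bU : Bs p U := by
    apply bs_of
    intro N
    rw [hD.ueq]
    exact tt_add (cl_BA p) (tt_add (cl_BA p) (ttb (bs_one p) _) (ttb bE _)) (ttb (bX _) _)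
  have bR : Bs p (serR Q E) := by
    apply bs_of
    intro N
    exact tt_add (cl_BA p) (ttb (bs_one p) _) (tt_mul (cl_BA p) (ttb bQ _)
      (tt_add (cl_BA p) (ttb (bs_one p) _) (ttb bE _)))
  -- `V`
  have hV : V = PowerSeries.X * lam p m (serR Q E * (1 + rm0 V)) := hD.veq
  have hV2 : V = PowerSeries.X * lam p m (serR Q E) +
      PowerSeries.X * lam p m (serR Q E * rm0 V) := by
    conv_lhs => rw [hV]
    have : serR Q E * (1 + rm0 V) = serR Q E + serR Q E * rm0 V := by ring
    rw [this, L1]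
    ring
  have nV : Nn V := by
    obtain ⟨V', v1, v2, v3, v4⟩ := hUVX p m (PowerSeries.X * lam p m (serR Q E)) (serR Q E)
    rw [v2 V hV2]
    exact v3 (nn_X (L2 _ nR)) nR
  have nU : Nn U := by
    obtain ⟨U', v1, v2, v3, v4⟩ := hUVX p m (1 + E) (serR Q E)
    rw [v2 U hD.ueq]
    exact v3 (nn_add nn_one nE) nR
  have nrV : Nn (rm0 V) := UVXM.nn_rm0 nV
  have nrU : Nn (rm0 U) := UVXM.nn_rm0 nU
  refine ⟨⟨na_serY p, nQ, nE, nH, nV, nU, nR, nl1, nrV, nrU⟩,
    ⟨ba_serY p, bQ, bE, bH, bV, bU, bR⟩, ?_, ⟨?_, ?_, ?_⟩, ?_⟩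
  · unfold serR
    linear_combination (1 + E) * hQ
  · unfold cf0
    rw [PowerSeries.coeff_mk, hV, PowerSeries.coeff_zero_X_mul, AddMonoidAlgebra.coeff_zero]
    rfl
  · unfold cf0
    rw [PowerSeries.coeff_mk, hV, show (1 : ℕ) = 0 + 1 from rfl, PowerSeries.coeff_succ_X_mul]
    have e : serR Q E * (1 + rm0 V) = 1 + (Q * (1 + E) + serR Q E * rm0 V) := by
      unfold serR; ring
    have e2 : lam p m (serR Q E * (1 + rm0 V)) =
        1 + ((lam p m 1 - 1) + lam p m (Q * (1 + E) + serR Q E * rm0 V)) := by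
      rw [e, L1]; ring
    rw [e2, map_add, AddMonoidAlgebra.coeff_add, Finsupp.add_apply]
    have h1 : (PowerSeries.coeff 0 (1 : Ser)).coeff (0 : Multiset ℤ) = 1 := by
      rw [PowerSeries.coeff_one, if_pos rfl, AddMonoidAlgebra.one_def,
        AddMonoidAlgebra.coeff_single, Finsupp.single_eq_same]
    rw [h1]
    have h2 : Nn ((lam p m 1 - 1) + lam p m (Q * (1 + E) + serR Q E * rm0 V)) :=
      nn_add nl1 (L2 _ (nn_add (nn_mul nQ (nn_add nn_one nE)) (nn_mul nR nrV)))
    have := h2 0 0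
    linarith
  · unfold cf0
    rw [PowerSeries.coeff_mk, hD.ueq, add_assoc, map_add, AddMonoidAlgebra.coeff_add,
      Finsupp.add_apply]
    have h1 : (PowerSeries.coeff 0 (1 : Ser)).coeff (0 : Multiset ℤ) = 1 := by
      rw [PowerSeries.coeff_one, if_pos rfl, AddMonoidAlgebra.one_def,
        AddMonoidAlgebra.coeff_single, Finsupp.single_eq_same]
    rw [h1]
    have h2 : Nn (E + PowerSeries.X * lam p m (serR Q E * rm0 U)) :=
      nn_add nE (nn_X (L2 _ (nn_mul nR nrU)))
    have := h2 0 0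
    linarith
  · rw [hQ, map_add, AddMonoidAlgebra.coeff_add, Finsupp.add_apply]
    have h1 : Nn (serY p * E * Q) := nn_mul (nn_mul (na_serY p) nE) nQ
    have h2 := h1 1 {2 - (p : ℤ)}
    have h3 : 0 < (PowerSeries.coeff 1 (serY p)).coeff ({2 - (p : ℤ)} : Multiset ℤ) := by
      have e : PowerSeries.coeff 1 (serY p) = AddMonoidAlgebra.single ({2 - (p : ℤ)} : Multiset ℤ) (1 : ℤ)
          + ∑ i ∈ (Finset.Ioo 0 p).erase 1, PowerSeries.coeff 1 (PowerSeries.monomial (min i (p - i))
            (AddMonoidAlgebra.single ({2 * (i : ℤ) - p} : Multiset ℤ) (1 : ℤ))) := by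
        unfold serY
        rw [map_sum, ← Finset.add_sum_erase (Finset.Ioo 0 p) _
          (Finset.mem_Ioo.2 ⟨Nat.one_pos, by omega⟩ : 1 ∈ Finset.Ioo 0 p)]
        congr 1
        rw [PowerSeries.coeff_monomial, if_pos (by omega)]
        norm_num
      rw [e, AddMonoidAlgebra.coeff_add, Finsupp.add_apply, AddMonoidAlgebra.coeff_single,
        Finsupp.single_eq_same]
      have h4 : NA (∑ i ∈ (Finset.Ioo 0 p).erase 1,
          PowerSeries.coeff 1 (PowerSeries.monomial (min i (p - i))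
            (AddMonoidAlgebra.single ({2 * (i : ℤ) - p} : Multiset ℤ) (1 : ℤ)))) := by
        refine na_sum _ _ (fun i _ => ?_)
        rw [PowerSeries.coeff_monomial]
        split_ifs
        · exact na_single _ (by norm_num)
        · exact na_zero
      have := h4 ({2 - (p : ℤ)} : Multiset ℤ)
      linarith
    linarith

end Pool.Agent.Lib.MPba1bba.AS
end
end

section
section
namespace Pool.Agent.Lib.MPba1bba
namespace STRM

open SRTM CVXM

/-- increments -/
noncomputable def dd (p : ℕ) (L : List ℤ) (k : ℤ) : ℤ :=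
  if k < 0 then -(p : ℤ) else if h' : k.toNat < L.length then L[k.toNat] else p

lemma G_diff (p : ℕ) (L : List ℤ) (k : ℤ) : (G p L (k + 1) : ℤ) - G p L k = dd p L k := by
  unfold dd
  split_ifs with h1 h2
  · rw [G_nonpos p L k (by omega), G_nonpos p L (k + 1) (by omega)]
    have : ((-k).toNat : ℤ) = ((-(k + 1)).toNat : ℤ) + 1 := by omega
    push_cast [this]
    ring
  · obtain ⟨n, rfl⟩ : ∃ n : ℕ, k = n := ⟨k.toNat, by omega⟩
    have := G_step_lt p L n (by simpa using h2)
    rw [this]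
    simp
  · obtain ⟨n, rfl⟩ : ∃ n : ℕ, k = n := ⟨k.toNat, by omega⟩
    have hn : L.length ≤ n := by simpa using h2
    obtain ⟨d, rfl⟩ : ∃ d : ℕ, n = L.length + d := ⟨n - L.length, by omega⟩
    have e1 := G_ge p L L.length d rfl
    have e2 := G_ge p L L.length (d + 1) rfl
    have e3 : (((L.length + d : ℕ) : ℤ) + 1) = (L.length : ℤ) + ((d + 1 : ℕ) : ℤ) := by
      push_cast; ring
    have e4 : (((L.length + d : ℕ) : ℤ)) = (L.length : ℤ) + (d : ℤ) := by
      push_cast; ring
    rw [e3, e4, e1, e2]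
    push_cast
    ring

lemma dd_mono (p : ℕ) (L : List ℤ) (hs : L.Pairwise (· ≤ ·))
    (hb : ∀ x ∈ L, -(p : ℤ) < x ∧ x < p) : Monotone (dd p L) := by
  intro j k hjk
  unfold dd
  by_cases h1 : j < 0
  · rw [if_pos h1]
    by_cases h2 : k < 0
    · rw [if_pos h2]
    · rw [if_neg h2]
      by_cases h3 : k.toNat < L.length
      · rw [dif_pos h3]
        exact (hb _ (List.getElem_mem h3)).1.le
      · rw [dif_neg h3]
        omega
  · rw [if_neg h1, if_neg (by omega)]
    by_cases h3 : k.toNat < L.length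
    · have h4 : j.toNat < L.length := by omega
      rw [dif_pos h3, dif_pos h4]
      rcases eq_or_lt_of_le (show j.toNat ≤ k.toNat by omega) with h5 | h5
      · simp [h5]
      · exact List.pairwise_iff_getElem.1 hs j.toNat k.toNat h4 h3 h5
    · rw [dif_neg h3]
      by_cases h4 : j.toNat < L.length
      · rw [dif_pos h4]
        exact (hb _ (List.getElem_mem h4)).2.le
      · rw [dif_neg h4]

lemma sec_diff (p m : ℕ) (L : List ℤ) (r : ℤ) (j : ℤ) :
    (G p L (r + m * (j + 1)) : ℤ) - G p L (r + m * j) =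
      ∑ i ∈ Finset.range m, dd p L (r + m * j + i) := by
  have := Finset.sum_range_sub (fun i : ℕ => (G p L (r + m * j + i) : ℤ)) m
  have e : r + (m : ℤ) * (j + 1) = r + m * j + m := by ring
  rw [e]
  have e2 : (G p L (r + m * j) : ℤ) = (G p L (r + m * j + ((0 : ℕ) : ℤ)) : ℤ) := by simp
  rw [e2, ← this]
  apply Finset.sum_congr rfl
  intro i _
  rw [← G_diff]
  push_cast
  congr 3
  ring_nf

end STRM

open SRTM CVXM STRM in
theorem specSTR (hSRT : SpecSRT) (hCVX : SpecCVX) : SpecSTR := by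
  intro p m hp hm s hs r
  set L := s.sort (· ≤ ·) with hL
  have hsL : (L : Multiset ℤ) = s := Multiset.sort_eq s (· ≤ ·)
  have hLs : L.Pairwise (· ≤ ·) := by
    exact Multiset.pairwise_sort s (· ≤ ·)
  have hLb : ∀ x ∈ L, -(p : ℤ) < x ∧ x < p := by
    intro x hx
    apply hs
    rw [hL, Multiset.mem_sort] at hx
    exact hx
  have hb : ∀ k : ℤ, bfun p s k = G p L k := by
    intro k
    rw [← hsL]
    exact hSRT p L hLs hLb k
  have hsec : ∀ j : ℤ, (bfun p s (r + m * (j + 1)) : ℤ) - bfun p s (r + m * j) =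
      ∑ i ∈ Finset.range m, dd p L (r + m * j + i) := by
    intro j
    rw [hb, hb]
    exact sec_diff p m L r j
  have hm' : (1 : ℤ) ≤ m := by exact_mod_cast hm
  have hp' : (1 : ℤ) ≤ p := by exact_mod_cast hp
  obtain ⟨y, hy⟩ := hCVX p (fun j => bfun p s (r + m * j)) hp (by
    intro j
    have e : j + 2 = (j + 1) + 1 := by ring
    show (bfun p s (r + m * (j + 1)) : ℤ) - bfun p s (r + m * j) ≤
      bfun p s (r + m * (j + 2)) - bfun p s (r + m * (j + 1))
    rw [e, hsec, hsec]
    apply Finset.sum_le_sum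
    intro i _
    apply dd_mono p L hLs hLb
    nlinarith) ⟨r + L.length + 1, by
      intro j hj
      show (bfun p s (r + m * (j + 1)) : ℤ) - bfun p s (r + m * j) ≤ -(p : ℤ)
      rw [hsec]
      have h1 : ∀ i ∈ Finset.range m, dd p L (r + m * j + i) = -(p : ℤ) := by
        intro i hi
        rw [Finset.mem_range] at hi
        unfold dd
        rw [if_pos]
        push_cast at hj
        have hi' : (i : ℤ) < m := by exact_mod_cast hi
        have hL0 : (0 : ℤ) ≤ L.length := by positivity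
        have hr0 : (0 : ℤ) ≤ r := by positivity
        nlinarith
      rw [Finset.sum_congr rfl h1]
      simp
      nlinarith, by
      intro j hj
      show (p : ℤ) ≤ bfun p s (r + m * (j + 1)) - bfun p s (r + m * j)
      rw [hsec]
      have h1 : ∀ i ∈ Finset.range m, dd p L (r + m * j + i) = (p : ℤ) := by
        intro i hi
        unfold dd
        push_cast at hj
        have hL0 : (0 : ℤ) ≤ L.length := by positivity
        have hr0 : (0 : ℤ) ≤ r := by positivity
        have h2 : (L.length : ℤ) < r + m * j + i := by nlinarith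
        rw [if_neg (by omega), dif_neg (by omega)]
      rw [Finset.sum_congr rfl h1]
      simp
      nlinarith⟩
  exact ⟨y, hy⟩

end Pool.Agent.Lib.MPba1bba
end

section
/-!
# MP_ba1bba_al, asymptotics: module FUT (the futures of a state)
-/
open scoped ENNReal

namespace Pool.Agent.Lib.MPba1bba.AS

open Pool.Agent.Lib.MPba1bba Vec

namespace FUTM

theorem icex (f g : ℤ → ℕ) (k : ℤ) : ∃ j, ic f g k = f j + g (k - j) := specIC.1 f g k
theorem icle (f g : ℤ → ℕ) (k j : ℤ) : ic f g k ≤ f j + g (k - j) := specIC.2.1 f g k j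
theorem icassoc (f g h : ℤ → ℕ) : ic (ic f g) h = ic f (ic g h) := specIC.2.2.2.1 f g h
theorem icadd (c : ℕ) (f g : ℤ → ℕ) : ic (fun k => c + f k) g = fun k => c + ic f g k :=
  specIC.2.2.2.2.1 c f g
theorem icshift (x : ℤ) (f g : ℤ → ℕ) : ic (fun k => f (k - x)) g = fun k => ic f g (k - x) :=
  specIC.2.2.2.2.2 x f g

theorem infex (f : ℤ → ℕ) : ∃ j, (⨅ j, f j) = f j := by
  obtain ⟨j, hj⟩ := Nat.sInf_mem (Set.range_nonempty f)
  exact ⟨j, hj.symm⟩

theorem infle (f : ℤ → ℕ) (j : ℤ) : (⨅ j, f j) ≤ f j := ciInf_le (OrderBot.bddBelow _) j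

theorem bbadd (p : ℕ) (s t : Multiset ℤ) : bfun p (s + t) = ic (bfun p s) (bfun p t) :=
  (specBFN p).2.2.2.1 s t

theorem blip (p : ℕ) (s : Multiset ℤ) (k l : ℤ) : bfun p s k ≤ bfun p s l + p * (k - l).natAbs :=
  (specBFN p).2.2.2.2.1 s k l

/-- `b_s` has a zero. -/
theorem bzero (p : ℕ) (s : Multiset ℤ) : ∃ k, bfun p s k = 0 := by
  classical
  refine ⟨((s.filter (fun x => x < 0)).card : ℤ), ?_⟩
  have h := (specBFN p).2.1 s ((s.filter (fun x => x < 0)).card : ℤ) (s.filter (fun x => x < 0))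
    (s.filter (fun x => ¬ x < 0)) (Multiset.filter_add_not _ s)
  have h1 : sumPos (s.filter (fun x => x < 0)) = 0 := by
    unfold sumPos
    apply Multiset.sum_eq_zero
    intro n hn
    rw [Multiset.mem_map] at hn
    obtain ⟨x, hx, rfl⟩ := hn
    have := (Multiset.mem_filter.1 hx).2
    omega
  have h2 : sumNeg (s.filter (fun x => ¬ x < 0)) = 0 := by
    unfold sumNeg
    apply Multiset.sum_eq_zero
    intro n hn
    rw [Multiset.mem_map] at hn
    obtain ⟨x, hx, rfl⟩ := hn
    have := (Multiset.mem_filter.1 hx).2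
    omega
  rw [h1, h2] at h
  simpa using h

/-- lower bound of `b_s`. -/
theorem blow (p : ℕ) (s : Multiset ℤ) (x : ℤ) : ∃ a ≤ Multiset.card s, p * (x - (a : ℤ)).natAbs ≤ bfun p s x := by
  obtain ⟨A, B, hAB, h⟩ := (specBFN p).1 s x
  refine ⟨A.card, ?_, ?_⟩
  · rw [← hAB, Multiset.card_add]
    omega
  · rw [h]
    omega

/-- The section lemma: values -/
theorem sec (p m : ℕ) (hp : 1 ≤ p) (hm : 1 ≤ m) (s : Multiset ℤ) (hs : bs p s) (r : ℕ) :
    ∃ y : ℤ, ∀ G : ℤ → ℕ, ic (fun j => p * j.natAbs) G = G →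
      ∀ k, ic (fun j => bfun p s (r + m * j)) G k = cmin p m s r + ic (bfun p (sml p m s r)) G (k - y) := by
  obtain ⟨y, hy⟩ := specSTR (specSRT specBFN) (specCVX specBFN (specSRT specBFN)) p m hp hm s hs r
  refine ⟨y, fun G hG k => ?_⟩
  have e : ic (fun j => bfun p s (r + m * j)) (fun j => p * j.natAbs) =
      fun k => cmin p m s r + bfun p (sml p m s r) (k - y) := funext hy
  rw [← hG, ← icassoc, e, icadd, icshift, hG]

theorem shift1 (F : ℤ → ℝ≥0∞) (M : ℕ) (hF : ∀ x, F (x + M) = F x) (hM : 1 ≤ M) (y : ℤ) :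
    ∑ ρ ∈ Finset.range M, F ((ρ : ℤ) + 1 + y) = ∑ ρ ∈ Finset.range M, F ((ρ : ℤ) + y) := by
  obtain ⟨N, rfl⟩ : ∃ N, M = N + 1 := ⟨M - 1, by omega⟩
  have e1 : ∀ i ∈ Finset.range N, F ((i : ℤ) + 1 + y) = F (((i + 1 : ℕ) : ℤ) + y) := by
    intro i _
    push_cast
    rfl
  have e2 : F ((N : ℤ) + 1 + y) = F (((0 : ℕ) : ℤ) + y) := by
    rw [← hF (((0 : ℕ) : ℤ) + y)]
    congr 1
    push_cast
    ring
  rw [Finset.sum_range_succ, Finset.sum_range_succ' (fun ρ : ℕ => F ((ρ : ℤ) + y)),
    Finset.sum_congr rfl e1, e2]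

/-- sums over residues of periodic functions do not change under a shift. -/
theorem shift (F : ℤ → ℝ≥0∞) (M : ℕ) (hF : ∀ x, F (x + M) = F x) (hM : 1 ≤ M) (y : ℤ) :
    ∑ ρ ∈ Finset.range M, F ((ρ : ℤ) + y) = ∑ ρ ∈ Finset.range M, F (ρ : ℤ) := by
  induction y using Int.induction_on with
  | zero => simp
  | succ i ih =>
    rw [← ih, ← shift1 F M hF hM (i : ℤ)]
    apply Finset.sum_congr rfl
    intro ρ _
    congr 1
    ring
  | pred i ih =>
    rw [← ih, ← shift1 F M hF hM (-(i : ℤ) - 1)]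
    apply Finset.sum_congr rfl
    intro ρ _
    congr 1
    ring

theorem icper (h G : ℤ → ℕ) (M : ℤ) (hG : ∀ x, G (x + M) = G x) (k : ℤ) :
    ic h G (k + M) = ic h G k := by
  apply le_antisymm
  · obtain ⟨j, hj⟩ := icex h G k
    have := icle h G (k + M) j
    rw [hj, ← hG (k - j)]
    have e : k + M - j = k - j + M := by ring
    rw [e] at this
    exact this
  · obtain ⟨j, hj⟩ := icex h G (k + M)
    have := icle h G k j
    rw [hj]
    have e : k + M - j = (k - j) + M := by ring
    rw [e, hG]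
    exact this

/-- The section lemma: sums -/
theorem secAA (p m : ℕ) (hp : 1 ≤ p) (hm : 1 ≤ m) (s : Multiset ℤ) (hs : bs p s) (r : ℕ)
    (z : ℝ≥0∞) (M : ℕ) (hM : 1 ≤ M) (G : ℤ → ℕ) (hper : ∀ x, G (x + M) = G x)
    (hG : ic (fun j => p * j.natAbs) G = G) :
    AA z M (fun j => bfun p s (r + m * j)) G =
      z ^ cmin p m s r * AA z M (bfun p (sml p m s r)) G := by
  obtain ⟨y, hy⟩ := sec p m hp hm s hs r
  unfold AA
  rw [Finset.mul_sum, ← shift (fun x => z ^ cmin p m s r * z ^ ic (bfun p (sml p m s r)) G x) M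
    (fun x => by rw [icper _ _ _ hper]) hM (-y)]
  apply Finset.sum_congr rfl
  intro ρ _
  rw [hy G hG, pow_add, sub_eq_add_neg]

theorem bs_sml (p m : ℕ) (s : Multiset ℤ) (r : ℕ) : bs p (sml p m s r) := by
  intro x hx
  unfold sml at hx
  rw [Multiset.mem_sum] at hx
  obtain ⟨y, hy, hxy⟩ := hx
  have h1 : x ∈ ({y} : Multiset ℤ) := Multiset.mem_of_mem_nsmul hxy
  rw [Multiset.mem_singleton] at h1
  subst h1
  exact Finset.mem_Ioo.1 hy

theorem bs_add (p : ℕ) {s t : Multiset ℤ} (hs : bs p s) (ht : bs p t) : bs p (s + t) := by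
  intro x hx
  rcases Multiset.mem_add.1 hx with h | h
  · exact hs x h
  · exact ht x h

/-- the future of the next level -/
noncomputable def GG (p m : ℕ) (c : Multiset ℤ) (G : ℤ → ℕ) (y : ℤ) : ℕ :=
  ⨅ j : ℤ, (bfun p c (y - m * j) + G j)

theorem GG_ex (p m : ℕ) (c : Multiset ℤ) (G : ℤ → ℕ) (y : ℤ) :
    ∃ j, GG p m c G y = bfun p c (y - m * j) + G j := infex _

theorem GG_le (p m : ℕ) (c : Multiset ℤ) (G : ℤ → ℕ) (y j : ℤ) :
    GG p m c G y ≤ bfun p c (y - m * j) + G j := infle _ j

theorem GG_per (p m : ℕ) (c : Multiset ℤ) (G : ℤ → ℕ) (M : ℤ) (hG : ∀ x, G (x + M) = G x) (y : ℤ) :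
    GG p m c G (y + m * M) = GG p m c G y := by
  apply le_antisymm
  · obtain ⟨j, hj⟩ := GG_ex p m c G y
    have := GG_le p m c G (y + m * M) (j + M)
    rw [hG] at this
    rw [hj]
    have e : y + m * M - m * (j + M) = y - m * j := by ring
    rw [e] at this
    exact this
  · obtain ⟨j, hj⟩ := GG_ex p m c G (y + m * M)
    have := GG_le p m c G y (j - M)
    have e : G (j - M) = G j := by
      rw [← hG (j - M)]
      congr 1
      ring
    rw [e] at this
    rw [hj]
    have e : y - m * (j - M) = y + m * M - m * j := by ring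
    rw [e] at this
    exact this

theorem GG_lip (p m : ℕ) (c : Multiset ℤ) (G : ℤ → ℕ) :
    ic (fun j => p * j.natAbs) (GG p m c G) = GG p m c G := by
  funext y
  apply le_antisymm
  · have := icle (fun j => p * j.natAbs) (GG p m c G) y 0
    simpa using this
  · obtain ⟨k, hk⟩ := icex (fun j => p * j.natAbs) (GG p m c G) y
    obtain ⟨j, hj⟩ := GG_ex p m c G (y - k)
    have h1 := GG_le p m c G y j
    have h2 := blip p c (y - m * j) (y - k - m * j)
    rw [hk, hj]
    have e : y - m * j - (y - k - m * j) = k := by ring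
    rw [e] at h2
    omega

theorem GG_ic (p m : ℕ) (s c : Multiset ℤ) (G : ℤ → ℕ) (r : ℕ) (ρ : ℤ) :
    ic (bfun p s) (GG p m c G) (r + m * ρ) = ic (fun j => bfun p (s + c) (r + m * j)) G ρ := by
  apply le_antisymm
  · obtain ⟨j, hj⟩ := icex (fun j => bfun p (s + c) (r + m * j)) G ρ
    rw [hj, bbadd]
    obtain ⟨k, hk⟩ := icex (bfun p s) (bfun p c) (r + m * j)
    rw [hk]
    have h1 := icle (bfun p s) (GG p m c G) (r + m * ρ) k
    have h2 := GG_le p m c G (r + m * ρ - k) (ρ - j)
    have e : (r : ℤ) + m * ρ - k - m * (ρ - j) = r + m * j - k := by ring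
    rw [e] at h2
    omega
  · obtain ⟨k, hk⟩ := icex (bfun p s) (GG p m c G) (r + m * ρ)
    obtain ⟨j, hj⟩ := GG_ex p m c G (r + m * ρ - k)
    rw [hk, hj]
    have h1 : ic (fun j => bfun p (s + c) (r + m * j)) G ρ ≤
        bfun p (s + c) (r + m * (ρ - j)) + G (ρ - (ρ - j)) :=
      icle (fun j => bfun p (s + c) (r + m * j)) G ρ (ρ - j)
    have h3 : bfun p (s + c) (r + m * (ρ - j)) = ic (bfun p s) (bfun p c) (r + m * (ρ - j)) := by
      rw [bbadd]
    rw [h3] at h1
    have h2 := icle (bfun p s) (bfun p c) (r + m * (ρ - j)) k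
    have e : (r : ℤ) + m * (ρ - j) - k = r + m * ρ - k - m * j := by ring
    rw [e] at h2
    have e2 : ρ - (ρ - j) = j := by ring
    rw [e2] at h1
    omega

theorem sum_digits (m M : ℕ) (hm : 1 ≤ m) (F : ℤ → ℝ≥0∞) :
    ∑ r ∈ Finset.range m, ∑ ρ ∈ Finset.range M, F ((r : ℤ) + m * (ρ : ℤ)) =
      ∑ x ∈ Finset.range (m * M), F (x : ℤ) := by
  rw [← Finset.sum_product']
  apply Finset.sum_nbij' (fun a => a.1 + m * a.2) (fun x => (x % m, x / m))
  · rintro ⟨r, ρ⟩ h
    simp only [Finset.mem_product, Finset.mem_range] at h ⊢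
    calc r + m * ρ < m + m * ρ := by omega
      _ = m * (ρ + 1) := by ring
      _ ≤ m * M := Nat.mul_le_mul_left _ h.2
  · intro x hx
    simp only [Finset.mem_product, Finset.mem_range] at hx ⊢
    exact ⟨Nat.mod_lt _ (by omega), Nat.div_lt_of_lt_mul hx⟩
  · rintro ⟨r, ρ⟩ h
    simp only [Finset.mem_product, Finset.mem_range] at h ⊢
    rw [Nat.add_mul_mod_self_left, Nat.mod_eq_of_lt h.1, Nat.add_mul_div_left _ _ (by omega),
      Nat.div_eq_of_lt h.1, zero_add]
  · intro x _
    exact Nat.mod_add_div x m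
  · rintro ⟨r, ρ⟩ _
    simp only
    push_cast
    rfl

end FUTM

open FUTM in
theorem specFUT : SpecFUT := by
  classical
  intro p m z R hp hm hR n
  have four : ∀ n : ℕ, ∀ (I : Type) (w : I → ℝ≥0∞) (G : I → ℤ → ℕ),
    (∀ i (x : ℤ), G i (x + ((m ^ n : ℕ) : ℤ)) = G i x) →
    (∀ i, ic (fun j => p * j.natAbs) (G i) = G i) →
    (∀ s, bs p s → phi p m z R n s = ∑' i, w i * AA z (m ^ n) (bfun p s) (G i)) →
    (∀ s, bs p s → Ld p m z (phi p m z R n) s =
      ∑' i, w i * ∑ r ∈ Finset.range m, AA z (m ^ n) (fun j => bfun p s (r + m * j)) (G i)) := by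
    intro n I w G h1 h2 h3 s hs
    unfold Ld
    have hM : 1 ≤ m ^ n := Nat.one_le_pow _ _ (by omega)
    have e : ∀ r ∈ Finset.range m, z ^ cmin p m s r * phi p m z R n (sml p m s r) =
        ∑' i, w i * AA z (m ^ n) (fun j => bfun p s (r + m * j)) (G i) := by
      intro r _
      rw [h3 _ (bs_sml p m s r), ← ENNReal.tsum_mul_left]
      apply tsum_congr
      intro i
      rw [secAA p m hp hm s hs r z (m ^ n) hM (G i) (h1 i) (h2 i)]
      ring
    rw [Finset.sum_congr rfl e]
    simp only [Finset.mul_sum]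
    rw [Summable.tsum_finsetSum (fun _ _ => ENNReal.summable)]
  induction n with
  | zero =>
    have h3 : ∀ s, bs p s → phi p m z R 0 s =
        ∑' i : Unit, (fun _ => (1 : ℝ≥0∞)) i * AA z (m ^ 0) (bfun p s) ((fun _ _ => 0) i) := by
      intro s _
      rw [tsum_fintype]
      simp only [Finset.univ_unique, Finset.sum_singleton]
      unfold AA phi
      have : ic (bfun p s) (fun _ => 0) 0 = 0 := by
        obtain ⟨k, hk⟩ := FUTM.bzero p s
        have := icle (bfun p s) (fun _ => 0) 0 k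
        rw [hk] at this
        omega
      simp [this]
    have h2 : ∀ i : Unit, ic (fun j => p * j.natAbs) ((fun _ _ => 0 : Unit → ℤ → ℕ) i) =
        (fun _ _ => 0 : Unit → ℤ → ℕ) i := by
      intro i
      funext k
      have := icle (fun j => p * j.natAbs) (fun _ => 0) k 0
      simpa using this
    exact ⟨Unit, fun _ => 1, fun _ _ => 0, fun _ _ => rfl, h2, h3,
      four 0 Unit (fun _ => 1) (fun _ _ => 0) (fun _ _ => rfl) h2 h3⟩
  | succ n ih =>
    obtain ⟨I, w, G, h1, h2, h3, h4⟩ := ih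
    let G' : Multiset ℤ × I → ℤ → ℕ := fun a => if bs p a.1 then GG p m a.1 (G a.2) else fun _ => 0
    let w' : Multiset ℤ × I → ℝ≥0∞ := fun a => z * R.co a.1 * w a.2
    have h1' : ∀ i (x : ℤ), G' i (x + ((m ^ (n + 1) : ℕ) : ℤ)) = G' i x := by
      rintro ⟨c, i⟩ x
      by_cases hc : bs p c
      · simp only [G', if_pos hc]
        have := GG_per p m c (G i) ((m ^ n : ℕ) : ℤ) (h1 i) x
        rw [← this]
        congr 1
        push_cast
        ring
      · simp only [G', if_neg hc]
    have h2' : ∀ i, ic (fun j => p * j.natAbs) (G' i) = G' i := by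
      rintro ⟨c, i⟩
      by_cases hc : bs p c
      · simp only [G', if_pos hc]
        exact GG_lip p m c (G i)
      · simp only [G', if_neg hc]
        funext k
        have := icle (fun j => p * j.natAbs) (fun _ => 0) k 0
        simpa using this
    have h3' : ∀ s, bs p s → phi p m z R (n + 1) s =
        ∑' i, w' i * AA z (m ^ (n + 1)) (bfun p s) (G' i) := by
      intro s hs
      show opd p m z z R (phi p m z R n) s = _
      unfold opd pr
      rw [ENNReal.tsum_prod', ← ENNReal.tsum_mul_left]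
      apply tsum_congr
      intro c
      by_cases hc : bs p c
      · show z * (R.co c * Ld p m z (phi p m z R n) (s + c)) = _
        rw [h4 (s + c) (bs_add p hs hc), ← ENNReal.tsum_mul_left, ← ENNReal.tsum_mul_left]
        apply tsum_congr
        intro i
        have e : AA z (m ^ (n + 1)) (bfun p s) (G' (c, i)) =
            ∑ r ∈ Finset.range m, AA z (m ^ n) (fun j => bfun p (s + c) (r + m * j)) (G i) := by
          simp only [G', if_pos hc]
          unfold AA
          have := sum_digits m (m ^ n) hm (fun x => z ^ ic (bfun p s) (GG p m c (G i)) x)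
          rw [pow_succ, mul_comm (m ^ n) m, ← this]
          apply Finset.sum_congr rfl
          intro r _
          apply Finset.sum_congr rfl
          intro ρ _
          rw [GG_ic]
        rw [e]
        simp only [w']
        ring
      · have h0 : R.co c = 0 := by
          by_contra h
          exact hc (hR c h)
        simp only [w', h0]
        simp
    exact ⟨Multiset ℤ × I, w', G', h1', h2', h3', four (n + 1) _ w' G' h1' h2' h3'⟩

end Pool.Agent.Lib.MPba1bba.AS
end

section
/-!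
# MP_ba1bba_al, asymptotics: module KLI
-/
open scoped ENNReal

namespace Pool.Agent.Lib.MPba1bba.AS

open Pool.Agent.Lib.MPba1bba Vec

namespace KLIM

open FUTM SRTM STRM

theorem up (f : ℤ → ℤ) (d : ℤ → ℤ) (hf : ∀ k, f (k + 1) - f k = d k) (hd : Monotone d) (w : ℤ)
    (hw : 0 ≤ d w) (n : ℕ) : f w ≤ f (w + n) := by
  induction n with
  | zero => simp
  | succ n ih =>
    have h1 := hf (w + n)
    have h2 : d w ≤ d (w + n) := hd (by omega)
    have e : w + ((n + 1 : ℕ) : ℤ) = w + n + 1 := by push_cast; ring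
    rw [e]
    omega

theorem down (f : ℤ → ℤ) (d : ℤ → ℤ) (hf : ∀ k, f (k + 1) - f k = d k) (hd : Monotone d) (w : ℤ)
    (hw : d w ≤ 0) (n : ℕ) : f w ≤ f (w - n) := by
  induction n with
  | zero => simp
  | succ n ih =>
    have h1 := hf (w - n - 1)
    have h2 : d (w - n - 1) ≤ d w := hd (by omega)
    have e : w - ((n + 1 : ℕ) : ℤ) = w - n - 1 := by push_cast; ring
    have e2 : w - n - 1 + 1 = w - (n : ℤ) := by ring
    rw [e2] at h1
    rw [e]
    omega

/-- `b_s` is quasiconvex. -/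
theorem bqc (p : ℕ) (s : Multiset ℤ) (hs : bs p s) (x y w : ℤ) (h1 : x ≤ w) (h2 : w ≤ y) :
    bfun p s w ≤ max (bfun p s x) (bfun p s y) := by
  set L := s.sort (· ≤ ·) with hL
  have hsL : (L : Multiset ℤ) = s := Multiset.sort_eq s (· ≤ ·)
  have hLs : L.Pairwise (· ≤ ·) := by
    exact Multiset.pairwise_sort s (· ≤ ·)
  have hLb : ∀ x ∈ L, -(p : ℤ) < x ∧ x < p := by
    intro x hx
    apply hs
    rw [hL, Multiset.mem_sort] at hx
    exact hx
  have hb : ∀ k : ℤ, bfun p s k = G p L k := by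
    intro k
    rw [← hsL]
    exact specSRT specBFN p L hLs hLb k
  have hmono := dd_mono p L hLs hLb
  rcases le_total 0 (dd p L w) with h | h
  · have := up (fun k => (G p L k : ℤ)) (dd p L) (G_diff p L) hmono w h (y - w).toNat
    have e : w + ((y - w).toNat : ℤ) = y := by omega
    simp only [e] at this
    rw [hb w, hb y]
    apply le_max_of_le_right
    exact_mod_cast this
  · have := down (fun k => (G p L k : ℤ)) (dd p L) (G_diff p L) hmono w h (w - x).toNat
    have e : w - ((w - x).toNat : ℤ) = x := by omega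
    simp only [e] at this
    rw [hb w, hb x]
    apply le_max_of_le_left
    exact_mod_cast this

theorem bfin (p : ℕ) (hp : 1 ≤ p) (s : Multiset ℤ) (k : ℕ) : {x : ℤ | bfun p s x ≤ k}.Finite := by
  apply (Set.finite_Icc (-(k : ℤ)) (k + Multiset.card s)).subset
  intro x hx
  simp only [Set.mem_ofPred_eq] at hx
  obtain ⟨a, ha, h⟩ := blow p s x
  have h1 : (x - (a : ℤ)).natAbs ≤ k := by
    calc (x - (a : ℤ)).natAbs = 1 * (x - (a : ℤ)).natAbs := (one_mul _).symm
      _ ≤ p * (x - (a : ℤ)).natAbs := Nat.mul_le_mul_right _ hp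
      _ ≤ k := h.trans hx
  rw [Set.mem_Icc]
  omega

end KLIM

open FUTM KLIM in
theorem specKLI (hLAY : SpecLAY) (hFUT : SpecFUT) : SpecKLI := by
  intro p m z R hp hm hz hR n s hs
  obtain ⟨I, w, G, h1, h2, h3, h4⟩ := hFUT p m z R hp hm hR n
  have hM : 1 ≤ m ^ n := Nat.one_le_pow _ _ (by omega)
  have hs0 : bs p 0 := by
    intro x hx
    simp at hx
  have hzero : ∀ i, AA z (m ^ n) (bfun p 0) (G i) = ∑ ρ ∈ Finset.range (m ^ n), z ^ G i (ρ : ℤ) := by
    intro i
    unfold AA
    apply Finset.sum_congr rfl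
    intro ρ _
    have e : bfun p 0 = fun j : ℤ => p * j.natAbs := funext (specBFN p).2.2.1
    rw [e, h2 i]
  have hsh : ∀ i (y : ℤ), ∑ ρ ∈ Finset.range (m ^ n), z ^ G i ((ρ : ℤ) + y) =
      ∑ ρ ∈ Finset.range (m ^ n), z ^ G i (ρ : ℤ) := by
    intro i y
    exact shift (fun x => z ^ G i x) (m ^ n) (fun x => by rw [h1 i x]) hM y
  refine ⟨?_, ?_, ?_⟩
  · rw [h3 s hs, h4 s hs]
    apply ENNReal.tsum_le_tsum
    intro i
    apply mul_le_mul' le_rfl
    exact hLAY m (m ^ n) (bfun p s) (G i) z hz hm hM (bfin p hp s) (bqc p s hs) (h1 i)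
  · rw [h3 s hs, h3 0 hs0]
    apply ENNReal.tsum_le_tsum
    intro i
    apply mul_le_mul' le_rfl
    obtain ⟨j, hj⟩ := FUTM.bzero p s
    rw [hzero, ← hsh i (-j)]
    unfold AA
    apply Finset.sum_le_sum
    intro ρ _
    apply pow_le_pow_right_of_le_one' hz.le
    have := icle (bfun p s) (G i) ρ j
    rw [hj, zero_add] at this
    rw [← sub_eq_add_neg]
    exact this
  · rw [h3 s hs, h3 0 hs0, ← ENNReal.tsum_mul_left]
    apply ENNReal.tsum_le_tsum
    intro i
    have key : AA z (m ^ n) (bfun p s) (G i) ≤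
        (Multiset.card s + 1) * AA z (m ^ n) (bfun p 0) (G i) := by
      have e1 : AA z (m ^ n) (bfun p s) (G i) ≤ ∑ ρ ∈ Finset.range (m ^ n),
          ∑ a ∈ Finset.range (Multiset.card s + 1), z ^ G i ((ρ : ℤ) + (-(a : ℤ))) := by
        unfold AA
        apply Finset.sum_le_sum
        intro ρ _
        obtain ⟨j, hj⟩ := icex (bfun p s) (G i) ρ
        obtain ⟨a, ha, hb⟩ := blow p s j
        have hle : G i ((ρ : ℤ) + (-(a : ℤ))) ≤ ic (bfun p s) (G i) ρ := by
          have h5 := icle (fun j => p * j.natAbs) (G i) ((ρ : ℤ) + (-(a : ℤ))) (j - a)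
          rw [h2 i] at h5
          have e : (ρ : ℤ) + (-(a : ℤ)) - (j - a) = ρ - j := by ring
          rw [e] at h5
          rw [hj]
          exact h5.trans (Nat.add_le_add_right hb _)
        calc z ^ ic (bfun p s) (G i) ρ ≤ z ^ G i ((ρ : ℤ) + (-(a : ℤ))) :=
              pow_le_pow_right_of_le_one' hz.le hle
          _ ≤ _ := Finset.single_le_sum (f := fun a : ℕ => z ^ G i ((ρ : ℤ) + (-(a : ℤ))))
              (fun _ _ => bot_le) (Finset.mem_range.2 (by omega))
      refine e1.trans ?_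
      rw [Finset.sum_comm]
      have e3 : ∀ a ∈ Finset.range (Multiset.card s + 1),
          ∑ ρ ∈ Finset.range (m ^ n), z ^ G i ((ρ : ℤ) + (-(a : ℤ))) =
          ∑ ρ ∈ Finset.range (m ^ n), z ^ G i (ρ : ℤ) := fun a _ => hsh i (-(a : ℤ))
      rw [Finset.sum_congr rfl e3, hzero]
      simp
    calc w i * AA z (m ^ n) (bfun p s) (G i) ≤
        w i * ((Multiset.card s + 1) * AA z (m ^ n) (bfun p 0) (G i)) := mul_le_mul' le_rfl key
      _ = _ := by ring

end Pool.Agent.Lib.MPba1bba.AS
end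

section
/-!
# MP_ba1bba_al, AS: the module PZF (finiteness of `P_∅(z)`)
-/
open scoped ENNReal

namespace Pool.Agent.Lib.MPba1bba.AS

open Pool.Agent.Lib.MPba1bba

namespace PZFM

/-- Truncated sums. -/
noncomputable def Tn (z : ℝ≥0∞) (n : ℕ) (g : ℤ → ℕ) : ℝ≥0∞ :=
  ∑' k : ℤ, if g k ≤ n then z ^ g k else 0

theorem Tn_shift (z : ℝ≥0∞) (n : ℕ) (g : ℤ → ℕ) (y : ℤ) : Tn z n (fun k => g (k - y)) = Tn z n g :=
  (Equiv.subRight y).tsum_eq (fun k => if g k ≤ n then z ^ g k else 0)

theorem Tn_const {z : ℝ≥0∞} (n c : ℕ) (g : ℤ → ℕ) :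
    Tn z n (fun k => c + g k) ≤ z ^ c * Tn z n g := by
  unfold Tn
  rw [← ENNReal.tsum_mul_left]
  refine ENNReal.tsum_le_tsum fun k => ?_
  by_cases h : c + g k ≤ n
  · rw [if_pos h, if_pos (by omega), pow_add]
  · rw [if_neg h]
    exact bot_le

theorem Tn_min {z : ℝ≥0∞} (hz : z ≤ 1) (n : ℕ) (g g₁ g₂ : ℤ → ℕ)
    (h : ∀ k, g₁ k ≤ g k ∨ g₂ k ≤ g k) : Tn z n g ≤ Tn z n g₁ + Tn z n g₂ := by
  unfold Tn
  rw [← ENNReal.tsum_add]
  refine ENNReal.tsum_le_tsum fun k => ?_
  by_cases hk : g k ≤ n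
  · rw [if_pos hk]
    rcases h k with h | h
    · refine le_trans ?_ (le_add_of_nonneg_right bot_le)
      rw [if_pos (h.trans hk)]
      exact pow_le_pow_right_of_le_one' hz h
    · refine le_trans ?_ (le_add_of_nonneg_left bot_le)
      rw [if_pos (h.trans hk)]
      exact pow_le_pow_right_of_le_one' hz h
  · rw [if_neg hk]
    exact bot_le

/-- Splitting into residue classes. -/
theorem tsum_split (m : ℕ) (hm : 1 ≤ m) (f : ℤ → ℝ≥0∞) :
    ∑' k : ℤ, f k = ∑ r ∈ Finset.range m, ∑' k : ℤ, f (r + m * k) := by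
  have : NeZero m := ⟨by omega⟩
  rw [← (Int.divModEquiv m).symm.tsum_eq,
    ENNReal.tsum_prod (f := fun (a : ℤ) (b : Fin m) => f ((Int.divModEquiv m).symm (a, b))),
    ENNReal.tsum_comm, tsum_fintype, ← Fin.sum_univ_eq_sum_range (fun r => ∑' k : ℤ, f (r + m * k)) m]
  refine Finset.sum_congr rfl fun r _ => tsum_congr fun k => ?_
  congr 1
  show k * (m : ℤ) + (r : ℤ) = _
  ring

theorem geo_fin {z : ℝ≥0∞} (hz : z < 1) {p : ℕ} (hp : 1 ≤ p) :
    ∑' k : ℤ, z ^ (p * k.natAbs) ≠ ∞ := by
  have h1 : ∑' n : ℕ, z ^ n ≠ ∞ := by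
    rw [ENNReal.tsum_geometric]
    exact ENNReal.inv_ne_top.2 (tsub_pos_of_lt hz).ne'
  have h2 : HasSum (fun k : ℤ => z ^ k.natAbs) (∑' n : ℕ, z ^ n + ∑' n : ℕ, z ^ (n + 1)) := by
    apply HasSum.of_nat_of_neg_add_one
    · simpa using (ENNReal.summable (f := fun n : ℕ => z ^ n)).hasSum
    · have := (ENNReal.summable (f := fun n : ℕ => z ^ (n + 1))).hasSum
      refine this.congr_fun fun n => ?_
      congr 1
  have h3 : ∑' k : ℤ, z ^ (p * k.natAbs) ≤ ∑' n : ℕ, z ^ n + ∑' n : ℕ, z ^ (n + 1) := by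
    rw [← h2.tsum_eq]
    exact ENNReal.tsum_le_tsum fun k => pow_le_pow_right_of_le_one' hz.le
      (by nlinarith [Nat.zero_le k.natAbs])
  have h4 : ∑' n : ℕ, z ^ (n + 1) ≤ ∑' n : ℕ, z ^ n :=
    ENNReal.tsum_le_tsum fun n => pow_le_pow_right_of_le_one' hz.le (Nat.le_succ n)
  refine ne_top_of_le_ne_top (ENNReal.add_ne_top.2 ⟨h1, h1⟩) (h3.trans ?_)
  gcongr

end PZFM

open PZFM

theorem specPZF (hSMC : SpecSMC) : SpecPZF := by
  intro p m z hp hm hz hθ
  obtain ⟨hs1, hs2, hs3, hs4, hs5, ⟨hs6, hs6'⟩, hs7, hs8⟩ := hSMC p m hp hm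
  obtain ⟨i1, i2, i3, i4, i5, i6⟩ := specIC
  obtain ⟨e1, e2, e3, e4, e5, e6, e7, e8, e9⟩ := specEFN p m (by omega) (by omega)
  obtain ⟨b1, b2, b3, b4, b5, b6⟩ := specBFN p
  have hSTR := specSTR (specSRT specBFN) (specCVX specBFN (specSRT specBFN)) p m (by omega)
    (by omega)
  set e : ℤ → ℕ := efun p m with he
  -- `(p |.|) □ e = e`
  have hpe : ic (fun j => p * j.natAbs) e = e := by
    funext k
    apply le_antisymm
    · have := i2 (fun j => p * j.natAbs) e k 0
      simpa using this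
    · obtain ⟨j, hj⟩ := i1 (fun j => p * j.natAbs) e k
      rw [hj]
      have h1 := e2 j (k - j)
      have h2 := e4 j
      rw [add_sub_cancel] at h1
      omega
  have hb0 : bfun p 0 = fun j => p * j.natAbs := funext b3
  have hb0e : ic (bfun p 0) e = e := by rw [hb0, hpe]
  have hP : Pz p m z 0 = ∑' k : ℤ, z ^ e k := by
    unfold Pz
    rw [← he, hb0e]
  set C : ℝ≥0∞ := ∑' k : ℤ, z ^ (p * k.natAbs) with hC
  have hCfin : C ≠ ∞ := geo_fin hz (by omega)
  set a : ℝ≥0∞ := ∑ r ∈ Finset.Ico 1 m, z ^ cmin p m 0 r with ha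
  -- the classes
  set w : ℕ → ℤ → ℕ := fun r => ic (fun j => bfun p 0 (r + m * j)) e with hw
  have hstep : ∀ (r : ℕ) (k : ℤ), e (r + m * k) = p * ((r : ℤ) + m * k).natAbs ∨
      2 + w r k ≤ e (r + m * k) := by
    intro r k
    obtain ⟨d, hd, hd'⟩ := e8 (r + m * k)
    rcases d with _ | ⟨d0, rest⟩
    · left
      have : (0 : ℤ) = r + m * k := by simpa [dval] using hd
      rw [← this]
      simp [e1]
    · rcases rest with _ | ⟨d1, rest⟩
      · left
        have h1 : d0 = r + m * k := by simpa [dval] using hd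
        rw [hd', h1.symm]
        simp [dcost]
      · right
        set l : ℤ := dval m (d1 :: rest) with hl
        have h1 : d0 + m * l = r + m * k := by
          rw [← hd]
          simp [dval, hl]
        have h2 : dcost p (d0 :: d1 :: rest) = p * d0.natAbs + 2 + dcost p (d1 :: rest) := by
          simp only [dcost, List.map_cons, List.sum_cons, List.length_cons]
          have : rest.length + 1 + 1 - 1 = (rest.length + 1 - 1) + 1 := by omega
          rw [this]
          ring
        have h3 : e l ≤ dcost p (d1 :: rest) := e9 _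
        have h4 := i2 (fun j => bfun p 0 (r + m * j)) e k (k - l)
        have h5 : k - (k - l) = l := by ring
        rw [h5] at h4
        have h6 : bfun p 0 (r + m * (k - l)) = p * d0.natAbs := by
          rw [b3]
          congr 2
          linear_combination -h1
        rw [h6] at h4
        rw [hd', h2]
        have h7 : w r k ≤ p * d0.natAbs + e l := h4
        omega
  -- bound for one class
  have hz1 : z ≤ 1 := hz.le
  have hcls : ∀ (n r : ℕ), Tn z n (w r) ≤ z ^ cmin p m 0 r *
      Tn z n (ic (bfun p (sml p m 0 r)) e) := by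
    intro n r
    obtain ⟨y, hy⟩ := hSTR 0 (by simp) r
    have h1 : w r = fun k => cmin p m 0 r + ic (bfun p (sml p m 0 r)) e (k - y) := by
      rw [hw]
      simp only
      conv_lhs => rw [← hpe]
      rw [← i4]
      have : ic (fun j => bfun p 0 (r + m * j)) (fun j => p * j.natAbs)
        = fun k => cmin p m 0 r + bfun p (sml p m 0 r) (k - y) := funext hy
      rw [this, i5 (cmin p m 0 r) (fun k => bfun p (sml p m 0 r) (k - y)) e,
        i6 y (bfun p (sml p m 0 r)) e]
    rw [h1]
    refine (Tn_const n _ _).trans ?_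
    rw [Tn_shift z n (ic (bfun p (sml p m 0 r)) e) y]
  have hcls0 : ∀ n, Tn z n (w 0) ≤ Tn z n e := by
    intro n
    have := hcls n 0
    rw [hs6, hs6', pow_zero, one_mul, hb0e] at this
    exact this
  have hcls1 : ∀ n, ∀ r ∈ Finset.Ico 1 m, Tn z n (w r) ≤ z ^ cmin p m 0 r * (2 * Tn z n e) := by
    intro n r hr
    refine (hcls n r).trans ?_
    gcongr
    have hc := hs7 r (Finset.mem_Ico.1 hr).2
    have hcase : sml p m 0 r = 0 ∨ ∃ x, sml p m 0 r = {x} := by
      rcases Nat.lt_or_ge (Multiset.card (sml p m 0 r)) 1 with h | h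
      · left
        exact Multiset.card_eq_zero.1 (by omega)
      · right
        exact Multiset.card_eq_one.1 (by omega)
    rw [two_mul]
    rcases hcase with h | ⟨x, h⟩
    · rw [h, hb0e]
      exact le_add_of_nonneg_right bot_le
    · rw [h]
      have h2 : Tn z n (fun k => e (k - 1)) = Tn z n e := Tn_shift z n e 1
      conv_rhs => rw [← h2]
      rw [h2]
      conv_rhs => arg 2; rw [← h2]
      refine Tn_min hz1 n _ _ _ fun k => ?_
      obtain ⟨j, hj⟩ := i1 (bfun p {x}) e k
      rw [hj, b6]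
      rcases le_total ((-x).toNat + p * j.natAbs) (x.toNat + p * (j - 1).natAbs) with h3 | h3
      · left
        rw [min_eq_left h3]
        have h4 := e2 j (k - j)
        have h5 := e4 j
        rw [add_sub_cancel] at h4
        omega
      · right
        rw [min_eq_right h3]
        have h4 := e2 (j - 1) (k - j)
        have h5 := e4 (j - 1)
        have h6 : j - 1 + (k - j) = k - 1 := by ring
        rw [h6] at h4
        omega
  -- the recursive inequality
  have hrec : ∀ n, Tn z n e ≤ C + z ^ 2 * (1 + 2 * a) * Tn z n e := by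
    intro n
    have h1 : Tn z n e ≤ C + ∑ r ∈ Finset.range m, z ^ 2 * Tn z n (w r) := by
      unfold Tn
      rw [tsum_split m (by omega), hC, tsum_split m (by omega) (fun k : ℤ => z ^ (p * k.natAbs)),
        ← Finset.sum_add_distrib]
      refine Finset.sum_le_sum fun r _ => ?_
      rw [← ENNReal.tsum_mul_left, ← ENNReal.tsum_add]
      refine ENNReal.tsum_le_tsum fun k => ?_
      by_cases hk : e (r + m * k) ≤ n
      · rw [if_pos hk]
        rcases hstep r k with h | h
        · rw [h]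
          exact le_add_of_nonneg_right bot_le
        · refine le_trans ?_ (le_add_of_nonneg_left bot_le)
          rw [if_pos (by omega), ← pow_add]
          exact pow_le_pow_right_of_le_one' hz1 h
      · rw [if_neg hk]
        exact bot_le
    refine h1.trans ?_
    have h2 : ∑ r ∈ Finset.range m, z ^ 2 * Tn z n (w r) ≤ z ^ 2 * (1 + 2 * a) * Tn z n e := by
      rw [Finset.range_eq_Ico, Finset.sum_eq_sum_Ico_succ_bot (by omega)]
      have h3 : ∑ r ∈ Finset.Ico (0 + 1) m, z ^ 2 * Tn z n (w r) ≤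
          ∑ r ∈ Finset.Ico 1 m, z ^ 2 * (z ^ cmin p m 0 r * (2 * Tn z n e)) :=
        Finset.sum_le_sum fun r hr => by
          gcongr
          exact hcls1 n r hr
      have h4 : ∑ r ∈ Finset.Ico 1 m, z ^ 2 * (z ^ cmin p m 0 r * (2 * Tn z n e))
          = z ^ 2 * (2 * a) * Tn z n e := by
        rw [ha, Finset.mul_sum, Finset.mul_sum, Finset.sum_mul]
        refine Finset.sum_congr rfl fun r _ => ?_
        ring
      calc z ^ 2 * Tn z n (w 0) + ∑ r ∈ Finset.Ico (0 + 1) m, z ^ 2 * Tn z n (w r)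
          ≤ z ^ 2 * Tn z n e + z ^ 2 * (2 * a) * Tn z n e := by
            rw [← h4]
            gcongr
            exact hcls0 n
        _ = z ^ 2 * (1 + 2 * a) * Tn z n e := by ring
    gcongr
  have hfin : ∀ n, Tn z n e ≠ ∞ := by
    intro n
    have hfs : {k : ℤ | e k ≤ n}.Finite := by
      have := specEFF p m (by omega) (by omega) 0 n
      rw [hb0e] at this
      exact this
    unfold Tn
    rw [tsum_eq_sum (s := hfs.toFinset)]
    · refine (ENNReal.sum_lt_top.2 fun k _ => ?_).ne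
      split_ifs
      · exact lt_of_le_of_lt (pow_le_one' hz1 _) ENNReal.one_lt_top
      · exact ENNReal.zero_lt_top
    · intro k hk
      rw [if_neg]
      intro h
      exact hk (by simpa using h)
  set θ : ℝ≥0∞ := z ^ 2 * (1 + 2 * a) with hθd
  have hbd : ∀ n, Tn z n e ≤ C / (1 - θ) := by
    intro n
    rw [ENNReal.le_div_iff_mul_le (Or.inl (tsub_pos_of_lt hθ).ne')
      (Or.inl (ne_top_of_le_ne_top ENNReal.one_ne_top tsub_le_self))]
    rw [ENNReal.mul_sub (fun _ _ => hfin n), mul_one, tsub_le_iff_right, mul_comm _ θ]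
    exact hrec n
  rw [hP]
  refine ne_top_of_le_ne_top (ENNReal.div_ne_top hCfin (tsub_pos_of_lt hθ).ne') (?_ : _ ≤ C / (1 - θ))
  rw [ENNReal.tsum_eq_iSup_sum]
  refine iSup_le fun s => ?_
  refine le_trans ?_ (hbd (s.sup e))
  refine le_trans (le_of_eq ?_) (ENNReal.sum_le_tsum s)
  refine Finset.sum_congr rfl fun k hk => ?_
  rw [if_pos (Finset.le_sup hk)]

end Pool.Agent.Lib.MPba1bba.AS
end

section
/-!
# MP_ba1bba_al, asymptotics: module SMC, facts on samples
-/
set_option autoImplicit false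

open scoped ENNReal
open Classical

namespace Pool.Agent.Lib.MPba1bba.AS

open Pool.Agent.Lib.MPba1bba Vec

namespace SMCM

open SRTM STRM

theorem bs_sml (p m : ℕ) (s : Multiset ℤ) (r : ℕ) : bs p (sml p m s r) := by
  intro y hy
  rw [sml, Multiset.mem_sum] at hy
  obtain ⟨x, hx, hy⟩ := hy
  have h1 := Multiset.mem_of_mem_nsmul hy
  rw [Multiset.mem_singleton] at h1
  rw [Finset.mem_Ioo] at hx
  rw [h1]
  exact hx

theorem exists_zero (p : ℕ) (s : Multiset ℤ) : ∃ j : ℤ, bfun p s j = 0 := by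
  have h := (specBFN p).2.1 s (((s.filter fun x => x ≤ 0).card : ℕ) : ℤ)
    (s.filter fun x => x ≤ 0) (s.filter fun x => ¬ x ≤ 0) (Multiset.filter_add_not _ _)
  refine ⟨_, Nat.eq_zero_of_le_zero (h.trans ?_)⟩
  have h1 : sumPos (s.filter fun x => x ≤ 0) = 0 := by
    unfold sumPos
    apply Multiset.sum_eq_zero
    intro y hy
    rw [Multiset.mem_map] at hy
    obtain ⟨x, hx, rfl⟩ := hy
    have := (Multiset.mem_filter.1 hx).2
    omega
  have h2 : sumNeg (s.filter fun x => ¬ x ≤ 0) = 0 := by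
    unfold sumNeg
    apply Multiset.sum_eq_zero
    intro y hy
    rw [Multiset.mem_map] at hy
    obtain ⟨x, hx, rfl⟩ := hy
    have := (Multiset.mem_filter.1 hx).2
    omega
  rw [h1, h2]
  simp

/-- the increments of the section -/
noncomputable def D (p m : ℕ) (s : Multiset ℤ) (r : ℕ) (j : ℤ) : ℤ :=
  (bfun p s (r + m * (j + 1)) : ℤ) - bfun p s (r + m * j)

theorem card_sml (p m : ℕ) (s : Multiset ℤ) (r : ℕ) (U : Finset ℤ)
    (hU : ∀ j, -(p : ℤ) < D p m s r j → D p m s r j < p → j ∈ U) :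
    Multiset.card (sml p m s r) =
      (U.filter fun j => D p m s r j ∈ Finset.Ioo (-(p : ℤ)) (p : ℤ)).card := by
  rw [sml, Multiset.card_sum]
  rw [Finset.card_eq_sum_card_fiberwise (f := D p m s r) (t := Finset.Ioo (-(p : ℤ)) (p : ℤ))]
  · apply Finset.sum_congr rfl
    intro x hx
    rw [Multiset.card_nsmul, Multiset.card_singleton, mul_one]
    rw [← Set.ncard_coe_finset]
    congr 1
    ext j
    simp only [Set.mem_ofPred_eq, Finset.coe_filter, Finset.mem_filter]
    constructor
    · intro h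
      have h' : D p m s r j = x := h
      rw [Finset.mem_Ioo] at hx
      refine ⟨⟨hU j (by omega) (by omega), ?_⟩, h'⟩
      rw [h', Finset.mem_Ioo]
      exact hx
    · intro h
      exact h.2
  · intro j hj
    exact (Finset.mem_filter.1 hj).2

/-- Where the increments of a section can be small. -/
theorem small (p m : ℕ) (hm : 1 ≤ m) (s : Multiset ℤ) (hs : bs p s) (r : ℕ) (j : ℤ)
    (h1 : -(p : ℤ) < D p m s r j) (h2 : D p m s r j < p) :
    -(m : ℤ) < r + m * j ∧ (r : ℤ) + m * j < Multiset.card s := by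
  set L := s.sort (· ≤ ·) with hL
  have hsL : (L : Multiset ℤ) = s := Multiset.sort_eq s (· ≤ ·)
  have hLs : L.Pairwise (· ≤ ·) := Multiset.pairwise_sort s (· ≤ ·)
  have hLb : ∀ x ∈ L, -(p : ℤ) < x ∧ x < p := by
    intro x hx
    apply hs
    rw [hL, Multiset.mem_sort] at hx
    exact hx
  have hLc : L.length = Multiset.card s := by rw [← hsL]; rfl
  have hb : ∀ k : ℤ, bfun p s k = G p L k := by
    intro k
    rw [← hsL]
    exact specSRT specBFN p L hLs hLb k
  have hD : D p m s r j = ∑ i ∈ Finset.range m, dd p L (r + m * j + i) := by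
    unfold D
    rw [hb, hb]
    exact sec_diff p m L r j
  have hm' : (1 : ℤ) ≤ m := by exact_mod_cast hm
  have hp' : (0 : ℤ) ≤ p := by positivity
  constructor
  · by_contra hc
    have h3 : ∀ i ∈ Finset.range m, dd p L (r + m * j + i) = -(p : ℤ) := by
      intro i hi
      rw [Finset.mem_range] at hi
      unfold dd
      rw [if_pos]
      omega
    rw [Finset.sum_congr rfl h3] at hD
    simp at hD
    nlinarith
  · by_contra hc
    have h3 : ∀ i ∈ Finset.range m, dd p L (r + m * j + i) = (p : ℤ) := by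
      intro i hi
      unfold dd
      rw [if_neg (by omega), dif_neg (by omega)]
    rw [Finset.sum_congr rfl h3] at hD
    simp at hD
    nlinarith

theorem four (p m : ℕ) (hm : 2 ≤ m) (s : Multiset ℤ) (hs : bs p s) :
    ∑ r ∈ Finset.range m, Multiset.card (sml p m s r) ≤ Multiset.card s + m := by
  have hm0 : (0 : ℤ) < m := by omega
  have h1 : ∀ r ∈ Finset.range m, Multiset.card (sml p m s r) ≤
      ((Finset.Ioo (-(m : ℤ)) (Multiset.card s : ℤ)).filter
        fun k => (k % (m : ℤ)).toNat = r).card := by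
    intro r hr
    rw [Finset.mem_range] at hr
    rw [card_sml p m s r (((Finset.Ioo (-(m : ℤ)) (Multiset.card s : ℤ)).filter
        fun k => (k % (m : ℤ)).toNat = r).image fun k => k / m)]
    · exact (Finset.card_filter_le _ _).trans Finset.card_image_le
    · intro j h1 h2
      have h3 := small p m (by omega) s hs r j h1 h2
      rw [Finset.mem_image]
      refine ⟨r + m * j, ?_, ?_⟩
      · rw [Finset.mem_filter, Finset.mem_Ioo]
        refine ⟨h3, ?_⟩
        rw [Int.add_mul_emod_self_left, Int.emod_eq_of_lt (by omega) (by omega)]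
        simp
      · rw [Int.add_mul_ediv_left _ _ hm0.ne', Int.ediv_eq_zero_of_lt (by omega) (by omega)]
        simp
  refine (Finset.sum_le_sum h1).trans ?_
  rw [← Finset.card_eq_sum_card_fiberwise]
  · rw [Int.card_Ioo]
    omega
  · intro k hk
    simp only [Finset.coe_range, Set.mem_Iio]
    have := Int.emod_lt_of_pos k hm0
    have := Int.emod_nonneg k hm0.ne'
    omega

theorem five (p m : ℕ) (hp : 2 ≤ p) (hm : 2 ≤ m) (s : Multiset ℤ) (hs : bs p s) (h0 : s ≠ 0) :
    ∃ r < m, Multiset.card (sml p m s r) < Multiset.card s := by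
  have hm' : (2 : ℤ) ≤ m := by exact_mod_cast hm
  have hn : 1 ≤ Multiset.card s := Multiset.card_pos.2 h0
  rcases Nat.lt_or_ge 1 (Multiset.card s) with h2 | h2
  · refine ⟨0, by omega, ?_⟩
    rw [card_sml p m s 0 (Finset.Ico 0 ((Multiset.card s : ℤ) - 1))]
    · refine (Finset.card_filter_le _ _).trans_lt ?_
      rw [Int.card_Ico]
      omega
    · intro j h3 h4
      obtain ⟨h5, h6⟩ := small p m (by omega) s hs 0 j h3 h4
      simp only [Nat.cast_zero, zero_add] at h5 h6
      have h7 : 0 ≤ j := by nlinarith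
      have h8 : 2 * j < Multiset.card s := by nlinarith
      rw [Finset.mem_Ico]
      omega
  · have hc : Multiset.card s = 1 := by omega
    obtain ⟨x, rfl⟩ := Multiset.card_eq_one.1 hc
    have hx := hs x (Multiset.mem_singleton_self x)
    have hb := (specBFN p).2.2.2.2.2 x
    rw [hc]
    rcases Nat.lt_or_ge 2 m with h3 | h3
    · refine ⟨0, by omega, ?_⟩
      rw [card_sml p m {x} 0 ∅]
      · simp
      · intro j h5 h6
        exfalso
        obtain ⟨h7, h8⟩ := small p m (by omega) {x} hs 0 j h5 h6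
        rw [hc] at h8
        simp only [Nat.cast_zero, zero_add, Nat.cast_one] at h7 h8
        have h9 : 0 ≤ j := by nlinarith
        have h10 : j < 1 := by nlinarith
        have h11 : j = 0 := by omega
        subst h11
        obtain ⟨m', rfl⟩ : ∃ m' : ℕ, m = m' + 1 := ⟨m - 1, by omega⟩
        have e1 : D p (m' + 1) {x} 0 0 =
            (bfun p {x} ((m' + 1 : ℕ) : ℤ) : ℤ) - bfun p {x} 0 := by
          unfold D
          simp
        rw [e1, hb, hb] at h6
        have e2 : ((((m' + 1 : ℕ) : ℤ)) - 1).natAbs = m' := by omega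
        have e3 : ((((m' + 1 : ℕ) : ℤ))).natAbs = m' + 1 := by omega
        rw [e2, e3] at h6
        have e4 : p * (m' + 1) = p * m' + p := by ring
        have e5 : p * 2 ≤ p * m' := Nat.mul_le_mul_left p (by omega)
        rw [e4] at h6
        simp only [Int.natAbs_zero, mul_zero, add_zero, zero_sub, Int.natAbs_neg,
          Int.natAbs_one, mul_one] at h6
        omega
    · have hm2 : m = 2 := by omega
      subst hm2
      rcases le_or_gt 0 x with hx0 | hx0
      · refine ⟨0, by omega, ?_⟩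
        rw [card_sml p 2 {x} 0 ∅]
        · simp
        · intro j h5 h6
          exfalso
          obtain ⟨h7, h8⟩ := small p 2 (by omega) {x} hs 0 j h5 h6
          rw [hc] at h8
          have h11 : j = 0 := by push_cast at h7 h8; omega
          subst h11
          have e1 : D p 2 {x} 0 0 = (bfun p {x} 2 : ℤ) - bfun p {x} 0 := by
            unfold D
            simp
          rw [e1, hb, hb] at h6
          have e2 : ((2 : ℤ) - 1).natAbs = 1 := rfl
          have e3 : (2 : ℤ).natAbs = 2 := rfl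
          have e4 : ((0 : ℤ) - 1).natAbs = 1 := rfl
          rw [e2, e3, e4] at h6
          simp only [Int.natAbs_zero, mul_zero, add_zero, mul_one] at h6
          omega
      · refine ⟨1, by omega, ?_⟩
        rw [card_sml p 2 {x} 1 ∅]
        · simp
        · intro j h5 h6
          exfalso
          obtain ⟨h7, h8⟩ := small p 2 (by omega) {x} hs 1 j h5 h6
          rw [hc] at h8
          have h11 : j = -1 := by push_cast at h7 h8; omega
          subst h11
          have e1 : D p 2 {x} 1 (-1) = (bfun p {x} 1 : ℤ) - bfun p {x} (-1) := by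
            unfold D
            norm_num
          rw [e1, hb, hb] at h5
          have e2 : ((1 : ℤ) - 1).natAbs = 0 := rfl
          have e3 : (1 : ℤ).natAbs = 1 := rfl
          have e4 : ((-1 : ℤ) - 1).natAbs = 2 := rfl
          have e5 : (-1 : ℤ).natAbs = 1 := rfl
          rw [e2, e3, e4, e5] at h5
          simp only [mul_zero, add_zero, mul_one] at h5
          omega

end SMCM

open SMCM in
theorem specSMC : SpecSMC := by
  intro p m hp hm
  have hm0 : (0 : ℤ) < m := by omega
  refine ⟨bs_sml p m, ?_, ?_, four p m hm, five p m hp hm, specSML p m (by omega) (by omega), ?_, ?_⟩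
  · intro s r _ hr
    obtain ⟨j0, hj0⟩ := exists_zero p s
    have h1 : cmin p m s r ≤ bfun p s (r + m * ((j0 - r) / m)) :=
      ciInf_le (OrderBot.bddBelow _) _
    refine h1.trans ?_
    have h2 := (specBFN p).2.2.2.2.1 s (r + m * ((j0 - r) / m)) j0
    rw [hj0, zero_add] at h2
    refine h2.trans (Nat.mul_le_mul_left p ?_)
    have h3 := Int.emod_lt_of_pos (j0 - r) hm0
    have h4 := Int.emod_nonneg (j0 - r) hm0.ne'
    have h5 := Int.emod_add_mul_ediv (j0 - r) m
    omega
  · intro s _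
    obtain ⟨j0, hj0⟩ := exists_zero p s
    have h3 := Int.emod_lt_of_pos j0 hm0
    have h4 := Int.emod_nonneg j0 hm0.ne'
    have h5 := Int.emod_add_mul_ediv j0 m
    refine ⟨(j0 % m).toNat, by omega, ?_⟩
    have h1 : cmin p m s (j0 % m).toNat ≤ bfun p s (((j0 % m).toNat : ℕ) + m * (j0 / m)) :=
      ciInf_le (OrderBot.bddBelow _) _
    have e : (((j0 % m).toNat : ℕ) : ℤ) + m * (j0 / m) = j0 := by
      rw [Int.toNat_of_nonneg h4]
      exact h5
    rw [e, hj0] at h1
    omega
  · intro r hr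
    have hs : bs p (0 : Multiset ℤ) := by
      intro x hx
      simp at hx
    rw [card_sml p m 0 r {-1}]
    · exact (Finset.card_filter_le _ _).trans (by simp)
    · intro j h1 h2
      obtain ⟨h3, h4⟩ := small p m (by omega) 0 hs r j h1 h2
      rw [Multiset.card_zero] at h4
      rw [Finset.mem_singleton]
      have hr' : (r : ℤ) < m := by exact_mod_cast hr
      have h5 : -2 < j := by
        by_contra hc
        have : j ≤ -2 := by omega
        nlinarith
      have h6 : j < 0 := by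
        by_contra hc
        have : 0 ≤ j := by omega
        have := mul_nonneg hm0.le this
        push_cast at h4
        omega
      omega
  · intro s _
    obtain ⟨j0, hj0⟩ := exists_zero p s
    refine ⟨j0, Nat.eq_zero_of_le_zero ?_⟩
    have h1 := specIC.2.1 (bfun p s) (efun p m) j0 j0
    rw [sub_self, (specEFN p m (by omega) (by omega)).1, hj0] at h1
    exact h1

end Pool.Agent.Lib.MPba1bba.AS
end
end
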