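import Pool.Agent.Lib.MP_ba1bba_al.SAM
import Pool.Agent.Lib.MP_ba1bba_al.AS.SMC
import Pool.Agent.Lib.MP_ba1bba_al.BIJx
import Pool.Agent.Lib.MP_ba1bba_al.AS.Spec

section
/-!
# MP_ba1bba_al: module THF (the profile of `th`)
-/
namespace Pool.Agent.Lib.MPba1bba

open PFFM in
theorem specTHF (hEFN : SpecEFN) (hPFF : SpecPFF) : SpecTHF := by
  intro p m hp hm c rest tl
  obtain ⟨e0, esub, eneg, ele, emul, -, -, -, -⟩ := hEFN p m hp hm
  obtain ⟨h1, h2, h3, h4, h5⟩ := hPFF p m hp hm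
  induction tl generalizing c rest with
  | nil =>
    intro k
    show sp p m c rest k = ic (sp p m c rest) (efun p m) k
    rw [h1]
  | cons a tl ih =>
    intro k
    obtain ⟨w, r⟩ := a
    show spX p m (th m w (c :: rest) tl (r + m * k)) = ic (sp p m c rest)
      (fun k => 1 + smp p m r (ic (pf p m w) (gt p m tl)) k) k
    rw [ih w (c :: rest) (r + m * k)]
    have hst : Stab p m (sp p m c rest) := stab_of_ic (h1 c rest)
    apply le_antisymm
    · obtain ⟨j, hj⟩ := ic_att (sp p m c rest)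
        (fun k => 1 + smp p m r (ic (pf p m w) (gt p m tl)) k) k
      obtain ⟨i, hi⟩ := ic_att (fun j : ℤ => ic (pf p m w) (gt p m tl) (r + m * j))
        (efun p m) (k - j)
      have hi' : smp p m r (ic (pf p m w) (gt p m tl)) (k - j) =
        ic (pf p m w) (gt p m tl) (r + m * i) + efun p m (k - j - i) := hi
      obtain ⟨l, hl⟩ := ic_att (pf p m w) (gt p m tl) (r + m * i)
      have h6 := hst (k - i) j
      rw [show k - i - j = k - j - i by ring] at h6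
      have h7 := ic_le (sp p m w (c :: rest)) (gt p m tl) (r + m * k) (m * (k - i) + l)
      have h8 : sp p m w (c :: rest) (m * (k - i) + l) ≤ 1 + (sp p m c rest (k - i) +
          pf p m w l) := by
        have h9 := inf_le (fun j : ℤ => sp p m c rest j + pf p m w (m * (k - i) + l - m * j))
          (k - i)
        have h10 : sp p m w (c :: rest) (m * (k - i) + l) =
          1 + ⨅ j : ℤ, (sp p m c rest j + pf p m w (m * (k - i) + l - m * j)) := rfl
        rw [h10]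
        rw [show m * (k - i) + l - m * (k - i) = l by ring] at h9
        omega
      rw [show r + m * k - (m * (k - i) + l) = r + m * i - l by ring] at h7
      rw [hj, hi']
      omega
    · obtain ⟨i, hi⟩ := ic_att (sp p m w (c :: rest)) (gt p m tl) (r + m * k)
      have h10 : sp p m w (c :: rest) i =
          1 + ⨅ j : ℤ, (sp p m c rest j + pf p m w (i - m * j)) := rfl
      obtain ⟨j, hj⟩ := inf_att fun j : ℤ => sp p m c rest j + pf p m w (i - m * j)
      have h6 := ic_le (sp p m c rest)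
        (fun k => 1 + smp p m r (ic (pf p m w) (gt p m tl)) k) k j
      have h7 : smp p m r (ic (pf p m w) (gt p m tl)) (k - j) ≤
          ic (pf p m w) (gt p m tl) (r + m * (k - j)) + efun p m (k - j - (k - j)) :=
        ic_le (fun j : ℤ => ic (pf p m w) (gt p m tl) (r + m * j)) (efun p m) (k - j) (k - j)
      rw [sub_self, e0] at h7
      have h8 := ic_le (pf p m w) (gt p m tl) (r + m * (k - j)) (i - m * j)
      rw [show r + m * (k - j) - (i - m * j) = r + m * k - i by ring] at h8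
      rw [hi, h10]
      omega

end Pool.Agent.Lib.MPba1bba
end

section
namespace Pool.Agent.Lib.MPba1bba

/-- The growth series of `B(p, p m)`. -/
theorem main : MainStatement := by
  have hIC := specIC
  have hEFN := specEFN
  have hBFN := specBFN
  have hSRT := specSRT hBFN
  have hCVX := specCVX hBFN hSRT
  have hSTR := specSTR hSRT hCVX
  have hRAD := specRAD hIC hEFN hBFN
  have hSAM := specSAM hIC hEFN hBFN hSTR
  have hSTT := specSTT hRAD hSAM
  have hWRD := specWRD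
  have hACT := specACT
  have hEQV := specEQV hWRD
  have hBIJ := specBIJx hWRD hACT hEQV
  have hPFF := specPFF hIC hEFN
  have hLIP := specLIP hEFN hPFF
  have hREA := specREA hWRD hIC hEFN hPFF
  have hLEN := specLEN hWRD hACT hEQV hBIJ hLIP hREA hEFN
  have hTHF := specTHF hEFN hPFF
  have hCNT := specCNT hBIJ hLEN specTHB hTHF hSTT hRAD
  have hUNQ := specUNQ specLIN
  exact specFIN hCNT (specGFS specEFF) (specEQR specGFB specGFP specFFT)
    (specEQE specGFB specGFL specFFT specSML) (specEQU specGFB specGFP specFFT)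
    (specEQH specGFB specGFL specFFT) (specEQK specGFB specGFP specGFL specFFT)
    (specEQF specGFB specGFP specFFT) hUNQ (specALG hUNQ)

end Pool.Agent.Lib.MPba1bba
end

section
/-!
# ASM: assembly of the main theorem on the asymptotics
-/
open scoped ENNReal

namespace Pool.Agent.Lib.MPba1bba.AS

open Pool.Agent.Lib.MPba1bba Vec

namespace ASMM

/-! ### Absolutely summable integer power series -/

/-- absolute summability at `x` -/
def Ab (x : ℝ) (f : PowerSeries ℤ) : Prop :=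
  Summable fun n => |((PowerSeries.coeff n f : ℤ) : ℝ)| * x ^ n

/-- value at `x` -/
noncomputable def vr (x : ℝ) (f : PowerSeries ℤ) : ℝ :=
  ∑' n, ((PowerSeries.coeff n f : ℤ) : ℝ) * x ^ n

theorem Ab.norm {x : ℝ} (hx : 0 ≤ x) {f : PowerSeries ℤ} (h : Ab x f) :
    Summable fun n => ‖((PowerSeries.coeff n f : ℤ) : ℝ) * x ^ n‖ := by
  refine h.congr fun n => ?_
  rw [norm_mul, Real.norm_eq_abs, Real.norm_eq_abs, abs_of_nonneg (pow_nonneg hx n)]

theorem Ab.summable {x : ℝ} (hx : 0 ≤ x) {f : PowerSeries ℤ} (h : Ab x f) :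
    Summable fun n => ((PowerSeries.coeff n f : ℤ) : ℝ) * x ^ n := (h.norm hx).of_norm

theorem ab_of_norm {x : ℝ} (hx : 0 ≤ x) {f : PowerSeries ℤ}
    (h : Summable fun n => ‖((PowerSeries.coeff n f : ℤ) : ℝ) * x ^ n‖) : Ab x f := by
  refine h.congr fun n => ?_
  rw [norm_mul, Real.norm_eq_abs, Real.norm_eq_abs, abs_of_nonneg (pow_nonneg hx n)]

theorem Ab.mono {x y : ℝ} (hx : 0 ≤ x) (hxy : x ≤ y) {f : PowerSeries ℤ} (h : Ab y f) :
    Ab x f := by
  refine Summable.of_nonneg_of_le (fun n => by positivity) (fun n => ?_) h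
  exact mul_le_mul_of_nonneg_left (pow_le_pow_left₀ hx hxy n) (abs_nonneg _)

theorem Ab.add {x : ℝ} (hx : 0 ≤ x) {f g : PowerSeries ℤ} (hf : Ab x f) (hg : Ab x g) :
    Ab x (f + g) := by
  refine Summable.of_nonneg_of_le (fun n => by positivity) (fun n => ?_) (Summable.add hf hg)
  rw [map_add, Int.cast_add, ← add_mul]
  exact mul_le_mul_of_nonneg_right (abs_add_le _ _) (pow_nonneg hx n)

theorem Ab.neg {x : ℝ} {f : PowerSeries ℤ} (hf : Ab x f) : Ab x (-f) := by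
  unfold Ab at hf ⊢
  simpa using hf

theorem Ab.sub {x : ℝ} (hx : 0 ≤ x) {f g : PowerSeries ℤ} (hf : Ab x f) (hg : Ab x g) :
    Ab x (f - g) := by
  rw [sub_eq_add_neg]
  exact hf.add hx hg.neg

theorem coeff_mul_pow (x : ℝ) (f g : PowerSeries ℤ) (n : ℕ) :
    ((PowerSeries.coeff n (f * g) : ℤ) : ℝ) * x ^ n =
      ∑ kl ∈ Finset.HasAntidiagonal.antidiagonal n,
        (((PowerSeries.coeff kl.1 f : ℤ) : ℝ) * x ^ kl.1) *
          (((PowerSeries.coeff kl.2 g : ℤ) : ℝ) * x ^ kl.2) := by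
  rw [PowerSeries.coeff_mul, Int.cast_sum, Finset.sum_mul]
  refine Finset.sum_congr rfl fun kl hkl => ?_
  rw [← Finset.HasAntidiagonal.mem_antidiagonal.1 hkl, pow_add, Int.cast_mul]
  ring

theorem Ab.mul {x : ℝ} (hx : 0 ≤ x) {f g : PowerSeries ℤ} (hf : Ab x f) (hg : Ab x g) :
    Ab x (f * g) := by
  refine ab_of_norm hx ?_
  have h := summable_norm_sum_mul_antidiagonal_of_summable_norm (hf.norm hx) (hg.norm hx)
  refine h.congr fun n => ?_
  rw [coeff_mul_pow]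

theorem vr_mul {x : ℝ} (hx : 0 ≤ x) {f g : PowerSeries ℤ} (hf : Ab x f) (hg : Ab x g) :
    vr x (f * g) = vr x f * vr x g := by
  unfold vr
  rw [tsum_mul_tsum_eq_tsum_sum_antidiagonal_of_summable_norm (hf.norm hx) (hg.norm hx)]
  exact tsum_congr fun n => coeff_mul_pow x f g n

theorem vr_add {x : ℝ} (hx : 0 ≤ x) {f g : PowerSeries ℤ} (hf : Ab x f) (hg : Ab x g) :
    vr x (f + g) = vr x f + vr x g := by
  unfold vr
  rw [← (hf.summable hx).tsum_add (hg.summable hx)]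
  refine tsum_congr fun n => ?_
  rw [map_add, Int.cast_add, add_mul]

theorem vr_sub {x : ℝ} (hx : 0 ≤ x) {f g : PowerSeries ℤ} (hf : Ab x f) (hg : Ab x g) :
    vr x (f - g) = vr x f - vr x g := by
  have h := vr_add hx (hf.sub hx hg) hg
  rw [sub_add_cancel] at h
  linarith

theorem ab_one (x : ℝ) : Ab x 1 := by
  refine summable_of_ne_finset_zero (s := {0}) fun n hn => ?_
  rw [Finset.mem_singleton] at hn
  rw [PowerSeries.coeff_one, if_neg hn]
  simp

theorem vr_one (x : ℝ) : vr x 1 = 1 := by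
  unfold vr
  rw [tsum_eq_single 0]
  · simp
  · intro n hn
    rw [PowerSeries.coeff_one, if_neg hn]
    simp

theorem ab_two {x : ℝ} (hx : 0 ≤ x) : Ab x 2 := by
  have : (2 : PowerSeries ℤ) = 1 + 1 := by norm_num
  rw [this]
  exact (ab_one x).add hx (ab_one x)

/-! ### Comparison with the evaluation in `[0,∞]` -/

theorem term_toReal (z : ℝ≥0∞) {f : PowerSeries ℤ} (hf : ∀ n, 0 ≤ PowerSeries.coeff n f) (n : ℕ) :
    (z ^ n * ((PowerSeries.coeff n f).toNat : ℝ≥0∞)).toReal =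
      ((PowerSeries.coeff n f : ℤ) : ℝ) * z.toReal ^ n := by
  rw [ENNReal.toReal_mul, ENNReal.toReal_pow, ENNReal.toReal_natCast, mul_comm]
  congr 1
  have h : (((PowerSeries.coeff n f).toNat : ℤ) : ℝ) = ((PowerSeries.coeff n f : ℤ) : ℝ) := by
    rw [Int.toNat_of_nonneg (hf n)]
  rw [← h]
  norm_cast

theorem ab_of_evs {z : ℝ≥0∞} {f : PowerSeries ℤ} (hf : ∀ n, 0 ≤ PowerSeries.coeff n f)
    (h : evs z f ≠ ∞) : Ab z.toReal f := by
  have h1 := ENNReal.summable_toReal h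
  refine h1.congr fun n => ?_
  rw [term_toReal z hf n, abs_of_nonneg]
  exact_mod_cast hf n

theorem vr_eq {z : ℝ≥0∞} {f : PowerSeries ℤ} (hf : ∀ n, 0 ≤ PowerSeries.coeff n f)
    (h : evs z f ≠ ∞) : vr z.toReal f = (evs z f).toReal := by
  unfold evs
  rw [ENNReal.tsum_toReal_eq (fun n => ENNReal.ne_top_of_tsum_ne_top h n)]
  exact tsum_congr fun n => (term_toReal z hf n).symm

theorem evs_mono_left {z z' : ℝ≥0∞} (h : z ≤ z') (f : PowerSeries ℤ) : evs z f ≤ evs z' f :=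
  ENNReal.tsum_le_tsum fun n => mul_le_mul' (pow_le_pow_left' h n) le_rfl

theorem coeff_cf0 (F : Ser) (n : ℕ) :
    PowerSeries.coeff n (cf0 F) = (PowerSeries.coeff n F).coeff 0 := by
  rw [cf0, PowerSeries.coeff_mk]

theorem evs_cf0 (z : ℝ≥0∞) (F : Ser) : evs z (cf0 F) = (ev z F).co 0 := by
  show ∑' n : ℕ, z ^ n * ((PowerSeries.coeff n (cf0 F)).toNat : ℝ≥0∞) =
    ∑' n : ℕ, z ^ n * (((PowerSeries.coeff n F).coeff 0).toNat : ℝ≥0∞)
  simp only [coeff_cf0]

theorem co_le_nm (x : Vec) (s : Multiset ℤ) : x.co s ≤ nm x := by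
  have h : x.co s * (1 + (Multiset.card s : ℝ≥0∞)) ≤
      ∑' s, x.co s * (1 + (Multiset.card s : ℝ≥0∞)) := ENNReal.le_tsum s
  refine le_trans ?_ h
  calc x.co s = x.co s * 1 := (mul_one _).symm
    _ ≤ _ := mul_le_mul' le_rfl le_self_add

theorem le_pr (x : Vec) (f : Fn) (s : Multiset ℤ) : x.co s * f s ≤ pr x f := ENNReal.le_tsum s

/-- A coefficient of a product of three vectors. -/
theorem pos_mul3 {x y w : Vec} {f : Fn} {s : Multiset ℤ} (hx : x.co s ≠ 0) (hy : y.co 0 ≠ 0)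
    (hw : w.co 0 ≠ 0) (hf : f s ≠ 0) : pr (x * y * w) f ≠ 0 := by
  rw [pr_mul', pr_mul']
  have h1 : w.co 0 * f s ≤ pr w (fun t => f (s + 0 + t)) := by
    have := le_pr w (fun t => f (s + 0 + t)) 0
    simpa using this
  have h2 : y.co 0 * pr w (fun t => f (s + 0 + t)) ≤
      pr y (fun s' => pr w (fun t => f (s + s' + t))) :=
    le_pr y (fun s' => pr w (fun t => f (s + s' + t))) 0
  have h3 := le_pr x (fun s => pr y (fun s' => pr w (fun t => f (s + s' + t)))) s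
  intro h0
  rw [h0] at h3
  have h4 := le_antisymm h3 bot_le
  rcases mul_eq_zero.1 h4 with h | h
  · exact hx h
  · rw [h] at h2
    rcases mul_eq_zero.1 (le_antisymm h2 bot_le) with h | h
    · exact hy h
    · rw [h] at h1
      rcases mul_eq_zero.1 (le_antisymm h1 bot_le) with h | h
      · exact hw h
      · exact hf h

/-- A point slightly to the right. -/
theorem exists_pt {x₀ x' : ℝ} (h : x₀ < x') {φ : ℝ → ℝ} (hc : Continuous φ) (h1 : φ x₀ < 1) :
    ∃ x₁, x₀ < x₁ ∧ x₁ < x' ∧ φ x₁ < 1 := by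
  have e1 : ∀ᶠ x in nhds x₀, φ x < 1 := hc.continuousAt.eventually (Iio_mem_nhds h1)
  have e2 : ∀ᶠ x in nhds x₀, x < x' := Iio_mem_nhds h
  obtain ⟨ε, hε, he⟩ := Metric.eventually_nhds_iff.1 (e1.and e2)
  have h3 := he (y := x₀ + ε / 2) (by
    rw [Real.dist_eq, add_sub_cancel_left, abs_of_pos (by positivity)]
    linarith)
  exact ⟨x₀ + ε / 2, by linarith, h3.2, h3.1⟩

end ASMM

open ASMM in
theorem specASM (hUVX : SpecUVX) (hZST : SpecZST) (hPSE : SpecPSE) (hPZF : SpecPZF)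
    (hFML : SpecFML) (hANA : SpecANA) (hOMG : SpecOMG) (hPSR : SpecPSR) (hEVA : SpecEVA)
    (hNRM : SpecNRM) : SpecASM := by
  intro p m hp hm
  obtain ⟨Q, E, H, hsys, huniq, hcount⟩ := main p m hp hm
  have hadd := (specLIN p m).1
  -- the equation of `V` in the form of `UVX`
  have hveq : ∀ W : Ser, VEq p m Q E W ↔ W = PowerSeries.X * lam p m (serR Q E) +
      PowerSeries.X * lam p m (serR Q E * rm0 W) := by
    intro W
    unfold VEq
    have e : PowerSeries.X * lam p m ((1 + Q * (1 + E)) * (1 + rm0 W)) =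
        PowerSeries.X * lam p m (serR Q E) + PowerSeries.X * lam p m (serR Q E * rm0 W) := by
      rw [← mul_add, ← hadd]
      congr 2
      unfold serR
      ring
    rw [e]
  obtain ⟨V, hV, hVu, -⟩ := hUVX p m (PowerSeries.X * lam p m (serR Q E)) (serR Q E)
  obtain ⟨U, hUe, -, -⟩ := hUVX p m (1 + E) (serR Q E)
  have d : Dat p m Q E H V U := ⟨hp, hm, hsys, (hveq V).2 hV, hUe⟩
  obtain ⟨⟨n1, -, h1⟩, a2, a3, -, -, a6⟩ := hEVA
  obtain ⟨⟨-, nQ, nE, -, nV, nU, -, -, -, -⟩, -, -, ⟨b0, b1, u0⟩, q1⟩ := hPSR p m Q E H V U d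
  obtain ⟨z, z', hz0, hzz, hz'1, hBz, fV, fU, fE, fQ, hza⟩ := hZST p m Q E H V U d
  obtain ⟨c1, c2, -, c4, -⟩ := hNRM
  obtain ⟨-, -, s3, s4⟩ := hPSE p m hp hm
  have hzt : z ≠ ∞ := ne_top_of_lt hzz
  have hz't : z' ≠ ∞ := ne_top_of_lt hz'1
  have hx0 : 0 < z.toReal := ENNReal.toReal_pos hz0.ne' hzt
  have hx1 : z.toReal < 1 := by
    have := (ENNReal.toReal_lt_toReal hzt ENNReal.one_ne_top).2 (hzz.trans hz'1)
    simpa using this
  have hxx : z.toReal < z'.toReal := (ENNReal.toReal_lt_toReal hzt hz't).2 hzz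
  -- the point `x₁`
  set φ : ℝ → ℝ := fun x => x ^ 2 * (1 + 2 * ∑ r ∈ Finset.Ico 1 m, x ^ cmin p m 0 r) with hφ
  have hφc : Continuous φ := by
    rw [hφ]
    fun_prop
  have hφ1 : φ z.toReal < 1 := by
    have h2 : z.toReal * (1 + ∑ r ∈ Finset.Ico 1 m, z.toReal ^ cmin p m 0 r) ≤ 1 := by
      have h3 := (ENNReal.toReal_le_toReal (ne_top_of_le_ne_top ENNReal.one_ne_top hza)
        ENNReal.one_ne_top).2 hza
      rw [ENNReal.toReal_mul, ENNReal.toReal_add ENNReal.one_ne_top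
        (by
          refine (ENNReal.sum_lt_top.2 fun r _ => ?_).ne
          exact ENNReal.pow_lt_top hzt.lt_top), ENNReal.toReal_sum
        (fun r _ => (ENNReal.pow_lt_top hzt.lt_top).ne), ENNReal.toReal_one] at h3
      simpa only [ENNReal.toReal_pow] using h3
    show z.toReal ^ 2 * (1 + 2 * ∑ r ∈ Finset.Ico 1 m, z.toReal ^ cmin p m 0 r) < 1
    nlinarith [mul_le_mul_of_nonneg_left h2 hx0.le, sq_pos_of_pos (sub_pos.2 hx1)]
  obtain ⟨x₁, hx01, hx1', hφx⟩ := exists_pt hxx hφc hφ1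
  have hx₁0 : 0 < x₁ := hx0.trans hx01
  set z₁ : ℝ≥0∞ := ENNReal.ofReal x₁ with hz₁
  have hz₁r : z₁.toReal = x₁ := ENNReal.toReal_ofReal hx₁0.le
  have hzz₁ : z ≤ z₁ := by
    rw [hz₁, ← ENNReal.ofReal_toReal hzt]
    exact ENNReal.ofReal_le_ofReal hx01.le
  have hz₁z' : z₁ ≤ z' := by
    rw [hz₁, ← ENNReal.ofReal_toReal hz't]
    exact ENNReal.ofReal_le_ofReal hx1'.le
  have hz₁1 : z₁ < 1 := hz₁z'.trans_lt hz'1
  have hPz : Pz p m z₁ 0 ≠ ∞ := by
    refine hPZF p m z₁ hp hm hz₁1 ?_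
    have e : z₁ ^ 2 * (1 + 2 * ∑ r ∈ Finset.Ico 1 m, z₁ ^ cmin p m 0 r) = ENNReal.ofReal (φ x₁) := by
      show _ = ENNReal.ofReal (x₁ ^ 2 * (1 + 2 * ∑ r ∈ Finset.Ico 1 m, x₁ ^ cmin p m 0 r))
      have hs : 0 ≤ ∑ r ∈ Finset.Ico 1 m, x₁ ^ cmin p m 0 r :=
        Finset.sum_nonneg fun r _ => pow_nonneg hx₁0.le _
      have h2 : (0 : ℝ) ≤ 2 := by norm_num
      rw [ENNReal.ofReal_mul (pow_nonneg hx₁0.le 2),
        ENNReal.ofReal_add zero_le_one (mul_nonneg h2 hs),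
        ENNReal.ofReal_mul h2, ENNReal.ofReal_pow hx₁0.le,
        ENNReal.ofReal_sum_of_nonneg (fun r _ => pow_nonneg hx₁0.le _), ENNReal.ofReal_one,
        ENNReal.ofReal_ofNat]
      simp only [ENNReal.ofReal_pow hx₁0.le]
      rfl
    rw [e, ← ENNReal.ofReal_one]
    exact (ENNReal.ofReal_lt_ofReal_iff one_pos).2 hφx
  -- good series
  have gmono : ∀ F : Ser, nm (ev z' F) ≠ ∞ → nm (ev z₁ F) ≠ ∞ := fun F h =>
    ne_top_of_le_ne_top h (c2 _ _ (a6 z₁ z' F hz₁z')).2.2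
  have gmul : ∀ F G : Ser, Nn F → Nn G → nm (ev z₁ F) ≠ ∞ → nm (ev z₁ G) ≠ ∞ →
      nm (ev z₁ (F * G)) ≠ ∞ := by
    intro F G hF hG h2 h3
    rw [(a3 z₁ F G hF hG).2.1]
    exact ne_top_of_le_ne_top (ENNReal.mul_ne_top h2 h3) (c1 _ _).2.2.2.1
  have gV := gmono V fV
  have gU := gmono U fU
  have gE := gmono E fE
  have gQ := gmono Q fQ
  have g1E : nm (ev z₁ (1 + E)) ≠ ∞ := by
    rw [(a3 z₁ _ _ n1 nE).1, (h1 z₁ 0).1, (c1 1 (ev z₁ E)).2.2.2.2.2.2, c4.2.2]
    exact ENNReal.add_ne_top.2 ⟨ENNReal.one_ne_top, gE⟩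
  have nn1E : Nn (1 + E) := (a2 _ _ n1 nE).1
  have nQU2 : Nn (Q * U ^ 2) := by
    rw [pow_two]
    exact (a2 _ _ nQ (a2 _ _ nU nU).2.1).2.1
  have gQU2 : nm (ev z₁ (Q * U ^ 2)) ≠ ∞ := by
    rw [pow_two]
    exact gmul _ _ nQ (a2 _ _ nU nU).2.1 gQ (gmul _ _ nU nU gU gU)
  have nQUV : Nn (Q * U * V) := (a2 _ _ (a2 _ _ nQ nU).2.1 nV).2.1
  have gQUV : nm (ev z₁ (Q * U * V)) ≠ ∞ :=
    gmul _ _ (a2 _ _ nQ nU).2.1 nV (gmul _ _ nQ nU gQ gU) gV
  have nQV2 : Nn (Q * V ^ 2) := by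
    rw [pow_two]
    exact (a2 _ _ nQ (a2 _ _ nV nV).2.1).2.1
  have gQV2 : nm (ev z₁ (Q * V ^ 2)) ≠ ∞ := by
    rw [pow_two]
    exact gmul _ _ nQ (a2 _ _ nV nV).2.1 gQ (gmul _ _ nV nV gV gV)
  -- `Ψ` of good series
  have hpsi : ∀ F : Ser, Nn F → nm (ev z₁ F) ≠ ∞ → evs z₁ (psi p m F) ≠ ∞ := by
    intro F hF hg
    rw [(s3 F hF).2 z₁]
    have hle : pr (ev z₁ F) (Pz p m z₁) ≤ Pz p m z₁ 0 * nm (ev z₁ F) := by
      unfold nm
      rw [← pr_smul']
      refine pr_mono le_rfl fun s => ?_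
      rw [mul_comm, add_comm]
      exact s4 z₁ s hz₁1.le
    exact ne_top_of_le_ne_top (ENNReal.mul_ne_top hPz hg) hle
  have hpsiA : ∀ F : Ser, Nn F → nm (ev z₁ F) ≠ ∞ → Ab x₁ (psi p m F) := by
    intro F hF hg
    have := ab_of_evs (s3 F hF).1 (hpsi F hF hg)
    rwa [hz₁r] at this
  have nB : ∀ n, 0 ≤ PowerSeries.coeff n (cf0 V) := fun n => by
    rw [coeff_cf0]
    exact nV n 0
  have nu' : ∀ n, 0 ≤ PowerSeries.coeff n (cf0 U) := fun n => by
    rw [coeff_cf0]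
    exact nU n 0
  have fB1 : evs z₁ (cf0 V) ≠ ∞ := by
    rw [evs_cf0]
    exact ne_top_of_le_ne_top gV (co_le_nm _ _)
  have fu1 : evs z₁ (cf0 U) ≠ ∞ := by
    rw [evs_cf0]
    exact ne_top_of_le_ne_top gU (co_le_nm _ _)
  have AB : Ab x₁ (cf0 V) := by
    have := ab_of_evs nB fB1
    rwa [hz₁r] at this
  have Au : Ab x₁ (cf0 U) := by
    have := ab_of_evs nu' fu1
    rwa [hz₁r] at this
  have hx₁ := hx₁0.le
  -- the right side
  set B := cf0 V with hBdef
  set u := cf0 U with hudef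
  set M : PowerSeries ℤ := 2 * (1 - B) * psi p m U + 2 * u * psi p m V - (1 - B) * psi p m (1 + E) +
    (1 - B) * psi p m (Q * U ^ 2) + 2 * u * psi p m (Q * U * V) with hM
  set N : PowerSeries ℤ := (1 - B) * M + u ^ 2 * psi p m (Q * V ^ 2) with hN
  have hfml : (1 - B) ^ 2 * psi p m (1 + E + 2 * H + Q * (1 + E + H) ^ 2) = N := by
    rw [hFML p m Q E H V U d, hN, hM]
    ring
  have A1B : Ab x₁ (1 - B) := (ab_one _).sub hx₁ AB
  have AM : Ab x₁ M := by
    rw [hM]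
    refine Ab.add hx₁ (Ab.add hx₁ (Ab.sub hx₁ (Ab.add hx₁ ?_ ?_) ?_) ?_) ?_
    · exact ((ab_two hx₁).mul hx₁ A1B).mul hx₁ (hpsiA U nU gU)
    · exact ((ab_two hx₁).mul hx₁ Au).mul hx₁ (hpsiA V nV gV)
    · exact A1B.mul hx₁ (hpsiA _ nn1E g1E)
    · exact A1B.mul hx₁ (hpsiA _ nQU2 gQU2)
    · exact ((ab_two hx₁).mul hx₁ Au).mul hx₁ (hpsiA _ nQUV gQUV)
  have Au2 : Ab x₁ (u ^ 2) := by
    rw [pow_two]
    exact Au.mul hx₁ Au
  have AW := hpsiA _ nQV2 gQV2
  have AN : Ab x₁ N := by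
    rw [hN]
    exact (A1B.mul hx₁ AM).add hx₁ (Au2.mul hx₁ AW)
  -- values at `z`
  have hx := hx0.le
  have vB : vr z.toReal B = 1 := by
    rw [vr_eq nB (by rw [hBz]; exact ENNReal.one_ne_top), hBz, ENNReal.toReal_one]
  have v1B : vr z.toReal (1 - B) = 0 := by
    rw [vr_sub hx (ab_one _) (AB.mono hx hx01.le), vr_one, vB, sub_self]
  have fu : evs z u ≠ ∞ := ne_top_of_le_ne_top fu1 (evs_mono_left hzz₁ _)
  have vu : 0 < vr z.toReal u := by
    rw [vr_eq nu' fu]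
    refine ENNReal.toReal_pos ?_ fu
    have h : z ^ 0 * ((PowerSeries.coeff 0 u).toNat : ℝ≥0∞) ≤ evs z u := ENNReal.le_tsum 0
    intro h0
    rw [h0, pow_zero, one_mul] at h
    have h2 : ((PowerSeries.coeff 0 u).toNat : ℝ≥0∞) = 0 := le_antisymm h bot_le
    have h3 : (PowerSeries.coeff 0 u).toNat = 0 := by exact_mod_cast h2
    omega
  have vW : 0 < vr z.toReal (psi p m (Q * V ^ 2)) := by
    have fW : evs z (psi p m (Q * V ^ 2)) ≠ ∞ :=
      ne_top_of_le_ne_top (hpsi _ nQV2 gQV2) (evs_mono_left hzz₁ _)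
    rw [vr_eq (s3 _ nQV2).1 fW]
    refine ENNReal.toReal_pos ?_ fW
    rw [(s3 _ nQV2).2 z, show Q * V ^ 2 = Q * V * V by ring, (a3 z _ _ (a2 _ _ nQ nV).2.1 nV).2.1,
      (a3 z _ _ nQ nV).2.1]
    have hco : ∀ (F : Ser) (s : Multiset ℤ), 0 < (PowerSeries.coeff 1 F).coeff s →
        (ev z F).co s ≠ 0 := by
      intro F s hF h0
      have h : z ^ 1 * (((PowerSeries.coeff 1 F).coeff s).toNat : ℝ≥0∞) ≤ (ev z F).co s :=
        ENNReal.le_tsum (f := fun n : ℕ => z ^ n *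
          (((PowerSeries.coeff n F).coeff s).toNat : ℝ≥0∞)) 1
      rw [h0, pow_one] at h
      rcases mul_eq_zero.1 (le_antisymm h bot_le) with h | h
      · exact hz0.ne' h
      · have h3 : ((PowerSeries.coeff 1 F).coeff s).toNat = 0 := by exact_mod_cast h
        omega
    have hV0 : (ev z V).co 0 ≠ 0 := hco V 0 (by
      rw [← coeff_cf0]
      exact lt_of_lt_of_le one_pos b1)
    refine pos_mul3 (hco Q _ q1) hV0 hV0 ?_
    intro h0
    have h : z ^ ic (bfun p {2 - (p : ℤ)}) (efun p m) 0 ≤ Pz p m z {2 - (p : ℤ)} :=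
      ENNReal.le_tsum (f := fun k : ℤ => z ^ ic (bfun p {2 - (p : ℤ)}) (efun p m) k) 0
    rw [h0] at h
    exact (pow_ne_zero _ hz0.ne') (le_antisymm h bot_le)
  have vN : 0 < vr z.toReal N := by
    have m' : ∀ {f : PowerSeries ℤ}, Ab x₁ f → Ab z.toReal f := fun h => h.mono hx hx01.le
    rw [hN, vr_add hx (m' (A1B.mul hx₁ AM)) (m' (Au2.mul hx₁ AW)), vr_mul hx (m' A1B) (m' AM), v1B,
      zero_mul, zero_add, vr_mul hx (m' Au2) (m' AW), pow_two, vr_mul hx (m' Au) (m' Au)]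
    positivity
  -- the analytic lemma
  set b : ℕ → ℝ := fun n => ((PowerSeries.coeff n B : ℤ) : ℝ) with hb
  set S : ℕ → ℝ := fun n => (sphere p (p * m) n : ℝ) with hS
  set Nr : ℕ → ℝ := fun n => ((PowerSeries.coeff n N : ℤ) : ℝ) with hNr
  have hb0 : ∀ n, 0 ≤ b n := fun n => by
    show (0 : ℝ) ≤ ((PowerSeries.coeff n B : ℤ) : ℝ)
    exact_mod_cast nB n
  have hb00 : b 0 = 0 := by
    show ((PowerSeries.coeff 0 B : ℤ) : ℝ) = 0
    exact_mod_cast b0
  have hb1 : 0 < b 1 := by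
    have : (1 : ℤ) ≤ PowerSeries.coeff 1 B := b1
    have h2 : (1 : ℝ) ≤ b 1 := by
      show (1 : ℝ) ≤ ((PowerSeries.coeff 1 B : ℤ) : ℝ)
      exact_mod_cast this
    linarith
  have hsumB : HasSum (fun n => b n * z.toReal ^ n) 1 := by
    have h2 := ((AB.mono hx hx01.le).summable hx).hasSum
    have h3 : ∑' n, ((PowerSeries.coeff n B : ℤ) : ℝ) * z.toReal ^ n = 1 := vB
    rw [h3] at h2
    exact h2
  have hid : (1 - PowerSeries.mk b) ^ 2 * PowerSeries.mk S = PowerSeries.mk Nr := by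
    have h2 := congrArg (PowerSeries.map (Int.castRingHom ℝ)) hfml
    rw [map_mul, map_pow, map_sub, map_one] at h2
    have e1 : PowerSeries.map (Int.castRingHom ℝ) B = PowerSeries.mk b := by
      ext n
      rw [PowerSeries.coeff_map, PowerSeries.coeff_mk]
      rfl
    have e2 : PowerSeries.map (Int.castRingHom ℝ)
        (psi p m (1 + E + 2 * H + Q * (1 + E + H) ^ 2)) = PowerSeries.mk S := by
      ext n
      rw [PowerSeries.coeff_map, PowerSeries.coeff_mk, ← hcount n]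
      simp [hS]
    have e3 : PowerSeries.map (Int.castRingHom ℝ) N = PowerSeries.mk Nr := by
      ext n
      rw [PowerSeries.coeff_map, PowerSeries.coeff_mk]
      rfl
    rw [e1, e2, e3] at h2
    exact h2
  obtain ⟨C, C', r, K, hC, hr1, hr2, hbound⟩ := hANA b S Nr z.toReal x₁ hx0 hx01 hb0 hb00 hb1 hsumB
    (AB.summable hx₁) AN vN hid
  refine ⟨Q, E, H, V, hsys, (hveq V).2 hV, ?_, nB, z.toReal, r, C, C', K, hx0, hx1, hr1, hC, hsumB,
    ?_, ?_, hbound, ?_⟩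
  · intro Q' E' H' V' hs' hv'
    obtain ⟨rfl, rfl, rfl⟩ := huniq Q' E' H' hs'
    exact ⟨rfl, rfl, rfl, hVu V' ((hveq V').1 hv')⟩
  · intro x hxp hxs
    by_contra hne
    rcases lt_or_gt_of_ne hne with hlt | hlt
    · have h2 : (1 : ℝ) < 1 := by
        refine hasSum_lt (fun n => ?_) (?_ : b 1 * x ^ 1 < b 1 * z.toReal ^ 1) hxs hsumB
        · exact mul_le_mul_of_nonneg_left (pow_le_pow_left₀ hxp.le hlt.le n) (hb0 n)
        · rw [pow_one, pow_one]
          exact mul_lt_mul_of_pos_left hlt hb1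
      exact lt_irrefl _ h2
    · have h2 : (1 : ℝ) < 1 := by
        refine hasSum_lt (fun n => ?_) (?_ : b 1 * z.toReal ^ 1 < b 1 * x ^ 1) hsumB hxs
        · exact mul_le_mul_of_nonneg_left (pow_le_pow_left₀ hx hlt.le n) (hb0 n)
        · rw [pow_one, pow_one]
          exact mul_lt_mul_of_pos_left hlt hb1
      exact lt_irrefl _ h2
  · exact (AB.mono (hx0.trans hr1).le hr2.le).summable (hx0.trans hr1).le
  · exact hOMG S z.toReal r C C' K (fun n => Nat.cast_nonneg _) hx0 hx1 hr1 hC hbound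

end Pool.Agent.Lib.MPba1bba.AS
end

section
/-!
# GFI: the generating function is finite near zero
-/
open scoped ENNReal

namespace Pool.Agent.Lib.MPba1bba.AS

open Pool.Agent.Lib.MPba1bba Vec

namespace GFIM

/-- The four letters. -/
def lt4 (p q : ℕ) : Fin 4 → BS p q := ![gA p q, (gA p q)⁻¹, gT p q, (gT p q)⁻¹]

theorem exists_lt4 {p q : ℕ} {x : BS p q}
    (h : x = gA p q ∨ x = (gA p q)⁻¹ ∨ x = gT p q ∨ x = (gT p q)⁻¹) : ∃ i, lt4 p q i = x := by
  rcases h with h | h | h | h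
  · exact ⟨0, h.symm⟩
  · exact ⟨1, h.symm⟩
  · exact ⟨2, h.symm⟩
  · exact ⟨3, h.symm⟩

/-- Spheres grow at most like `4ⁿ`. -/
theorem sphere_le (p q n : ℕ) : sphere p q n ≤ 4 ^ n := by
  have h : ∀ g : {g : BS p q // wlen p q g = n}, ∃ f : Fin n → Fin 4,
      (List.ofFn fun i => lt4 p q (f i)).prod = g.1 := by
    intro g
    obtain ⟨l, hl, hl1, hl2⟩ := (specWRD p q).2.2.2.2.2.2.1 g.1
    rw [g.2] at hl
    subst hl
    have h1 : ∀ i : Fin l.length, ∃ j, lt4 p q j = l.get i := fun i =>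
      exists_lt4 (hl1 _ (List.get_mem l i))
    choose f hf using h1
    refine ⟨f, ?_⟩
    rw [← hl2]
    congr 1
    simp only [hf]
    exact List.ofFn_get l
  choose F hF using h
  have hinj : Function.Injective F := by
    intro g g' hg
    apply Subtype.ext
    rw [← hF g, ← hF g', hg]
  have := Nat.card_le_card_of_injective F hinj
  unfold sphere
  refine this.trans ?_
  rw [Nat.card_eq_fintype_card, Fintype.card_fun, Fintype.card_fin, Fintype.card_fin]

theorem evs_mono {z : ℝ≥0∞} {f g : PowerSeries ℤ}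
    (h : ∀ n, PowerSeries.coeff n f ≤ PowerSeries.coeff n g) : evs z f ≤ evs z g := by
  refine ENNReal.tsum_le_tsum fun n => mul_le_mul' le_rfl ?_
  exact_mod_cast Int.toNat_le_toNat (h n)

end GFIM

open GFIM in
theorem specGFI (hEVA : SpecEVA) (hEVL : SpecEVL) (hPSR : SpecPSR) (hPSE : SpecPSE)
    (hSMC : SpecSMC) : SpecGFI := by
  intro p m Q E H V U d
  obtain ⟨⟨n1, -, h1⟩, a2, a3, -⟩ := hEVA
  obtain ⟨⟨-, nQ, nE, nH, -⟩, ⟨-, -, bE, bH, -⟩, -⟩ := hPSR p m Q E H V U d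
  obtain ⟨p1, -, p3, -⟩ := hPSE p m d.hp d.hm
  obtain ⟨-, -, -, -, -, -, -, s8⟩ := hSMC p m d.hp d.hm
  obtain ⟨-, -, -, -, -, -, -, -, -, e10, e11⟩ := hEVL p m
  have nG : Nn (1 + E + H) := (a2 _ _ (a2 _ _ n1 nE).1 nH).1
  -- the count
  have hcount : ∀ n : ℕ, (sphere p (p * m) n : ℤ) =
      PowerSeries.coeff n (psi p m (1 + E + 2 * H + Q * (1 + E + H) ^ 2)) := by
    obtain ⟨Q', E', H', -, huniq, hc⟩ := main p m d.hp d.hm
    obtain ⟨rfl, rfl, rfl⟩ := huniq Q E H d.sys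
    exact hc
  set z : ℝ≥0∞ := 8⁻¹ with hz
  have hz1 : z < 1 := by
    rw [hz]
    exact ENNReal.inv_lt_one.2 (by norm_num)
  refine ⟨z, ENNReal.inv_ne_zero.2 (by norm_num), hz1, ?_⟩
  -- mass
  have hb : Bd p (ev z (1 + E + H)) := by
    rw [(a3 z _ _ (a2 _ _ n1 nE).1 nH).1, (a3 z _ _ n1 nE).1, (h1 z 0).1]
    refine (e10 _ _ (e10 _ _ ?_ (e11 z E bE).1).2 (e11 z H bH).1).2
    intro s hs
    rw [one_co] at hs
    have : s = 0 := by
      by_contra h
      rw [if_neg h] at hs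
      exact hs rfl
    rw [this]
    intro x hx
    exact absurd hx (Multiset.notMem_zero x)
  have h2 : ms (ev z (1 + E + H)) ≤ pr (ev z (1 + E + H)) (Pz p m z) := by
    refine ENNReal.tsum_le_tsum fun s => ?_
    by_cases hs : (ev z (1 + E + H)).co s = 0
    · rw [hs, zero_mul, zero_mul]
    · refine mul_le_mul' le_rfl ?_
      obtain ⟨k, hk⟩ := s8 s (hb s hs)
      have h3 : z ^ ic (bfun p s) (efun p m) k ≤ Pz p m z s :=
        ENNReal.le_tsum (f := fun k : ℤ => z ^ ic (bfun p s) (efun p m) k) k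
      rw [hk, pow_zero] at h3
      exact h3
  have h3 : evs z (psi p m (1 + E + H)) ≤
      evs z (psi p m (1 + E + 2 * H + Q * (1 + E + H) ^ 2)) := by
    have e : (1 : Ser) + E + 2 * H + Q * (1 + E + H) ^ 2 =
        (1 + E + H) + (H + Q * ((1 + E + H) * (1 + E + H))) := by ring
    have nn : Nn (H + Q * ((1 + E + H) * (1 + E + H))) :=
      (a2 _ _ nH (a2 _ _ nQ (a2 _ _ nG nG).2.1).2.1).1
    rw [e, p1 (1 + E + H) (H + Q * ((1 + E + H) * (1 + E + H)))]
    refine evs_mono fun n => ?_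
    rw [map_add]
    have := (p3 _ nn).1 n
    omega
  have h4 : evs z (psi p m (1 + E + 2 * H + Q * (1 + E + H) ^ 2)) ≤ ∑' n : ℕ, (2⁻¹ : ℝ≥0∞) ^ n := by
    refine ENNReal.tsum_le_tsum fun n => ?_
    rw [← hcount n, Int.toNat_natCast]
    calc z ^ n * (sphere p (p * m) n : ℝ≥0∞) ≤ z ^ n * (4 : ℝ≥0∞) ^ n := by
          refine mul_le_mul' le_rfl ?_
          exact_mod_cast sphere_le p (p * m) n
      _ = (2⁻¹ : ℝ≥0∞) ^ n := by
          rw [← mul_pow]
          congr 1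
          rw [hz, show (8 : ℝ≥0∞) = 2 * 4 by norm_num, ENNReal.mul_inv (by norm_num) (by norm_num),
            mul_assoc, ENNReal.inv_mul_cancel (by norm_num) (by norm_num), mul_one]
  have h5 : ∑' n : ℕ, (2⁻¹ : ℝ≥0∞) ^ n ≠ ∞ := by
    rw [ENNReal.tsum_geometric]
    norm_num
  refine ne_top_of_le_ne_top h5 (h2.trans ?_)
  rw [← (p3 _ nG).2 z]
  exact h3.trans h4

end Pool.Agent.Lib.MPba1bba.AS
end
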