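import Pool.Agent.Lib.MP_ba1bba_al.AS.Spec
import Pool.Agent.Lib.MP_ba1bba_al.SAM

/-!
# MP_ba1bba_al, asymptotics: PSE
-/

set_option autoImplicit false

open scoped ENNReal
open Classical

namespace Pool.Agent.Lib.MPba1bba.AS.PSEM

open Pool.Agent.Lib.MPba1bba Vec Finset

/-- The additive map on coefficients used by `psi`. -/
noncomputable def pc (p m : ℕ) (j : ℕ) (x : SR) : ℤ :=
  x.coeff.sum fun s a => a * (pcoef p m s j : ℤ)

theorem pc_add (p m : ℕ) (j : ℕ) (x y : SR) : pc p m j (x + y) = pc p m j x + pc p m j y := by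
  unfold pc
  rw [AddMonoidAlgebra.coeff_add, Finsupp.sum_add_index']
  · intro s
    exact zero_mul _
  · intro s a b
    exact add_mul _ _ _

theorem pc_zero (p m : ℕ) (j : ℕ) : pc p m j 0 = 0 := by
  unfold pc
  rw [AddMonoidAlgebra.coeff_zero]
  exact Finsupp.sum_zero_index

/-- As an additive homomorphism. -/
noncomputable def pch (p m : ℕ) (j : ℕ) : SR →+ ℤ where
  toFun := pc p m j
  map_zero' := pc_zero p m j
  map_add' := pc_add p m j

theorem coeff_psi (p m : ℕ) (F : Ser) (n : ℕ) :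
    PowerSeries.coeff n (psi p m F) = ∑ ij ∈ Finset.HasAntidiagonal.antidiagonal n,
      pch p m ij.2 (PowerSeries.coeff ij.1 F) := by
  rw [psi, PowerSeries.coeff_mk]
  rfl

theorem antidiag_assoc {M : Type} [AddCommMonoid M] (n : ℕ) (g : ℕ → ℕ → ℕ → M) :
    ∑ x ∈ Finset.HasAntidiagonal.antidiagonal n, ∑ y ∈ Finset.HasAntidiagonal.antidiagonal x.1,
        g y.1 y.2 x.2 =
      ∑ x ∈ Finset.HasAntidiagonal.antidiagonal n, ∑ y ∈ Finset.HasAntidiagonal.antidiagonal x.2,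
        g x.1 y.1 y.2 := by
  rw [Finset.sum_sigma', Finset.sum_sigma']
  refine Finset.sum_nbij' (fun x => ⟨(x.2.1, x.2.2 + x.1.2), (x.2.2, x.1.2)⟩)
    (fun x => ⟨(x.1.1 + x.2.1, x.2.2), (x.1.1, x.2.1)⟩) ?_ ?_ ?_ ?_ ?_
  · rintro ⟨⟨a, b⟩, ⟨c, d⟩⟩ h
    rw [Finset.mem_sigma, Finset.HasAntidiagonal.mem_antidiagonal,
      Finset.HasAntidiagonal.mem_antidiagonal] at h ⊢
    obtain ⟨h1, h2⟩ := h
    dsimp only at h1 h2 ⊢
    constructor <;> omega
  · rintro ⟨⟨a, b⟩, ⟨c, d⟩⟩ h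
    rw [Finset.mem_sigma, Finset.HasAntidiagonal.mem_antidiagonal,
      Finset.HasAntidiagonal.mem_antidiagonal] at h ⊢
    obtain ⟨h1, h2⟩ := h
    dsimp only at h1 h2 ⊢
    constructor <;> omega
  · rintro ⟨⟨a, b⟩, ⟨c, d⟩⟩ h
    simp only [Finset.mem_sigma, Finset.HasAntidiagonal.mem_antidiagonal] at h ⊢
    obtain ⟨h1, h2⟩ := h
    subst h2
    rfl
  · rintro ⟨⟨a, b⟩, ⟨c, d⟩⟩ h
    simp only [Finset.mem_sigma, Finset.HasAntidiagonal.mem_antidiagonal] at h ⊢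
    obtain ⟨h1, h2⟩ := h
    subst h2
    rfl
  · rintro ⟨⟨a, b⟩, ⟨c, d⟩⟩ h
    rfl

theorem psi_add (p m : ℕ) (F G : Ser) : psi p m (F + G) = psi p m F + psi p m G := by
  ext n
  rw [map_add, coeff_psi, coeff_psi, coeff_psi, ← Finset.sum_add_distrib]
  refine Finset.sum_congr rfl fun ij _ => ?_
  rw [map_add, map_add]

theorem pch_int_mul (p m j : ℕ) (c : ℤ) (x : SR) :
    pch p m j ((Int.castRingHom SR) c * x) = c * pch p m j x := by
  have h : (Int.castRingHom SR) c * x = c • x := by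
    rw [zsmul_eq_mul]
    rfl
  rw [h, map_zsmul, smul_eq_mul]

theorem psi_emb (p m : ℕ) (f : PowerSeries ℤ) (F : Ser) :
    psi p m (emb f * F) = f * psi p m F := by
  ext n
  rw [coeff_psi, PowerSeries.coeff_mul]
  have h1 : ∀ x ∈ Finset.HasAntidiagonal.antidiagonal n,
      pch p m x.2 (PowerSeries.coeff x.1 (emb f * F)) =
      ∑ y ∈ Finset.HasAntidiagonal.antidiagonal x.1,
        PowerSeries.coeff y.1 f * pch p m x.2 (PowerSeries.coeff y.2 F) := by
    intro x _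
    rw [PowerSeries.coeff_mul, map_sum]
    refine Finset.sum_congr rfl fun y _ => ?_
    rw [emb, PowerSeries.coeff_map, pch_int_mul]
  rw [Finset.sum_congr rfl h1,
    antidiag_assoc n (fun a b c => PowerSeries.coeff a f * pch p m c (PowerSeries.coeff b F))]
  refine Finset.sum_congr rfl fun x _ => ?_
  rw [coeff_psi, Finset.mul_sum]

/-- cast of a nonnegative integer -/
noncomputable def tn (x : ℤ) : ℝ≥0∞ := (x.toNat : ℝ≥0∞)

theorem tn_add {x y : ℤ} (hx : 0 ≤ x) (hy : 0 ≤ y) : tn (x + y) = tn x + tn y := by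
  unfold tn
  rw [Int.toNat_add hx hy]
  push_cast
  rfl

theorem tn_mul {x y : ℤ} (hx : 0 ≤ x) (hy : 0 ≤ y) : tn (x * y) = tn x * tn y := by
  unfold tn
  rw [Int.toNat_mul hx hy]
  push_cast
  rfl

theorem tn_zero : tn 0 = 0 := by simp [tn]

theorem tn_nat (n : ℕ) : tn (n : ℤ) = n := by simp [tn]

theorem tn_sum {ι : Type} (T : Finset ι) (f : ι → ℤ) (h : ∀ i ∈ T, 0 ≤ f i) :
    tn (∑ i ∈ T, f i) = ∑ i ∈ T, tn (f i) := by
  induction T using Finset.induction_on with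
  | empty => simp [tn_zero]
  | insert a T ha ih =>
    rw [Finset.sum_insert ha, Finset.sum_insert ha,
      tn_add (h a (Finset.mem_insert_self a T))
        (Finset.sum_nonneg fun i hi => h i (Finset.mem_insert_of_mem hi)),
      ih fun i hi => h i (Finset.mem_insert_of_mem hi)]

theorem tsum_antidiag (f : ℕ → ℕ → ℝ≥0∞) :
    ∑' n : ℕ, ∑ ij ∈ Finset.HasAntidiagonal.antidiagonal n, f ij.1 ij.2 = ∑' i, ∑' j, f i j := by
  rw [← ENNReal.tsum_prod]
  have h := (Finset.HasAntidiagonal.sigmaAntidiagonalEquivProd (A := ℕ)).tsum_eq (fun p : ℕ × ℕ => f p.1 p.2)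
  rw [← h, ENNReal.tsum_sigma']
  refine tsum_congr fun n => ?_
  rw [tsum_fintype, ← Finset.sum_coe_sort]
  rfl

theorem pc_nonneg (p m j : ℕ) (x : SR) (hx : ∀ s, 0 ≤ x.coeff s) : 0 ≤ pch p m j x := by
  refine Finset.sum_nonneg fun s _ => ?_
  exact mul_nonneg (hx s) (Int.natCast_nonneg _)

theorem tn_pc (p m j : ℕ) (x : SR) (hx : ∀ s, 0 ≤ x.coeff s) :
    tn (pch p m j x) = ∑' s, tn (x.coeff s) * (pcoef p m s j : ℝ≥0∞) := by
  have h0 : pch p m j x = ∑ s ∈ x.coeff.support, x.coeff s * (pcoef p m s j : ℤ) := rfl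
  rw [h0, tn_sum _ _ fun s _ => mul_nonneg (hx s) (Int.natCast_nonneg _)]
  rw [tsum_eq_sum (s := x.coeff.support)]
  · refine Finset.sum_congr rfl fun s _ => ?_
    rw [tn_mul (hx s) (Int.natCast_nonneg _), tn_nat]
  · intro s hs
    rw [Finsupp.notMem_support_iff.1 hs, tn_zero, zero_mul]

theorem Pz_eq (p m : ℕ) (hp : 2 ≤ p) (hm : 2 ≤ m) (z : ℝ≥0∞) (s : Multiset ℤ) :
    Pz p m z s = ∑' j : ℕ, z ^ j * (pcoef p m s j : ℝ≥0∞) := by
  unfold Pz
  rw [← (Equiv.sigmaFiberEquiv (fun k : ℤ => ic (bfun p s) (efun p m) k)).tsum_eq,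
    ENNReal.tsum_sigma']
  refine tsum_congr fun j => ?_
  have hfin : Finite {k : ℤ // ic (bfun p s) (efun p m) k = j} := by
    have h := specEFF p m (by omega) (by omega) s j
    exact (h.subset fun k hk => le_of_eq hk).to_subtype
  have hft := Fintype.ofFinite {k : ℤ // ic (bfun p s) (efun p m) k = j}
  have h1 : ∀ k : {k : ℤ // ic (bfun p s) (efun p m) k = j},
      z ^ ic (bfun p s) (efun p m)
        ((Equiv.sigmaFiberEquiv (fun k : ℤ => ic (bfun p s) (efun p m) k)) ⟨j, k⟩) = z ^ j := by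
    intro k
    congr 1
    exact k.2
  rw [tsum_congr h1, tsum_fintype, Finset.sum_const, Finset.card_univ, pcoef,
    Nat.card_eq_fintype_card, nsmul_eq_mul, mul_comm]

theorem coeff_nonneg (p m : ℕ) (F : Ser) (hF : Nn F) (n : ℕ) :
    0 ≤ PowerSeries.coeff n (psi p m F) := by
  rw [coeff_psi]
  exact Finset.sum_nonneg fun ij _ => pc_nonneg p m ij.2 _ fun s => hF ij.1 s

theorem evs_psi (p m : ℕ) (hp : 2 ≤ p) (hm : 2 ≤ m) (F : Ser) (hF : Nn F) (z : ℝ≥0∞) :
    evs z (psi p m F) = pr (ev z F) (Pz p m z) := by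
  have h1 : evs z (psi p m F) = ∑' n : ℕ, ∑ ij ∈ Finset.HasAntidiagonal.antidiagonal n,
      ∑' s, (z ^ ij.1 * tn ((PowerSeries.coeff ij.1 F).coeff s)) *
        (z ^ ij.2 * (pcoef p m s ij.2 : ℝ≥0∞)) := by
    unfold evs
    refine tsum_congr fun n => ?_
    have h2 : ((PowerSeries.coeff n (psi p m F)).toNat : ℝ≥0∞) =
        tn (PowerSeries.coeff n (psi p m F)) := rfl
    rw [h2, coeff_psi, tn_sum _ _ fun ij _ => pc_nonneg p m ij.2 _ fun s => hF ij.1 s,
      Finset.mul_sum]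
    refine Finset.sum_congr rfl fun ij hij => ?_
    have hij' := Finset.HasAntidiagonal.mem_antidiagonal.1 hij
    rw [tn_pc p m ij.2 _ fun s => hF ij.1 s, ← ENNReal.tsum_mul_left]
    refine tsum_congr fun s => ?_
    rw [← hij', pow_add]
    ring
  rw [h1, tsum_antidiag fun i j => ∑' s, (z ^ i * tn ((PowerSeries.coeff i F).coeff s)) *
        (z ^ j * (pcoef p m s j : ℝ≥0∞))]
  unfold pr
  have h3 : ∀ i : ℕ, ∑' j : ℕ, ∑' s, (z ^ i * tn ((PowerSeries.coeff i F).coeff s)) *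
        (z ^ j * (pcoef p m s j : ℝ≥0∞)) =
      ∑' s, (z ^ i * tn ((PowerSeries.coeff i F).coeff s)) * Pz p m z s := by
    intro i
    rw [ENNReal.tsum_comm]
    refine tsum_congr fun s => ?_
    rw [ENNReal.tsum_mul_left, Pz_eq p m hp hm]
  rw [tsum_congr h3, ENNReal.tsum_comm]
  refine tsum_congr fun s => ?_
  rw [ENNReal.tsum_mul_right]
  rfl

theorem ic_lower (p m : ℕ) (hp : 1 ≤ p) (hm : 1 ≤ m) (s : Multiset ℤ) (k : ℤ) :
    ∃ a ∈ Finset.range (Multiset.card s + 1),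
      ic (bfun p 0) (efun p m) (k - a) ≤ ic (bfun p s) (efun p m) k := by
  obtain ⟨j, hj⟩ := EFFM.ic_ex (bfun p s) (efun p m) k
  obtain ⟨A, B, hAB, hb⟩ := (specBFN p).1 s j
  obtain ⟨e0, e1, e2, e3, -⟩ := specEFN p m hp hm
  refine ⟨Multiset.card A, ?_, ?_⟩
  · rw [Finset.mem_range, ← hAB, Multiset.card_add]
    omega
  · have h1 : ic (bfun p 0) (efun p m) (k - (Multiset.card A : ℤ)) ≤
        bfun p 0 0 + efun p m (k - (Multiset.card A : ℤ) - 0) := BFNM.ic_le _ _ _ _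
    rw [BFNM.bzero] at h1
    have h2 := e1 (k - j) (j - (Multiset.card A : ℤ))
    have h3 := e3 (j - (Multiset.card A : ℤ))
    have h4 : k - j + (j - (Multiset.card A : ℤ)) = k - (Multiset.card A : ℤ) - 0 := by ring
    rw [h4] at h2
    simp only [Int.natAbs_zero, mul_zero, zero_add] at h1
    omega

theorem Pz_le (p m : ℕ) (hp : 2 ≤ p) (hm : 2 ≤ m) (z : ℝ≥0∞) (s : Multiset ℤ) (hz : z ≤ 1) :
    Pz p m z s ≤ (Multiset.card s + 1) * Pz p m z 0 := by
  have h1 : ∀ k : ℤ, z ^ ic (bfun p s) (efun p m) k ≤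
      ∑ a ∈ Finset.range (Multiset.card s + 1), z ^ ic (bfun p 0) (efun p m) (k - a) := by
    intro k
    obtain ⟨a, ha, h⟩ := ic_lower p m (by omega) (by omega) s k
    refine (pow_le_pow_right_of_le_one' hz h).trans ?_
    exact Finset.single_le_sum (f := fun a : ℕ => z ^ ic (bfun p 0) (efun p m) (k - a))
      (fun _ _ => bot_le) ha
  have h2 : ∀ a : ℕ, ∑' k : ℤ, z ^ ic (bfun p 0) (efun p m) (k - a) = Pz p m z 0 := by
    intro a
    exact (Equiv.subRight (a : ℤ)).tsum_eq fun k => z ^ ic (bfun p 0) (efun p m) k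
  calc Pz p m z s = ∑' k : ℤ, z ^ ic (bfun p s) (efun p m) k := rfl
    _ ≤ ∑' k : ℤ, ∑ a ∈ Finset.range (Multiset.card s + 1),
        z ^ ic (bfun p 0) (efun p m) (k - a) := ENNReal.tsum_le_tsum h1
    _ = ∑ a ∈ Finset.range (Multiset.card s + 1),
        ∑' k : ℤ, z ^ ic (bfun p 0) (efun p m) (k - a) :=
          Summable.tsum_finsetSum fun _ _ => ENNReal.summable
    _ = ∑ a ∈ Finset.range (Multiset.card s + 1), Pz p m z 0 :=
          Finset.sum_congr rfl fun a _ => h2 a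
    _ = (Multiset.card s + 1) * Pz p m z 0 := by
          rw [Finset.sum_const, Finset.card_range, nsmul_eq_mul]
          push_cast
          rfl

end Pool.Agent.Lib.MPba1bba.AS.PSEM

namespace Pool.Agent.Lib.MPba1bba.AS

open PSEM in
theorem specPSE : SpecPSE := fun p m hp hm =>
  ⟨psi_add p m, psi_emb p m, fun F hF => ⟨coeff_nonneg p m F hF, evs_psi p m hp hm F hF⟩,
    fun z s hz => Pz_le p m hp hm z s hz⟩

end Pool.Agent.Lib.MPba1bba.AS
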