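import Pool.Agent.Lib.MP_ba1bba_al.AS.Spec
import Pool.Agent.Lib.MP_ba1bba_al.SAM
import Pool.Agent.Lib.MP_ba1bba_al.AS.PTV
import Pool.Agent.Lib.MP_ba1bba_al.AS.SMC
import Pool.Agent.Lib.MP_ba1bba_al.AS.EVL
import Pool.Agent.Lib.MP_ba1bba_al.AS.GFI
import Pool.Agent.Lib.MP_ba1bba_al.AS.PSE

section
/-!
# MP_ba1bba_al, asymptotics: the point `z*`
-/
open scoped ENNReal Topology
open Classical Filter

namespace Pool.Agent.Lib.MPba1bba.AS

open Pool.Agent.Lib.MPba1bba Vec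

namespace ZSTM

theorem evs_cf0 (z : ℝ≥0∞) (F : Ser) : evs z (cf0 F) = (ev z F).co 0 := by
  unfold evs ev cf0
  simp only [PowerSeries.coeff_mk]

theorem co_le_ms (x : Vec) (s : Multiset ℤ) : x.co s ≤ ms x := by
  unfold ms pr
  simp only [mul_one]
  exact ENNReal.le_tsum s

theorem evs_mono {z w : ℝ≥0∞} (h : z ≤ w) (f : PowerSeries ℤ) : evs z f ≤ evs w f :=
  ENNReal.tsum_le_tsum fun n => mul_le_mul' (pow_le_pow_left' h n) le_rfl

theorem nhdsLT_bot {a : ℝ≥0∞} (h : 0 < a) : (𝓝[<] a).NeBot := nhdsLT_neBot_of_exists_lt ⟨0, h⟩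

theorem nhdsGT_bot {a b : ℝ≥0∞} (h : a < b) : (𝓝[>] a).NeBot := nhdsGT_neBot_of_exists_gt ⟨b, h⟩

/-- finite partial sums are continuous -/
theorem cont_partial (a : ℕ → ℕ) (N : ℕ) :
    Continuous fun z : ℝ≥0∞ => ∑ n ∈ Finset.range N, z ^ n * (a n : ℝ≥0∞) := by
  refine continuous_finsetSum _ fun n _ => ?_
  have : (fun z : ℝ≥0∞ => z ^ n * (a n : ℝ≥0∞)) = fun z => (a n : ℝ≥0∞) * z ^ n := by
    ext z; rw [mul_comm]
  rw [this]
  exact (ENNReal.continuous_const_mul (ENNReal.natCast_ne_top _)).comp (ENNReal.continuous_pow n)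

theorem leftC {z : ℝ≥0∞} (hz : 0 < z) (f : PowerSeries ℤ) (c : ℝ≥0∞)
    (h : ∀ w < z, evs w f ≤ c) : evs z f ≤ c := by
  unfold evs
  refine ENNReal.tsum_le_of_sum_range_le fun N => ?_
  have := nhdsLT_bot hz
  have ht := ((cont_partial (fun n => (PowerSeries.coeff n f).toNat) N).tendsto z).mono_left
    (nhdsWithin_le_nhds (s := Set.Iio z))
  refine le_of_tendsto ht ?_
  filter_upwards [self_mem_nhdsWithin] with w hw
  exact (ENNReal.sum_le_tsum _).trans (h w hw)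

theorem rightC {z z' : ℝ≥0∞} (hzz : z < z') (f : PowerSeries ℤ) (hfin : evs z' f ≠ ∞)
    (h1 : evs z f < 1) : ∃ w, z < w ∧ w ≤ z' ∧ evs w f < 1 := by
  have ht : Tendsto (fun i => ∑' k, z' ^ (k + i) * ((PowerSeries.coeff (k + i) f).toNat : ℝ≥0∞)) atTop (𝓝 0) :=
    ENNReal.tendsto_sum_nat_add (fun n => z' ^ n * ((PowerSeries.coeff n f).toNat : ℝ≥0∞)) hfin
  have hc : 0 < 1 - evs z f := tsub_pos_of_lt h1
  obtain ⟨N, hN⟩ := (ht.eventually_lt_const hc).exists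
  set tl := ∑' k, z' ^ (k + N) * ((PowerSeries.coeff (k + N) f).toNat : ℝ≥0∞) with htl
  have hsplit : ∀ w, evs w f = ∑ n ∈ Finset.range N, w ^ n * ((PowerSeries.coeff n f).toNat : ℝ≥0∞)
      + ∑' k, w ^ (k + N) * ((PowerSeries.coeff (k + N) f).toNat : ℝ≥0∞) := by
    intro w
    exact (Summable.sum_add_tsum_nat_add' (f := fun n => w ^ n * ((PowerSeries.coeff n f).toNat : ℝ≥0∞))
      ENNReal.summable).symm
  have h2 : ∑ n ∈ Finset.range N, z ^ n * ((PowerSeries.coeff n f).toNat : ℝ≥0∞) + tl < 1 := by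
    calc ∑ n ∈ Finset.range N, z ^ n * ((PowerSeries.coeff n f).toNat : ℝ≥0∞) + tl
        ≤ evs z f + tl := by
          gcongr
          exact ENNReal.sum_le_tsum _
      _ < evs z f + (1 - evs z f) := ENNReal.add_lt_add_left (h1.trans ENNReal.one_lt_top).ne hN
      _ = 1 := add_tsub_cancel_of_le h1.le
  have hcont : Tendsto (fun w : ℝ≥0∞ =>
      ∑ n ∈ Finset.range N, w ^ n * ((PowerSeries.coeff n f).toNat : ℝ≥0∞) + tl) (𝓝[>] z)
      (𝓝 (∑ n ∈ Finset.range N, z ^ n * ((PowerSeries.coeff n f).toNat : ℝ≥0∞) + tl)) :=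
    (((cont_partial (fun n => (PowerSeries.coeff n f).toNat) N).add continuous_const).tendsto z).mono_left
      nhdsWithin_le_nhds
  have := nhdsGT_bot hzz
  have hev : ∀ᶠ w in 𝓝[>] z, z < w ∧ w ≤ z' := by
    have : Set.Ioo z z' ∈ 𝓝[>] z := Ioo_mem_nhdsGT hzz
    filter_upwards [this] with w hw
    exact ⟨hw.1, hw.2.le⟩
  obtain ⟨w, hw1, hw2, hw3⟩ := ((hcont.eventually_lt_const h2).and hev).exists
  refine ⟨w, hw2, hw3, lt_of_le_of_lt ?_ hw1⟩
  rw [hsplit w]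
  gcongr
  exact ENNReal.tsum_le_tsum fun k => mul_le_mul' (pow_le_pow_left' hw3 _) le_rfl

/-- polynomials: continuity -/
theorem contP (c : ℕ → ℕ) (m : ℕ) {z : ℝ≥0∞} (hz : z ≠ ∞) :
    Tendsto (fun w : ℝ≥0∞ => w * (1 + ∑ r ∈ Finset.Ico 1 m, w ^ c r)) (𝓝 z)
      (𝓝 (z * (1 + ∑ r ∈ Finset.Ico 1 m, z ^ c r))) := by
  refine ENNReal.Tendsto.mul tendsto_id (Or.inr ?_) ?_ (Or.inr hz)
  · refine ENNReal.add_ne_top.2 ⟨ENNReal.one_ne_top, ENNReal.sum_ne_top.2 fun r _ => ENNReal.pow_ne_top hz⟩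
  · exact tendsto_const_nhds.add (tendsto_finsetSum _ fun r _ => (ENNReal.continuous_pow _).tendsto z)

end ZSTM

open ZSTM in
theorem specZST (hBAS : SpecBAS) (hNOR : SpecNOR) (hGAP : SpecGAP) (hPTE : SpecPTE) (hPTV : SpecPTV)
    (hGFI : SpecGFI) (hGUV : SpecGUV) (hEVA : SpecEVA) (hPSR : SpecPSR) (hNRM : SpecNRM) :
    SpecZST := by
  intro p m Q E H V U hD
  have hp := hD.hp
  have hm := hD.hm
  obtain ⟨hN1, hmono, -, ⟨hms1, -, -⟩, -, -, -⟩ := hNRM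
  have hadd : ∀ x y : Vec, ms (x + y) = ms x + ms y := fun x y => (hN1 x y).2.2.2.2.1
  have hnm : ∀ x : Vec, nm x = ms x + nu x := fun x => (hN1 x x).2.2.1
  have hmsnm : ∀ x : Vec, ms x ≤ nm x := fun x => by rw [hnm]; exact le_self_add
  set G : Ser := 1 + E + H with hG
  have hevmono : ∀ (z z' : ℝ≥0∞) (F : Ser), z ≤ z' → ms (ev z F) ≤ ms (ev z' F) := fun z z' F h =>
    (hmono _ _ (hEVA.2.2.2.2.2 z z' F h)).1
  obtain ⟨⟨hY, hQ, hE, hH, hV, hU, hR, -, -, -⟩, -, -, -, -⟩ := hPSR p m Q E H V U hD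
  set S : Set ℝ≥0∞ := {z | z < 1 ∧ ms (ev z G) ≠ ∞} with hS
  have hSdown : ∀ z w, z ≤ w → w ∈ S → z ∈ S := fun z w h hw =>
    ⟨lt_of_le_of_lt h hw.1, ne_top_of_le_ne_top hw.2 (hevmono z w G h)⟩
  set zs : ℝ≥0∞ := sSup S with hzs
  have hlt : ∀ z < zs, z ∈ S := by
    intro z hz
    obtain ⟨w, hw, hzw⟩ := lt_sSup_iff.1 hz
    exact hSdown z w hzw.le hw
  have hle1 : zs ≤ 1 := sSup_le fun z hz => hz.1.le
  have hpos : 0 < zs := by
    obtain ⟨z, h0, h1, h2⟩ := hGFI p m Q E H V U hD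
    exact lt_of_lt_of_le (pos_iff_ne_zero.2 h0) (le_sSup ⟨h1, h2⟩)
  have hfin : zs ≠ ∞ := ne_top_of_le_ne_top ENNReal.one_ne_top hle1
  have := nhdsLT_bot hpos
  -- the inequality (3) of BAS at `zs`
  have hpoly : zs * (1 + ∑ r ∈ Finset.Ico 1 m, zs ^ cmin p m 0 r) ≤ 1 := by
    refine le_of_tendsto ((contP (fun r => cmin p m 0 r) m hfin).mono_left
      (nhdsWithin_le_nhds (s := Set.Iio zs))) ?_
    filter_upwards [self_mem_nhdsWithin] with w hw
    by_cases hw0 : w = 0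
    · rw [hw0, zero_mul]; exact bot_le
    · exact (hBAS p m Q E H V U hD w hw0 (hlt w hw).1 (hlt w hw).2).2.2.1
  have hzs1 : zs < 1 := by
    refine lt_of_le_of_ne hle1 fun h => ?_
    rw [h] at hpoly
    simp only [one_pow, one_mul, Finset.sum_const, Nat.card_Ico, nsmul_eq_mul, mul_one] at hpoly
    have h2 : (1 + (m - 1) : ℕ) ≤ 1 := by exact_mod_cast hpoly
    omega
  -- constants
  have hz0 : zs / 2 ≠ 0 := (ENNReal.half_pos hpos.ne').ne'
  obtain ⟨K, hK, hK1, hKb⟩ := hNOR p m Q E H V U hD (zs / 2) hz0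
  obtain ⟨ε, δ, hε, hε1, hδ, hδ1, hgap⟩ := hGAP p m Q E H V U hD (zs / 2) hz0
  obtain ⟨l, ρ₀, C, hl, hρ, hC, hptv⟩ := hPTV p m Q E H V U hD ε δ K hε hε1 hδ hδ1 hK1 hK
  obtain ⟨l', hl', hl'fin, hpte⟩ := hPTE p m Q E H V U hD ε δ K ρ₀ hε hε1 hδ hδ1 hK1 hK hρ
  set L := min l l' with hL
  have hL1 : 1 < L := lt_min hl hl'
  have hLfin : L ≠ ∞ := ne_top_of_le_ne_top hl'fin (min_le_right _ _)
  have hzL : zs < L * zs := by
    have := ENNReal.mul_lt_mul_left hpos.ne' hfin hL1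
    simpa using this
  obtain ⟨z', hz'1, hz'2⟩ := exists_between (lt_min hzs1 hzL)
  have hz'lt1 : z' < 1 := lt_of_lt_of_le hz'2 (min_le_left _ _)
  have hz'L : z' < L * zs := lt_of_lt_of_le hz'2 (min_le_right _ _)
  have hL0 : L ≠ 0 := (lt_trans one_pos hL1).ne'
  have hdiv : z' / L < zs := by
    rw [ENNReal.div_lt_iff (Or.inl hL0) (Or.inl hLfin), mul_comm]
    exact hz'L
  have hhalf : zs / 2 < zs := ENNReal.half_lt_self hpos.ne' hfin
  obtain ⟨z, hz1, hz2⟩ := exists_between (max_lt hdiv hhalf)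
  have hz'z : z' ≤ L * z := by
    have h := (lt_of_le_of_lt (le_max_left _ _) hz1).le
    rwa [ENNReal.div_le_iff hL0 hLfin, mul_comm] at h
  have hz0z : zs / 2 ≤ z := (lt_of_le_of_lt (le_max_right _ _) hz1).le
  have hzS := hlt z hz2
  have hzz' : z ≤ z' := (hz2.trans hz'1).le
  obtain ⟨hkE, hkR, hkQ⟩ := hKb z hz0z hzS.1 hzS.2
  obtain ⟨W₁, W₂, hW1, hW2, hT1, hT2⟩ := hgap z hz0z hzS.1 hzS.2
  have hD1 : nm (sb (ev z' E) (ev z E)) ≤ ρ₀ :=
    hpte z z' hzS.1 hzz' (hz'z.trans (mul_le_mul' (min_le_right _ _) le_rfl)) hkE hkQ hkR ⟨W₁, hW1, hT1⟩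
  obtain ⟨bV, bU, bE, bQ⟩ := hptv z z' hzS.1 hzz' (hz'z.trans (mul_le_mul' (min_le_left _ _) le_rfl))
    hz'lt1.le hkE hkQ hkR hD1 ⟨W₂, hW2, hT2⟩
  have fV := ne_top_of_le_ne_top hC bV
  have fU := ne_top_of_le_ne_top hC bU
  obtain ⟨-, -, -, hG4, hG5⟩ := hGUV p m Q E H V U hD
  have hBle : evs zs (cf0 V) ≤ 1 :=
    leftC hpos _ 1 fun w hw => (hG4 w (hlt w hw).1 (hlt w hw).2).le
  have hB1 : evs zs (cf0 V) = 1 := by
    refine le_antisymm hBle (not_lt.1 fun hlt1 => ?_)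
    have hBfin : evs z' (cf0 V) ≠ ∞ := by
      rw [evs_cf0]
      exact ne_top_of_le_ne_top fV ((co_le_ms _ _).trans (hmsnm _))
    obtain ⟨w, hw1, hw2, hw3⟩ := rightC hz'1 _ hBfin hlt1
    have hwl : w < 1 := lt_of_le_of_lt hw2 hz'lt1
    have hwU : ms (ev w U) ≠ ∞ := ne_top_of_le_ne_top fU ((hevmono w z' U hw2).trans (hmsnm _))
    have hwV : ms (ev w V) ≠ ∞ := ne_top_of_le_ne_top fV ((hevmono w z' V hw2).trans (hmsnm _))
    have hwS : w ∈ S := ⟨hwl, hG5 w hwl hw3 hwU hwV⟩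
    exact absurd (le_sSup hwS) (not_le.2 hw1)
  exact ⟨zs, z', hpos, hz'1, hz'lt1, hB1, fV, fU, ne_top_of_le_ne_top hC bE, ne_top_of_le_ne_top hC bQ,
    hpoly⟩

end Pool.Agent.Lib.MPba1bba.AS
end

section
section
/-!
# Module LAY: the layer cake inequality for the sums `AA`
-/
open scoped ENNReal
open Classical

namespace Pool.Agent.Lib.MPba1bba.AS

namespace LAYM

theorem pow_eq {z : ℝ≥0∞} (hz : z < 1) (v : ℕ) :
    z ^ v = (1 - z) * ∑' n : ℕ, if v ≤ n then z ^ n else 0 := by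
  have h1 : (∑' n : ℕ, if v ≤ n then z ^ n else 0) = ∑' k : ℕ, z ^ (k + v) := by
    have hinj : Function.Injective (fun k : ℕ => k + v) := fun a b hab => by
      simpa using hab
    rw [← hinj.tsum_eq (f := fun n : ℕ => if v ≤ n then z ^ n else 0)]
    · refine tsum_congr fun k => ?_
      rw [if_pos (by omega)]
    · intro n hn
      rw [Function.mem_support] at hn
      have : v ≤ n := by
        by_contra hc
        exact hn (if_neg hc)
      exact ⟨n - v, by simp only []; omega⟩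
  rw [h1]
  simp only [pow_add]
  rw [ENNReal.tsum_mul_right, ENNReal.tsum_geometric]
  have h2 : (1 - z) ≠ 0 := (tsub_pos_of_lt hz).ne'
  have h3 : (1 - z) ≠ ∞ := (lt_of_le_of_lt tsub_le_self ENNReal.one_lt_top).ne
  rw [← mul_assoc, ENNReal.mul_inv_cancel h2 h3, one_mul]

theorem ic_le_iff (h G : ℤ → ℕ) (k : ℤ) (n : ℕ) :
    ic h G k ≤ n ↔ ∃ x : ℤ, h x + G (k - x) ≤ n := by
  constructor
  · intro hh
    obtain ⟨x, hx⟩ := ICM.ex h G k
    exact ⟨x, hx ▸ hh⟩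
  · rintro ⟨x, hx⟩
    exact (ICM.le h G k x).trans hx

theorem AA_eq {z : ℝ≥0∞} (hz : z < 1) (M : ℕ) (h G : ℤ → ℕ) :
    AA z M h G = (1 - z) * ∑' n : ℕ, z ^ n *
      (((Finset.range M).filter fun ρ : ℕ => ∃ x : ℤ, h x + G ((ρ : ℤ) - x) ≤ n).card : ℝ≥0∞) := by
  unfold AA
  calc ∑ r ∈ Finset.range M, z ^ ic h G (r : ℤ)
      = ∑ r ∈ Finset.range M, (1 - z) * ∑' n : ℕ, (if ic h G (r : ℤ) ≤ n then z ^ n else 0) :=
        Finset.sum_congr rfl fun r _ => pow_eq hz _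
    _ = (1 - z) * ∑' n : ℕ, ∑ r ∈ Finset.range M, (if ic h G (r : ℤ) ≤ n then z ^ n else 0) := by
        rw [← Finset.mul_sum, Summable.tsum_finsetSum (fun _ _ => ENNReal.summable)]
    _ = _ := by
        congr 1
        refine tsum_congr fun n => ?_
        rw [← Finset.sum_filter, Finset.sum_const, nsmul_eq_mul, mul_comm]
        congr 3
        refine Finset.filter_congr fun r _ => ?_
        exact (ic_le_iff h G (r : ℤ) n)

end LAYM

open LAYM in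
theorem specLAY (hINJ : SpecINJ) : SpecLAY := by
  intro m M h G z hz hm hM hf hq hG
  rw [AA_eq hz]
  have : ∑ r ∈ Finset.range m, AA z M (fun j => h (r + m * j)) G =
      (1 - z) * ∑' n : ℕ, z ^ n * ((∑ r ∈ Finset.range m, ((Finset.range M).filter
        fun ρ : ℕ => ∃ j : ℤ, h (r + m * j) + G ((ρ : ℤ) - j) ≤ n).card : ℕ) : ℝ≥0∞) := by
    simp only [AA_eq hz]
    rw [← Finset.mul_sum, ← Summable.tsum_finsetSum (fun _ _ => ENNReal.summable)]
    congr 1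
    refine tsum_congr fun n => ?_
    rw [← Finset.mul_sum]
    push_cast
    rfl
  rw [this]
  gcongr with n
  exact_mod_cast hINJ m M n h G hm hM hf hq hG

end Pool.Agent.Lib.MPba1bba.AS
end

section
namespace Pool.Agent.Lib.MPba1bba.AS

/-- The asymptotics of the sphere sizes of `B(p, p m)`. -/
theorem mainAS : MainAS := by
  have hEVA := specEVA
  have hEVL := specEVL
  have hSMC := specSMC
  have hKLI := specKLI (specLAY specINJ) specFUT
  have hUVX := specUVX hEVA hEVL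
  have hPSR := specPSR hEVL hUVX hSMC
  have hEQZ := specEQZ hEVA hEVL hPSR
  have hEQT := specEQT hEVL hPSR
  have hNRM := specNRM hSMC hEVL
  have hBAS := specBAS hKLI hSMC hEVL hPSR hEQZ
  have hNOR := specNOR hNRM hBAS hEQT hPSR hEVA hEVL
  have hGAP := specGAP specLYA hKLI hSMC hEVL hPSR hEQZ hBAS hNOR hNRM
  have hPRT := specPRT hSMC
  have hPTE := specPTE specMOB hPRT hNRM hEQZ hEQT hPSR hEVA hEVL
  have hPTV := specPTV specMOB hPRT hNRM hEQZ hEQT hPSR hEVA hEVL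
  have hPSE := specPSE
  have hGFI := specGFI hEVA hEVL hPSR hPSE hSMC
  have hGUV := specGUV hUVX hEVA hPSR
  have hZST := specZST hBAS hNOR hGAP hPTE hPTV hGFI hGUV hEVA hPSR hNRM
  exact specASM hUVX hZST hPSE (specPZF hSMC) (specFML hGUV hPSE) specANA specOMG hPSR hEVA hNRM

end Pool.Agent.Lib.MPba1bba.AS
end
end
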